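import Pool.Agent.DSW.Def

/-!
# Basic facts on `phi`, `Same`, `len`, `Reach` (helper13)

`flipOn a G` unfolds (the `dif_pos` branch, since `S.inv` and closedness hold) to `x ↦ if x ∈ G then a x else x`; for
`x ∉ G` both branches of the definition give `x`.
`phi_insert`: extensionality; `flipOn (G ∪ {x, a x}) z = flipOn G (swap x (a x) z)`: for `z = x` the left side is `a x`
and `a x ∉ G`; for `z = a x` the left side is `a (a x) = x ∉ G`; for other `z`, `z ∈ G ∪ {x, a x} ↔ z ∈ G`.
`reach_all`: strong induction on `(univ \ G).card`; all components have length at most `(univ \ G).card`; if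
`G ≠ univ` choose `x ∉ G` and use `Reach.step` (`G ∪ {x, a x}` is closed).
-/

set_option autoImplicit false

namespace Pool.Agent.DSW

open Equiv Finset

namespace Surf

variable {D V : Type} [Fintype D] [DecidableEq D] [Fintype V] [DecidableEq V] (S : Surf D V)

theorem tau_r (x : D) : S.τ (S.r x) = S.τ x := by
  rw [S.tau]
  exact (Perm.sameCycle_apply_left).2 (Perm.SameCycle.refl _ _)

theorem phi_notMem {G : Finset D} {x : D} (hx : x ∉ G) : S.phi G x = S.r x := by
  unfold phi flipOn
  split_ifs with h
  · rw [Perm.mul_apply]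
    congr 1
    change (if x ∈ G then S.a x else x) = x
    rw [if_neg hx]
  · rfl

theorem phi_mem {G : Finset D} (hG : S.Closed G) {x : D} (hx : x ∈ G) : S.phi G x = S.r (S.a x) := by
  unfold phi flipOn
  rw [dif_pos ⟨S.inv, hG⟩, Perm.mul_apply]
  congr 1
  change (if x ∈ G then S.a x else x) = S.a x
  rw [if_pos hx]

theorem closed_empty : S.Closed ∅ := by
  intro x hx
  simp at hx

theorem closed_union {G K : Finset D} (hG : S.Closed G) (hK : S.Closed K) : S.Closed (G ∪ K) := by
  intro x hx
  rcases mem_union.1 hx with h | h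
  · exact mem_union_left _ (hG x h)
  · exact mem_union_right _ (hK x h)

theorem closed_pair (x : D) : S.Closed {x, S.a x} := by
  intro y hy
  rcases mem_insert.1 hy with h | h
  · rw [h]
    simp
  · rw [mem_singleton.1 h, S.inv]
    simp

theorem a_notMem {G : Finset D} (hG : S.Closed G) {x : D} (hx : x ∉ G) : S.a x ∉ G := by
  intro h
  apply hx
  have := hG _ h
  rwa [S.inv] at this

theorem phi_insert {G : Finset D} (hG : S.Closed G) {x : D} (hx : x ∉ G) :
    S.phi (G ∪ {x, S.a x}) = S.phi G * swap x (S.a x) := by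
  have hax := S.a_notMem hG hx
  have hcl := S.closed_union hG (S.closed_pair x)
  ext1 z
  rw [Perm.mul_apply]
  by_cases hzx : z = x
  · rw [hzx, swap_apply_left, S.phi_notMem hax, S.phi_mem hcl (mem_union_right _ (by simp))]
  · by_cases hza : z = S.a x
    · rw [hza, swap_apply_right, S.phi_notMem hx, S.phi_mem hcl (mem_union_right _ (by simp)), S.inv]
    · rw [swap_apply_of_ne_of_ne hzx hza]
      by_cases hz : z ∈ G
      · rw [S.phi_mem hG hz, S.phi_mem hcl (mem_union_left _ hz)]
      · rw [S.phi_notMem hz, S.phi_notMem]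
        intro h
        rcases mem_union.1 h with h | h
        · exact hz h
        · rcases mem_insert.1 h with h | h
          · exact hzx h
          · exact hza (mem_singleton.1 h)

theorem same_refl (G : Finset D) (x : D) : S.Same G x x := by
  exact Perm.SameCycle.refl _ _

theorem same_symm {G : Finset D} {x y : D} (h : S.Same G x y) : S.Same G y x := by
  exact Perm.SameCycle.symm h

theorem same_trans {G : Finset D} {x y z : D} (h : S.Same G x y) (h' : S.Same G y z) : S.Same G x z := by
  exact Perm.SameCycle.trans h h'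

theorem same_phi (G : Finset D) (x : D) : S.Same G x (S.phi G x) := by
  exact (Perm.sameCycle_apply_right).2 (Perm.SameCycle.refl _ _)

theorem mem_comp {G : Finset D} {x y : D} : y ∈ S.comp G x ↔ y ∉ G ∧ S.Same G x y := by
  classical
  unfold comp
  simp only [mem_filter, mem_univ, true_and]

theorem comp_eq {G : Finset D} {x y : D} (h : S.Same G x y) : S.comp G x = S.comp G y := by
  ext z
  rw [mem_comp, mem_comp]
  exact ⟨fun hz => ⟨hz.1, S.same_trans (S.same_symm h) hz.2⟩, fun hz => ⟨hz.1, S.same_trans h hz.2⟩⟩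

theorem len_eq {G : Finset D} {x y : D} (h : S.Same G x y) : S.len G x = S.len G y := by
  unfold len
  rw [S.comp_eq h]

/-- components of processed polygons stay in the processed part. -/
theorem same_tau {G : Finset D} {P : Finset V} (hG : S.Closed G) (hP : ∀ x ∈ G, S.τ x ∈ P) {x y : D}
    (h : S.Same G x y) (hx : S.τ x ∈ P) : S.τ y ∈ P := by
  obtain ⟨n, hn⟩ := Perm.SameCycle.exists_nat_pow_eq h
  have key : ∀ k : ℕ, S.τ ((S.phi G ^ k) x) ∈ P := by
    intro k
    induction k with
    | zero => simpa using hx
    | succ k ih =>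
      rw [pow_succ', Perm.mul_apply]
      by_cases hz : (S.phi G ^ k) x ∈ G
      · rw [S.phi_mem hG hz, S.tau_r]
        exact hP _ (hG _ hz)
      · rw [S.phi_notMem hz, S.tau_r]
        exact ih
  rw [← hn]
  exact key n

/-- the component of an unprocessed polygon is the polygon. -/
theorem same_out {G : Finset D} {P : Finset V} (hG : S.Closed G) (hP : ∀ x ∈ G, S.τ x ∈ P) {x y : D}
    (hx : S.τ x ∉ P) : S.Same G x y ↔ S.τ y = S.τ x := by
  have hpow : ∀ k : ℕ, (S.phi G ^ k) x = (S.r ^ k) x ∧ S.τ ((S.r ^ k) x) = S.τ x := by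
    intro k
    induction k with
    | zero => simp
    | succ k ih =>
      rw [pow_succ', Perm.mul_apply, pow_succ', Perm.mul_apply, ih.1]
      have hz : (S.r ^ k) x ∉ G := fun h => hx (ih.2 ▸ hP _ h)
      refine ⟨S.phi_notMem hz, ?_⟩
      rw [S.tau_r]
      exact ih.2
  constructor
  · intro h
    obtain ⟨n, hn⟩ := Perm.SameCycle.exists_nat_pow_eq h
    rw [← hn, (hpow n).1]
    exact (hpow n).2
  · intro h
    obtain ⟨n, hn⟩ := Perm.SameCycle.exists_nat_pow_eq ((S.tau x y).1 h.symm)
    refine ⟨(n : ℤ), ?_⟩
    rw [zpow_natCast, (hpow n).1]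
    exact hn

theorem len_out {G : Finset D} {P : Finset V} (hG : S.Closed G) (hP : ∀ x ∈ G, S.τ x ∈ P) {x : D}
    (hx : S.τ x ∉ P) : S.len G x ≤ S.d := by
  refine le_trans (card_le_card ?_) (S.deg (S.τ x))
  intro y hy
  rw [mem_comp] at hy
  rw [mem_filter]
  exact ⟨mem_univ _, (S.same_out hG hP hx).1 hy.2⟩

theorem len_empty (x : D) : S.len ∅ x ≤ S.d := by
  exact S.len_out (P := ∅) S.closed_empty (fun x hx => absurd hx (by simp)) (by simp)

/-- if `c` is constant on glued pairs then it is constant on components. -/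
theorem same_c {G : Finset D} (hG : S.Closed G) {c : V → V} (hc : ∀ x ∈ G, c (S.τ x) = c (S.τ (S.a x)))
    {x y : D} (h : S.Same G x y) : c (S.τ x) = c (S.τ y) := by
  obtain ⟨n, hn⟩ := Perm.SameCycle.exists_nat_pow_eq h
  have key : ∀ k : ℕ, c (S.τ x) = c (S.τ ((S.phi G ^ k) x)) := by
    intro k
    induction k with
    | zero => simp
    | succ k ih =>
      rw [pow_succ', Perm.mul_apply]
      by_cases hz : (S.phi G ^ k) x ∈ G
      · rw [S.phi_mem hG hz, S.tau_r, ← hc _ hz]
        exact ih
      · rw [S.phi_notMem hz, S.tau_r]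
        exact ih
  rw [← hn]
  exact key n

variable {S} in
theorem Reach.len_le {L : ℕ} {G G' : Finset D} (h : S.Reach L G G') : ∀ z, S.len G z ≤ L := by
  cases h with
  | refl _ h => exact h
  | step _ _ _ _ h _ => exact h

variable {S} in
theorem Reach.trans {L : ℕ} {G G' G'' : Finset D} (h : S.Reach L G G') (h' : S.Reach L G' G'') :
    S.Reach L G G'' := by
  induction h with
  | refl _ _ => exact h'
  | step G x G' hx hl _ ih => exact Reach.step G x G'' hx hl (ih h')

variable {S} in
theorem Reach.mono {L L' : ℕ} (hL : L ≤ L') {G G' : Finset D} (h : S.Reach L G G') : S.Reach L' G G' := by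
  induction h with
  | refl G h => exact Reach.refl G fun z => (h z).trans hL
  | step G x G' hx hl _ ih => exact Reach.step G x G' hx (fun z => (hl z).trans hL) ih

theorem reach_all {L : ℕ} {G : Finset D} (hG : S.Closed G) (h : (univ \ G).card ≤ L) :
    S.Reach L G univ := by
  have hlen : ∀ K : Finset D, ∀ z, S.len K z ≤ (univ \ K).card := by
    intro K z
    refine card_le_card ?_
    intro y hy
    rw [mem_comp] at hy
    rw [mem_sdiff]
    exact ⟨mem_univ _, hy.1⟩
  induction hn : (univ \ G).card using Nat.strong_induction_on generalizing G with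
  | _ n ih =>
    by_cases hu : G = univ
    · rw [hu] at h ⊢
      exact Reach.refl _ fun z => (hlen _ z).trans h
    · obtain ⟨x, hx⟩ : ∃ x, x ∉ G := by
        by_contra hcon
        push Not at hcon
        exact hu (eq_univ_iff_forall.2 hcon)
      have hlt : (univ \ (G ∪ {x, S.a x})).card < (univ \ G).card := by
        apply card_lt_card
        refine ⟨?_, ?_⟩
        · intro y hy
          rw [mem_sdiff] at hy ⊢
          exact ⟨hy.1, fun h' => hy.2 (mem_union_left _ h')⟩
        · intro hsub
          have := hsub (mem_sdiff.2 ⟨mem_univ x, hx⟩)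
          rw [mem_sdiff] at this
          exact this.2 (mem_union_right _ (by simp))
      refine Reach.step G x univ hx (fun z => (hlen _ z).trans h) ?_
      exact ih _ (hn ▸ hlt) (S.closed_union hG (S.closed_pair x)) (le_trans hlt.le h) rfl

end Surf

end Pool.Agent.DSW
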