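import Pool.Agent.DSW.Walks

/-!
# Breadth first trees (helper13)

`exists_tree`: choose `root ∈ C` and for `v ∈ C` let `dep v` be the least `k` with `Walk C k root v`
(`dep v ≤ h`).  For `v ∈ C`, `v ≠ root`: `k = dep v > 0` (a walk of length `0` ends at its start); by `walk_last` there is `w` with
`Walk C (k-1) root w` and `Adj w v ∨ w = v`; `w = v` would contradict minimality, so `Adj w v`, put `par v = w`
(`adj_symm`).  `dep w ≤ k - 1`, and `dep v ≤ dep w + 1` (`walk_trans`, `walk_one`), so `dep v = dep w + 1`.
`par root = root`, `dep root = 0` (`walk_refl`).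
-/

set_option autoImplicit false

namespace Pool.Agent.DSW

open Equiv Finset

namespace Surf

variable {D V : Type} [Fintype D] [DecidableEq D] [Fintype V] [DecidableEq V] {S : Surf D V}

theorem exists_tree {C : Finset V} {h : ℕ} (hne : C.Nonempty)
    (hw : ∀ u ∈ C, ∀ v ∈ C, S.Walk C h u v) : Nonempty (S.Tree C h) := by
  classical
  obtain ⟨r, hr⟩ := hne
  let dp : V → ℕ := fun v => sInf {k | S.Walk C k r v}
  have hdw : ∀ v ∈ C, S.Walk C (dp v) r v := fun v hv =>
    Nat.sInf_mem (s := {k | S.Walk C k r v}) ⟨h, hw r hr v hv⟩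
  have hdl : ∀ v k, S.Walk C k r v → dp v ≤ k := fun v k hk => Nat.sInf_le hk
  have hd0 : dp r = 0 := Nat.le_zero.mp (hdl r 0 (walk_refl hr 0))
  have key : ∀ v, ∃ w, v ∈ C → v ≠ r → w ∈ C ∧ S.Adj v w ∧ dp v = dp w + 1 := by
    intro v
    by_cases hv : v ∈ C ∧ v ≠ r
    · obtain ⟨hvC, hvr⟩ := hv
      have h1 := hdw v hvC
      have hpos : dp v ≠ 0 := by
        intro h0
        rw [h0] at h1
        obtain ⟨p, p0, pk, _, _⟩ := h1
        exact hvr (pk.symm.trans p0)
      obtain ⟨k, hk⟩ := Nat.exists_eq_succ_of_ne_zero hpos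
      rw [hk] at h1
      obtain ⟨w, hw1, hw2⟩ := walk_last h1
      have hwC := walk_right hw1
      have hadj : S.Adj w v := by
        rcases hw2 with h2 | h2
        · exact h2
        · exfalso
          subst h2
          have := hdl w k hw1
          omega
      refine ⟨w, fun _ _ => ⟨hwC, adj_symm hadj, ?_⟩⟩
      have h3 := hdl w k hw1
      have h4 := hdl v (dp w + 1) (walk_trans (hdw w hwC) (walk_one hwC hvC (Or.inl hadj)))
      omega
    · exact ⟨v, fun h1 h2 => absurd ⟨h1, h2⟩ hv⟩
  choose f hf using key
  refine ⟨{ root := r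
            par := fun v => if v = r then r else f v
            dep := dp
            root_mem := hr
            dep_root := hd0
            par_root := by simp
            par_mem := ?_
            dep_par := ?_
            dep_le := fun v hv => hdl v h (hw r hr v hv)
            adj := ?_ }⟩
  · intro v hv
    by_cases h1 : v = r
    · simp [h1, hr]
    · simp only [h1, if_false]
      exact (hf v hv h1).1
  · intro v hv h1
    simp only [h1, if_false]
    exact (hf v hv h1).2.2
  · intro v hv h1
    simp only [h1, if_false]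
    exact (hf v hv h1).2.1

end Surf

end Pool.Agent.DSW
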