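import Pool.Agent.DSW.Basic

/-!
# Gluing a set of pairs inside a coarser partition (helper13)

`coarse_same`: it suffices to show `R x (phi (G ∪ K) x)` for all `x` (then induction over powers, `R` is an
equivalence relation).  If `x ∉ G ∪ K`: `phi (G ∪ K) x = r x = phi G x`.  If `x ∈ G`: `phi (G ∪ K) x = r (a x) = phi G x`.
If `x ∈ K`: `phi (G ∪ K) x = r (a x) = phi G (a x)` (`a x ∈ K`, so `a x ∉ G`), and `R x (a x)`, `R (a x) (phi G (a x))`.

`coarse_reach`: induction on `K.card` (for all `G`).  If `K = ∅` use `Reach.refl`.  Otherwise choose `x ∈ K`; the pair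
`{x, a x} ⊆ K`; `Reach.step` with `x`; apply the induction hypothesis to `G ∪ {x, a x}` and `K \ {x, a x}` (closed,
disjoint; `coarse_same` with `K := {x, a x}` gives the hypothesis on `R`; the sets `{y ∉ G, R x y}` become smaller).  At
every moment components are contained in classes of `R`, so all lengths are at most `L`.

`touch_same`: apply `coarse_same` to `R x y := S.Same G x y ∨ (Z x ∧ Z y)` (an equivalence relation since `Z` is
saturated).
`touch_same'`: let `¬ Z x` and `S.Same G x y`, so `y = (phi G)^i x`; all points `u` of this component satisfy `¬ Z u`,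
hence `u ∉ K`, hence `phi (G ∪ K) u = phi G u`; induction.  (`K ⊆ Z` by `hK`.)
`touch_comp`: from the two previous statements and `K ⊆ Z`.
`touch_len`: the component of `x` in `G ∪ K` is contained in `{y ∉ G ∪ K | Z y}` by `touch_same`.
`touch_reach`: `coarse_reach` with the same `R`: the class of `x` is the component of `x` if `¬ Z x` and `{y | Z y}`
(which contains the component of `x`) if `Z x`.
-/

set_option autoImplicit false

namespace Pool.Agent.DSW

open Equiv Finset

namespace Surf

variable {D V : Type} [Fintype D] [DecidableEq D] [Fintype V] [DecidableEq V] (S : Surf D V)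

theorem coarse_same {G K : Finset D} (hG : S.Closed G) (hK : S.Closed K) (hd : Disjoint G K)
    {R : D → D → Prop} (hR : Equivalence R) (h1 : ∀ x y, S.Same G x y → R x y)
    (h2 : ∀ x ∈ K, R x (S.a x)) : ∀ x y, S.Same (G ∪ K) x y → R x y := by
  have hcl := S.closed_union hG hK
  have step : ∀ z, R z (S.phi (G ∪ K) z) := by
    intro z
    by_cases hz : z ∈ G
    · rw [S.phi_mem hcl (mem_union_left _ hz), ← S.phi_mem hG hz]
      exact h1 _ _ (S.same_phi G z)
    · by_cases hzK : z ∈ K
      · have haK : S.a z ∈ K := hK z hzK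
        have haG : S.a z ∉ G := fun h => (disjoint_left.1 hd) h haK
        rw [S.phi_mem hcl (mem_union_right _ hzK), ← S.phi_notMem haG]
        exact hR.trans (h2 z hzK) (h1 _ _ (S.same_phi G _))
      · have hzU : z ∉ G ∪ K := by simp [hz, hzK]
        rw [S.phi_notMem hzU, ← S.phi_notMem hz]
        exact h1 _ _ (S.same_phi G z)
  intro x y h
  obtain ⟨n, hn⟩ := Perm.SameCycle.exists_nat_pow_eq h
  rw [← hn]
  clear hn
  induction n with
  | zero => simpa using hR.refl x
  | succ k ih =>
    rw [pow_succ', Perm.mul_apply]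
    exact hR.trans ih (step _)

open Classical in
theorem coarse_reach {L : ℕ} {G K : Finset D} (hG : S.Closed G) (hK : S.Closed K) (hd : Disjoint G K)
    {R : D → D → Prop} (hR : Equivalence R) (h1 : ∀ x y, S.Same G x y → R x y)
    (h2 : ∀ x ∈ K, R x (S.a x)) (hc : ∀ x, (univ.filter fun y => y ∉ G ∧ R x y).card ≤ L) :
    S.Reach L G (G ∪ K) := by
  induction hn : K.card using Nat.strong_induction_on generalizing G K with
  | _ n ih =>
    have hlen : ∀ z, S.len G z ≤ L := by
      intro z
      refine (card_le_card ?_).trans (hc z)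
      intro y hy
      rw [mem_comp] at hy
      rw [mem_filter]
      exact ⟨mem_univ _, hy.1, h1 _ _ hy.2⟩
    rcases K.eq_empty_or_nonempty with hK0 | ⟨x, hx⟩
    · rw [hK0, union_empty]
      exact Reach.refl G hlen
    · have haK : S.a x ∈ K := hK x hx
      have hxG : x ∉ G := fun h => (disjoint_left.1 hd) h hx
      have haG : S.a x ∉ G := fun h => (disjoint_left.1 hd) h haK
      have hsub : ({x, S.a x} : Finset D) ⊆ K := by
        intro y hy
        rcases mem_insert.1 hy with h | h
        · rw [h]; exact hx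
        · rw [mem_singleton.1 h]; exact haK
      have hdG : Disjoint G {x, S.a x} := by
        rw [disjoint_left]
        intro y hy hy'
        exact (disjoint_left.1 hd) hy (hsub hy')
      refine Reach.step G x _ hxG hlen ?_
      have e1 : G ∪ K = (G ∪ {x, S.a x}) ∪ (K \ {x, S.a x}) := by
        rw [union_assoc, union_sdiff_of_subset hsub]
      rw [e1]
      have hclK : S.Closed (K \ {x, S.a x}) := by
        intro y hy
        rw [mem_sdiff] at hy ⊢
        refine ⟨hK y hy.1, ?_⟩
        intro hy'
        apply hy.2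
        have := S.closed_pair x _ hy'
        rwa [S.inv] at this
      have hdd : Disjoint (G ∪ {x, S.a x}) (K \ {x, S.a x}) := by
        rw [disjoint_left]
        intro y hy hy'
        rw [mem_sdiff] at hy'
        rcases mem_union.1 hy with h | h
        · exact (disjoint_left.1 hd) h hy'.1
        · exact hy'.2 h
      have hcard : (K \ {x, S.a x}).card < n := by
        rw [← hn]
        apply card_lt_card
        refine ⟨sdiff_subset, ?_⟩
        intro hs
        have := hs hx
        rw [mem_sdiff] at this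
        exact this.2 (by simp)
      have hh2 : ∀ y ∈ ({x, S.a x} : Finset D), R y (S.a y) := fun y hy => h2 y (hsub hy)
      refine ih _ hcard (S.closed_union hG (S.closed_pair x)) hclK hdd
        (S.coarse_same hG (S.closed_pair x) hdG hR h1 hh2)
        (fun y hy => h2 y (mem_sdiff.1 hy).1) ?_ rfl
      intro z
      refine (card_le_card ?_).trans (hc z)
      intro y hy
      rw [mem_filter] at hy ⊢
      exact ⟨mem_univ _, fun h => hy.2.1 (mem_union_left _ h), hy.2.2⟩

theorem touch_same {G K : Finset D} (hG : S.Closed G) (hK : S.Closed K) (hd : Disjoint G K)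
    {Z : D → Prop} (hZ : ∀ x y, S.Same G x y → Z x → Z y) (hKZ : ∀ x ∈ K, Z x) :
    ∀ x y, S.Same (G ∪ K) x y → S.Same G x y ∨ (Z x ∧ Z y) := by
  have hZs : ∀ x y, S.Same G x y → (Z x ↔ Z y) := fun x y h => ⟨hZ x y h, hZ y x (S.same_symm h)⟩
  have hR : Equivalence (fun x y => S.Same G x y ∨ (Z x ∧ Z y)) := by
    refine ⟨fun x => Or.inl (S.same_refl G x), ?_, ?_⟩
    · intro x y h
      rcases h with h | h
      · exact Or.inl (S.same_symm h)
      · exact Or.inr ⟨h.2, h.1⟩
    · intro x y z h h'
      rcases h with h | h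
      · rcases h' with h' | h'
        · exact Or.inl (S.same_trans h h')
        · exact Or.inr ⟨(hZs x y h).2 h'.1, h'.2⟩
      · rcases h' with h' | h'
        · exact Or.inr ⟨h.1, (hZs y z h').1 h.2⟩
        · exact Or.inr ⟨h.1, h'.2⟩
  exact S.coarse_same hG hK hd hR (fun x y h => Or.inl h)
    (fun x hx => Or.inr ⟨hKZ x hx, hKZ _ (hK x hx)⟩)

theorem touch_same' {G K : Finset D} (hG : S.Closed G) (hK : S.Closed K) (hd : Disjoint G K)
    {Z : D → Prop} (hZ : ∀ x y, S.Same G x y → Z x → Z y) (hKZ : ∀ x ∈ K, Z x) {x y : D}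
    (h : S.Same G x y) (hx : ¬ Z x) : S.Same (G ∪ K) x y := by
  have hcl := S.closed_union hG hK
  obtain ⟨n, hn⟩ := Perm.SameCycle.exists_nat_pow_eq h
  have key : ∀ k : ℕ, (S.phi (G ∪ K) ^ k) x = (S.phi G ^ k) x ∧ ¬ Z ((S.phi G ^ k) x) := by
    intro k
    induction k with
    | zero => simpa using hx
    | succ k ih =>
      rw [pow_succ', Perm.mul_apply, pow_succ', Perm.mul_apply, ih.1]
      have hu := ih.2
      have hK' : (S.phi G ^ k) x ∉ K := fun h => hu (hKZ _ h)
      refine ⟨?_, fun hz => hu (hZ _ _ (S.same_symm (S.same_phi G _)) hz)⟩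
      by_cases hz : (S.phi G ^ k) x ∈ G
      · rw [S.phi_mem hcl (mem_union_left _ hz), S.phi_mem hG hz]
      · rw [S.phi_notMem hz, S.phi_notMem]
        intro h
        rcases mem_union.1 h with h | h
        · exact hz h
        · exact hK' h
  refine ⟨(n : ℤ), ?_⟩
  rw [zpow_natCast, (key n).1]
  exact hn

theorem touch_comp {G K : Finset D} (hG : S.Closed G) (hK : S.Closed K) (hd : Disjoint G K)
    {Z : D → Prop} (hZ : ∀ x y, S.Same G x y → Z x → Z y) (hKZ : ∀ x ∈ K, Z x) {x : D}
    (hx : ¬ Z x) : S.comp (G ∪ K) x = S.comp G x := by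
  ext y
  rw [mem_comp, mem_comp]
  constructor
  · rintro ⟨h, h'⟩
    refine ⟨fun hy => h (mem_union_left _ hy), ?_⟩
    rcases S.touch_same hG hK hd hZ hKZ x y h' with h1 | h1
    · exact h1
    · exact absurd h1.1 hx
  · rintro ⟨h, h'⟩
    refine ⟨?_, S.touch_same' hG hK hd hZ hKZ h' hx⟩
    intro hy
    rcases mem_union.1 hy with hy | hy
    · exact h hy
    · exact hx (hZ y x (S.same_symm h') (hKZ y hy))

open Classical in
theorem touch_len {G K : Finset D} (hG : S.Closed G) (hK : S.Closed K) (hd : Disjoint G K)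
    {Z : D → Prop} (hZ : ∀ x y, S.Same G x y → Z x → Z y) (hKZ : ∀ x ∈ K, Z x) {x : D} (hx : Z x) :
    S.len (G ∪ K) x ≤ (univ.filter fun y => y ∉ G ∪ K ∧ Z y).card := by
  refine card_le_card ?_
  intro y hy
  rw [mem_comp] at hy
  rw [mem_filter]
  refine ⟨mem_univ _, hy.1, ?_⟩
  rcases S.touch_same hG hK hd hZ hKZ x y hy.2 with h1 | h1
  · exact hZ x y h1 hx
  · exact h1.2

open Classical in
theorem touch_reach {L : ℕ} {G K : Finset D} (hG : S.Closed G) (hK : S.Closed K) (hd : Disjoint G K)
    {Z : D → Prop} (hZ : ∀ x y, S.Same G x y → Z x → Z y) (hKZ : ∀ x ∈ K, Z x)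
    (hL : ∀ z, S.len G z ≤ L) (hZL : (univ.filter fun y => y ∉ G ∧ Z y).card ≤ L) :
    S.Reach L G (G ∪ K) := by
  have hZs : ∀ x y, S.Same G x y → (Z x ↔ Z y) := fun x y h => ⟨hZ x y h, hZ y x (S.same_symm h)⟩
  have hR : Equivalence (fun x y => S.Same G x y ∨ (Z x ∧ Z y)) := by
    refine ⟨fun x => Or.inl (S.same_refl G x), ?_, ?_⟩
    · intro x y h
      rcases h with h | h
      · exact Or.inl (S.same_symm h)
      · exact Or.inr ⟨h.2, h.1⟩
    · intro x y z h h'
      rcases h with h | h
      · rcases h' with h' | h'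
        · exact Or.inl (S.same_trans h h')
        · exact Or.inr ⟨(hZs x y h).2 h'.1, h'.2⟩
      · rcases h' with h' | h'
        · exact Or.inr ⟨h.1, (hZs y z h').1 h.2⟩
        · exact Or.inr ⟨h.1, h'.2⟩
  refine S.coarse_reach hG hK hd hR (fun x y h => Or.inl h)
    (fun x hx => Or.inr ⟨hKZ x hx, hKZ _ (hK x hx)⟩) ?_
  intro x
  by_cases hx : Z x
  · refine (card_le_card ?_).trans hZL
    intro y hy
    simp only [mem_filter, mem_univ, true_and] at hy ⊢
    refine ⟨hy.1, ?_⟩
    rcases hy.2 with h | h
    · exact hZ x y h hx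
    · exact h.2
  · refine (card_le_card ?_).trans (hL x)
    intro y hy
    simp only [mem_filter, mem_univ, true_and] at hy
    rw [mem_comp]
    refine ⟨hy.1, ?_⟩
    rcases hy.2 with h | h
    · exact h
    · exact absurd h.1 hx

end Surf

end Pool.Agent.DSW
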