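import Pool.Agent.DSW.LinkOne

/-!
# Links between all pairs of pieces (helper13)

Let `k1 = 2 t0 + 2 h`, `X = |tops|^2 (k1 + 1)`.  Claim, by induction on the finite set `Π` of pairs `(i, j)` with
`i, j ∈ tops`, `i ≠ j`: there is `N : V × V → Finset V` such that `N π` is a link (`IsLink aa k1 ∅`) for `π ∈ Π`, `N π = ∅` for
`π ∉ Π`, and the `N π` are pairwise disjoint.  Step: let `W` be the union of all `N π`, `π ∈ Π`, `|W| ≤ |Π| (k1 + 1) ≤ X` since
`Π ∪ {π0}` is a subset of the pairs of tops.  `link_one` with this `W` applies (the hypotheses are monotone in `|W|`) and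
gives `M` disjoint from `W`; put `N π0 = M` (`IsLink aa k1 W` implies `IsLink aa k1 ∅`).
Finally `|⋃ N π| ≤ |tops|^2 (k1 + 1)`.
-/

set_option autoImplicit false

namespace Pool.Agent.DSW

open Equiv Finset

namespace Surf

namespace Tree

variable {D V : Type} [Fintype D] [DecidableEq D] [Fintype V] [DecidableEq V] {S : Surf D V}
variable {C : Finset V} {h : ℕ} {T : Tree S C h} {b aa t0 : ℕ} (P : T.Pieces b)

private theorem link_pairs {φ : ℝ} (hφ : 0 ≤ φ) (hC : S.Expands φ C) (hd : 0 < S.d) (haa : aa ≤ b) (hac : aa ≤ C.card)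
    (ht : (C.card : ℝ) < (1 + φ / (2 * S.d)) ^ t0)
    (hpos : (T.heavy aa).card + P.tops.card ^ 2 * (2 * t0 + 2 * h + 1) * aa < b)
    (hcond : 2 * (S.d : ℝ) * ((T.heavy aa).card + P.tops.card ^ 2 * (2 * t0 + 2 * h + 1)) ≤
      φ * (b - (T.heavy aa).card - P.tops.card ^ 2 * (2 * t0 + 2 * h + 1) * aa))
    (Q : Finset (V × V)) :
    (∀ π ∈ Q, π.1 ∈ P.tops ∧ π.2 ∈ P.tops ∧ π.1 ≠ π.2) →
    ∃ N : V × V → Finset V,
      (∀ π ∈ Q, P.IsLink aa (2 * t0 + 2 * h) ∅ π.1 π.2 (N π)) ∧
      (∀ π, π ∉ Q → N π = ∅) ∧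
      (∀ π π', π ≠ π' → Disjoint (N π) (N π')) := by
  classical
  induction Q using Finset.induction_on with
  | empty =>
    intro _
    exact ⟨fun _ => ∅, by simp, by simp, by simp⟩
  | insert π0 Q hπ0 ih =>
    intro hQ
    obtain ⟨N, h1, h2, h3⟩ := ih (fun π hπ => hQ π (Finset.mem_insert_of_mem hπ))
    have hcardQ : Q.card ≤ P.tops.card ^ 2 := by
      have hs : Q ⊆ P.tops ×ˢ P.tops := by
        intro π hπ
        have := hQ π (Finset.mem_insert_of_mem hπ)
        exact Finset.mem_product.2 ⟨this.1, this.2.1⟩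
      have := Finset.card_le_card hs
      rw [Finset.card_product] at this
      rw [pow_two]
      exact this
    set W : Finset V := Q.biUnion N with hW
    have hWc : W.card ≤ P.tops.card ^ 2 * (2 * t0 + 2 * h + 1) := by
      refine le_trans (Finset.card_biUnion_le_card_mul _ _ (2 * t0 + 2 * h + 1) ?_) ?_
      · intro π hπ
        exact (h1 π hπ).card
      · exact Nat.mul_le_mul_right _ hcardQ
    have hWC : W ⊆ C := by
      rw [hW]
      refine Finset.biUnion_subset.2 ?_
      intro π hπ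
      exact (h1 π hπ).sub
    have hWl : Disjoint W (T.heavy aa) := by
      rw [hW, Finset.disjoint_biUnion_left]
      intro π hπ
      exact (h1 π hπ).light
    have hπ := hQ π0 (Finset.mem_insert_self _ _)
    have hWcr : ((W.card : ℕ) : ℝ) ≤ (P.tops.card : ℝ) ^ 2 * (2 * t0 + 2 * h + 1) := by exact_mod_cast hWc
    have hpos' : (T.heavy aa).card + W.card * aa < b := by
      have := Nat.mul_le_mul_right aa hWc
      omega
    have hcond' : 2 * (S.d : ℝ) * ((T.heavy aa).card + W.card) ≤
        φ * (b - (T.heavy aa).card - W.card * aa) := by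
      refine le_trans (le_trans ?_ hcond) ?_
      · refine mul_le_mul_of_nonneg_left ?_ (by positivity)
        linarith
      · refine mul_le_mul_of_nonneg_left ?_ hφ
        have := mul_le_mul_of_nonneg_right hWcr (Nat.cast_nonneg (α := ℝ) aa)
        linarith
    obtain ⟨M, hM⟩ := link_one P hφ hC hd haa hac ht hWC hWl hpos' hcond' hπ.1 hπ.2.1
    refine ⟨fun π => if π = π0 then M else N π, ?_, ?_, ?_⟩
    · intro π hπ'
      by_cases hpp : π = π0
      · subst hpp
        simp only [if_true]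
        exact ⟨hM.sub, hM.light, Finset.disjoint_empty_right _, hM.card, hM.walk⟩
      · simp only [hpp, if_false]
        exact h1 π (Finset.mem_of_mem_insert_of_ne hπ' hpp)
    · intro π hπ'
      have hpp : π ≠ π0 := fun h => hπ' (h ▸ Finset.mem_insert_self _ _)
      simp only [hpp, if_false]
      exact h2 π (fun h => hπ' (Finset.mem_insert_of_mem h))
    · have key : ∀ π, π ≠ π0 → Disjoint M (N π) := by
        intro π hpp
        by_cases hq : π ∈ Q
        · exact hM.disj.mono_right (Finset.subset_biUnion_of_mem N hq)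
        · rw [h2 π hq]
          exact Finset.disjoint_empty_right _
      intro π π' hne
      by_cases hp : π = π0
      · have hp' : π' ≠ π0 := fun h => hne (hp.trans h.symm)
        simp only [hp, hp', if_true, if_false]
        exact key π' hp'
      · by_cases hp' : π' = π0
        · simp only [hp, hp', if_true, if_false]
          exact (key π hp).symm
        · simp only [hp, hp', if_false]
          exact h3 π π' hne

theorem link_all {φ : ℝ} (hφ : 0 ≤ φ) (hC : S.Expands φ C) (hd : 0 < S.d) (haa : aa ≤ b) (hac : aa ≤ C.card)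
    (ht : (C.card : ℝ) < (1 + φ / (2 * S.d)) ^ t0)
    (hpos : (T.heavy aa).card + P.tops.card ^ 2 * (2 * t0 + 2 * h + 1) * aa < b)
    (hcond : 2 * (S.d : ℝ) * ((T.heavy aa).card + P.tops.card ^ 2 * (2 * t0 + 2 * h + 1)) ≤
      φ * (b - (T.heavy aa).card - P.tops.card ^ 2 * (2 * t0 + 2 * h + 1) * aa)) :
    ∃ N : V → V → Finset V,
      (∀ i ∈ P.tops, ∀ j ∈ P.tops, i ≠ j → P.IsLink aa (2 * t0 + 2 * h) ∅ i j (N i j)) ∧
      (∀ i j, ¬ (i ∈ P.tops ∧ j ∈ P.tops ∧ i ≠ j) → N i j = ∅) ∧
      (∀ i j i' j', (i, j) ≠ (i', j') → Disjoint (N i j) (N i' j')) ∧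
      (univ.biUnion fun π : V × V => N π.1 π.2).card ≤ P.tops.card ^ 2 * (2 * t0 + 2 * h + 1) := by
  classical
  set Q : Finset (V × V) := (P.tops ×ˢ P.tops).filter fun π => π.1 ≠ π.2 with hQ
  have hmem : ∀ π : V × V, π ∈ Q ↔ (π.1 ∈ P.tops ∧ π.2 ∈ P.tops ∧ π.1 ≠ π.2) := by
    intro π
    rw [hQ, Finset.mem_filter, Finset.mem_product]
    tauto
  obtain ⟨N, h1, h2, h3⟩ := link_pairs P hφ hC hd haa hac ht hpos hcond Q (fun π hπ => (hmem π).1 hπ)
  refine ⟨fun i j => N (i, j), ?_, ?_, ?_, ?_⟩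
  · intro i hi j hj hij
    exact h1 (i, j) ((hmem (i, j)).2 ⟨hi, hj, hij⟩)
  · intro i j hij
    exact h2 (i, j) (fun h => hij ((hmem (i, j)).1 h))
  · intro i j i' j' hne
    exact h3 _ _ hne
  · have hcardQ : Q.card ≤ P.tops.card ^ 2 := by
      have := Finset.card_le_card (Finset.filter_subset (fun π : V × V => π.1 ≠ π.2) (P.tops ×ˢ P.tops))
      rw [Finset.card_product] at this
      rw [pow_two]
      exact this
    have hsub : (univ.biUnion fun π : V × V => N (π.1, π.2)) ⊆ Q.biUnion N := by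
      intro x hx
      obtain ⟨π, _, hx⟩ := Finset.mem_biUnion.1 hx
      by_cases hq : π ∈ Q
      · exact Finset.mem_biUnion.2 ⟨π, hq, hx⟩
      · rw [show ((π.1, π.2) : V × V) = π from rfl, h2 π hq] at hx
        exact absurd hx (Finset.notMem_empty _)
    refine le_trans (Finset.card_le_card hsub) ?_
    refine le_trans (Finset.card_biUnion_le_card_mul _ _ (2 * t0 + 2 * h + 1) ?_) ?_
    · intro π hπ
      exact (h1 π hπ).card
    · exact Nat.mul_le_mul_right _ hcardQ

end Tree

end Surf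

end Pool.Agent.DSW
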