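import Pool.Agent.DSW.Light

/-!
# The local network (helper13)

Given the tree `T`, the pieces `P` and the links `N i j` let
`ter = {u ∈ C | u light, u ∉ L0, lroot z ≠ lroot u for all z in all N i j}`, `hub = P.top`, `dep = T.dep`,
`cor i j = hv aa i ∪ hv aa j ∪ N i j`.

`cor_sub`, `ter_sub`: clear.  `hub_mem`: `P.top_mem`.  `cor_ter`: `hv ⊆ heavy`; `z ∈ N i j` has `lroot z = lroot z`, so `z ∉ ter`.
`cor_disj`: `hv aa i`, `hv aa i'` are disjoint for `i ≠ i'` (`top`); `hv` and `N` are disjoint (`N` is empty or consists of light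
vertices); `N i j` and `N i' j'` are disjoint as `i' ≠ i`.
`hub_card`: if `v ∈ ter` has `top v = i` then the set is contained in the piece of `v`, at most `d b` elements (`P.high`).
`path`: let `u, u' ∈ ter`, `i = top u ≠ i' = top u'`; both are tops.  Put
`S u = {w ∈ C \ heavy | lroot w = lroot u ∧ (w = u ∨ dep w < dep u)}`.  Walks:
`u → lroot u` in `S u` (`light_walk`, `h` steps); `lroot u → i` in `insert (lroot u) (hv aa i)` (`lightRoot_of_light`, `root_walk`, `h+1`);
the link `N i i'` has a walk `p → q` with `k1` steps, `LightRoot aa i p`, `LightRoot aa i' q`; `i → p` in `insert p (hv aa i)`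
(`root_walk`, `walk_symm`, `h+1`), `q → i'` in `insert q (hv aa i')`; `i' → lroot u'` and `lroot u' → u'`.
Together a walk with `6 h + 4 + k1` steps in `A = S u ∪ hv aa i ∪ N i i' ∪ hv aa i' ∪ S u'`
(`lroot u ∈ S u`, `p, q ∈ N i i'`: `walk_left`, `walk_right`).  `walk_simple`.  Every vertex `w` of `S u` is in `ter`: light;
`w ∉ L0` and `top w = top u` by `same_lroot`; `lroot z ≠ lroot u = lroot w` for all `z` in the links.  The other vertices are in
`cor i i'`.
-/

set_option autoImplicit false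

namespace Pool.Agent.DSW

open Equiv Finset

namespace Surf

namespace Tree

variable {D V : Type} [Fintype D] [DecidableEq D] [Fintype V] [DecidableEq V] {S : Surf D V}
variable {C : Finset V} {h : ℕ} {T : Tree S C h} {b aa k1 : ℕ} (P : T.Pieces b)

open Classical in
theorem loc_net (haa : aa ≤ b) (hac : aa ≤ C.card) (N : V → V → Finset V)
    (hN1 : ∀ i ∈ P.tops, ∀ j ∈ P.tops, i ≠ j → P.IsLink aa k1 ∅ i j (N i j))
    (hN0 : ∀ i j, ¬ (i ∈ P.tops ∧ j ∈ P.tops ∧ i ≠ j) → N i j = ∅)
    (hN2 : ∀ i j i' j', (i, j) ≠ (i', j') → Disjoint (N i j) (N i' j')) :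
    ∃ L : S.LNet C (6 * h + k1 + 5) (S.d * b),
      L.ter = ((C \ T.heavy aa) \ P.L0).filter fun u => ∀ i j, ∀ z ∈ N i j, T.lroot aa z ≠ T.lroot aa u := by
  have hNsub : ∀ i j, N i j ⊆ C := by
    intro i j
    by_cases hij : i ∈ P.tops ∧ j ∈ P.tops ∧ i ≠ j
    · exact (hN1 i hij.1 j hij.2.1 hij.2.2).sub
    · rw [hN0 i j hij]
      exact Finset.empty_subset _
  have hNlight : ∀ i j, Disjoint (N i j) (T.heavy aa) := by
    intro i j
    by_cases hij : i ∈ P.tops ∧ j ∈ P.tops ∧ i ≠ j
    · exact (hN1 i hij.1 j hij.2.1 hij.2.2).light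
    · rw [hN0 i j hij]
      exact Finset.disjoint_empty_left _
  have hhv : ∀ i v, v ∈ P.hv aa i ↔ v ∈ T.heavy aa ∧ v ∉ P.L0 ∧ P.top v = i := by
    intro i v
    simp only [Pieces.hv, Finset.mem_filter]
  have hter : ∀ u, u ∈ (((C \ T.heavy aa) \ P.L0).filter fun u => ∀ i j, ∀ z ∈ N i j, T.lroot aa z ≠ T.lroot aa u) ↔
      ((u ∈ C ∧ u ∉ T.heavy aa) ∧ u ∉ P.L0) ∧ ∀ i j, ∀ z ∈ N i j, T.lroot aa z ≠ T.lroot aa u := by
    intro u
    simp only [Finset.mem_filter, Finset.mem_sdiff]
  refine ⟨{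
    ter := ((C \ T.heavy aa) \ P.L0).filter fun u => ∀ i j, ∀ z ∈ N i j, T.lroot aa z ≠ T.lroot aa u
    hub := P.top
    dep := T.dep
    cor := fun i j => P.hv aa i ∪ P.hv aa j ∪ N i j
    ter_sub := ?_
    hub_mem := ?_
    cor_sub := ?_
    cor_ter := ?_
    cor_disj := ?_
    hub_card := ?_
    path := ?_ }, rfl⟩
  · intro u hu
    exact ((hter u).1 hu).1.1.1
  · intro u hu
    have h1 := (hter u).1 hu
    exact (P.top_mem u h1.1.1.1 h1.1.2).1
  · intro i j v hv
    simp only [Finset.mem_union, hhv] at hv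
    rcases hv with (hv | hv) | hv
    · exact T.heavy_sub aa hv.1
    · exact T.heavy_sub aa hv.1
    · exact hNsub i j hv
  · intro i j
    rw [Finset.disjoint_left]
    intro v hv hv2
    have h1 := (hter v).1 hv2
    simp only [Finset.mem_union, hhv] at hv
    rcases hv with (hv | hv) | hv
    · exact h1.1.1.2 hv.1
    · exact h1.1.1.2 hv.1
    · exact h1.2 i j v hv rfl
  · intro i j i' j' h1 h2 h3 h4
    rw [Finset.disjoint_left]
    intro v hv hv'
    simp only [Finset.mem_union, hhv] at hv hv'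
    rcases hv with (hv | hv) | hv <;> rcases hv' with (hv' | hv') | hv'
    · exact h1 (hv'.2.2.symm.trans hv.2.2)
    · exact h3 (hv'.2.2.symm.trans hv.2.2)
    · exact (Finset.disjoint_left.1 (hNlight i' j')) hv' hv.1
    · exact h2 (hv'.2.2.symm.trans hv.2.2)
    · exact h4 (hv'.2.2.symm.trans hv.2.2)
    · exact (Finset.disjoint_left.1 (hNlight i' j')) hv' hv.1
    · exact (Finset.disjoint_left.1 (hNlight i j)) hv hv'.1
    · exact (Finset.disjoint_left.1 (hNlight i j)) hv hv'.1
    · refine (Finset.disjoint_left.1 (hN2 i j i' j' ?_)) hv hv'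
      intro he
      exact h1 (Prod.ext_iff.1 he).1.symm
  · intro i
    by_cases hne : ((((C \ T.heavy aa) \ P.L0).filter fun u => ∀ i j, ∀ z ∈ N i j, T.lroot aa z ≠ T.lroot aa u).filter
        fun v => P.top v = i).Nonempty
    · obtain ⟨v, hv⟩ := hne
      rw [Finset.mem_filter, hter] at hv
      refine le_trans (Finset.card_le_card ?_) (P.high v hv.1.1.1.1 hv.1.1.2)
      intro w hw
      rw [Finset.mem_filter, hter] at hw
      rw [Finset.mem_filter, Finset.mem_sdiff]
      exact ⟨⟨hw.1.1.1.1, hw.1.1.2⟩, hw.2.trans hv.2.symm⟩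
    · rw [Finset.not_nonempty_iff_eq_empty] at hne
      rw [hne]
      simp
  · intro u u' hu hu' hne
    have h1 := (hter u).1 hu
    have h2 := (hter u').1 hu'
    have hi : P.top u ∈ P.tops := top_mem_tops P h1.1.1.1 h1.1.2
    have hi' : P.top u' ∈ P.tops := top_mem_tops P h2.1.1.1 h2.1.2
    have hlink := hN1 _ hi _ hi' hne
    obtain ⟨p, q, hp, hq, hpq⟩ := hlink.walk
    -- the walks
    have w1 := light_walk (T := T) (aa := aa) hac h1.1.1.1 h1.1.1.2
    have w2 := root_walk P haa (lightRoot_of_light P haa hac h1.1.1.1 h1.1.2 h1.1.1.2)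
    have w3 := walk_symm (root_walk P haa hp)
    have w5 := root_walk P haa hq
    have w6 := walk_symm (root_walk P haa (lightRoot_of_light P haa hac h2.1.1.1 h2.1.2 h2.1.1.2))
    have w7 := walk_symm (light_walk (T := T) (aa := aa) hac h2.1.1.1 h2.1.1.2)
    have m1 := walk_right w1
    have m7 := walk_left w7
    have mp := walk_left hpq
    have mq := walk_right hpq
    set Su : Finset V := (C \ T.heavy aa).filter fun w => T.lroot aa w = T.lroot aa u ∧ (w = u ∨ T.dep w < T.dep u) with hSu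
    set Su' : Finset V := (C \ T.heavy aa).filter fun w => T.lroot aa w = T.lroot aa u' ∧ (w = u' ∨ T.dep w < T.dep u')
      with hSu'
    set A : Finset V := Su ∪ P.hv aa (P.top u) ∪ N (P.top u) (P.top u') ∪ P.hv aa (P.top u') ∪ Su' with hA
    have a1 : Su ⊆ A := by
      intro x hx
      simp only [hA, Finset.mem_union]
      tauto
    have a2 : P.hv aa (P.top u) ⊆ A := by
      intro x hx
      simp only [hA, Finset.mem_union]
      tauto
    have a3 : N (P.top u) (P.top u') ⊆ A := by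
      intro x hx
      simp only [hA, Finset.mem_union]
      tauto
    have a4 : P.hv aa (P.top u') ⊆ A := by
      intro x hx
      simp only [hA, Finset.mem_union]
      tauto
    have a5 : Su' ⊆ A := by
      intro x hx
      simp only [hA, Finset.mem_union]
      tauto
    have W1 := walk_sub w1 a1
    have W2 := walk_sub w2 (Finset.insert_subset (a1 m1) a2)
    have W3 := walk_sub w3 (Finset.insert_subset (a3 mp) a2)
    have W4 := walk_sub hpq a3
    have W5 := walk_sub w5 (Finset.insert_subset (a3 mq) a4)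
    have W6 := walk_sub w6 (Finset.insert_subset (a5 m7) a4)
    have W7 := walk_sub w7 a5
    have WW := walk_trans (walk_trans (walk_trans (walk_trans (walk_trans (walk_trans W1 W2) W3) W4) W5) W6) W7
    obtain ⟨k, v, hk, hv0, hvk, hadj, hinj, hvA⟩ := walk_simple WW
    have key : ∀ x ∈ ((C \ T.heavy aa) \ P.L0).filter (fun u => ∀ i j, ∀ z ∈ N i j, T.lroot aa z ≠ T.lroot aa u),
        ∀ w ∈ (C \ T.heavy aa).filter (fun w => T.lroot aa w = T.lroot aa x ∧ (w = x ∨ T.dep w < T.dep x)),
        w ∈ C ∧ w ∈ (((C \ T.heavy aa) \ P.L0).filter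
          fun u => ∀ i j, ∀ z ∈ N i j, T.lroot aa z ≠ T.lroot aa u) ∧ P.top w = P.top x ∧
          (w = x ∨ T.dep w < T.dep x) := by
      intro x hx w hw
      have hx' := (hter x).1 hx
      rw [Finset.mem_filter, Finset.mem_sdiff] at hw
      have hs := same_lroot P haa hac hx'.1.1.1 hx'.1.2 hx'.1.1.2 hw.1.1 hw.1.2 hw.2.1
      refine ⟨hw.1.1, (hter w).2 ⟨⟨hw.1, hs.1⟩, ?_⟩, hs.2, hw.2.2⟩
      intro i j z hz
      rw [hw.2.1]
      exact hx'.2 i j z hz
    refine ⟨k, v, by omega, hv0, hvk, hadj, hinj, ?_⟩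
    intro l hl
    have hmem := hvA l hl
    simp only [hA, Finset.mem_union] at hmem
    rcases hmem with (((hm | hm) | hm) | hm) | hm
    · have := key u hu (v l) hm
      exact ⟨this.1, Or.inr (Or.inl ⟨this.2.1, this.2.2.1, this.2.2.2⟩)⟩
    · refine ⟨T.heavy_sub aa ((hhv _ _).1 hm).1, Or.inl ?_⟩
      simp only [Finset.mem_union]
      exact Or.inl (Or.inl hm)
    · refine ⟨hNsub _ _ hm, Or.inl ?_⟩
      simp only [Finset.mem_union]
      exact Or.inr hm
    · refine ⟨T.heavy_sub aa ((hhv _ _).1 hm).1, Or.inl ?_⟩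
      simp only [Finset.mem_union]
      exact Or.inl (Or.inr hm)
    · have := key u' hu' (v l) hm
      exact ⟨this.1, Or.inr (Or.inr ⟨this.2.1, this.2.2.1, this.2.2.2⟩)⟩

end Tree

end Surf

end Pool.Agent.DSW
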