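import Pool.Agent.DSW.Heavy

/-!
# Cutting a tree into pieces (helper13)

Claim (strong induction on `|A|`): let `A ⊆ C` be closed under `par`.  There are `L0 ⊆ A` and `top : V → V` such that:
`|L0| < b`; `L0` is closed under `par`; for `v ∈ A \ L0`: `top v ∈ A \ L0`, `top (top v) = top v`; if `v ≠ top v` then
`par v ∈ A \ L0` and `top (par v) = top v`; some iterate `par^[j] v` is `top v`; and
`b ≤ #{w ∈ A \ L0 | top w = top v} ≤ d b`.
For `v ∈ A` let `sub v = {u ∈ A | ∃ j, par^[j] u = v}`.
If `|A| < b`: `L0 = A`.
Otherwise `A ≠ ∅`, so `root ∈ A` (closed under `par`, `iter_root`), `sub root = A` has at least `b` elements.  Choose `v0 ∈ A`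
with `|sub v0| ≥ b` and `dep v0` maximal.
`|sub v0| ≤ d b`: let `u ∈ sub v0`, `u ≠ v0`, `j` minimal with `par^[j] u = v0`, `j ≥ 1`, `w = par^[j-1] u ∈ A`, `par w = v0`, `w ≠ v0`,
hence `w ≠ root` (`par root = root` would give `v0 = root = w`), `u ∈ sub w`, `dep w = dep v0 + 1`, so `|sub w| ≤ b - 1`.  There
are at most `d` such `w` (`children_card`).  So `|sub v0| ≤ 1 + d (b - 1) ≤ d b` as `d ≥ 1`, `b ≥ 1`.
`A' = A \ sub v0` is closed under `par` (`par u ∈ sub v0` implies `u ∈ sub v0`), and smaller.  Take `L0`, `top'` for `A'`; put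
`top u = v0` for `u ∈ sub v0` and `top u = top' u` otherwise.  For `u ∈ sub v0`, `u ≠ v0`: `par u ∈ sub v0`.  As `top'` maps `A' \ L0`
to itself and `v0 ∉ A'`, the pieces of `top` are `sub v0` and the pieces of `top'`.
Apply the claim with `A = C` (`par_mem`).

`children_card`: the children `w ≠ root`, `par w = v` satisfy `Adj w v` (`Tree.adj`): choose `y` with `τ y = v`, `τ (a y) = w`
(`y = a x`); different `w` give different `y`, and at most `d` sides have `τ y = v` (`S.deg`).
-/

set_option autoImplicit false

namespace Pool.Agent.DSW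

open Equiv Finset

namespace Surf

namespace Tree

variable {D V : Type} [Fintype D] [DecidableEq D] [Fintype V] [DecidableEq V] {S : Surf D V}
variable {C : Finset V} {h : ℕ}

theorem children_card (T : Tree S C h) (v : V) :
    (C.filter fun w => w ≠ T.root ∧ T.par w = v).card ≤ S.d := by
  classical
  have key : (C.filter fun w => w ≠ T.root ∧ T.par w = v) ⊆
      (univ.filter fun y => S.τ y = v).image fun y => S.τ (S.a y) := by
    intro w hw
    rw [mem_filter] at hw
    obtain ⟨x, hx1, hx2⟩ := T.adj w hw.1 hw.2.1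
    rw [mem_image]
    refine ⟨S.a x, ?_, ?_⟩
    · rw [mem_filter]
      exact ⟨mem_univ _, by rw [hx2, hw.2.2]⟩
    · rw [S.inv, hx1]
  exact (card_le_card key).trans (card_image_le.trans (S.deg v))

private theorem pieces_aux (T : Tree S C h) {b : ℕ} (hb : 0 < b) (hd : 0 < S.d) (A : Finset V) :
    A ⊆ C → (∀ v ∈ A, T.par v ∈ A) → ∃ (L0 : Finset V) (top : V → V), L0 ⊆ A ∧ L0.card < b ∧
      (∀ v ∈ L0, T.par v ∈ L0) ∧ (∀ v ∈ A, v ∉ L0 → top v ∈ A ∧ top v ∉ L0) ∧
      (∀ v ∈ A, v ∉ L0 → top (top v) = top v) ∧
      (∀ v ∈ A, v ∉ L0 → v ≠ top v → T.par v ∉ L0 ∧ top (T.par v) = top v) ∧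
      (∀ v ∈ A, v ∉ L0 → ∃ j : ℕ, T.par^[j] v = top v) ∧
      (∀ v ∈ A, v ∉ L0 → b ≤ ((A \ L0).filter fun w => top w = top v).card) ∧
      (∀ v ∈ A, v ∉ L0 → ((A \ L0).filter fun w => top w = top v).card ≤ S.d * b) := by
  classical
  induction A using Finset.strongInduction with
  | H A ih =>
    intro hAC hcl
    by_cases hsmall : A.card < b
    · refine ⟨A, id, Subset.rfl, hsmall, hcl, ?_, ?_, ?_, ?_, ?_, ?_⟩ <;>
        · intro v hv hv'
          exact absurd hv hv'
    · push Not at hsmall
      have hit : ∀ v ∈ A, ∀ j : ℕ, T.par^[j] v ∈ A := by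
        intro v hv j
        induction j with
        | zero => exact hv
        | succ j ihj =>
          rw [Function.iterate_succ_apply']
          exact hcl _ ihj
      obtain ⟨v1, hv1⟩ : A.Nonempty := by
        rw [← card_pos]
        omega
      have hroot : T.root ∈ A := by
        rw [← T.iter_root (hAC hv1) le_rfl]
        exact hit v1 hv1 _
      let sub : V → Finset V := fun v => A.filter fun u => ∃ j : ℕ, T.par^[j] u = v
      have hsub : ∀ v u, u ∈ sub v ↔ u ∈ A ∧ ∃ j : ℕ, T.par^[j] u = v := by
        intro v u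
        exact mem_filter
      have hsr : sub T.root = A := by
        ext u
        rw [hsub]
        constructor
        · intro hu
          exact hu.1
        · intro hu
          exact ⟨hu, _, T.iter_root (hAC hu) le_rfl⟩
      have hne : (A.filter fun v => b ≤ (sub v).card).Nonempty := by
        refine ⟨T.root, ?_⟩
        rw [mem_filter, hsr]
        exact ⟨hroot, hsmall⟩
      obtain ⟨v0, hv0, hmax⟩ := exists_max_image _ T.dep hne
      rw [mem_filter] at hv0
      obtain ⟨hv0A, hv0b⟩ := hv0
      have hself : v0 ∈ sub v0 := (hsub v0 v0).2 ⟨hv0A, 0, rfl⟩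
      -- the upper bound
      let K : Finset V := C.filter fun w => w ≠ T.root ∧ T.par w = v0
      have hK : K.card ≤ S.d := T.children_card v0
      have hcard : ∀ w ∈ K, (sub w).card ≤ b - 1 := by
        intro w hw
        rw [mem_filter] at hw
        obtain ⟨hwC, hwr, hwp⟩ := hw
        by_contra hlt
        push Not at hlt
        have hwb : b ≤ (sub w).card := by omega
        have hwA : w ∈ A := by
          have : (sub w).Nonempty := by
            rw [← card_pos]
            omega
          obtain ⟨u, hu⟩ := this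
          rw [hsub] at hu
          obtain ⟨hu, j, hj⟩ := hu
          rw [← hj]
          exact hit u hu j
        have h1 := hmax w (mem_filter.2 ⟨hwA, hwb⟩)
        have h2 := T.dep_par w hwC hwr
        rw [hwp] at h2
        omega
      have hcov : sub v0 ⊆ insert v0 (K.biUnion sub) := by
        intro u hu
        rw [hsub] at hu
        obtain ⟨huA, hj⟩ := hu
        rw [mem_insert]
        by_cases huv : u = v0
        · exact Or.inl huv
        · right
          rw [mem_biUnion]
          have hspec := Nat.find_spec hj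
          have hmin : ∀ i < Nat.find hj, T.par^[i] u ≠ v0 := fun i hi => Nat.find_min hj hi
          have hpos : 0 < Nat.find hj := by
            rcases Nat.eq_zero_or_pos (Nat.find hj) with h0 | h0
            · exfalso
              rw [h0] at hspec
              exact huv hspec
            · exact h0
          obtain ⟨i, hi⟩ : ∃ i, Nat.find hj = i + 1 := ⟨Nat.find hj - 1, by omega⟩
          rw [hi] at hspec hmin
          rw [Function.iterate_succ_apply'] at hspec
          refine ⟨T.par^[i] u, ?_, ?_⟩
          · rw [mem_filter]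
            refine ⟨hAC (hit u huA i), ?_, hspec⟩
            intro hr
            have h3 := hmin i (by omega)
            rw [hr, T.par_root] at hspec
            exact h3 (hr.trans hspec)
          · rw [hsub]
            exact ⟨huA, i, rfl⟩
      have hhigh : (sub v0).card ≤ S.d * b := by
        have h1 : (sub v0).card ≤ (K.biUnion sub).card + 1 :=
          (card_le_card hcov).trans (card_insert_le _ _)
        have h2 : (K.biUnion sub).card ≤ K.card * (b - 1) := card_biUnion_le_card_mul _ _ _ hcard
        have h3 : K.card * (b - 1) ≤ S.d * (b - 1) := Nat.mul_le_mul_right _ hK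
        obtain ⟨b', rfl⟩ : ∃ b', b = b' + 1 := ⟨b - 1, by omega⟩
        rw [Nat.add_sub_cancel] at h2 h3
        rw [Nat.mul_succ]
        omega
      -- the rest
      have hcl' : ∀ v ∈ A \ sub v0, T.par v ∈ A \ sub v0 := by
        intro v hv
        rw [mem_sdiff] at hv ⊢
        refine ⟨hcl v hv.1, ?_⟩
        intro hp
        apply hv.2
        rw [hsub] at hp ⊢
        obtain ⟨_, j, hj⟩ := hp
        refine ⟨hv.1, j + 1, ?_⟩
        rw [Function.iterate_succ_apply]
        exact hj
      have hss : A \ sub v0 ⊂ A := by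
        refine ⟨sdiff_subset, ?_⟩
        intro hle
        have := hle hv0A
        rw [mem_sdiff] at this
        exact this.2 hself
      obtain ⟨L0, top', g1, g2, g3, g4, g5, g6, g7, g8, g9⟩ :=
        ih _ hss (sdiff_subset.trans hAC) hcl'
      have hsubL : ∀ u ∈ sub v0, u ∉ L0 := by
        intro u hu hu'
        have := g1 hu'
        rw [mem_sdiff] at this
        exact this.2 hu
      have hparS : ∀ u ∈ sub v0, u ≠ v0 → T.par u ∈ sub v0 := by
        intro u hu huv
        rw [hsub] at hu ⊢
        obtain ⟨huA, j, hj⟩ := hu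
        refine ⟨hcl u huA, ?_⟩
        rcases j with _ | j
        · exact absurd hj huv
        · refine ⟨j, ?_⟩
          rw [Function.iterate_succ_apply] at hj
          exact hj
      let top : V → V := fun u => if u ∈ sub v0 then v0 else top' u
      have ht1 : ∀ u ∈ sub v0, top u = v0 := fun u hu => if_pos hu
      have ht2 : ∀ u, u ∉ sub v0 → top u = top' u := fun u hu => if_neg hu
      have hA' : ∀ v ∈ A, v ∉ sub v0 → v ∈ A \ sub v0 := fun v hv hv' => mem_sdiff.2 ⟨hv, hv'⟩
      have hc1 : ((A \ L0).filter fun w => top w = v0) = sub v0 := by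
        ext w
        rw [mem_filter, mem_sdiff]
        constructor
        · rintro ⟨⟨hw, hwL⟩, hwt⟩
          by_contra hws
          rw [ht2 w hws] at hwt
          have := (g4 w (hA' w hw hws) hwL).1
          rw [hwt, mem_sdiff] at this
          exact this.2 hself
        · intro hw
          exact ⟨⟨((hsub _ _).1 hw).1, hsubL w hw⟩, ht1 w hw⟩
      have hc2 : ∀ v ∈ A, v ∉ L0 → v ∉ sub v0 →
          ((A \ L0).filter fun w => top w = top' v) = (((A \ sub v0) \ L0).filter fun w => top' w = top' v) := by
        intro v hv hvL hvs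
        ext w
        rw [mem_filter, mem_filter, mem_sdiff, mem_sdiff, mem_sdiff]
        constructor
        · rintro ⟨⟨hw, hwL⟩, hwt⟩
          by_cases hws : w ∈ sub v0
          · exfalso
            rw [ht1 w hws] at hwt
            have := (g4 v (hA' v hv hvs) hvL).1
            rw [← hwt, mem_sdiff] at this
            exact this.2 hself
          · rw [ht2 w hws] at hwt
            exact ⟨⟨⟨hw, hws⟩, hwL⟩, hwt⟩
        · rintro ⟨⟨⟨hw, hws⟩, hwL⟩, hwt⟩
          refine ⟨⟨hw, hwL⟩, ?_⟩
          rw [ht2 w hws]
          exact hwt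
      refine ⟨L0, top, g1.trans sdiff_subset, g2, g3, ?_, ?_, ?_, ?_, ?_, ?_⟩
      · intro v hv hvL
        by_cases hvs : v ∈ sub v0
        · rw [ht1 v hvs]
          exact ⟨hv0A, hsubL v0 hself⟩
        · rw [ht2 v hvs]
          have := g4 v (hA' v hv hvs) hvL
          exact ⟨(mem_sdiff.1 this.1).1, this.2⟩
      · intro v hv hvL
        by_cases hvs : v ∈ sub v0
        · rw [ht1 v hvs]
          exact ht1 v0 hself
        · rw [ht2 v hvs]
          have h1 := g4 v (hA' v hv hvs) hvL
          rw [ht2 _ (mem_sdiff.1 h1.1).2]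
          exact g5 v (hA' v hv hvs) hvL
      · intro v hv hvL hvt
        by_cases hvs : v ∈ sub v0
        · rw [ht1 v hvs] at hvt ⊢
          have h1 := hparS v hvs hvt
          exact ⟨hsubL _ h1, ht1 _ h1⟩
        · rw [ht2 v hvs] at hvt ⊢
          have h1 := g6 v (hA' v hv hvs) hvL hvt
          rw [ht2 _ (mem_sdiff.1 (hcl' v (hA' v hv hvs))).2]
          exact h1
      · intro v hv hvL
        by_cases hvs : v ∈ sub v0
        · rw [ht1 v hvs]
          exact ((hsub _ _).1 hvs).2
        · rw [ht2 v hvs]
          exact g7 v (hA' v hv hvs) hvL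
      · intro v hv hvL
        by_cases hvs : v ∈ sub v0
        · rw [ht1 v hvs, hc1]
          exact hv0b
        · rw [ht2 v hvs, hc2 v hv hvL hvs]
          exact g8 v (hA' v hv hvs) hvL
      · intro v hv hvL
        by_cases hvs : v ∈ sub v0
        · rw [ht1 v hvs, hc1]
          exact hhigh
        · rw [ht2 v hvs, hc2 v hv hvL hvs]
          exact g9 v (hA' v hv hvs) hvL

theorem exists_pieces (T : Tree S C h) {b : ℕ} (hb : 0 < b) (hd : 0 < S.d) : Nonempty (T.Pieces b) := by
  obtain ⟨L0, top, _, g2, g3, g4, g5, g6, g7, g8, g9⟩ :=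
    pieces_aux T hb hd C Subset.rfl T.par_mem
  exact ⟨⟨L0, top, g2, g3, g4, g5, g6, g7, g8, g9⟩⟩

end Tree

end Surf

end Pool.Agent.DSW
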