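import Pool.Agent.DSW.Bfs
import Pool.Agent.DSW.PiecesM
import Pool.Agent.DSW.LinkAll
import Pool.Agent.DSW.LocNet

/-!
# The network of one expander (helper13)

`diam` gives walks with `2 t0` steps between any two vertices of `C`; `exists_tree` with `h = 2 t0`; `exists_pieces`.
`k1 = 2 t0 + 2 h = 6 t0`, `6 h + k1 + 5 = 18 t0 + 5`.
`|heavy| ≤ |C| (2 t0 + 1) / aa ≤ n (2 t0 + 1) / aa` (`heavy_card`); `|tops| ≤ |C| / b ≤ n / b` (`tops_card`), so
`X = |tops|^2 (6 t0 + 1) ≤ (n/b)^2 (6 t0 + 1)` and also `X ≤ |C| n (6 t0 + 1) / b^2`.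
The hypotheses of `link_all` follow from `hpos`, `hcond` by monotonicity.  `loc_net`.
`C \ ter ⊆ heavy ∪ L0 ∪ {u ∈ C \ heavy | lroot u = lroot z for some z ∈ ⋃ N i j}`; the last set has at most `X aa` elements
(`light_card`).  So `|C \ ter| ≤ |C| (2 t0 + 1)/aa + b + |C| n (6 t0 + 1) aa / b^2`.
-/

set_option autoImplicit false

namespace Pool.Agent.DSW

open Equiv Finset

namespace Surf

variable {D V : Type} [Fintype D] [DecidableEq D] [Fintype V] [DecidableEq V] {S : Surf D V}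

theorem comp_net {φ : ℝ} (hφ : 0 ≤ φ) {C : Finset V} (hC : S.Expands φ C) (hd : 0 < S.d) {t0 b aa n : ℕ}
    (ht : (C.card : ℝ) < (1 + φ / (2 * S.d)) ^ t0) (haa0 : 0 < aa) (haa : aa ≤ b) (hbC : b ≤ C.card)
    (hn : C.card ≤ n)
    (hpos : (n : ℝ) * (2 * t0 + 1) / aa + ((n : ℝ) / b) ^ 2 * (6 * t0 + 1) * aa < b)
    (hcond : 2 * (S.d : ℝ) * ((n : ℝ) * (2 * t0 + 1) / aa + ((n : ℝ) / b) ^ 2 * (6 * t0 + 1)) ≤
      φ * (b - (n : ℝ) * (2 * t0 + 1) / aa - ((n : ℝ) / b) ^ 2 * (6 * t0 + 1) * aa)) :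
    ∃ L : S.LNet C (18 * t0 + 5) (S.d * b),
      ((C \ L.ter).card : ℝ) ≤
        C.card * ((2 * (t0 : ℝ) + 1) / aa + (n : ℝ) * (6 * t0 + 1) * aa / (b : ℝ) ^ 2) + b := by
  classical
  have hb : 0 < b := lt_of_lt_of_le haa0 haa
  have hac : aa ≤ C.card := haa.trans hbC
  have hne : C.Nonempty := Finset.card_pos.1 (lt_of_lt_of_le hb hbC)
  obtain ⟨T⟩ := exists_tree (h := 2 * t0) hne (fun u hu v hv => diam hφ hC hd ht hu hv)
  obtain ⟨P⟩ := T.exists_pieces hb hd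
  have haaR : (0 : ℝ) < aa := by exact_mod_cast haa0
  have hbR : (0 : ℝ) < b := by exact_mod_cast hb
  have hnR : (C.card : ℝ) ≤ n := by exact_mod_cast hn
  have hC0 : (0 : ℝ) ≤ C.card := Nat.cast_nonneg _
  have ht0 : (0 : ℝ) ≤ t0 := Nat.cast_nonneg _
  have hdR : (0 : ℝ) ≤ S.d := Nat.cast_nonneg _
  -- heavy vertices
  have hH : ((T.heavy aa).card : ℝ) ≤ C.card * (2 * t0 + 1) / aa := by
    rw [le_div_iff₀ haaR]
    have h1 := T.heavy_card aa
    have h2 : ((aa * (T.heavy aa).card : ℕ) : ℝ) ≤ ((C.card * (2 * t0 + 1) : ℕ) : ℝ) := by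
      exact_mod_cast h1
    push_cast at h2
    linarith
  have hH' : ((T.heavy aa).card : ℝ) ≤ (n : ℝ) * (2 * t0 + 1) / aa := by
    refine hH.trans ?_
    gcongr
  -- tops
  have hT : (P.tops.card : ℝ) ≤ C.card / b := by
    rw [le_div_iff₀ hbR]
    have h1 := Tree.tops_card P
    have h2 : ((b * P.tops.card : ℕ) : ℝ) ≤ ((C.card : ℕ) : ℝ) := by exact_mod_cast h1
    push_cast at h2
    linarith
  have hT' : (P.tops.card : ℝ) ≤ n / b := by
    refine hT.trans ?_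
    gcongr
  have hT0 : (0 : ℝ) ≤ P.tops.card := Nat.cast_nonneg _
  have hT2 : (P.tops.card : ℝ) ^ 2 ≤ ((n : ℝ) / b) ^ 2 := by
    gcongr
  have hT3 : (P.tops.card : ℝ) ^ 2 ≤ C.card * n / (b : ℝ) ^ 2 := by
    have : (P.tops.card : ℝ) ^ 2 ≤ (C.card / b) * (n / b) := by
      rw [pow_two]
      exact mul_le_mul hT hT' hT0 (by positivity)
    refine this.trans (le_of_eq ?_)
    rw [div_mul_div_comm, pow_two]
  -- numbers
  have e6 : (2 * (t0 : ℝ) + 2 * ((2 * t0 : ℕ) : ℝ) + 1) = 6 * t0 + 1 := by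
    push_cast
    ring
  have hX1 : (P.tops.card : ℝ) ^ 2 * (6 * t0 + 1) ≤ ((n : ℝ) / b) ^ 2 * (6 * t0 + 1) :=
    mul_le_mul_of_nonneg_right hT2 (by positivity)
  have hX2 : (P.tops.card : ℝ) ^ 2 * (6 * t0 + 1) * aa ≤ ((n : ℝ) / b) ^ 2 * (6 * t0 + 1) * aa :=
    mul_le_mul_of_nonneg_right hX1 haaR.le
  have hpos' : (T.heavy aa).card + P.tops.card ^ 2 * (2 * t0 + 2 * (2 * t0) + 1) * aa < b := by
    have h1 : ((T.heavy aa).card : ℝ) + (P.tops.card : ℝ) ^ 2 * (6 * t0 + 1) * aa < b :=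
      lt_of_le_of_lt (add_le_add hH' hX2) hpos
    have h2 : (((T.heavy aa).card + P.tops.card ^ 2 * (2 * t0 + 2 * (2 * t0) + 1) * aa : ℕ) : ℝ)
        < (b : ℝ) := by
      push_cast
      have e : (2 * (t0 : ℝ) + 2 * (2 * t0) + 1) = 6 * t0 + 1 := by ring
      rw [e]
      exact h1
    exact_mod_cast h2
  have hcond' : 2 * (S.d : ℝ) * ((T.heavy aa).card +
      (P.tops.card : ℝ) ^ 2 * (2 * (t0 : ℝ) + 2 * ((2 * t0 : ℕ) : ℝ) + 1)) ≤
      φ * (b - (T.heavy aa).card -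
        (P.tops.card : ℝ) ^ 2 * (2 * (t0 : ℝ) + 2 * ((2 * t0 : ℕ) : ℝ) + 1) * aa) := by
    rw [e6]
    calc 2 * (S.d : ℝ) * ((T.heavy aa).card + (P.tops.card : ℝ) ^ 2 * (6 * t0 + 1))
        ≤ 2 * (S.d : ℝ) * ((n : ℝ) * (2 * t0 + 1) / aa + ((n : ℝ) / b) ^ 2 * (6 * t0 + 1)) :=
          mul_le_mul_of_nonneg_left (add_le_add hH' hX1) (by positivity)
      _ ≤ φ * (b - (n : ℝ) * (2 * t0 + 1) / aa - ((n : ℝ) / b) ^ 2 * (6 * t0 + 1) * aa) := hcond
      _ ≤ φ * (b - (T.heavy aa).card - (P.tops.card : ℝ) ^ 2 * (6 * t0 + 1) * aa) :=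
          mul_le_mul_of_nonneg_left (by linarith) hφ
  obtain ⟨N, hN1, hN0, hN2, hN3⟩ := Tree.link_all P hφ hC hd haa hac ht hpos' hcond'
  have key := Tree.loc_net P haa hac N hN1 hN0 hN2
  have ek : 6 * (2 * t0) + (2 * t0 + 2 * (2 * t0)) + 5 = 18 * t0 + 5 := by ring
  rw [ek] at key
  obtain ⟨L, hL⟩ := key
  refine ⟨L, ?_⟩
  set U : Finset V := univ.biUnion fun π : V × V => N π.1 π.2 with hU
  have hsub : C \ L.ter ⊆ (T.heavy aa ∪ P.L0) ∪
      (U.biUnion fun z => (C \ T.heavy aa).filter fun u => T.lroot aa u = T.lroot aa z) := by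
    intro u hu
    obtain ⟨huC, huT⟩ := Finset.mem_sdiff.1 hu
    by_cases h1 : u ∈ T.heavy aa
    · exact Finset.mem_union_left _ (Finset.mem_union_left _ h1)
    by_cases h2 : u ∈ P.L0
    · exact Finset.mem_union_left _ (Finset.mem_union_right _ h2)
    refine Finset.mem_union_right _ ?_
    have h3 : ¬ ∀ i j, ∀ z ∈ N i j, T.lroot aa z ≠ T.lroot aa u := by
      intro h3
      apply huT
      rw [hL, Finset.mem_filter, Finset.mem_sdiff, Finset.mem_sdiff]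
      exact ⟨⟨⟨huC, h1⟩, h2⟩, h3⟩
    push Not at h3
    obtain ⟨i, j, z, hz, hzu⟩ := h3
    rw [Finset.mem_biUnion]
    refine ⟨z, ?_, ?_⟩
    · rw [hU, Finset.mem_biUnion]
      exact ⟨(i, j), Finset.mem_univ _, hz⟩
    · rw [Finset.mem_filter, Finset.mem_sdiff]
      exact ⟨⟨huC, h1⟩, hzu.symm⟩
  have hcard : (C \ L.ter).card ≤ (T.heavy aa).card + P.L0.card + U.card * aa := by
    refine (Finset.card_le_card hsub).trans ((Finset.card_union_le _ _).trans ?_)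
    refine Nat.add_le_add (Finset.card_union_le _ _) ?_
    exact Finset.card_biUnion_le_card_mul _ _ aa fun z _ => Tree.light_card hac _
  have hcardR : ((C \ L.ter).card : ℝ) ≤ (T.heavy aa).card + P.L0.card + U.card * aa := by
    exact_mod_cast hcard
  have hL0 : (P.L0.card : ℝ) ≤ b := by exact_mod_cast P.card_L0.le
  have hUR : (U.card : ℝ) ≤ C.card * n / (b : ℝ) ^ 2 * (6 * t0 + 1) := by
    have h1 : (U.card : ℝ) ≤ ((P.tops.card ^ 2 * (2 * t0 + 2 * (2 * t0) + 1) : ℕ) : ℝ) := by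
      exact_mod_cast hN3
    refine h1.trans ?_
    push_cast
    have e : (2 * (t0 : ℝ) + 2 * (2 * t0) + 1) = 6 * t0 + 1 := by ring
    rw [e]
    exact mul_le_mul_of_nonneg_right hT3 (by positivity)
  have hUa : (U.card : ℝ) * aa ≤ C.card * n / (b : ℝ) ^ 2 * (6 * t0 + 1) * aa :=
    mul_le_mul_of_nonneg_right hUR haaR.le
  calc ((C \ L.ter).card : ℝ) ≤ (T.heavy aa).card + P.L0.card + U.card * aa := hcardR
    _ ≤ C.card * (2 * t0 + 1) / aa + b + C.card * n / (b : ℝ) ^ 2 * (6 * t0 + 1) * aa :=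
        add_le_add (add_le_add hH hL0) hUa
    _ = C.card * ((2 * (t0 : ℝ) + 1) / aa + (n : ℝ) * (6 * t0 + 1) * aa / (b : ℝ) ^ 2) + b := by
        ring

end Surf

end Pool.Agent.DSW
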