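import Pool.Agent.DSW.PortsS

/-!
# Expander decomposition (helper13)

`decomp_aux`: strong induction on `|A|`.  Claim for `A`: there is `c : V → V` with `c v ∈ A` for `v ∈ A`, every part
`{w ∈ A | c w = c v}` (`v ∈ A`) is a `φ`-expander, and at most `2 φ |A| log₂ |A|` sides `x` satisfy `τ x ∈ A`, `τ (a x) ∈ A`,
`c (τ x) ≠ c (τ (a x))` (`log₂ = Nat.log 2`).
If `A = ∅`: trivial.  If `A` is a `φ`-expander: `c` constant with a value in `A`; no such sides.
Otherwise there is `B ⊆ A` with `2 |B| ≤ |A|` and `e B (A \ B) < φ |B|`.  So `|B| > 0` and `|A \ B| < |A|`, `|B| < |A|`.  Take `c₁` for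
`B`, `c₂` for `A \ B` and `c = c₁` on `B`, `c = c₂` off `B`.  Since `c₁` maps `B` to `B` and `c₂` maps `A \ B` to `A \ B` the parts of
`c` in `A` are the parts of `c₁` in `B` and those of `c₂` in `A \ B`.  Sides: inside `B`, inside `A \ B`, from `B` to `A \ B`
(`e B (A \ B) < φ |B|`), from `A \ B` to `B` (the same number, `x ↦ a x`).  Total at most
`2 φ |B| log₂ |B| + 2 φ |A \ B| log₂ |A \ B| + 2 φ |B|`, and `log₂ |B| ≤ log₂ (|A| / 2) = log₂ |A| - 1` (`|A| ≥ 2`),
`log₂ |A \ B| ≤ log₂ |A|`; so the total is at most `2 φ |B| (log₂ |A| - 1) + 2 φ |A \ B| log₂ |A| + 2 φ |B| = 2 φ |A| log₂ |A|`.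
`decomp`: `A = univ`.
-/

set_option autoImplicit false

namespace Pool.Agent.DSW

open Equiv Finset

namespace Surf

variable {D V : Type} [Fintype D] [DecidableEq D] [Fintype V] [DecidableEq V] (S : Surf D V)

private theorem decomp_num {b r L Lb Lr : ℕ} {φ : ℝ} (hφ : 0 ≤ φ) (h1 : Lb + 1 ≤ L) (h2 : Lr ≤ L) :
    2 * φ * b * Lb + 2 * φ * r * Lr + 2 * (φ * b) ≤ 2 * φ * (b + r : ℕ) * L := by
  have h1' : ((Lb : ℝ) + 1) ≤ L := by exact_mod_cast h1
  have h2' : (Lr : ℝ) ≤ L := by exact_mod_cast h2
  have h3 : (0 : ℝ) ≤ 2 * φ * b := by positivity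
  have h4 : (0 : ℝ) ≤ 2 * φ * r := by positivity
  have h5 := mul_le_mul_of_nonneg_left h1' h3
  have h6 := mul_le_mul_of_nonneg_left h2' h4
  push_cast
  linarith

private theorem decomp_e_symm (A B : Finset V) : S.e A B = S.e B A := by
  unfold e
  refine card_bij (fun x _ => S.a x) ?_ ?_ ?_
  · intro x hx
    simp only [mem_filter, mem_univ, true_and] at hx ⊢
    rw [S.inv]
    exact ⟨hx.2, hx.1⟩
  · intro x _ y _ h
    exact S.a.injective h
  · intro y hy
    simp only [mem_filter, mem_univ, true_and] at hy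
    refine ⟨S.a y, ?_, S.inv y⟩
    simp only [mem_filter, mem_univ, true_and]
    rw [S.inv]
    exact ⟨hy.2, hy.1⟩

theorem decomp_aux (φ : ℝ) (hφ : 0 ≤ φ) (A : Finset V) :
    ∃ c : V → V, (∀ v ∈ A, c v ∈ A) ∧ (∀ v ∈ A, S.Expands φ (A.filter fun w => c w = c v)) ∧
      ((univ.filter fun x => (S.τ x ∈ A ∧ S.τ (S.a x) ∈ A) ∧ c (S.τ x) ≠ c (S.τ (S.a x))).card : ℝ)
        ≤ 2 * φ * A.card * Nat.log 2 A.card := by
  induction A using Finset.strongInduction with
  | H A ih =>
    by_cases hexp : S.Expands φ A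
    · rcases A.eq_empty_or_nonempty with hA | ⟨a0, ha0⟩
      · subst hA
        exact ⟨id, by simp, by simp, by simp⟩
      · refine ⟨fun _ => a0, fun _ _ => ha0, fun v _ => ?_, ?_⟩
        · simpa using hexp
        · simp only [ne_eq, not_true_eq_false, and_false, filter_false, card_empty, Nat.cast_zero]
          positivity
    · unfold Expands at hexp
      push Not at hexp
      obtain ⟨B, hBA, hB2, hBe⟩ := hexp
      have hBne : B.Nonempty := by
        rw [nonempty_iff_ne_empty]
        rintro rfl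
        simp only [card_empty, Nat.cast_zero, mul_zero] at hBe
        exact absurd hBe (not_lt.2 (Nat.cast_nonneg _))
      have hBpos : 0 < B.card := hBne.card_pos
      have hBss : B ⊂ A := by
        rw [ssubset_iff_subset_ne]
        refine ⟨hBA, ?_⟩
        rintro rfl
        omega
      have hCss : A \ B ⊂ A := sdiff_ssubset hBA hBne
      obtain ⟨c₁, h11, h12, h13⟩ := ih B hBss
      obtain ⟨c₂, h21, h22, h23⟩ := ih (A \ B) hCss
      obtain ⟨c, hcB, hcC⟩ : ∃ c : V → V, (∀ v, v ∈ B → c v = c₁ v) ∧ (∀ v, v ∉ B → c v = c₂ v) :=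
        ⟨fun v => if v ∈ B then c₁ v else c₂ v, fun v hv => if_pos hv, fun v hv => if_neg hv⟩
      refine ⟨c, ?_, ?_, ?_⟩
      · intro v hv
        by_cases hvB : v ∈ B
        · rw [hcB v hvB]
          exact hBA (h11 v hvB)
        · rw [hcC v hvB]
          exact (mem_sdiff.1 (h21 v (mem_sdiff.2 ⟨hv, hvB⟩))).1
      · intro v hv
        by_cases hvB : v ∈ B
        · have : (A.filter fun w => c w = c v) = B.filter fun w => c₁ w = c₁ v := by
            ext w
            rw [mem_filter, mem_filter, hcB v hvB]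
            by_cases hwB : w ∈ B
            · rw [hcB w hwB]
              simp only [hwB, hBA hwB, true_and]
            · rw [hcC w hwB]
              simp only [hwB, false_and, iff_false, not_and]
              intro hwA heq
              have h1 := h21 w (mem_sdiff.2 ⟨hwA, hwB⟩)
              rw [heq] at h1
              exact (mem_sdiff.1 h1).2 (h11 v hvB)
          rw [this]
          exact h12 v hvB
        · have hvC : v ∈ A \ B := mem_sdiff.2 ⟨hv, hvB⟩
          have : (A.filter fun w => c w = c v) = (A \ B).filter fun w => c₂ w = c₂ v := by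
            ext w
            rw [mem_filter, mem_filter, mem_sdiff, hcC v hvB]
            by_cases hwB : w ∈ B
            · rw [hcB w hwB]
              simp only [hwB, not_true_eq_false, and_false, false_and, iff_false, not_and]
              intro hwA heq
              have h1 := h11 w hwB
              rw [heq] at h1
              exact (mem_sdiff.1 (h21 v hvC)).2 h1
            · rw [hcC w hwB]
              simp only [hwB, not_false_eq_true, and_true]
          rw [this]
          exact h22 v hvC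
      · have hsub : (univ.filter fun x => (S.τ x ∈ A ∧ S.τ (S.a x) ∈ A) ∧
            c (S.τ x) ≠ c (S.τ (S.a x))) ⊆
            ((univ.filter fun x => (S.τ x ∈ B ∧ S.τ (S.a x) ∈ B) ∧ c₁ (S.τ x) ≠ c₁ (S.τ (S.a x))) ∪
             (univ.filter fun x => (S.τ x ∈ A \ B ∧ S.τ (S.a x) ∈ A \ B) ∧
                c₂ (S.τ x) ≠ c₂ (S.τ (S.a x)))) ∪
            ((univ.filter fun x => S.τ x ∈ B ∧ S.τ (S.a x) ∈ A \ B) ∪
             (univ.filter fun x => S.τ x ∈ A \ B ∧ S.τ (S.a x) ∈ B)) := by
          intro x hx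
          simp only [mem_filter, mem_univ, true_and, mem_union, mem_sdiff] at hx ⊢
          obtain ⟨⟨hx1, hx2⟩, hx3⟩ := hx
          by_cases h1 : S.τ x ∈ B <;> by_cases h2 : S.τ (S.a x) ∈ B
          · left; left
            rw [hcB _ h1, hcB _ h2] at hx3
            exact ⟨⟨h1, h2⟩, hx3⟩
          · right; left
            exact ⟨h1, hx2, h2⟩
          · right; right
            exact ⟨⟨hx1, h1⟩, h2⟩
          · left; right
            rw [hcC _ h1, hcC _ h2] at hx3
            exact ⟨⟨⟨hx1, h1⟩, hx2, h2⟩, hx3⟩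
        have hcard := (card_le_card hsub).trans ((card_union_le _ _).trans
          (Nat.add_le_add (card_union_le _ _) (card_union_le _ _)))
        have he : S.e (A \ B) B = S.e B (A \ B) := decomp_e_symm S _ _
        have hcard' : ((univ.filter fun x => (S.τ x ∈ A ∧ S.τ (S.a x) ∈ A) ∧
            c (S.τ x) ≠ c (S.τ (S.a x))).card : ℝ) ≤
            ((univ.filter fun x => (S.τ x ∈ B ∧ S.τ (S.a x) ∈ B) ∧
              c₁ (S.τ x) ≠ c₁ (S.τ (S.a x))).card : ℝ) +
            ((univ.filter fun x => (S.τ x ∈ A \ B ∧ S.τ (S.a x) ∈ A \ B) ∧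
                c₂ (S.τ x) ≠ c₂ (S.τ (S.a x))).card : ℝ) +
            ((S.e B (A \ B) : ℝ) + (S.e (A \ B) B : ℝ)) := by
          unfold e
          exact_mod_cast hcard
        rw [he] at hcard'
        have hA : A.card = B.card + (A \ B).card := by
          have := card_sdiff_add_card_eq_card hBA
          omega
        have hL1 : Nat.log 2 B.card + 1 ≤ Nat.log 2 A.card := by
          rw [← Nat.log_mul_base (by norm_num) hBpos.ne']
          apply Nat.log_mono_right
          omega
        have hL2 : Nat.log 2 (A \ B).card ≤ Nat.log 2 A.card := by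
          apply Nat.log_mono_right
          omega
        have hfin := decomp_num (b := B.card) (r := (A \ B).card) hφ hL1 hL2
        rw [← hA] at hfin
        linarith

theorem decomp (φ : ℝ) (hφ : 0 ≤ φ) :
    ∃ c : V → V, (∀ v, S.Expands φ (univ.filter fun w => c w = c v)) ∧
      (S.inter c : ℝ) ≤ 2 * φ * Fintype.card V * Nat.log 2 (Fintype.card V) := by
  obtain ⟨c, -, h2, h3⟩ := S.decomp_aux φ hφ univ
  refine ⟨c, fun v => h2 v (mem_univ v), ?_⟩
  simpa [inter, card_univ] using h3

end Surf

end Pool.Agent.DSW
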