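import Mathlib

/-!
# Deterministic sweeps of triangulated surfaces: definitions (MP_37d33d_gt, helper13)

`Surf D V`: polygons glued to a closed oriented surface.  `D` = set of sides, `V` = set of polygons, `r x` = next side
of the same polygon, `a x` = the side glued to `x`, `τ x` = the polygon of `x`.  `phi G` (for a set `G` of sides closed
under `a`) is the permutation `r ∘ a_G`, where `a_G = a` on `G` and `a_G = id` off `G`: its cycles are the boundary
components of the surface in which exactly the pairs of `G` are glued; the length of such a component is the number of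
its elements outside `G` (`len`).
-/

set_option autoImplicit false

namespace Pool.Agent.DSW

open Equiv Finset

/-- polygons glued to a closed oriented surface; every polygon has at most `d` sides. -/
structure Surf (D V : Type) [Fintype D] [DecidableEq D] [Fintype V] [DecidableEq V] where
  r : Perm D
  a : Perm D
  τ : D → V
  d : ℕ
  inv : ∀ x, a (a x) = x
  ne : ∀ x, a x ≠ x
  tau : ∀ x y, τ x = τ y ↔ r.SameCycle x y
  deg : ∀ v, (univ.filter fun x => τ x = v).card ≤ d

section flip

variable {D : Type} [Fintype D] [DecidableEq D]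

theorem flip_involutive {a : Perm D} {G : Finset D}
    (h : (∀ x, a (a x) = x) ∧ ∀ x ∈ G, a x ∈ G) :
    Function.Involutive (fun x => if x ∈ G then a x else x) := by
  intro x
  by_cases hx : x ∈ G
  · simp [hx, h.2 x hx, h.1 x]
  · simp [hx]

open Classical in
/-- the involution `a` on `G`, the identity off `G` (for `G` closed under the involution `a`). -/
noncomputable def flipOn (a : Perm D) (G : Finset D) : Perm D :=
  if h : (∀ x, a (a x) = x) ∧ ∀ x ∈ G, a x ∈ G then (flip_involutive h).toPerm else 1

end flip

/-- `σ^m x = y` and `p` is the period of `x`, `0 < m < p`. -/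
structure Cut {D : Type} (σ : Perm D) (x y : D) (m p : ℕ) : Prop where
  pos : 0 < m
  lt : m < p
  hy : (σ ^ m) x = y
  hp : (σ ^ p) x = x
  hmin : ∀ j, 0 < j → j < p → (σ ^ j) x ≠ x

namespace Surf

variable {D V : Type} [Fintype D] [DecidableEq D] [Fintype V] [DecidableEq V] (S : Surf D V)

/-- `G` is a union of pairs `{x, a x}`. -/
def Closed (G : Finset D) : Prop := ∀ x ∈ G, S.a x ∈ G

/-- the permutation whose cycles are the boundary components after the pairs of `G` have been glued. -/
noncomputable def phi (G : Finset D) : Perm D := S.r * flipOn S.a G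

/-- `x` and `y` lie on the same boundary component. -/
def Same (G : Finset D) (x y : D) : Prop := (S.phi G).SameCycle x y

open Classical in
/-- the open sides of the component of `x`. -/
noncomputable def comp (G : Finset D) (x : D) : Finset D := univ.filter fun y => y ∉ G ∧ S.Same G x y

/-- the length (number of open sides) of the component of `x`. -/
noncomputable def len (G : Finset D) (x : D) : ℕ := (S.comp G x).card

/-- `Reach L G G'`: starting with the pairs of `G` glued one can glue further pairs, one after the other, until exactly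
the pairs of `G'` are glued, such that at every moment (including the first and the last) all components have length
at most `L`. -/
inductive Reach (L : ℕ) : Finset D → Finset D → Prop
  | refl (G : Finset D) (h : ∀ z, S.len G z ≤ L) : Reach L G G
  | step (G : Finset D) (x : D) (G' : Finset D) (hx : x ∉ G) (h : ∀ z, S.len G z ≤ L)
      (h' : Reach L (G ∪ {x, S.a x}) G') : Reach L G G'

/-- adjacency of polygons (some side of `v` is glued to a side of `w`). -/
def Adj (v w : V) : Prop := ∃ x, S.τ x = v ∧ S.τ (S.a x) = w

/-- number of sides of polygons of `A` which are glued to sides of polygons of `B`. -/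
noncomputable def e (A B : Finset V) : ℕ := (univ.filter fun x => S.τ x ∈ A ∧ S.τ (S.a x) ∈ B).card

/-- `C` is a `φ`-expander. -/
def Expands (φ : ℝ) (C : Finset V) : Prop :=
  ∀ A : Finset V, A ⊆ C → 2 * A.card ≤ C.card → φ * A.card ≤ S.e A (C \ A)

/-- lazy walk with exactly `k` steps from `u` to `v` inside `C` avoiding `W`. -/
def Conn (C W : Finset V) (k : ℕ) (u v : V) : Prop :=
  ∃ p : ℕ → V, p 0 = u ∧ p k = v ∧ (∀ l < k, S.Adj (p l) (p (l + 1)) ∨ p l = p (l + 1)) ∧
    ∀ l ≤ k, p l ∈ C ∧ p l ∉ W

/-- A strand of length `k`: the sides `e 0, …, e k`, where `e 0` is a side of a polygon of `P`, `a (e l)` and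
`e (l+1)` are two different sides of the `(l+1)`-st polygon `τ (a (e l))` of the strand (`l < k`), these polygons are
distinct and not in `P`, and `a (e k)` is a side of a polygon of `P`. -/
structure IsStrand (P : Finset V) (k : ℕ) (e : ℕ → D) : Prop where
  pos : 0 < k
  start : S.τ (e 0) ∈ P
  next : ∀ l < k, S.τ (e (l + 1)) = S.τ (S.a (e l))
  turn : ∀ l < k, e (l + 1) ≠ S.a (e l)
  out : ∀ l < k, S.τ (S.a (e l)) ∉ P
  inj : ∀ l < k, ∀ l' < k, S.τ (S.a (e l)) = S.τ (S.a (e l')) → l = l'
  stop : S.τ (S.a (e k)) ∈ P

/-- the sides glued by the first `k` gluings of a strand. -/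
def strandSet (k : ℕ) (e : ℕ → D) : Finset D := (range k).biUnion fun l => {e l, S.a (e l)}

/-- the first `k` polygons of a strand. -/
def strandVerts (k : ℕ) (e : ℕ → D) : Finset V := (range k).image fun l => S.τ (S.a (e l))

end Surf

/-- the weight of a component of length `l`. -/
def wt (lam l : ℕ) : ℕ := min l lam + (l - 4 * lam)

/-- the share of every open side in the weight of its component. -/
noncomputable def sh (lam l : ℕ) : ℝ := (wt lam l : ℝ) / l

namespace Surf

variable {D V : Type} [Fintype D] [DecidableEq D] [Fintype V] [DecidableEq V] (S : Surf D V)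

/-- open sides of the processed polygons. -/
def opn (P : Finset V) (G : Finset D) : Finset D := univ.filter fun x => S.τ x ∈ P ∧ x ∉ G

/-- the potential: sum of the weights of the components of the processed polygons. -/
noncomputable def om (lam : ℕ) (P : Finset V) (G : Finset D) : ℝ := ∑ x ∈ S.opn P G, sh lam (S.len G x)

/-- pending sides: both polygons are processed, the pair is not glued, and the two polygons lie in the same part of the
decomposition `c`. -/
def pend (c : V → V) (P : Finset V) (G : Finset D) : Finset D :=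
  univ.filter fun x => (S.τ x ∈ P ∧ S.τ (S.a x) ∈ P) ∧ x ∉ G ∧ c (S.τ x) = c (S.τ (S.a x))

/-- The network.  `c`: parts of the decomposition; `ter`: territory; `hub v`: the hub of `v ∈ ter`; `dep`: depth;
`cor i j`: corridor between the hubs `i` and `j`. -/
structure Net (S : Surf D V) (lam k0 bet : ℕ) where
  c : V → V
  ter : Finset V
  hub : V → V
  dep : V → ℕ
  cor : V → V → Finset V
  cor_ter : ∀ i j, Disjoint (cor i j) ter
  cor_disj : ∀ i j i' j', i' ≠ i → i' ≠ j → j' ≠ i → j' ≠ j → Disjoint (cor i j) (cor i' j')
  hub_card : ∀ i, (ter.filter fun v => hub v = i).card ≤ bet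
  path : ∀ u u', u ∈ ter → u' ∈ ter → c u = c u' → hub u ≠ hub u' →
    8 * lam < S.d * (univ.filter fun v => c v = c u).card →
    ∃ (k : ℕ) (v : ℕ → V), k < k0 ∧ v 0 = u ∧ v k = u' ∧ (∀ l < k, S.Adj (v l) (v (l + 1))) ∧
      (∀ l ≤ k, ∀ l' ≤ k, v l = v l' → l = l') ∧
      ∀ l ≤ k, c (v l) = c u ∧ (v l ∈ cor (hub u) (hub u') ∨
        (v l ∈ ter ∧ hub (v l) = hub u ∧ (v l = u ∨ dep (v l) < dep u)) ∨
        (v l ∈ ter ∧ hub (v l) = hub u' ∧ (v l = u' ∨ dep (v l) < dep u')))

/-- State of the algorithm: `P0` polygons processed in the prescribed order, `P` all processed polygons (including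
those of strands), `G` glued sides, `U` used hubs. -/
structure State (D V : Type) where
  P0 : Finset V
  P : Finset V
  G : Finset D
  U : Finset V

/-- structural invariants of the states. -/
structure Ok {lam k0 bet : ℕ} (N : S.Net lam k0 bet) (s : State D V) : Prop where
  closed : S.Closed s.G
  gP : ∀ x ∈ s.G, S.τ x ∈ s.P
  gc : ∀ x ∈ s.G, N.c (S.τ x) = N.c (S.τ (S.a x))
  p0 : s.P0 ⊆ s.P
  p0ter : s.P0 ⊆ N.ter
  upper : ∀ v ∈ s.P0, ∀ u ∈ N.ter, N.dep v < N.dep u → u ∈ s.P0
  fresh : ∀ v ∈ N.ter, v ∉ s.P0 → N.hub v ∉ s.U → v ∉ s.P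
  cors : ∀ i j, i ∉ s.U → j ∉ s.U → i ≠ j → Disjoint (N.cor i j) s.P
  len16 : ∀ z, S.len s.G z ≤ 16 * lam

/-- a good open side `x` of the processed polygons: its partner belongs to an unprocessed polygon of the territory in
the same part, with an unused hub. -/
structure Good {lam k0 bet : ℕ} (N : S.Net lam k0 bet) (s : State D V) (x : D) : Prop where
  nG : x ∉ s.G
  hP : S.τ x ∈ s.P
  aP : S.τ (S.a x) ∉ s.P
  ter : S.τ (S.a x) ∈ N.ter
  hub : N.hub (S.τ (S.a x)) ∉ s.U
  hc : N.c (S.τ x) = N.c (S.τ (S.a x))

end Surf

end Pool.Agent.DSW
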