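import Pool.Agent.DSW.Def

/-!
# Deterministic sweeps: definitions for the network (helper13)

`Walk A k u v`: lazy walk with exactly `k` steps inside `A`.  `Tree S C h`: a rooted spanning tree of `C` of depth at
most `h` whose edges are adjacencies.  `desc v`: descendants of `v` (including `v`), `heavy aa`: vertices with at least
`aa` descendants, `lroot aa u`: the last vertex which is not heavy on the way from `u` to the root.
`Pieces T b`: cuts the tree (except a leftover `L0` of fewer than `b` vertices containing the root or empty) into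
subtrees with at least `b` and at most `d b` vertices, `top v` is the top vertex of the piece of `v`.
`LNet`: the local network of one part.
-/

set_option autoImplicit false

namespace Pool.Agent.DSW

open Equiv Finset

namespace Surf

variable {D V : Type} [Fintype D] [DecidableEq D] [Fintype V] [DecidableEq V] (S : Surf D V)

/-- lazy walk with exactly `k` steps from `u` to `v` inside `A`. -/
def Walk (A : Finset V) (k : ℕ) (u v : V) : Prop :=
  ∃ p : ℕ → V, p 0 = u ∧ p k = v ∧ (∀ l < k, S.Adj (p l) (p (l + 1)) ∨ p l = p (l + 1)) ∧ ∀ l ≤ k, p l ∈ A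

/-- rooted spanning tree of `C` of depth at most `h`. -/
structure Tree (S : Surf D V) (C : Finset V) (h : ℕ) where
  root : V
  par : V → V
  dep : V → ℕ
  root_mem : root ∈ C
  dep_root : dep root = 0
  par_root : par root = root
  par_mem : ∀ v ∈ C, par v ∈ C
  dep_par : ∀ v ∈ C, v ≠ root → dep v = dep (par v) + 1
  dep_le : ∀ v ∈ C, dep v ≤ h
  adj : ∀ v ∈ C, v ≠ root → S.Adj v (par v)

namespace Tree

variable {S} {C : Finset V} {h : ℕ}

open Classical in
/-- descendants of `v`, including `v`. -/
noncomputable def desc (T : Tree S C h) (v : V) : Finset V := C.filter fun u => ∃ j : ℕ, T.par^[j] u = v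

/-- vertices with at least `aa` descendants. -/
noncomputable def heavy (T : Tree S C h) (aa : ℕ) : Finset V := C.filter fun v => aa ≤ (T.desc v).card

/-- distance to the first heavy ancestor. -/
noncomputable def hdist (T : Tree S C h) (aa : ℕ) (u : V) : ℕ := sInf {k | T.par^[k] u ∈ T.heavy aa}

/-- the last vertex before the first heavy ancestor. -/
noncomputable def lroot (T : Tree S C h) (aa : ℕ) (u : V) : V := T.par^[T.hdist aa u - 1] u

/-- decomposition of the tree into pieces. -/
structure Pieces (T : Tree S C h) (b : ℕ) where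
  L0 : Finset V
  top : V → V
  card_L0 : L0.card < b
  par_L0 : ∀ v ∈ L0, T.par v ∈ L0
  top_mem : ∀ v ∈ C, v ∉ L0 → top v ∈ C ∧ top v ∉ L0
  top_top : ∀ v ∈ C, v ∉ L0 → top (top v) = top v
  step : ∀ v ∈ C, v ∉ L0 → v ≠ top v → T.par v ∉ L0 ∧ top (T.par v) = top v
  reach : ∀ v ∈ C, v ∉ L0 → ∃ j : ℕ, T.par^[j] v = top v
  low : ∀ v ∈ C, v ∉ L0 → b ≤ ((C \ L0).filter fun w => top w = top v).card
  high : ∀ v ∈ C, v ∉ L0 → ((C \ L0).filter fun w => top w = top v).card ≤ S.d * b

namespace Pieces

variable {T : Tree S C h} {b : ℕ}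

/-- the tops of the pieces. -/
def tops (P : T.Pieces b) : Finset V := (C \ P.L0).filter fun v => P.top v = v

/-- the heavy vertices of the piece with top `i`. -/
noncomputable def hv (P : T.Pieces b) (aa : ℕ) (i : V) : Finset V :=
  (T.heavy aa).filter fun v => v ∉ P.L0 ∧ P.top v = i

/-- `p` is the root of a light subtree in the piece with top `i`. -/
structure LightRoot (P : T.Pieces b) (aa : ℕ) (i p : V) : Prop where
  mem : p ∈ C
  light : p ∉ T.heavy aa
  par : T.par p ∈ T.heavy aa
  nL : p ∉ P.L0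
  top : P.top p = i

/-- `M` is a link from the piece `i` to the piece `j` avoiding `W`. -/
structure IsLink (P : T.Pieces b) (aa k1 : ℕ) (W : Finset V) (i j : V) (M : Finset V) : Prop where
  sub : M ⊆ C
  light : Disjoint M (T.heavy aa)
  disj : Disjoint M W
  card : M.card ≤ k1 + 1
  walk : ∃ p q, P.LightRoot aa i p ∧ P.LightRoot aa j q ∧ S.Walk M k1 p q

end Pieces

end Tree

/-- the local network of the part `C`. -/
structure LNet (S : Surf D V) (C : Finset V) (k0 bet : ℕ) where
  ter : Finset V
  hub : V → V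
  dep : V → ℕ
  cor : V → V → Finset V
  ter_sub : ter ⊆ C
  hub_mem : ∀ v ∈ ter, hub v ∈ C
  cor_sub : ∀ i j, cor i j ⊆ C
  cor_ter : ∀ i j, Disjoint (cor i j) ter
  cor_disj : ∀ i j i' j', i' ≠ i → i' ≠ j → j' ≠ i → j' ≠ j → Disjoint (cor i j) (cor i' j')
  hub_card : ∀ i, (ter.filter fun v => hub v = i).card ≤ bet
  path : ∀ u u', u ∈ ter → u' ∈ ter → hub u ≠ hub u' →
    ∃ (k : ℕ) (v : ℕ → V), k < k0 ∧ v 0 = u ∧ v k = u' ∧ (∀ l < k, S.Adj (v l) (v (l + 1))) ∧
      (∀ l ≤ k, ∀ l' ≤ k, v l = v l' → l = l') ∧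
      ∀ l ≤ k, v l ∈ C ∧ (v l ∈ cor (hub u) (hub u') ∨
        (v l ∈ ter ∧ hub (v l) = hub u ∧ (v l = u ∨ dep (v l) < dep u)) ∨
        (v l ∈ ter ∧ hub (v l) = hub u' ∧ (v l = u' ∨ dep (v l) < dep u')))

end Surf

end Pool.Agent.DSW
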