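import Pool.Agent.DSW.GDef

/-!
# The network of the whole surface (helper13)

Call `i : V` large if `8λ < d |{v | c v = i}|`, and choose a local network `L i` for every large `i`.
`ter = {v | c v is not large, or v ∈ (L (c v)).ter}`, `hub v = v` if `c v` is not large, `(L (c v)).hub v` otherwise;
`dep v = 0` or `(L (c v)).dep v`; `cor i j = (L (c i)).cor i j` if `c i = c j` is large, `∅` otherwise.
`hub v` has the same colour as `v` for `v ∈ ter` (`hub_mem`).
`cor_ter`: `cor i j` is contained in the part of `c i`, where `ter` is `(L (c i)).ter`.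
`cor_disj`: same colour: `LNet.cor_disj`; different colours: the corridors are contained in different parts.
`hub_card`: all `v ∈ ter` with `hub v = i` have colour `c i`; if `c i` is large use `LNet.hub_card`, otherwise the set is
contained in `{i}` and `bet ≥ 1`.
`path`: `c u = c u'` is large, use `LNet.path` (`v l` in the part of `c u` means `c (v l) = c u`).
Size: `univ \ ter` is the union over the large `i` of `{v | c v = i} \ (L i).ter`, so it has at most
`∑ (|C_i| ε + b') ≤ |V| ε + b' #large` elements, and `8 λ #large ≤ ∑ d |C_i| ≤ d |V|`.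
-/

set_option autoImplicit false

namespace Pool.Agent.DSW

open Equiv Finset

namespace Surf

variable {D V : Type} [Fintype D] [DecidableEq D] [Fintype V] [DecidableEq V] {S : Surf D V}

/-- the parts -/
private def part (c : V → V) (i : V) : Finset V := univ.filter fun v => c v = i

omit [DecidableEq D] [Fintype D] in
private theorem mem_part {c : V → V} {i v : V} : v ∈ part c i ↔ c v = i := by
  simp [part]

private def large (S : Surf D V) (lam : ℕ) (c : V → V) (i : V) : Prop :=
  8 * lam < S.d * (part c i).card

section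

variable {lam k0 bet : ℕ} {c : V → V} (L : ∀ i, large S lam c i → S.LNet (part c i) k0 bet)

open Classical in
private noncomputable def gter : Finset V :=
  univ.filter fun v => ∀ h : large S lam c (c v), v ∈ (L (c v) h).ter

open Classical in
private noncomputable def ghub (v : V) : V :=
  if h : large S lam c (c v) then (L (c v) h).hub v else v

open Classical in
private noncomputable def gdep (v : V) : ℕ :=
  if h : large S lam c (c v) then (L (c v) h).dep v else 0

open Classical in
private noncomputable def gcor (i j : V) : Finset V :=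
  if h : large S lam c (c i) then (if c i = c j then (L (c i) h).cor i j else ∅) else ∅

private theorem mem_gter {v a : V} (hv : c v = a) (h : large S lam c a) :
    v ∈ gter L ↔ v ∈ (L a h).ter := by
  subst hv
  simp only [gter, Finset.mem_filter, Finset.mem_univ, true_and]
  exact ⟨fun h1 => h1 h, fun h1 _ => h1⟩

private theorem ghub_eq {v a : V} (hv : c v = a) (h : large S lam c a) :
    ghub L v = (L a h).hub v := by
  subst hv
  unfold ghub
  rw [dif_pos h]

private theorem ghub_small {v : V} (h : ¬ large S lam c (c v)) : ghub L v = v := by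
  unfold ghub
  rw [dif_neg h]

private theorem gdep_eq {v a : V} (hv : c v = a) (h : large S lam c a) :
    gdep L v = (L a h).dep v := by
  subst hv
  unfold gdep
  rw [dif_pos h]

private theorem gcor_eq {i j a : V} (hi : c i = a) (hj : c j = a) (h : large S lam c a) :
    gcor L i j = (L a h).cor i j := by
  subst hi
  unfold gcor
  rw [dif_pos h, if_pos hj.symm]

private theorem mem_gcor {i j v : V} (hv : v ∈ gcor L i j) :
    ∃ h : large S lam c (c v), v ∈ (L (c v) h).cor i j := by
  unfold gcor at hv
  split_ifs at hv with h h1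
  · have h2 : c v = c i := mem_part.1 ((L (c i) h).cor_sub i j hv)
    rw [h2]
    exact ⟨h, hv⟩
  · simp at hv
  · simp at hv

private theorem c_ghub {v : V} (hv : v ∈ gter L) : c (ghub L v) = c v := by
  by_cases h : large S lam c (c v)
  · rw [ghub_eq L rfl h]
    exact mem_part.1 ((L (c v) h).hub_mem v ((mem_gter L rfl h).1 hv))
  · rw [ghub_small L h]

private theorem gcor_ter (i j : V) : Disjoint (gcor L i j) (gter L) := by
  rw [Finset.disjoint_left]
  intro v hv hv'
  obtain ⟨h, h1⟩ := mem_gcor L hv
  exact (Finset.disjoint_left.1 ((L (c v) h).cor_ter i j)) h1 ((mem_gter L rfl h).1 hv')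

private theorem gcor_disj (i j i' j' : V) (h1 : i' ≠ i) (h2 : i' ≠ j) (h3 : j' ≠ i) (h4 : j' ≠ j) :
    Disjoint (gcor L i j) (gcor L i' j') := by
  rw [Finset.disjoint_left]
  intro v hv hv'
  obtain ⟨h, h5⟩ := mem_gcor L hv
  obtain ⟨h', h6⟩ := mem_gcor L hv'
  exact (Finset.disjoint_left.1 ((L (c v) h).cor_disj i j i' j' h1 h2 h3 h4)) h5 h6

private theorem ghub_card (hbet : 0 < bet) (i : V) :
    ((gter L).filter fun v => ghub L v = i).card ≤ bet := by
  by_cases h : large S lam c (c i)
  · refine (Finset.card_le_card ?_).trans ((L (c i) h).hub_card i)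
    intro v hv
    rw [Finset.mem_filter] at hv ⊢
    have h1 : c v = c i := by rw [← hv.2, c_ghub L hv.1]
    exact ⟨(mem_gter L h1 h).1 hv.1, by rw [← ghub_eq L h1 h]; exact hv.2⟩
  · refine (Finset.card_le_card (t := {i}) ?_).trans (by rw [Finset.card_singleton]; exact hbet)
    intro v hv
    rw [Finset.mem_filter] at hv
    have h1 : c v = c i := by rw [← hv.2, c_ghub L hv.1]
    rw [Finset.mem_singleton, ← hv.2, ghub_small L (by rw [h1]; exact h)]

private theorem gpath (u u' : V) (hu : u ∈ gter L) (hu' : u' ∈ gter L) (hc : c u = c u')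
    (hne : ghub L u ≠ ghub L u') (hl : 8 * lam < S.d * (univ.filter fun v => c v = c u).card) :
    ∃ (k : ℕ) (v : ℕ → V), k < k0 ∧ v 0 = u ∧ v k = u' ∧ (∀ l < k, S.Adj (v l) (v (l + 1))) ∧
      (∀ l ≤ k, ∀ l' ≤ k, v l = v l' → l = l') ∧
      ∀ l ≤ k, c (v l) = c u ∧ (v l ∈ gcor L (ghub L u) (ghub L u') ∨
        (v l ∈ gter L ∧ ghub L (v l) = ghub L u ∧ (v l = u ∨ gdep L (v l) < gdep L u)) ∨
        (v l ∈ gter L ∧ ghub L (v l) = ghub L u' ∧ (v l = u' ∨ gdep L (v l) < gdep L u'))) := by
  have h : large S lam c (c u) := hl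
  have e1 := ghub_eq L rfl h
  have e2 := ghub_eq L hc.symm h
  rw [e1, e2] at hne
  obtain ⟨k, v, h1, h2, h3, h4, h5, h6⟩ := (L (c u) h).path u u' ((mem_gter L rfl h).1 hu)
    ((mem_gter L hc.symm h).1 hu') hne
  refine ⟨k, v, h1, h2, h3, h4, h5, fun l hl => ?_⟩
  obtain ⟨h7, h8⟩ := h6 l hl
  have h9 : c (v l) = c u := mem_part.1 h7
  refine ⟨h9, ?_⟩
  have e3 : gcor L (ghub L u) (ghub L u') = (L (c u) h).cor ((L (c u) h).hub u) ((L (c u) h).hub u') := by
    rw [gcor_eq L (c_ghub L hu) (by rw [c_ghub L hu', hc]) h, e1, e2]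
  rw [e3, e1, e2, ghub_eq L h9 h, gdep_eq L h9 h, gdep_eq L rfl h, gdep_eq L hc.symm h,
    mem_gter L h9 h]
  exact h8

end

theorem glob_net {lam k0 bet : ℕ} (hlam : 0 < lam) (hbet : 0 < bet) (c : V → V) {ε b' : ℝ} (hε : 0 ≤ ε)
    (hb : 0 ≤ b')
    (hL : ∀ i, 8 * lam < S.d * (univ.filter fun v => c v = i).card →
      ∃ L : S.LNet (univ.filter fun v => c v = i) k0 bet,
        (((univ.filter fun v => c v = i) \ L.ter).card : ℝ) ≤ (univ.filter fun v => c v = i).card * ε + b') :
    ∃ N : S.Net lam k0 bet, N.c = c ∧ ((univ \ N.ter).card : ℝ) ≤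
      Fintype.card V * ε + b' * (Fintype.card V * S.d / (8 * lam)) := by
  classical
  choose L hLc using hL
  refine ⟨{ c := c
            ter := gter (S := S) (lam := lam) (c := c) L
            hub := ghub (S := S) (lam := lam) (c := c) L
            dep := gdep (S := S) (lam := lam) (c := c) L
            cor := gcor (S := S) (lam := lam) (c := c) L
            cor_ter := gcor_ter (S := S) (lam := lam) (c := c) L
            cor_disj := gcor_disj (S := S) (lam := lam) (c := c) L
            hub_card := ghub_card (S := S) (lam := lam) (c := c) L hbet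
            path := gpath (S := S) (lam := lam) (c := c) L }, rfl, ?_⟩
  show ((univ \ gter (S := S) (lam := lam) (c := c) L).card : ℝ) ≤ _
  have hlam' : (0 : ℝ) < 8 * (lam : ℝ) := by
    have : (0 : ℝ) < lam := by exact_mod_cast hlam
    linarith
  -- the pieces of the complement
  have h1 : univ \ gter (S := S) (lam := lam) (c := c) L ⊆
      (univ : Finset V).biUnion fun i =>
        if h : large S lam c i then part c i \ (L i h).ter else ∅ := by
    intro v hv
    rw [Finset.mem_sdiff] at hv
    rw [Finset.mem_biUnion]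
    refine ⟨c v, Finset.mem_univ _, ?_⟩
    by_cases h : large S lam c (c v)
    · rw [dif_pos h, Finset.mem_sdiff]
      exact ⟨mem_part.2 rfl, fun h2 => hv.2 ((mem_gter (S := S) (lam := lam) (c := c) L rfl h).2 h2)⟩
    · exfalso
      apply hv.2
      simp only [gter, Finset.mem_filter, Finset.mem_univ, true_and]
      exact fun h2 => absurd h2 h
  have h2 : ∀ i : V, (((if h : large S lam c i then part c i \ (L i h).ter else ∅ : Finset V)).card : ℝ)
      ≤ (part c i).card * ε + b' * (S.d * (part c i).card / (8 * lam)) := by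
    intro i
    have h3 : (0 : ℝ) ≤ S.d * (part c i).card / (8 * lam) := by positivity
    by_cases h : large S lam c i
    · rw [dif_pos h]
      have h4 : (((part c i) \ (L i h).ter).card : ℝ) ≤ (part c i).card * ε + b' := hLc i h
      have h5 : (1 : ℝ) ≤ S.d * (part c i).card / (8 * lam) := by
        rw [le_div_iff₀ hlam', one_mul]
        have h6 : 8 * lam < S.d * (part c i).card := h
        exact_mod_cast h6.le
      have h6 : b' * 1 ≤ b' * (S.d * (part c i).card / (8 * lam)) :=
        mul_le_mul_of_nonneg_left h5 hb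
      linarith
    · rw [dif_neg h, Finset.card_empty, Nat.cast_zero]
      positivity
  have h3 : ((univ \ gter (S := S) (lam := lam) (c := c) L).card : ℝ) ≤
      ∑ i : V, ((part c i).card * ε + b' * (S.d * (part c i).card / (8 * lam))) := by
    have h4 := (Finset.card_le_card h1).trans Finset.card_biUnion_le
    have h5 : ((univ \ gter (S := S) (lam := lam) (c := c) L).card : ℝ) ≤
        ((∑ i : V, (if h : large S lam c i then part c i \ (L i h).ter else ∅ : Finset V).card : ℕ) : ℝ) := by
      exact_mod_cast h4
    refine h5.trans ?_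
    rw [Nat.cast_sum]
    exact Finset.sum_le_sum fun i _ => h2 i
  refine h3.trans (le_of_eq ?_)
  have h4 : ((∑ i : V, (part c i).card : ℕ) : ℝ) = Fintype.card V := by
    have h5 := Finset.card_eq_sum_card_fiberwise (s := (univ : Finset V)) (t := univ) (f := c)
      (fun _ _ => Finset.mem_coe.2 (Finset.mem_univ _))
    rw [Finset.card_univ] at h5
    rw [h5]
    rfl
  rw [Nat.cast_sum] at h4
  rw [Finset.sum_add_distrib, ← Finset.sum_mul, h4, ← Finset.mul_sum, ← Finset.sum_div,
    ← Finset.mul_sum, h4]
  ring

end Surf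

end Pool.Agent.DSW
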