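import Pool.Agent.DSW.Ports
import Pool.Agent.DSW.Basic

/-!
# Good open sides on a long component of a state (helper13)

Apply `ports` with `σ = phi s.G`, `O = univ \ s.G`, `good = S.Good N s`, `hub x = N.hub (τ (a x))`,
`ν = |pend| + inter + d |terᶜ| + d β |U|`, `β := d β`.

`h8`: the open elements of the cycle of `z0` are `comp s.G z0`.
All elements `x` of the cycle of `z0` have `τ x ∈ s.P`: otherwise `τ z0 ∉ s.P` (`same_tau`), and `len s.G z0 ≤ d ≤ λ` by
`len_out`, contradiction to `8λ < len s.G z0`.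
`hbad`: an open element `x` of the cycle of `z0` which is not good satisfies one of: `x ∈ pend`; `c (τ x) ≠ c (τ (a x))`
(at most `inter` elements); `τ (a x) ∉ ter` (at most `d |univ \ ter|` elements: they are `a y` with `τ y ∉ ter`, use
`S.deg`); `τ (a x) ∈ ter` and `hub (τ (a x)) ∈ U` (at most `d β |U|` elements: for each hub at most `β` polygons,
`hub_card`, each with at most `d` sides).  Indeed if none of these holds then `c (τ x) = c (τ (a x))`, so `τ (a x) ∉ P`
(otherwise `x ∈ pend`, as `τ x ∈ P`, `x ∉ G`), so `x` is good.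
`hhub`: `good x` and `hub (τ (a x)) = i` imply that `τ (a x)` is one of the at most `β` polygons of `ter` with hub `i`.
-/

set_option autoImplicit false

namespace Pool.Agent.DSW

open Equiv Finset

namespace Surf

variable {D V : Type} [Fintype D] [DecidableEq D] [Fintype V] [DecidableEq V] {S : Surf D V}

theorem card_tau_le (A : Finset V) : (univ.filter fun x => S.τ x ∈ A).card ≤ S.d * A.card := by
  have h1 : (univ.filter fun x => S.τ x ∈ A) = A.biUnion fun v => univ.filter fun x => S.τ x = v := by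
    ext x
    simp
  rw [h1]
  refine (card_biUnion_le).trans ?_
  refine (sum_le_card_nsmul A _ S.d fun v _ => S.deg v).trans ?_
  rw [smul_eq_mul, Nat.mul_comm]

theorem card_tau_a_le (A : Finset V) : (univ.filter fun x => S.τ (S.a x) ∈ A).card ≤ S.d * A.card := by
  refine le_trans ?_ (card_tau_le A)
  refine card_le_card_of_injOn (fun x => S.a x) ?_ ?_
  · intro x hx
    simpa using hx
  · intro x _ y _ h
    exact S.a.injective h

/-- number of sides which join different parts. -/
noncomputable def inter (S : Surf D V) (c : V → V) : ℕ := (univ.filter fun x => c (S.τ x) ≠ c (S.τ (S.a x))).card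

open Classical in
theorem ports_state {lam k0 bet : ℕ} {N : S.Net lam k0 bet} {s : State D V} (hs : S.Ok N s) {z0 : D}
    (hz : 8 * lam < S.len s.G z0) (hd : S.d ≤ lam)
    (hnum : (S.pend N.c s.P s.G).card + S.inter N.c + S.d * (univ \ N.ter).card + S.d * bet * s.U.card
      + S.d * bet < lam) :
    ∃ (x y : D) (m p : ℕ), S.Same s.G z0 x ∧ S.Good N s x ∧ S.Good N s y ∧
      N.hub (S.τ (S.a x)) ≠ N.hub (S.τ (S.a y)) ∧ Cut (S.phi s.G) x y m p ∧
      3 * lam ≤ ((Ioo 0 m).filter fun j => (S.phi s.G ^ j) x ∉ s.G).card ∧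
      3 * lam ≤ ((Ioo m p).filter fun j => (S.phi s.G ^ j) x ∉ s.G).card := by
  have hP0 : S.τ z0 ∈ s.P := by
    by_contra hc
    have := S.len_out hs.closed hs.gP hc
    omega
  have hP : ∀ x, S.Same s.G z0 x → S.τ x ∈ s.P := fun x hx => S.same_tau hs.closed hs.gP hx hP0
  have hUcard : (N.ter.filter fun v => N.hub v ∈ s.U).card ≤ bet * s.U.card := by
    have h1 : (N.ter.filter fun v => N.hub v ∈ s.U) = s.U.biUnion fun i => N.ter.filter fun v => N.hub v = i := by
      ext v
      simp only [mem_filter, mem_biUnion]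
      constructor
      · rintro ⟨h, h'⟩
        exact ⟨_, h', h, rfl⟩
      · rintro ⟨i, hi, h, h'⟩
        exact ⟨h, h' ▸ hi⟩
    rw [h1]
    refine (card_biUnion_le).trans ?_
    refine (sum_le_card_nsmul s.U _ bet fun i _ => N.hub_card i).trans ?_
    rw [smul_eq_mul, Nat.mul_comm]
  have hbad : (univ.filter fun y => (y ∈ (univ \ s.G : Finset D) ∧ (S.phi s.G).SameCycle z0 y) ∧ ¬ S.Good N s y).card
      ≤ (S.pend N.c s.P s.G).card + S.inter N.c + S.d * (univ \ N.ter).card + S.d * bet * s.U.card := by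
    have hsub : (univ.filter fun y => (y ∈ (univ \ s.G : Finset D) ∧ (S.phi s.G).SameCycle z0 y) ∧ ¬ S.Good N s y) ⊆
        ((S.pend N.c s.P s.G ∪ univ.filter fun x => N.c (S.τ x) ≠ N.c (S.τ (S.a x))) ∪
          univ.filter fun x => S.τ (S.a x) ∈ (univ \ N.ter)) ∪
          univ.filter fun x => S.τ (S.a x) ∈ (N.ter.filter fun v => N.hub v ∈ s.U) := by
      intro x hx
      simp only [mem_filter, mem_univ, true_and, mem_sdiff] at hx
      obtain ⟨⟨hxG, hxS⟩, hbadx⟩ := hx
      simp only [mem_union, mem_filter, mem_univ, true_and, mem_sdiff, Surf.pend]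
      by_contra hcon
      push Not at hcon
      obtain ⟨⟨⟨h1, h2⟩, h3⟩, h4⟩ := hcon
      refine hbadx ⟨hxG, hP x hxS, ?_, h3, h4 h3, h2⟩
      intro hc
      exact h1 ⟨hP x hxS, hc⟩ hxG h2
    refine (card_le_card hsub).trans ?_
    refine (card_union_le _ _).trans ?_
    refine Nat.add_le_add ((card_union_le _ _).trans (Nat.add_le_add ((card_union_le _ _).trans ?_) ?_)) ?_
    · exact le_refl _
    · exact card_tau_a_le _
    · refine (card_tau_a_le _).trans ?_
      rw [Nat.mul_assoc]
      exact Nat.mul_le_mul_left _ hUcard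
  have hhub : ∀ i, (univ.filter fun y => S.Good N s y ∧ N.hub (S.τ (S.a y)) = i).card ≤ S.d * bet := by
    intro i
    have hsub : (univ.filter fun y => S.Good N s y ∧ N.hub (S.τ (S.a y)) = i) ⊆
        univ.filter fun x => S.τ (S.a x) ∈ (N.ter.filter fun v => N.hub v = i) := by
      intro x hx
      simp only [mem_filter, mem_univ, true_and] at hx ⊢
      exact ⟨hx.1.ter, hx.2⟩
    refine (card_le_card hsub).trans ?_
    refine (card_tau_a_le _).trans ?_
    exact Nat.mul_le_mul_left _ (N.hub_card i)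
  have h8 : 8 * lam < (univ.filter fun y => y ∈ (univ \ s.G : Finset D) ∧ (S.phi s.G).SameCycle z0 y).card := by
    have h1 : (univ.filter fun y => y ∈ (univ \ s.G : Finset D) ∧ (S.phi s.G).SameCycle z0 y) = S.comp s.G z0 := by
      ext y
      simp only [mem_filter, mem_univ, true_and, mem_sdiff, S.mem_comp]
      rfl
    rw [h1]
    exact hz
  obtain ⟨x, y, m, p, hx, hy, hxs, hgx, hgy, hne, hcut, hA, hB⟩ :=
    ports (S.phi s.G) (univ \ s.G) z0 (S.Good N s) (fun x => N.hub (S.τ (S.a x))) h8 hbad (fun i => by convert hhub i) (by omega)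
  refine ⟨x, y, m, p, hxs, hgx, hgy, hne, hcut, ?_, ?_⟩
  · refine hA.trans (le_of_eq ?_)
    congr 1
    ext j
    simp
  · refine hB.trans (le_of_eq ?_)
    congr 1
    ext j
    simp

end Surf

end Pool.Agent.DSW
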