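import Pool.Agent.DSW.Walks
import Pool.Agent.DSW.PortsS

/-!
# Growth in an expander with few vertices removed (helper13)

`nbh C W A`: the vertices of `C \ W` which are in `A` or adjacent to a vertex of `A`.

`nbh_card`: let `A ⊆ C \ W`, `2 |A| ≤ |C|`, `2 d |W| ≤ φ |A|`.  At least `φ |A|` sides `x` have `τ x ∈ A`, `τ (a x) ∈ C \ A`.  For each
of them `τ (a x) ∈ W` (at most `d |W| ≤ φ |A| / 2` sides, `card_tau_a_le`) or `τ (a x) ∈ nbh C W A \ A` (at most
`d |nbh C W A \ A|` sides).  So `d |nbh \ A| ≥ φ |A| / 2` and `|nbh| ≥ (1 + φ/(2d)) |A|` (`A ⊆ nbh`).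

`ball C W A t`: the vertices `v` of `C \ W` with `Walk (C \ W) t u v` for some `u ∈ A`.  `ball 0 = A`, monotone in `t`,
`nbh C W (ball t) ⊆ ball (t+1)`.
`ball_big`: if `2 |ball t0| ≤ |C|` then `2 |ball t| ≤ |C|` for all `t ≤ t0`, and `2 d |W| ≤ φ |A| ≤ φ |ball t|`, so by `nbh_card` and
induction `|ball t| ≥ (1 + φ/(2d))^t |A|`, for `t = t0` more than `|C|`: contradiction.  So `2 |ball t0| > |C|`.
`link`: both balls are subsets of `C` with more than `|C|/2` elements, so they meet in some `w`;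
`walk_trans` and `walk_symm`.
`diam`: `link` with `W = ∅`, `A = {u}`, `B = {v}`.
-/

set_option autoImplicit false

namespace Pool.Agent.DSW

open Equiv Finset

namespace Surf

variable {D V : Type} [Fintype D] [DecidableEq D] [Fintype V] [DecidableEq V] {S : Surf D V}

open Classical in
noncomputable def nbh (S : Surf D V) (C W A : Finset V) : Finset V :=
  (C \ W).filter fun v => v ∈ A ∨ ∃ u ∈ A, S.Adj u v

open Classical in
noncomputable def ball (S : Surf D V) (C W A : Finset V) (t : ℕ) : Finset V :=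
  (C \ W).filter fun v => ∃ u ∈ A, S.Walk (C \ W) t u v

open Classical in
theorem mem_ball {C W A : Finset V} {t : ℕ} {v : V} :
    v ∈ S.ball C W A t ↔ v ∈ C \ W ∧ ∃ u ∈ A, S.Walk (C \ W) t u v := by
  unfold ball
  rw [mem_filter]

open Classical in
theorem mem_nbh {C W A : Finset V} {v : V} :
    v ∈ S.nbh C W A ↔ v ∈ C \ W ∧ (v ∈ A ∨ ∃ u ∈ A, S.Adj u v) := by
  unfold nbh
  rw [mem_filter]

theorem ball_sub {C W A : Finset V} {t : ℕ} : S.ball C W A t ⊆ C \ W := by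
  intro v hv
  exact (mem_ball.mp hv).1

theorem ball_mono {C W A : Finset V} {t t' : ℕ} (h : t ≤ t') : S.ball C W A t ⊆ S.ball C W A t' := by
  intro v hv
  obtain ⟨h1, u, hu, h2⟩ := mem_ball.mp hv
  exact mem_ball.mpr ⟨h1, u, hu, walk_len h2 h⟩

theorem sub_ball {C W A : Finset V} (hA : A ⊆ C \ W) (t : ℕ) : A ⊆ S.ball C W A t := by
  intro v hv
  exact mem_ball.mpr ⟨hA hv, v, hv, walk_refl (hA hv) t⟩

theorem nbh_ball {C W A : Finset V} {t : ℕ} : S.nbh C W (S.ball C W A t) ⊆ S.ball C W A (t + 1) := by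
  intro v hv
  obtain ⟨h1, h2⟩ := mem_nbh.mp hv
  rcases h2 with h2 | ⟨u, hu, h2⟩
  · exact ball_mono (Nat.le_succ t) h2
  · have hu' := ball_sub hu
    obtain ⟨_, w, hw, h4⟩ := mem_ball.mp hu
    exact mem_ball.mpr ⟨h1, w, hw, walk_trans h4 (walk_one hu' h1 (Or.inl h2))⟩

theorem nbh_card {φ : ℝ} {C W A : Finset V} (hC : S.Expands φ C) (hd : 0 < S.d) (hA : A ⊆ C \ W)
    (h2 : 2 * A.card ≤ C.card) (hW : 2 * S.d * W.card ≤ φ * A.card) :
    (1 + φ / (2 * S.d)) * A.card ≤ (S.nbh C W A).card := by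
  have hAC : A ⊆ C := hA.trans sdiff_subset
  have h1 := hC A hAC h2
  have hsub : A ⊆ S.nbh C W A := by
    intro v hv
    exact mem_nbh.mpr ⟨hA hv, Or.inl hv⟩
  have hX : S.e A (C \ A) ≤ S.d * W.card + S.d * (S.nbh C W A \ A).card := by
    refine le_trans ?_ (Nat.add_le_add (card_tau_a_le (S := S) W) (card_tau_a_le (S := S) (S.nbh C W A \ A)))
    refine le_trans (card_le_card ?_) (card_union_le _ _)
    intro x hx
    rw [mem_filter] at hx
    obtain ⟨_, hx1, hx2⟩ := hx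
    rw [mem_sdiff] at hx2
    rw [mem_union, mem_filter, mem_filter]
    by_cases hw : S.τ (S.a x) ∈ W
    · exact Or.inl ⟨mem_univ _, hw⟩
    · refine Or.inr ⟨mem_univ _, ?_⟩
      rw [mem_sdiff]
      refine ⟨?_, hx2.2⟩
      exact mem_nbh.mpr ⟨mem_sdiff.mpr ⟨hx2.1, hw⟩, Or.inr ⟨S.τ x, hx1, x, rfl, rfl⟩⟩
  have hcard : (S.nbh C W A \ A).card + A.card = (S.nbh C W A).card := card_sdiff_add_card_eq_card hsub
  have hXr : (S.e A (C \ A) : ℝ) ≤ S.d * W.card + S.d * (S.nbh C W A \ A).card := by exact_mod_cast hX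
  have hcr : ((S.nbh C W A \ A).card : ℝ) + A.card = (S.nbh C W A).card := by exact_mod_cast hcard
  have hdr : (0 : ℝ) < S.d := by exact_mod_cast hd
  have h3 : φ * A.card / 2 ≤ S.d * ((S.nbh C W A \ A).card : ℝ) := by linarith
  have h4 : φ / (2 * S.d) * A.card ≤ ((S.nbh C W A \ A).card : ℝ) := by
    rw [div_mul_eq_mul_div, div_le_iff₀ (by positivity)]
    linarith
  rw [← hcr]
  linarith

theorem ball_big {φ : ℝ} (hφ : 0 ≤ φ) {C W A : Finset V} (hC : S.Expands φ C) (hd : 0 < S.d) (hA : A ⊆ C \ W)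
    (hne : A.Nonempty) (hW : 2 * S.d * W.card ≤ φ * A.card) {t0 : ℕ}
    (ht : (C.card : ℝ) < (1 + φ / (2 * S.d)) ^ t0) : C.card < 2 * (S.ball C W A t0).card := by
  by_contra hcon
  push Not at hcon
  have hdr : (0 : ℝ) < S.d := by exact_mod_cast hd
  have hq : 0 ≤ 1 + φ / (2 * (S.d : ℝ)) := by positivity
  have key : ∀ t, t ≤ t0 → (1 + φ / (2 * (S.d : ℝ))) ^ t * A.card ≤ (S.ball C W A t).card := by
    intro t
    induction t with
    | zero =>
      intro _
      have := card_le_card (sub_ball (S := S) hA 0)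
      rw [pow_zero, one_mul]
      exact_mod_cast this
    | succ t ih =>
      intro h
      have h1 := ih (by omega)
      have h2 : 2 * (S.ball C W A t).card ≤ C.card :=
        le_trans (Nat.mul_le_mul_left 2 (card_le_card (ball_mono (by omega)))) hcon
      have h3 : (A.card : ℝ) ≤ (S.ball C W A t).card := by
        exact_mod_cast card_le_card (sub_ball (S := S) hA t)
      have h4 := nbh_card hC hd (ball_sub (S := S) (C := C) (W := W) (A := A) (t := t)) h2
        (hW.trans (mul_le_mul_of_nonneg_left h3 hφ))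
      have h5 : ((S.nbh C W (S.ball C W A t)).card : ℝ) ≤ (S.ball C W A (t + 1)).card := by
        exact_mod_cast card_le_card (nbh_ball (S := S))
      calc (1 + φ / (2 * (S.d : ℝ))) ^ (t + 1) * A.card
          = (1 + φ / (2 * (S.d : ℝ))) * ((1 + φ / (2 * (S.d : ℝ))) ^ t * A.card) := by ring
        _ ≤ (1 + φ / (2 * (S.d : ℝ))) * (S.ball C W A t).card := mul_le_mul_of_nonneg_left h1 hq
        _ ≤ _ := h4.trans h5
  have h1 := key t0 le_rfl
  have h2 : (1 : ℝ) ≤ A.card := by exact_mod_cast hne.card_pos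
  have h3 : ((S.ball C W A t0).card : ℝ) ≤ C.card := by
    exact_mod_cast card_le_card ((ball_sub (S := S)).trans sdiff_subset)
  have h4 : (1 + φ / (2 * (S.d : ℝ))) ^ t0 ≤ (1 + φ / (2 * (S.d : ℝ))) ^ t0 * A.card :=
    le_mul_of_one_le_right (pow_nonneg hq _) h2
  linarith

theorem link {φ : ℝ} (hφ : 0 ≤ φ) {C W A B : Finset V} (hC : S.Expands φ C) (hd : 0 < S.d)
    (hA : A ⊆ C \ W) (hB : B ⊆ C \ W) (hAne : A.Nonempty) (hBne : B.Nonempty)
    (hAW : 2 * S.d * W.card ≤ φ * A.card) (hBW : 2 * S.d * W.card ≤ φ * B.card) {t0 : ℕ}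
    (ht : (C.card : ℝ) < (1 + φ / (2 * S.d)) ^ t0) :
    ∃ u ∈ A, ∃ v ∈ B, S.Walk (C \ W) (2 * t0) u v := by
  have h1 := ball_big hφ hC hd hA hAne hAW ht
  have h2 := ball_big hφ hC hd hB hBne hBW ht
  have hsub : S.ball C W A t0 ∪ S.ball C W B t0 ⊆ C :=
    union_subset ((ball_sub (S := S)).trans sdiff_subset) ((ball_sub (S := S)).trans sdiff_subset)
  have h3 := card_le_card hsub
  have h4 := card_union_add_card_inter (S.ball C W A t0) (S.ball C W B t0)
  have h5 : (S.ball C W A t0 ∩ S.ball C W B t0).Nonempty := by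
    rw [← card_pos]
    omega
  obtain ⟨w, hw⟩ := h5
  rw [mem_inter] at hw
  obtain ⟨hw1, hw2⟩ := hw
  obtain ⟨_, u, hu, h6⟩ := mem_ball.mp hw1
  obtain ⟨_, v, hv, h7⟩ := mem_ball.mp hw2
  refine ⟨u, hu, v, hv, ?_⟩
  rw [two_mul]
  exact walk_trans h6 (walk_symm h7)

theorem diam {φ : ℝ} (hφ : 0 ≤ φ) {C : Finset V} (hC : S.Expands φ C) (hd : 0 < S.d) {t0 : ℕ}
    (ht : (C.card : ℝ) < (1 + φ / (2 * S.d)) ^ t0) {u v : V} (hu : u ∈ C) (hv : v ∈ C) :
    S.Walk C (2 * t0) u v := by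
  have h := link hφ (W := ∅) (A := {u}) (B := {v}) hC hd (by simpa using hu) (by simpa using hv)
    (singleton_nonempty u) (singleton_nonempty v) (by simpa using hφ) (by simpa using hφ) ht
  obtain ⟨u', hu', v', hv', h'⟩ := h
  rw [mem_singleton] at hu' hv'
  subst hu' hv'
  exact walk_sub h' sdiff_subset

end Surf

end Pool.Agent.DSW
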