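import Pool.Agent.DSW.Walks

/-!
# Trees: iterates of the parent map, heavy and light vertices (helper13)

`iter_mem`, `iter_dep`: induction on `j`.  `iter_root`: `par^[dep v] v = root` (`iter_dep`: `dep (par^[j] v) = dep v - j`, and
`dep w = 0` for `w ∈ C` implies `w = root` by `dep_par`).
`desc_par`: `desc v ⊆ desc (par v)`.  `desc_root`: `desc root = C`.
`heavy_card`: `aa |heavy| ≤ ∑ v ∈ C, |desc v| = ∑ u ∈ C, #{v ∈ C | ∃ j, par^[j] u = v}` (double counting), and the ancestors of `u` are
`par^[j] u` with `j ≤ dep u ≤ h` (for `j ≥ dep u` it is the root), at most `h + 1` of them.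
`heavy_par`: `desc_par`.
Light vertices, `u ∈ C`, `u ∉ heavy`, `root ∈ heavy`: the set `{k | par^[k] u ∈ heavy}` contains `dep u`, so its infimum
`m = hdist u` belongs to it, `1 ≤ m ≤ h` (`u = par^[0] u ∉ heavy`), and `par^[i] u ∉ heavy` for `i < m`.
`lroot_light`: `lroot u = par^[m-1] u` is in `C`, not heavy, and its parent is heavy.
`lroot_iter`: for `i < m`: `hdist (par^[i] u) = m - i`, so `lroot (par^[i] u) = par^[m-i-1] (par^[i] u) = lroot u`.
`light_card`: all `u` with `lroot u = w` are in `desc w` and `w` is not heavy.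
`light_walk`: the walk `par^[i] u`, `i ≤ m - 1`; its vertices are light with the same `lroot` (`lroot_iter`), and have
`dep = dep u - i`, so either `i = 0` or `dep < dep u`.  Pad with lazy steps (`m - 1 ≤ h`).
`lroot_lroot`: `lroot_iter` with `i = m - 1`.
-/

set_option autoImplicit false

namespace Pool.Agent.DSW

open Equiv Finset

namespace Surf

namespace Tree

variable {D V : Type} [Fintype D] [DecidableEq D] [Fintype V] [DecidableEq V] {S : Surf D V}
variable {C : Finset V} {h : ℕ} (T : Tree S C h)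

theorem iter_mem {v : V} (hv : v ∈ C) (j : ℕ) : T.par^[j] v ∈ C := by
  induction j with
  | zero => exact hv
  | succ j ih =>
    rw [Function.iterate_succ_apply']
    exact T.par_mem _ ih

theorem iter_dep {v : V} (hv : v ∈ C) (j : ℕ) : T.dep (T.par^[j] v) = T.dep v - j := by
  induction j with
  | zero => rfl
  | succ j ih =>
    rw [Function.iterate_succ_apply']
    by_cases hr : T.par^[j] v = T.root
    · rw [hr, T.par_root, T.dep_root]
      rw [hr, T.dep_root] at ih
      omega
    · have := T.dep_par _ (T.iter_mem hv j) hr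
      omega

private theorem root_of_dep {v : V} (hv : v ∈ C) (hd : T.dep v = 0) : v = T.root := by
  by_contra hne
  have := T.dep_par v hv hne
  omega

theorem iter_root {v : V} (hv : v ∈ C) {j : ℕ} (hj : T.dep v ≤ j) : T.par^[j] v = T.root := by
  apply T.root_of_dep (T.iter_mem hv j)
  rw [T.iter_dep hv j]
  omega

theorem par_adj {v : V} (hv : v ∈ C) : S.Adj v (T.par v) ∨ v = T.par v := by
  by_cases hr : v = T.root
  · right
    rw [hr, T.par_root]
  · left
    exact T.adj v hv hr

theorem mem_desc_self {v : V} (hv : v ∈ C) : v ∈ T.desc v := by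
  simp only [desc, mem_filter]
  exact ⟨hv, 0, rfl⟩

theorem desc_par (v : V) : T.desc v ⊆ T.desc (T.par v) := by
  intro u hu
  simp only [desc, mem_filter] at hu ⊢
  obtain ⟨hu, j, hj⟩ := hu
  refine ⟨hu, j + 1, ?_⟩
  rw [Function.iterate_succ_apply', hj]

theorem desc_root : T.desc T.root = C := by
  ext u
  simp only [desc, mem_filter]
  constructor
  · intro hu
    exact hu.1
  · intro hu
    exact ⟨hu, T.dep u, T.iter_root hu le_rfl⟩

theorem heavy_sub (aa : ℕ) : T.heavy aa ⊆ C := by
  exact filter_subset _ _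

theorem heavy_par {aa : ℕ} {v : V} (hv : v ∈ T.heavy aa) : T.par v ∈ T.heavy aa := by
  unfold heavy at hv ⊢
  rw [mem_filter] at hv ⊢
  exact ⟨T.par_mem v hv.1, hv.2.trans (card_le_card (T.desc_par v))⟩

theorem root_heavy {aa : ℕ} (haa : aa ≤ C.card) : T.root ∈ T.heavy aa := by
  unfold heavy
  rw [mem_filter, desc_root]
  exact ⟨T.root_mem, haa⟩

theorem heavy_card (aa : ℕ) : aa * (T.heavy aa).card ≤ C.card * (h + 1) := by
  classical
  have e1 : aa * (T.heavy aa).card ≤ ∑ v ∈ C, (T.desc v).card := by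
    calc aa * (T.heavy aa).card = ∑ v ∈ T.heavy aa, aa := by
          rw [sum_const, smul_eq_mul, mul_comm]
      _ ≤ ∑ v ∈ T.heavy aa, (T.desc v).card := by
          apply sum_le_sum
          intro v hv
          unfold heavy at hv
          rw [mem_filter] at hv
          exact hv.2
      _ ≤ ∑ v ∈ C, (T.desc v).card :=
          sum_le_sum_of_subset (T.heavy_sub aa)
  have e2 : ∑ v ∈ C, (T.desc v).card = ∑ u ∈ C, (C.filter fun v => ∃ j : ℕ, T.par^[j] u = v).card := by
    have := sum_card_bipartiteAbove_eq_sum_card_bipartiteBelow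
      (s := C) (t := C) (fun u v => ∃ j : ℕ, T.par^[j] u = v)
    simp only [bipartiteAbove, bipartiteBelow] at this
    rw [this]
    apply sum_congr rfl
    intro v _
    unfold desc
    congr
  have e3 : ∀ u ∈ C, (C.filter fun v => ∃ j : ℕ, T.par^[j] u = v).card ≤ h + 1 := by
    intro u hu
    have hsub : (C.filter fun v => ∃ j : ℕ, T.par^[j] u = v) ⊆
        (range (h + 1)).image fun j => T.par^[j] u := by
      intro v hv
      rw [mem_filter] at hv
      obtain ⟨_, j, hj⟩ := hv
      rw [mem_image]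
      by_cases hjh : j ≤ h
      · exact ⟨j, mem_range.2 (by omega), hj⟩
      · have hd := T.dep_le u hu
        refine ⟨h, mem_range.2 (by omega), ?_⟩
        rw [← hj, T.iter_root hu hd, T.iter_root hu (by omega)]
    exact (card_le_card hsub).trans (card_image_le.trans (by simp))
  calc aa * (T.heavy aa).card ≤ ∑ v ∈ C, (T.desc v).card := e1
    _ = ∑ u ∈ C, (C.filter fun v => ∃ j : ℕ, T.par^[j] u = v).card := e2
    _ ≤ ∑ u ∈ C, (h + 1) := sum_le_sum e3
    _ = C.card * (h + 1) := by rw [sum_const, smul_eq_mul]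

variable {T} {aa : ℕ}

private theorem hdist_spec (haa : aa ≤ C.card) {u : V} (hu : u ∈ C) (hl : u ∉ T.heavy aa) :
    T.par^[T.hdist aa u] u ∈ T.heavy aa ∧ (∀ k < T.hdist aa u, T.par^[k] u ∉ T.heavy aa) ∧
      1 ≤ T.hdist aa u ∧ T.hdist aa u ≤ T.dep u := by
  have hmem : T.dep u ∈ {k | T.par^[k] u ∈ T.heavy aa} := by
    show T.par^[T.dep u] u ∈ T.heavy aa
    rw [T.iter_root hu le_rfl]
    exact T.root_heavy haa
  have hm : T.hdist aa u ∈ {k | T.par^[k] u ∈ T.heavy aa} := Nat.sInf_mem ⟨_, hmem⟩
  refine ⟨hm, ?_, ?_, Nat.sInf_le hmem⟩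
  · intro k hk hk'
    exact Nat.notMem_of_lt_sInf hk hk'
  · rcases Nat.eq_zero_or_pos (T.hdist aa u) with h0 | h0
    · exfalso
      apply hl
      have h1 : T.par^[T.hdist aa u] u ∈ T.heavy aa := hm
      rw [h0] at h1
      exact h1
    · exact h0

private theorem hdist_eq {u : V} {m : ℕ} (h1 : T.par^[m] u ∈ T.heavy aa)
    (h2 : ∀ k < m, T.par^[k] u ∉ T.heavy aa) : T.hdist aa u = m := by
  apply le_antisymm
  · exact Nat.sInf_le h1
  · by_contra hlt
    push Not at hlt
    have hm : T.hdist aa u ∈ {k | T.par^[k] u ∈ T.heavy aa} := Nat.sInf_mem ⟨_, h1⟩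
    exact h2 _ hlt hm

theorem lroot_light (haa : aa ≤ C.card) {u : V} (hu : u ∈ C) (hl : u ∉ T.heavy aa) :
    T.lroot aa u ∈ C ∧ T.lroot aa u ∉ T.heavy aa ∧ T.par (T.lroot aa u) ∈ T.heavy aa := by
  obtain ⟨h1, h2, h3, h4⟩ := hdist_spec haa hu hl
  refine ⟨T.iter_mem hu _, h2 _ (by omega), ?_⟩
  have e := Function.iterate_succ_apply' T.par (T.hdist aa u - 1) u
  have e2 : (T.hdist aa u - 1).succ = T.hdist aa u := by omega
  rw [e2] at e
  unfold lroot
  rw [← e]
  exact h1

theorem lroot_par (haa : aa ≤ C.card) {u : V} (hu : u ∈ C) (hl : u ∉ T.heavy aa) (hp : T.par u ∉ T.heavy aa) :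
    T.lroot aa (T.par u) = T.lroot aa u := by
  obtain ⟨h1, h2, h3, h4⟩ := hdist_spec haa hu hl
  have h5 : T.hdist aa u ≠ 1 := by
    intro h5
    rw [h5] at h1
    exact hp h1
  have h6 : T.hdist aa (T.par u) = T.hdist aa u - 1 := by
    apply hdist_eq
    · rw [← Function.iterate_succ_apply]
      have : (T.hdist aa u - 1).succ = T.hdist aa u := by omega
      rw [this]
      exact h1
    · intro k hk
      rw [← Function.iterate_succ_apply]
      exact h2 _ (by omega)
  unfold lroot
  rw [h6, ← Function.iterate_succ_apply]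
  congr 1
  congr 1
  omega

theorem lroot_self (haa : aa ≤ C.card) {u : V} (hu : u ∈ C) (hl : u ∉ T.heavy aa) (hp : T.par u ∈ T.heavy aa) :
    T.lroot aa u = u := by
  have h6 : T.hdist aa u = 1 := by
    apply hdist_eq
    · exact hp
    · intro k hk
      have : k = 0 := by omega
      subst this
      exact hl
  unfold lroot
  rw [h6]
  rfl

private theorem lroot_iter (haa : aa ≤ C.card) {u : V} (hu : u ∈ C) (hl : u ∉ T.heavy aa) {i : ℕ}
    (hi : i < T.hdist aa u) : T.lroot aa (T.par^[i] u) = T.lroot aa u := by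
  obtain ⟨h1, h2, h3, h4⟩ := hdist_spec haa hu hl
  induction i with
  | zero => rfl
  | succ i ih =>
    rw [Function.iterate_succ_apply']
    rw [lroot_par haa (T.iter_mem hu i) (h2 i (by omega)) ?_]
    · exact ih (by omega)
    · have := h2 (i + 1) hi
      rwa [Function.iterate_succ_apply'] at this

theorem light_card (haa : aa ≤ C.card) (w : V) :
    ((C \ T.heavy aa).filter fun u => T.lroot aa u = w).card ≤ aa := by
  classical
  by_cases hne : ((C \ T.heavy aa).filter fun u => T.lroot aa u = w).Nonempty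
  · obtain ⟨u0, hu0⟩ := hne
    rw [mem_filter, mem_sdiff] at hu0
    obtain ⟨⟨hu0, hl0⟩, hw⟩ := hu0
    have h1 := lroot_light haa hu0 hl0
    rw [hw] at h1
    have h2 : (T.desc w).card < aa := by
      by_contra hlt
      push Not at hlt
      apply h1.2.1
      unfold heavy
      rw [mem_filter]
      exact ⟨h1.1, hlt⟩
    refine le_trans (card_le_card ?_) h2.le
    intro u hu
    rw [mem_filter, mem_sdiff] at hu
    simp only [desc, mem_filter]
    exact ⟨hu.1.1, _, hu.2⟩
  · rw [not_nonempty_iff_eq_empty] at hne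
    rw [hne]
    simp

/-- the way from `u` to `lroot u`. -/
theorem light_walk (haa : aa ≤ C.card) {u : V} (hu : u ∈ C) (hl : u ∉ T.heavy aa) :
    S.Walk ((C \ T.heavy aa).filter fun w => T.lroot aa w = T.lroot aa u ∧ (w = u ∨ T.dep w < T.dep u)) h u
      (T.lroot aa u) := by
  obtain ⟨h1, h2, h3, h4⟩ := hdist_spec haa hu hl
  have hdh := T.dep_le u hu
  refine ⟨fun l => T.par^[min l (T.hdist aa u - 1)] u, ?_, ?_, ?_, ?_⟩
  · simp
  · have : min h (T.hdist aa u - 1) = T.hdist aa u - 1 := by omega
    simp only [this]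
    rfl
  · intro l _
    by_cases hlm : l < T.hdist aa u - 1
    · have e1 : min l (T.hdist aa u - 1) = l := by omega
      have e2 : min (l + 1) (T.hdist aa u - 1) = l + 1 := by omega
      simp only [e1, e2]
      rw [Function.iterate_succ_apply']
      exact T.par_adj (T.iter_mem hu l)
    · right
      have e1 : min l (T.hdist aa u - 1) = T.hdist aa u - 1 := by omega
      have e2 : min (l + 1) (T.hdist aa u - 1) = T.hdist aa u - 1 := by omega
      simp only [e1, e2]
  · intro l _
    have hi : min l (T.hdist aa u - 1) < T.hdist aa u := by omega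
    rw [mem_filter, mem_sdiff]
    refine ⟨⟨T.iter_mem hu _, h2 _ hi⟩, lroot_iter haa hu hl hi, ?_⟩
    rcases Nat.eq_zero_or_pos (min l (T.hdist aa u - 1)) with h0 | h0
    · left
      simp only [h0]
      rfl
    · right
      rw [T.iter_dep hu]
      omega

/-- induction along the way from a light vertex to its `lroot`. -/
theorem light_induct (haa : aa ≤ C.card) {p : V → Prop}
    (hp : ∀ w ∈ C, w ∉ T.heavy aa → T.par w ∉ T.heavy aa → p w → p (T.par w))
    {u : V} (hu : u ∈ C) (hl : u ∉ T.heavy aa) (h0 : p u) : p (T.lroot aa u) := by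
  obtain ⟨h1, h2, h3, h4⟩ := hdist_spec haa hu hl
  have key : ∀ i, i ≤ T.hdist aa u - 1 → p (T.par^[i] u) := by
    intro i
    induction i with
    | zero =>
      intro _
      exact h0
    | succ i ih =>
      intro hi
      rw [Function.iterate_succ_apply']
      apply hp _ (T.iter_mem hu i) (h2 i (by omega)) _ (ih (by omega))
      have := h2 (i + 1) (by omega)
      rwa [Function.iterate_succ_apply'] at this
  exact key _ le_rfl

end Tree

end Surf

end Pool.Agent.DSW
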