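import Pool.Agent.DSW.Def

/-!
# The weight of a component (helper13)

`wt λ l = min l λ + (l - 4λ)` (truncated subtraction).  All statements are case distinctions (`unfold wt; omega` after
splitting `min`).
`wt_split`: `a > 8λ` gives `wt a = a - 3λ`.  If both parts are `≥ 4λ` the new weight is `a1 + a2 - 6λ ≤ a - 5λ`; if one
part is `< 4λ` (its weight is `λ`) the other part is at most `a - 2λ`, so its weight is at most `max (a - 5λ) λ`, and
`max (a - 4λ) 2λ + λ ≤ a - 3λ`.
`sh_one`: `wt l = l` for `l ≤ λ`.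
-/

set_option autoImplicit false

namespace Pool.Agent.DSW

theorem wt_le (lam l : ℕ) : wt lam l ≤ l := by
  unfold wt
  rcases le_total l lam with h | h
  · rw [min_eq_left h]; omega
  · rw [min_eq_right h]; omega

theorem wt_small {lam l : ℕ} (h : l ≤ lam) : wt lam l = l := by
  unfold wt
  rw [min_eq_left h]; omega

theorem wt_absorb {lam s t u : ℕ} (ht : t < lam) (hu : u ≤ s + t) : wt lam u ≤ wt lam t + wt lam s := by
  unfold wt
  omega

theorem wt_split {lam a a1 a2 k : ℕ} (ha : 8 * lam < a) (h1 : 3 * lam ≤ a1) (h2 : 3 * lam ≤ a2)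
    (h : a1 + a2 ≤ a + k) (hk : k ≤ lam) : wt lam a1 + wt lam a2 + lam ≤ wt lam a := by
  unfold wt
  omega

theorem sh_nonneg (lam l : ℕ) : 0 ≤ sh lam l := by
  unfold sh
  positivity

theorem sh_le_one (lam l : ℕ) : sh lam l ≤ 1 := by
  unfold sh
  exact div_le_one_of_le₀ (by exact_mod_cast wt_le lam l) (by positivity)

theorem sh_one {lam l : ℕ} (h0 : 0 < l) (h : l ≤ lam) : sh lam l = 1 := by
  unfold sh
  rw [wt_small h]
  exact div_self (by exact_mod_cast h0.ne')

theorem mul_sh (lam l : ℕ) : (l : ℝ) * sh lam l = wt lam l := by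
  unfold sh
  rcases Nat.eq_zero_or_pos l with h | h
  · subst h
    simp [wt]
  · exact mul_div_cancel₀ _ (by exact_mod_cast h.ne')

end Pool.Agent.DSW
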