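import Pool.Agent.DSW.Basic
import Pool.Agent.DSW.Weight

/-!
# The potential: general facts (helper13)

`om λ P G = ∑ x ∈ opn P G, sh λ (len G x)`, where `opn P G` is the set of open sides of the polygons of `P`.

`om_nonneg`, `om_le`: `0 ≤ sh ≤ 1`.
`om_comp`: all `x ∈ comp G z` have `len G x = len G z = |comp G z|`, so the sum is `l * sh l = wt l`.
`om_local`: split both sums by `Z`; the parts with `¬ Z` agree term by term.
-/

set_option autoImplicit false

namespace Pool.Agent.DSW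

open Equiv Finset

namespace Surf

variable {D V : Type} [Fintype D] [DecidableEq D] [Fintype V] [DecidableEq V] (S : Surf D V)

theorem mem_opn {P : Finset V} {G : Finset D} {x : D} : x ∈ S.opn P G ↔ S.τ x ∈ P ∧ x ∉ G := by
  simp [opn]

theorem om_nonneg (lam : ℕ) (P : Finset V) (G : Finset D) : 0 ≤ S.om lam P G := by
  exact Finset.sum_nonneg fun x _ => sh_nonneg lam _

theorem om_le (lam : ℕ) (P : Finset V) (G : Finset D) : S.om lam P G ≤ Fintype.card D := by
  calc S.om lam P G ≤ ∑ _x ∈ S.opn P G, (1 : ℝ) := Finset.sum_le_sum fun x _ => sh_le_one lam _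
    _ = ((S.opn P G).card : ℝ) := by simp
    _ ≤ Fintype.card D := by exact_mod_cast Finset.card_le_univ _

theorem om_empty (lam : ℕ) (G : Finset D) : S.om lam ∅ G = 0 := by
  have h : S.opn ∅ G = ∅ := by
    ext x
    simp [opn]
  simp [om, h]

theorem om_comp (lam : ℕ) (G : Finset D) (z : D) :
    ∑ x ∈ S.comp G z, sh lam (S.len G x) = wt lam (S.len G z) := by
  have h : ∀ x ∈ S.comp G z, sh lam (S.len G x) = sh lam (S.len G z) := by
    intro x hx
    rw [S.len_eq ((S.mem_comp.1 hx).2)]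
  rw [Finset.sum_congr rfl h, Finset.sum_const, nsmul_eq_mul]
  exact mul_sh lam (S.len G z)

theorem om_sum_le (lam : ℕ) (G A : Finset D) : ∑ x ∈ A, sh lam (S.len G x) ≤ A.card := by
  calc ∑ x ∈ A, sh lam (S.len G x) ≤ ∑ _x ∈ A, (1 : ℝ) := Finset.sum_le_sum fun x _ => sh_le_one lam _
    _ = (A.card : ℝ) := by simp

theorem om_sum_nonneg (lam : ℕ) (G A : Finset D) : 0 ≤ ∑ x ∈ A, sh lam (S.len G x) := by
  exact Finset.sum_nonneg fun x _ => sh_nonneg lam _

open Classical in
theorem om_local {lam : ℕ} {P P' : Finset V} {G G' : Finset D} (Z : D → Prop)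
    (h1 : ∀ x, ¬ Z x → (x ∈ S.opn P' G' ↔ x ∈ S.opn P G))
    (h2 : ∀ x, ¬ Z x → x ∈ S.opn P G → S.len G' x = S.len G x) :
    S.om lam P' G' + ∑ x ∈ (S.opn P G).filter Z, sh lam (S.len G x)
      = S.om lam P G + ∑ x ∈ (S.opn P' G').filter Z, sh lam (S.len G' x) := by
  have e1 : S.om lam P' G' = ∑ x ∈ (S.opn P' G').filter Z, sh lam (S.len G' x)
      + ∑ x ∈ (S.opn P' G').filter (fun x => ¬ Z x), sh lam (S.len G' x) :=
    (Finset.sum_filter_add_sum_filter_not _ _ _).symm
  have e2 : S.om lam P G = ∑ x ∈ (S.opn P G).filter Z, sh lam (S.len G x)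
      + ∑ x ∈ (S.opn P G).filter (fun x => ¬ Z x), sh lam (S.len G x) :=
    (Finset.sum_filter_add_sum_filter_not _ _ _).symm
  have e3 : (S.opn P' G').filter (fun x => ¬ Z x) = (S.opn P G).filter (fun x => ¬ Z x) := by
    ext x
    simp only [Finset.mem_filter]
    constructor
    · rintro ⟨h, hz⟩
      exact ⟨(h1 x hz).1 h, hz⟩
    · rintro ⟨h, hz⟩
      exact ⟨(h1 x hz).2 h, hz⟩
  have e4 : ∑ x ∈ (S.opn P' G').filter (fun x => ¬ Z x), sh lam (S.len G' x)
      = ∑ x ∈ (S.opn P G).filter (fun x => ¬ Z x), sh lam (S.len G x) := by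
    rw [e3]
    refine Finset.sum_congr rfl fun x hx => ?_
    obtain ⟨hx1, hx2⟩ := Finset.mem_filter.1 hx
    rw [h2 x hx2 hx1]
  rw [e1, e2, e4]
  ring

end Surf

end Pool.Agent.DSW
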