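import Pool.Agent.DSW.PortsS
import Pool.Agent.DSW.OmA

/-!
# Numerical hypotheses, invariants and the measure (helper13)

`d` sides, `λ`, `k0` length of strands, `β` size of the hubs, `Q ≥ |D| / λ`, `R` threshold for pending sides, `B` size of a
batch, `Um` bound for the number of used hubs.

`inv_num`: `(2 d k0 / λ) Ω ≥ 0`, so `j1` gives `pn ≤ R + 2 d B + 2 d k0 Q`; `j2` gives `|U| ≤ Um` (all other terms are
nonnegative); add up and use `Num.hnum` (cast to the reals).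
`inv_zero`: state `⟨∅, ∅, ∅, ∅⟩`: `Ok` is trivial (`len ∅ ≤ d ≤ λ`, `len_empty`), `pend = ∅`, `Ω = 0` (`om_empty`); `j2` is
`64 Q^2 / R * 4 d |ter| + 2 d / λ |ter| ≤ Um`, which is `Num.hUm`.
-/

set_option linter.all false

namespace Pool.Agent.DSW

open Equiv Finset

namespace Surf

variable {D V : Type} [Fintype D] [DecidableEq D] [Fintype V] [DecidableEq V] {S : Surf D V}

structure Num {lam k0 bet : ℕ} (N : S.Net lam k0 bet) (Q R B : ℕ) (Um : ℝ) : Prop where
  h0 : 0 < lam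
  hd : S.d ≤ lam
  hdk : S.d * k0 ≤ lam
  hQ : Fintype.card D ≤ lam * Q
  hR : 64 * (2 * S.d * k0 + 1) * Q ^ 2 ≤ R
  hR0 : 0 < R
  hB : 1 ≤ B
  hnum : (R : ℝ) + 2 * S.d * B + 2 * S.d * k0 * Q + S.inter N.c + S.d * (univ \ N.ter).card
      + S.d * bet * (Um + 1) < lam
  hUm : 256 * S.d * (Q : ℝ) ^ 2 * N.ter.card / R + 2 * S.d * N.ter.card / lam ≤ Um

structure Inv {lam k0 bet : ℕ} (N : S.Net lam k0 bet) (Q R B : ℕ) (Um : ℝ) (s : State D V) : Prop where
  ok : S.Ok N s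
  j1 : ((S.pend N.c s.P s.G).card : ℝ) + 2 * S.d * k0 / lam * S.om lam s.P s.G
      ≤ R + 2 * S.d * B + 2 * S.d * k0 * Q
  j2 : (s.U.card : ℝ) + 2 * S.om lam s.P s.G / lam
      + 64 * (Q : ℝ) ^ 2 / R * ((S.pend N.c s.P s.G).card + 2 * S.d * k0 / lam * S.om lam s.P s.G
        + 4 * S.d * (N.ter \ s.P0).card)
      + 2 * S.d / lam * (N.ter \ s.P0).card ≤ Um

/-- the measure. -/
noncomputable def mu {lam k0 bet : ℕ} (N : S.Net lam k0 bet) (s : State D V) : ℕ :=
  (S.pend N.c s.P s.G).card + (2 * S.d * k0 + 1) * ⌊S.om lam s.P s.G / lam⌋₊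
    + (2 * S.d + (2 * S.d * k0 + 1) * (S.d + 1) + 1) * (N.ter \ s.P0).card

variable {lam k0 bet : ℕ} {N : S.Net lam k0 bet} {Q R B : ℕ} {Um : ℝ} {s : State D V}

theorem inv_num (hN : S.Num N Q R B Um) (hI : S.Inv N Q R B Um s) :
    (S.pend N.c s.P s.G).card + S.inter N.c + S.d * (univ \ N.ter).card + S.d * bet * s.U.card
      + S.d * bet < lam := by
  have hom : 0 ≤ S.om lam s.P s.G := S.om_nonneg lam s.P s.G
  have h1 : (0 : ℝ) ≤ 2 * S.d * k0 / lam * S.om lam s.P s.G := by positivity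
  have hp : ((S.pend N.c s.P s.G).card : ℝ) ≤ R + 2 * S.d * B + 2 * S.d * k0 * Q := by
    have := hI.j1
    linarith
  have hU : (s.U.card : ℝ) ≤ Um := by
    have h2 : (0 : ℝ) ≤ 2 * S.om lam s.P s.G / lam := by positivity
    have h3 : (0 : ℝ) ≤ 64 * (Q : ℝ) ^ 2 / R * ((S.pend N.c s.P s.G).card + 2 * S.d * k0 / lam * S.om lam s.P s.G
        + 4 * S.d * (N.ter \ s.P0).card) := by positivity
    have h4 : (0 : ℝ) ≤ 2 * S.d / lam * (N.ter \ s.P0).card := by positivity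
    have := hI.j2
    linarith
  have h5 : ((S.d : ℝ) * bet) * s.U.card ≤ (S.d * bet) * Um :=
    mul_le_mul_of_nonneg_left hU (by positivity)
  have h6 := hN.hnum
  have h7 : (((S.pend N.c s.P s.G).card + S.inter N.c + S.d * (univ \ N.ter).card + S.d * bet * s.U.card
      + S.d * bet : ℕ) : ℝ) < (lam : ℝ) := by
    push_cast
    nlinarith
  exact_mod_cast h7

theorem inv_zero (hN : S.Num N Q R B Um) : S.Inv N Q R B Um ⟨∅, ∅, ∅, ∅⟩ := by
  have hpend : S.pend N.c (∅ : Finset V) (∅ : Finset D) = ∅ := by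
    ext x
    simp [pend]
  have hlam : (0 : ℝ) < lam := by exact_mod_cast hN.h0
  have hR : (0 : ℝ) < R := by exact_mod_cast hN.hR0
  refine ⟨?_, ?_, ?_⟩
  · refine ⟨S.closed_empty, by simp, by simp, by simp, by simp, by simp, by simp, ?_, ?_⟩
    · intro i j _ _ _
      exact Finset.disjoint_empty_right _
    · intro z
      have h1 := S.len_empty z
      have h2 := hN.hd
      show S.len ∅ z ≤ 16 * lam
      omega
  · show ((S.pend N.c (∅ : Finset V) (∅ : Finset D)).card : ℝ) + 2 * S.d * k0 / lam * S.om lam ∅ ∅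
      ≤ R + 2 * S.d * B + 2 * S.d * k0 * Q
    rw [hpend, S.om_empty]
    simp only [Finset.card_empty, Nat.cast_zero, mul_zero, add_zero]
    positivity
  · show (((∅ : Finset V).card : ℕ) : ℝ) + 2 * S.om lam ∅ ∅ / lam
      + 64 * (Q : ℝ) ^ 2 / R * ((S.pend N.c (∅ : Finset V) (∅ : Finset D)).card + 2 * S.d * k0 / lam * S.om lam ∅ ∅
        + 4 * S.d * (N.ter \ ∅).card)
      + 2 * S.d / lam * (N.ter \ ∅).card ≤ Um
    rw [hpend, S.om_empty, Finset.sdiff_empty]
    simp only [Finset.card_empty, Nat.cast_zero, mul_zero, add_zero, zero_add, zero_div]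
    refine le_trans (le_of_eq ?_) hN.hUm
    field_simp
    ring

end Surf

end Pool.Agent.DSW
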