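import Pool.Agent.DSW.Heavy

/-!
# Pieces, heavy and light vertices (helper13)

`aa ≤ b` and `aa ≤ |C|` throughout.

`top_heavy`: `P.reach` shows that the piece `{w ∈ C \ L0 | top w = top v}` is contained in `desc (top v)`, so
`aa ≤ b ≤ |desc (top v)|` by `P.low`.
`light_ne_top`: hence a light `v ∈ C \ L0` is not `top v`.
`par_piece`: `step` for light `v`.
`lightRoot_of_light`: let `u ∈ C \ L0` be light.  `light_induct` with `p w := w ∉ L0 ∧ top w = top u` (`par_piece`) gives
`lroot u ∉ L0`, `top (lroot u) = top u`; the other conditions are `lroot_light`.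
`same_lroot`: let `w` be light with `lroot w = lroot u`, `u` light, `u ∉ L0`.  `w ∉ L0`: otherwise all iterates of `w`, in particular
`lroot w = lroot u`, are in `L0` (`P.par_L0`), contradiction to `lightRoot_of_light`.  Then
`top w = top (lroot w) = top (lroot u) = top u`.
`up_walk`: let `w ∈ hv aa i` (heavy, `w ∉ L0`, `top w = i`).  By `P.reach` take the least `j` with `par^[j] w = i`; by induction
`par^[l] w ∈ hv aa i` for `l ≤ j` (`heavy_par`, `P.step` as `par^[l] w ≠ i = top (par^[l] w)` for `l < j`); `j ≤ dep w ≤ h` (the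
vertices `par^[l] w`, `l < j`, are not the root: if `par^[l] w = root` then all later iterates are the root, so
`i = root = par^[l] w`, contradicting minimality; `iter_dep`).  The walk has steps `par_adj`; pad with lazy steps.
`root_walk`: `LightRoot aa i p`: `p ≠ top p`, so `par p ∉ L0`, `top (par p) = i`, `par p ∈ hv aa i`; one step and `up_walk`.
`top_mem_tops`: `top v` is a top.
-/

set_option autoImplicit false

namespace Pool.Agent.DSW

open Equiv Finset

namespace Surf

namespace Tree

variable {D V : Type} [Fintype D] [DecidableEq D] [Fintype V] [DecidableEq V] {S : Surf D V}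
variable {C : Finset V} {h : ℕ} {T : Tree S C h} {b aa : ℕ} (P : T.Pieces b)

theorem top_mem_tops {v : V} (hv : v ∈ C) (hL : v ∉ P.L0) : P.top v ∈ P.tops := by
  have h1 := P.top_mem v hv hL
  simp only [Pieces.tops, Finset.mem_filter, Finset.mem_sdiff]
  exact ⟨⟨h1.1, h1.2⟩, P.top_top v hv hL⟩

theorem tops_card : b * P.tops.card ≤ C.card := by
  have hmap : ∀ w ∈ C \ P.L0, P.top w ∈ P.tops := by
    intro w hw
    rw [Finset.mem_sdiff] at hw
    exact top_mem_tops P hw.1 hw.2
  have h1 := Finset.card_eq_sum_card_fiberwise (f := P.top) (s := C \ P.L0) (t := P.tops)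
    (by intro w hw; exact hmap w hw)
  have h2 : b * P.tops.card ≤ ∑ i ∈ P.tops, ((C \ P.L0).filter fun w => P.top w = i).card := by
    rw [mul_comm, ← smul_eq_mul]
    apply Finset.card_nsmul_le_sum
    intro i hi
    simp only [Pieces.tops, Finset.mem_filter, Finset.mem_sdiff] at hi
    have h3 := P.low i hi.1.1 hi.1.2
    rw [hi.2] at h3
    exact h3
  calc b * P.tops.card ≤ _ := h2
    _ = (C \ P.L0).card := h1.symm
    _ ≤ C.card := Finset.card_le_card Finset.sdiff_subset

theorem top_heavy (haa : aa ≤ b) {v : V} (hv : v ∈ C) (hL : v ∉ P.L0) : P.top v ∈ T.heavy aa := by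
  have h1 := P.top_mem v hv hL
  simp only [Tree.heavy, Finset.mem_filter]
  refine ⟨h1.1, haa.trans ((P.low v hv hL).trans (Finset.card_le_card ?_))⟩
  intro w hw
  simp only [Finset.mem_filter, Finset.mem_sdiff] at hw
  simp only [Tree.desc, Finset.mem_filter]
  refine ⟨hw.1.1, ?_⟩
  obtain ⟨j, hj⟩ := P.reach w hw.1.1 hw.1.2
  exact ⟨j, hj.trans hw.2⟩

theorem light_ne_top (haa : aa ≤ b) {v : V} (hv : v ∈ C) (hL : v ∉ P.L0) (hl : v ∉ T.heavy aa) : v ≠ P.top v := by
  intro he
  apply hl
  rw [he]
  exact top_heavy P haa hv hL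

theorem lightRoot_of_light (haa : aa ≤ b) (hac : aa ≤ C.card) {u : V} (hu : u ∈ C) (hL : u ∉ P.L0)
    (hl : u ∉ T.heavy aa) : P.LightRoot aa (P.top u) (T.lroot aa u) := by
  have h1 := lroot_light (T := T) hac hu hl
  have h2 := light_induct (T := T) (aa := aa) (p := fun w => w ∉ P.L0 ∧ P.top w = P.top u) hac (by
    intro w hw hwl _ hp
    have h3 := P.step w hw hp.1 (light_ne_top P haa hw hp.1 hwl)
    exact ⟨h3.1, h3.2.trans hp.2⟩) hu hl ⟨hL, rfl⟩
  exact ⟨h1.1, h1.2.1, h1.2.2, h2.1, h2.2⟩

theorem same_lroot (haa : aa ≤ b) (hac : aa ≤ C.card) {u w : V} (hu : u ∈ C) (hL : u ∉ P.L0)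
    (hl : u ∉ T.heavy aa) (hw : w ∈ C) (hwl : w ∉ T.heavy aa) (he : T.lroot aa w = T.lroot aa u) :
    w ∉ P.L0 ∧ P.top w = P.top u := by
  have h1 := lightRoot_of_light P haa hac hu hL hl
  have h2 : w ∉ P.L0 := by
    intro h3
    have h4 := light_induct (T := T) (aa := aa) (p := fun w => w ∈ P.L0) hac
      (fun w _ _ _ hp => P.par_L0 w hp) hw hwl h3
    rw [he] at h4
    exact h1.nL h4
  refine ⟨h2, ?_⟩
  have h3 := lightRoot_of_light P haa hac hw h2 hwl
  rw [← h3.top, he, h1.top]

private theorem up_walk_aux {i : V} (n : ℕ) : ∀ w ∈ P.hv aa i, T.dep w ≤ n → S.Walk (P.hv aa i) n w i := by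
  induction n with
  | zero =>
    intro w hw hd
    have hw' := hw
    simp only [Pieces.hv, Finset.mem_filter] at hw'
    have hC : w ∈ C := T.heavy_sub aa hw'.1
    have hr : w = T.root := by
      have h1 := T.iter_root hC (j := 0) hd
      simpa using h1
    obtain ⟨j, hj⟩ := P.reach w hC hw'.2.1
    have hroot : T.par^[j] T.root = T.root := Function.iterate_fixed T.par_root j
    have hi : w = i := by
      rw [← hw'.2.2, ← hj, hr, hroot]
    rw [← hi] at hw ⊢
    exact walk_refl hw 0
  | succ n ih =>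
    intro w hw hd
    have hw' := hw
    simp only [Pieces.hv, Finset.mem_filter] at hw'
    have hC : w ∈ C := T.heavy_sub aa hw'.1
    by_cases hi : w = i
    · rw [hi]
      rw [hi] at hw
      exact walk_refl hw _
    · have hnt : w ≠ P.top w := by rw [hw'.2.2]; exact hi
      have hnr : w ≠ T.root := by
        intro hr
        obtain ⟨j, hj⟩ := P.reach w hC hw'.2.1
        have hroot : T.par^[j] T.root = T.root := Function.iterate_fixed T.par_root j
        apply hnt
        rw [← hj, hr, hroot]
      have hs := P.step w hC hw'.2.1 hnt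
      have hp : T.par w ∈ P.hv aa i := by
        simp only [Pieces.hv, Finset.mem_filter]
        exact ⟨T.heavy_par hw'.1, hs.1, hs.2.trans hw'.2.2⟩
      have hdep := T.dep_par w hC hnr
      have h1 := ih (T.par w) hp (by omega)
      have h2 : S.Walk (P.hv aa i) 1 w (T.par w) := walk_one hw hp (T.par_adj hC)
      have h3 := walk_trans h2 h1
      rw [Nat.add_comm] at h3
      exact h3

theorem up_walk {i w : V} (hw : w ∈ P.hv aa i) : S.Walk (P.hv aa i) h w i := by
  have hw' := hw
  simp only [Pieces.hv, Finset.mem_filter] at hw'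
  exact up_walk_aux P h w hw (T.dep_le w (T.heavy_sub aa hw'.1))

theorem root_walk (haa : aa ≤ b) {i p : V} (hp : P.LightRoot aa i p) :
    S.Walk (insert p (P.hv aa i)) (h + 1) p i := by
  have hnt : p ≠ P.top p := light_ne_top P haa hp.mem hp.nL hp.light
  have hs := P.step p hp.mem hp.nL hnt
  have hq : T.par p ∈ P.hv aa i := by
    simp only [Pieces.hv, Finset.mem_filter]
    exact ⟨hp.par, hs.1, hs.2.trans hp.top⟩
  have h1 : S.Walk (insert p (P.hv aa i)) h (T.par p) i :=
    walk_sub (up_walk P hq) (Finset.subset_insert _ _)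
  have h2 : S.Walk (insert p (P.hv aa i)) 1 p (T.par p) :=
    walk_one (Finset.mem_insert_self _ _) (Finset.mem_insert_of_mem hq) (T.par_adj hp.mem)
  have h3 := walk_trans h2 h1
  rw [Nat.add_comm] at h3
  exact h3

end Tree

end Surf

end Pool.Agent.DSW
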