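import Pool.Agent.DSW.Light
import Pool.Agent.DSW.Grow

/-!
# One link between two pieces (helper13)

For a top `i` let `A i = {u ∈ C | u light, u ∉ L0, top u = i, lroot u ∉ lroot '' W}`.  The piece of `i` (`top i = i`) has at least `b`
elements (`P.low`); at most `|heavy|` of them are heavy, and at most `|W| aa` of the light ones have
`lroot u ∈ lroot '' W` (`light_card`).  So `|A i| ≥ b - |heavy| - |W| aa > 0`.
Let `W1 = heavy ∪ W`.  `A i ⊆ C \ W1` (`u ∈ W` would give `lroot u ∈ lroot '' W`), and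
`2 d |W1| ≤ 2 d (|heavy| + |W|) ≤ φ (b - |heavy| - |W| aa) ≤ φ |A i|`.
`link` for `A i`, `A j` gives `u ∈ A i`, `v ∈ A j` and `Walk (C \ W1) (2 t0) u v`.  `light_walk` joins `u` and `lroot u` by a walk through
light vertices `w` with `lroot w = lroot u`; they are not in `W`; so this is a walk in `C \ W1`.  The same for `v`.
So `Walk (C \ W1) (h + 2 t0 + h) (lroot u) (lroot v)`, and `walk_range` gives `M ⊆ C \ W1` with at most `2 t0 + 2 h + 1` elements.
`LightRoot`: `lightRoot_of_light`.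
-/

set_option autoImplicit false

namespace Pool.Agent.DSW

open Equiv Finset

namespace Surf

namespace Tree

variable {D V : Type} [Fintype D] [DecidableEq D] [Fintype V] [DecidableEq V] {S : Surf D V}
variable {C : Finset V} {h : ℕ} {T : Tree S C h} {b aa t0 : ℕ} (P : T.Pieces b)

/-- the available vertices of the piece `i`. -/
private noncomputable def avail (P : T.Pieces b) (aa : ℕ) (W : Finset V) (i : V) : Finset V :=
  (C \ P.L0).filter fun u => P.top u = i ∧ u ∉ T.heavy aa ∧ T.lroot aa u ∉ W.image (T.lroot aa)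

private theorem avail_card (hac : aa ≤ C.card) (W : Finset V) {i : V} (hi : i ∈ P.tops) :
    b ≤ (avail P aa W i).card + (T.heavy aa).card + W.card * aa := by
  classical
  have hi1 := Finset.mem_filter.1 hi
  have hi2 := Finset.mem_sdiff.1 hi1.1
  have hlow := P.low i hi2.1 hi2.2
  rw [hi1.2] at hlow
  refine le_trans hlow ?_
  have hsub : ((C \ P.L0).filter fun w => P.top w = i) ⊆
      (avail P aa W i ∪ T.heavy aa) ∪
        (W.image (T.lroot aa)).biUnion (fun w => (C \ T.heavy aa).filter fun u => T.lroot aa u = w) := by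
    intro w hw
    have hw1 := Finset.mem_filter.1 hw
    have hw2 := Finset.mem_sdiff.1 hw1.1
    by_cases hh : w ∈ T.heavy aa
    · exact Finset.mem_union_left _ (Finset.mem_union_right _ hh)
    · by_cases hl : T.lroot aa w ∈ W.image (T.lroot aa)
      · refine Finset.mem_union_right _ (Finset.mem_biUnion.2 ⟨_, hl, ?_⟩)
        exact Finset.mem_filter.2 ⟨Finset.mem_sdiff.2 ⟨hw2.1, hh⟩, rfl⟩
      · refine Finset.mem_union_left _ (Finset.mem_union_left _ ?_)
        exact Finset.mem_filter.2 ⟨hw1.1, hw1.2, hh, hl⟩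
  refine le_trans (Finset.card_le_card hsub) ?_
  refine le_trans (Finset.card_union_le _ _) ?_
  refine Nat.add_le_add (Finset.card_union_le _ _) ?_
  refine le_trans (Finset.card_biUnion_le_card_mul _ _ aa ?_) ?_
  · intro w _
    exact light_card hac w
  · exact Nat.mul_le_mul_right _ Finset.card_image_le

private theorem avail_sub (W : Finset V) (i : V) : avail P aa W i ⊆ C \ (T.heavy aa ∪ W) := by
  intro w hw
  have hw1 := Finset.mem_filter.1 hw
  have hw2 := Finset.mem_sdiff.1 hw1.1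
  refine Finset.mem_sdiff.2 ⟨hw2.1, ?_⟩
  intro hh
  rcases Finset.mem_union.1 hh with hh | hh
  · exact hw1.2.2.1 hh
  · exact hw1.2.2.2 (Finset.mem_image_of_mem _ hh)

private theorem avail_real {φ : ℝ} (hφ : 0 ≤ φ) (hac : aa ≤ C.card) {W : Finset V}
    (hcond : 2 * (S.d : ℝ) * ((T.heavy aa).card + W.card) ≤ φ * (b - (T.heavy aa).card - W.card * aa))
    {i : V} (hi : i ∈ P.tops) :
    2 * (S.d : ℝ) * ((T.heavy aa ∪ W).card : ℝ) ≤ φ * ((avail P aa W i).card : ℝ) := by
  have h1 : ((T.heavy aa ∪ W).card : ℝ) ≤ (T.heavy aa).card + W.card := by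
    exact_mod_cast Finset.card_union_le _ _
  have h2 : ((b : ℕ) : ℝ) ≤ (avail P aa W i).card + (T.heavy aa).card + W.card * aa := by
    exact_mod_cast avail_card P hac W hi
  calc 2 * (S.d : ℝ) * ((T.heavy aa ∪ W).card : ℝ)
      ≤ 2 * (S.d : ℝ) * ((T.heavy aa).card + W.card) := by
        refine mul_le_mul_of_nonneg_left h1 ?_
        positivity
    _ ≤ φ * (b - (T.heavy aa).card - W.card * aa) := hcond
    _ ≤ φ * ((avail P aa W i).card : ℝ) := by
        refine mul_le_mul_of_nonneg_left ?_ hφ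
        linarith

private theorem avail_walk (hac : aa ≤ C.card) {W : Finset V} {i u : V} (hu : u ∈ avail P aa W i) :
    S.Walk (C \ (T.heavy aa ∪ W)) h u (T.lroot aa u) := by
  have hw1 := Finset.mem_filter.1 hu
  have hw2 := Finset.mem_sdiff.1 hw1.1
  refine walk_sub (light_walk hac hw2.1 hw1.2.2.1) ?_
  intro w hw
  have hv1 := Finset.mem_filter.1 hw
  have hv2 := Finset.mem_sdiff.1 hv1.1
  refine Finset.mem_sdiff.2 ⟨hv2.1, ?_⟩
  intro hh
  rcases Finset.mem_union.1 hh with hh | hh
  · exact hv2.2 hh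
  · refine hw1.2.2.2 ?_
    rw [← hv1.2.1]
    exact Finset.mem_image_of_mem _ hh

theorem link_one {φ : ℝ} (hφ : 0 ≤ φ) (hC : S.Expands φ C) (hd : 0 < S.d) (haa : aa ≤ b) (hac : aa ≤ C.card)
    (ht : (C.card : ℝ) < (1 + φ / (2 * S.d)) ^ t0) {W : Finset V} (hWC : W ⊆ C) (hWl : Disjoint W (T.heavy aa))
    (hpos : (T.heavy aa).card + W.card * aa < b)
    (hcond : 2 * (S.d : ℝ) * ((T.heavy aa).card + W.card) ≤ φ * (b - (T.heavy aa).card - W.card * aa))
    {i j : V} (hi : i ∈ P.tops) (hj : j ∈ P.tops) :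
    ∃ M, P.IsLink aa (2 * t0 + 2 * h) W i j M := by
  have hne : ∀ {i : V}, i ∈ P.tops → (avail P aa W i).Nonempty := by
    intro i hi
    have := avail_card P hac W hi
    refine Finset.card_pos.1 ?_
    omega
  obtain ⟨u, hu, v, hv, hw⟩ := link hφ hC hd (avail_sub P (aa := aa) W i) (avail_sub P (aa := aa) W j)
    (hne hi) (hne hj) (avail_real P hφ hac hcond hi) (avail_real P hφ hac hcond hj) ht
  have hw1 := walk_trans (walk_trans (walk_symm (avail_walk P hac hu)) hw) (avail_walk P hac hv)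
  have heq : h + 2 * t0 + h = 2 * t0 + 2 * h := by ring
  rw [heq] at hw1
  obtain ⟨M, hM, hMc, hMw⟩ := walk_range hw1
  have hu1 := Finset.mem_filter.1 hu
  have hu2 := Finset.mem_sdiff.1 hu1.1
  have hv1 := Finset.mem_filter.1 hv
  have hv2 := Finset.mem_sdiff.1 hv1.1
  have hlu := lightRoot_of_light P haa hac hu2.1 hu2.2 hu1.2.2.1
  have hlv := lightRoot_of_light P haa hac hv2.1 hv2.2 hv1.2.2.1
  rw [hu1.2.1] at hlu
  rw [hv1.2.1] at hlv
  refine ⟨M, ⟨?_, ?_, ?_, hMc, ⟨_, _, hlu, hlv, hMw⟩⟩⟩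
  · exact hM.trans Finset.sdiff_subset
  · rw [Finset.disjoint_left]
    intro x hx hx'
    exact (Finset.mem_sdiff.1 (hM hx)).2 (Finset.mem_union_left _ hx')
  · rw [Finset.disjoint_left]
    intro x hx hx'
    exact (Finset.mem_sdiff.1 (hM hx)).2 (Finset.mem_union_right _ hx')

end Tree

end Surf

end Pool.Agent.DSW
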