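import Mathlib

/-!
# Choice of the parameters (helper13)

Let `x = N^(1/1000)` (real), so `x^1000 = N`, `N^(19/20) = x^950`, and `x → ∞` with `N`.  For large `N` (depending on `d`):
`x ≥ X0(d)`, `4 d log (N+1) + 1 ≤ x/2`, `Nat.log 2 N ≤ x/64`.
Choose `λ = ⌈x^950⌉`, `φ = 1/x^51`, `t0 = ⌈4 d x^51 log (N+1)⌉`, `Q = ⌈x^50⌉`, `R = ⌊x^950/32⌋`, `B = ⌊x^950/(128 d)⌋`, `Um = x^151`,
`b = ⌊x^798⌋`, `aa = ⌊x^330⌋`.

* `x^950 ≤ λ ≤ 2 x^950`, `1 ≤ t0 ≤ x^52`, `18 t0 + 5 ≤ x^53`, `x^50 ≤ Q ≤ 2 x^50`, `λ Q ≥ x^1000 = N`,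
  `x^950/64 ≤ R ≤ x^950/32`, `2 d B ≤ x^950/64`, `x^798/2 ≤ b ≤ x^798`, `x^330/2 ≤ aa ≤ x^330`.
* `(1 + φ/(2d))^t0 > N`: `log (1 + y) ≥ y/2` for `0 ≤ y ≤ 1`, so `t0 log (1 + φ/(2d)) ≥ t0 φ/(4d) ≥ log (N+1)`.
* `64 (2 d (18 t0 + 5) + 1) Q^2 ≤ 64 * 3 d x^53 * 4 x^100 ≤ R`.
* `d (18 t0 + 5) ≤ d x^53 ≤ λ`, `d b ≤ d x^798 ≤ 8 λ`.
* `N (2 t0 + 1)/aa ≤ x^1000 * 3 x^52 * 2/x^330 = 6 x^722`; `(N/b)^2 (6 t0 + 1) ≤ 4 x^404 * 7 x^52 = 28 x^456`; times `aa`: at most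
  `28 x^786`.  So the sum is `< x^798/2 ≤ b`, and
  `2 d (6 x^722 + 28 x^456) ≤ x^(-51) (x^798/2 - 6 x^722 - 28 x^786)` for large `x` (right side `≥ x^747/4`).
* `256 d Q^2 N/R + 2 d N/λ ≤ 256 d * 4 x^100 * x^1000 * 64/x^950 + 2 d x^50 ≤ x^151 = Um`.
* last inequality: `R ≤ x^950/32`, `2 d B ≤ x^950/64`, `2 d (18 t0 + 5) Q ≤ 4 d x^103`, `2 φ N Nat.log 2 N ≤ 2 x^949 x/64 = x^950/32`,
  `d N (…) ≤ d (6 x^722 + 28 x^786)`, `d b N d/(8 λ) ≤ d^2 x^848`, `d (d b)(Um + 1) ≤ d^2 x^798 * 2 x^151`; the sum is less than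
  `x^950 ≤ λ` for large `x`.
-/

set_option autoImplicit false

namespace Pool.Agent.DSW

private theorem pstep {x D : ℝ} (hD : 1 ≤ D) (hx : 1000000 * D ^ 2 ≤ x) (a b : ℕ) (hab : a < b) :
    1000000 * D ^ 2 * x ^ a ≤ x ^ b := by
  have hx1 : 1 ≤ x := by nlinarith [sq_nonneg D]
  have h1 : x ^ (a + 1) ≤ x ^ b := pow_le_pow_right₀ hx1 hab
  have h2 : 1000000 * D ^ 2 * x ^ a ≤ x * x ^ a := mul_le_mul_of_nonneg_right hx (by positivity)
  calc 1000000 * D ^ 2 * x ^ a ≤ x * x ^ a := h2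
    _ = x ^ (a + 1) := by ring
    _ ≤ x ^ b := h1

private theorem pstep1 {x D : ℝ} (hD : 1 ≤ D) (hx : 1000000 * D ^ 2 ≤ x) (a b : ℕ) (hab : a < b) :
    1000000 * D * x ^ a ≤ x ^ b := by
  refine le_trans ?_ (pstep hD hx a b hab)
  have hx1 : 1 ≤ x := by nlinarith [sq_nonneg D]
  apply mul_le_mul_of_nonneg_right _ (by positivity)
  nlinarith

private theorem pstep0 {x D : ℝ} (hD : 1 ≤ D) (hx : 1000000 * D ^ 2 ≤ x) (a b : ℕ) (hab : a < b) :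
    1000000 * x ^ a ≤ x ^ b := by
  refine le_trans ?_ (pstep1 hD hx a b hab)
  have hx1 : 1 ≤ x := by nlinarith [sq_nonneg D]
  apply mul_le_mul_of_nonneg_right _ (by positivity)
  nlinarith

private theorem ev (d : ℕ) (hd : 0 < d) : ∃ N0 : ℕ, ∀ N : ℕ, N0 ≤ N →
    ∃ x : ℝ, x ^ 1000 = N ∧ (N : ℝ) ^ (19 / 20 : ℝ) = x ^ 950 ∧ 1000000 * (d : ℝ) ^ 2 ≤ x ∧
      4 * (d : ℝ) * Real.log (N + 1) + 1 ≤ x / 2 ∧ (Nat.log 2 N : ℝ) ≤ x / 64 := by
  have hdr : (1 : ℝ) ≤ d := by exact_mod_cast hd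
  have t1 : Filter.Tendsto (fun N : ℕ => (N : ℝ) ^ (1 / 1000 : ℝ)) Filter.atTop Filter.atTop :=
    (tendsto_rpow_atTop (by norm_num)).comp tendsto_natCast_atTop_atTop
  have e1 : ∀ᶠ N : ℕ in Filter.atTop, 1000000 * (d : ℝ) ^ 2 ≤ (N : ℝ) ^ (1 / 1000 : ℝ) :=
    t1.eventually_ge_atTop _
  have l1 := (isLittleO_log_rpow_atTop (show (0 : ℝ) < 1 / 1000 by norm_num)).def
    (show (0 : ℝ) < 1 / (1000 * d) by positivity)
  have e2 : ∀ᶠ N : ℕ in Filter.atTop, ‖Real.log (N : ℝ)‖ ≤ 1 / (1000 * d) * ‖(N : ℝ) ^ (1 / 1000 : ℝ)‖ :=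
    tendsto_natCast_atTop_atTop.eventually l1
  obtain ⟨N0, hN0⟩ := Filter.eventually_atTop.1 (e1.and (e2.and (Filter.eventually_ge_atTop 1)))
  refine ⟨N0, fun N hN => ?_⟩
  obtain ⟨h1, h2, h3⟩ := hN0 N hN
  have hNr : (1 : ℝ) ≤ N := by exact_mod_cast h3
  set x := (N : ℝ) ^ (1 / 1000 : ℝ) with hxdef
  have hx0 : 0 ≤ x := Real.rpow_nonneg (by positivity) _
  have hlog0 : 0 ≤ Real.log N := Real.log_nonneg hNr
  rw [Real.norm_of_nonneg hlog0, Real.norm_of_nonneg hx0] at h2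
  have h2' : 1000 * (d : ℝ) * Real.log N ≤ x := by
    have h4 : (0 : ℝ) < 1000 * d := by positivity
    calc 1000 * (d : ℝ) * Real.log N ≤ 1000 * d * (1 / (1000 * d) * x) :=
          mul_le_mul_of_nonneg_left h2 h4.le
      _ = x := by field_simp
  have hlog2 : Real.log ((N : ℝ) + 1) ≤ Real.log N + 1 := by
    have h5 : Real.log ((N : ℝ) + 1) ≤ Real.log (2 * N) :=
      Real.log_le_log (by positivity) (by linarith)
    rw [Real.log_mul (by norm_num) (by positivity)] at h5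
    have := Real.log_two_lt_d9
    linarith
  refine ⟨x, ?_, ?_, h1, ?_, ?_⟩
  · rw [hxdef, ← Real.rpow_natCast, ← Real.rpow_mul (by positivity)]
    norm_num
  · rw [hxdef, ← Real.rpow_natCast, ← Real.rpow_mul (by positivity)]
    norm_num
  · have h6 : 4 * (d : ℝ) * Real.log (N + 1) ≤ 4 * d * (Real.log N + 1) :=
      mul_le_mul_of_nonneg_left hlog2 (by positivity)
    nlinarith
  · have h7 : (Nat.log 2 N : ℝ) ≤ Real.logb 2 N := by
      have := Real.natLog_le_logb N 2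
      simpa using this
    have h8 : Real.logb 2 N ≤ 2 * Real.log N := by
      rw [Real.logb, div_le_iff₀ (Real.log_pos (by norm_num))]
      have := Real.log_two_gt_d9
      nlinarith
    have h9 : 1000 * Real.log N ≤ 1000 * (d : ℝ) * Real.log N := by nlinarith
    linarith

theorem params (d : ℕ) (hd : 0 < d) : ∃ N0 : ℕ, ∀ N : ℕ, N0 ≤ N →
    ∃ (lam t0 Q R B b aa : ℕ) (φ Um : ℝ), 0 ≤ φ ∧ 0 < lam ∧ (lam : ℝ) ≤ 2 * (N : ℝ) ^ (19 / 20 : ℝ) ∧ d ≤ lam ∧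
      d * (18 * t0 + 5) ≤ lam ∧ N ≤ lam * Q ∧ 64 * (2 * d * (18 * t0 + 5) + 1) * Q ^ 2 ≤ R ∧ 0 < R ∧ 1 ≤ B ∧
      (N : ℝ) < (1 + φ / (2 * d)) ^ t0 ∧ 0 < aa ∧ aa ≤ b ∧ d * b ≤ 8 * lam ∧
      (N : ℝ) * (2 * t0 + 1) / aa + ((N : ℝ) / b) ^ 2 * (6 * t0 + 1) * aa < b ∧
      2 * (d : ℝ) * ((N : ℝ) * (2 * t0 + 1) / aa + ((N : ℝ) / b) ^ 2 * (6 * t0 + 1)) ≤
        φ * (b - (N : ℝ) * (2 * t0 + 1) / aa - ((N : ℝ) / b) ^ 2 * (6 * t0 + 1) * aa) ∧
      256 * (d : ℝ) * (Q : ℝ) ^ 2 * N / R + 2 * d * N / lam ≤ Um ∧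
      (R : ℝ) + 2 * d * B + 2 * d * (18 * t0 + 5) * Q + 2 * φ * N * Nat.log 2 N
        + d * (N * ((2 * (t0 : ℝ) + 1) / aa + (N : ℝ) * (6 * t0 + 1) * aa / (b : ℝ) ^ 2) + b * (N * d / (8 * lam)))
        + d * (d * b) * (Um + 1) < lam := by
  obtain ⟨N0, hN0⟩ := ev d hd
  refine ⟨N0, fun N hN => ?_⟩
  obtain ⟨x, hxN, hx19, hx, hlog, hlog2⟩ := hN0 N hN
  have hD : (1 : ℝ) ≤ d := by exact_mod_cast hd
  have hD0 : (0 : ℝ) < d := by linarith
  have hx1 : 1 ≤ x := by nlinarith [sq_nonneg (d : ℝ)]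
  have hx0 : 0 < x := by linarith
  have hxb : 1000000 ≤ x := by nlinarith
  have S2 := fun a b hab => pstep hD hx a b hab
  have S1 := fun a b hab => pstep1 hD hx a b hab
  have S0 := fun a b hab => pstep0 hD hx a b hab
  have hlogN : 0 ≤ Real.log ((N : ℝ) + 1) := Real.log_nonneg (by
    have : (0 : ℝ) ≤ N := Nat.cast_nonneg N
    linarith)
  -- the parameters
  obtain ⟨lam, hlam⟩ : ∃ lam : ℕ, lam = ⌈x ^ 950⌉₊ := ⟨_, rfl⟩
  obtain ⟨t0, ht0⟩ : ∃ t0 : ℕ, t0 = ⌈4 * (d : ℝ) * x ^ 51 * Real.log (N + 1)⌉₊ := ⟨_, rfl⟩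
  obtain ⟨Q, hQ⟩ : ∃ Q : ℕ, Q = ⌈x ^ 50⌉₊ := ⟨_, rfl⟩
  obtain ⟨R, hR⟩ : ∃ R : ℕ, R = ⌊x ^ 950 / 32⌋₊ := ⟨_, rfl⟩
  obtain ⟨B, hB⟩ : ∃ B : ℕ, B = ⌊x ^ 950 / (128 * (d : ℝ))⌋₊ := ⟨_, rfl⟩
  obtain ⟨b, hb⟩ : ∃ b : ℕ, b = ⌊x ^ 798⌋₊ := ⟨_, rfl⟩
  obtain ⟨aa, haa⟩ : ∃ aa : ℕ, aa = ⌊x ^ 330⌋₊ := ⟨_, rfl⟩
  have lam1 : x ^ 950 ≤ (lam : ℝ) := by rw [hlam]; exact Nat.le_ceil _
  have lam2 : (lam : ℝ) ≤ 2 * x ^ 950 := by
    have := (Nat.ceil_lt_add_one (show (0 : ℝ) ≤ x ^ 950 by positivity)).le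
    rw [← hlam] at this
    have h1 : (1 : ℝ) ≤ x ^ 950 := one_le_pow₀ hx1
    linarith
  have t1 : 4 * (d : ℝ) * x ^ 51 * Real.log (N + 1) ≤ t0 := by rw [ht0]; exact Nat.le_ceil _
  have t2 : (t0 : ℝ) ≤ x ^ 52 / 2 := by
    have h1 := (Nat.ceil_lt_add_one (show (0 : ℝ) ≤ 4 * (d : ℝ) * x ^ 51 * Real.log (N + 1) by positivity)).le
    rw [← ht0] at h1
    have h2 : (1 : ℝ) ≤ x ^ 51 := one_le_pow₀ hx1
    have h3 : x ^ 51 * (4 * (d : ℝ) * Real.log (N + 1) + 1) ≤ x ^ 51 * (x / 2) :=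
      mul_le_mul_of_nonneg_left hlog (by positivity)
    have h4 : x ^ 51 * (x / 2) = x ^ 52 / 2 := by ring
    rw [h4] at h3
    nlinarith
  have t0n : (0 : ℝ) ≤ t0 := Nat.cast_nonneg _
  have h52 : (1 : ℝ) ≤ x ^ 52 := one_le_pow₀ hx1
  have t3 : 18 * (t0 : ℝ) + 5 ≤ x ^ 53 := by
    have := S0 52 53 (by norm_num)
    linarith
  have Q1 : x ^ 50 ≤ (Q : ℝ) := by rw [hQ]; exact Nat.le_ceil _
  have Q2 : (Q : ℝ) ≤ 2 * x ^ 50 := by
    have := (Nat.ceil_lt_add_one (show (0 : ℝ) ≤ x ^ 50 by positivity)).le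
    rw [← hQ] at this
    have h1 : (1 : ℝ) ≤ x ^ 50 := one_le_pow₀ hx1
    linarith
  have R1 : (R : ℝ) ≤ x ^ 950 / 32 := by rw [hR]; exact Nat.floor_le (by positivity)
  have h950 : 1000000 * x ^ 949 ≤ x ^ 950 := S0 949 950 (by norm_num)
  have h949 : (1 : ℝ) ≤ x ^ 949 := one_le_pow₀ hx1
  have R2 : x ^ 950 / 64 ≤ (R : ℝ) := by
    have := Nat.lt_floor_add_one (x ^ 950 / 32)
    rw [← hR] at this
    linarith
  have B1 : (B : ℝ) ≤ x ^ 950 / (128 * d) := by rw [hB]; exact Nat.floor_le (by positivity)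
  have B2 : 2 * (d : ℝ) * B ≤ x ^ 950 / 64 := by
    calc 2 * (d : ℝ) * B ≤ 2 * d * (x ^ 950 / (128 * d)) := mul_le_mul_of_nonneg_left B1 (by positivity)
      _ = x ^ 950 / 64 := by field_simp; norm_num
  have b1 : (b : ℝ) ≤ x ^ 798 := by rw [hb]; exact Nat.floor_le (by positivity)
  have b2 : x ^ 798 / 2 ≤ (b : ℝ) := by
    have := Nat.lt_floor_add_one (x ^ 798)
    rw [← hb] at this
    have h1 := S0 0 798 (by norm_num)
    rw [pow_zero] at h1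
    linarith
  have a1 : (aa : ℝ) ≤ x ^ 330 := by rw [haa]; exact Nat.floor_le (by positivity)
  have a2 : x ^ 330 / 2 ≤ (aa : ℝ) := by
    have := Nat.lt_floor_add_one (x ^ 330)
    rw [← haa] at this
    have h1 := S0 0 330 (by norm_num)
    rw [pow_zero] at h1
    linarith
  have apos : (0 : ℝ) < aa := lt_of_lt_of_le (by positivity) a2
  have bpos : (0 : ℝ) < b := lt_of_lt_of_le (by positivity) b2
  have lpos : (0 : ℝ) < lam := lt_of_lt_of_le (by positivity) lam1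
  have Rpos : (0 : ℝ) < R := lt_of_lt_of_le (by positivity) R2
  -- the two sums
  have hN1 : (N : ℝ) = x ^ 1000 := hxN.symm
  have E1 : (N : ℝ) * (2 * t0 + 1) / aa ≤ 6 * x ^ 722 := by
    rw [div_le_iff₀ apos, hN1]
    have h1 : 6 * x ^ 722 * (x ^ 330 / 2) ≤ 6 * x ^ 722 * aa := mul_le_mul_of_nonneg_left a2 (by positivity)
    have h2 : x ^ 1000 * (2 * (t0 : ℝ) + 1) ≤ x ^ 1000 * (2 * x ^ 52) :=
      mul_le_mul_of_nonneg_left (by linarith) (by positivity)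
    have h3 : 6 * x ^ 722 * (x ^ 330 / 2) = 3 * x ^ 1052 := by ring
    have h4 : x ^ 1000 * (2 * x ^ 52) = 2 * x ^ 1052 := by ring
    have h5 : 0 < x ^ 1052 := by positivity
    linarith
  have E1n : 0 ≤ (N : ℝ) * (2 * t0 + 1) / aa := by positivity
  have hNb : (N : ℝ) / b ≤ 2 * x ^ 202 := by
    rw [div_le_iff₀ bpos, hN1]
    have h1 : 2 * x ^ 202 * (x ^ 798 / 2) ≤ 2 * x ^ 202 * b := mul_le_mul_of_nonneg_left b2 (by positivity)
    have h3 : 2 * x ^ 202 * (x ^ 798 / 2) = x ^ 1000 := by ring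
    linarith
  have hNb2 : ((N : ℝ) / b) ^ 2 ≤ 4 * x ^ 404 := by
    have h1 : ((N : ℝ) / b) ^ 2 ≤ (2 * x ^ 202) ^ 2 := pow_le_pow_left₀ (by positivity) hNb 2
    have h2 : (2 * x ^ 202) ^ 2 = 4 * x ^ 404 := by ring
    linarith
  have E2 : ((N : ℝ) / b) ^ 2 * (6 * t0 + 1) ≤ 28 * x ^ 456 := by
    have h1 : ((N : ℝ) / b) ^ 2 * (6 * t0 + 1) ≤ 4 * x ^ 404 * (7 * x ^ 52) := by
      apply mul_le_mul hNb2 (by linarith) (by positivity) (by positivity)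
    have h2 : 4 * x ^ 404 * (7 * x ^ 52) = 28 * x ^ 456 := by ring
    linarith
  have E2n : 0 ≤ ((N : ℝ) / b) ^ 2 * (6 * t0 + 1) := by positivity
  have E3 : ((N : ℝ) / b) ^ 2 * (6 * t0 + 1) * aa ≤ 28 * x ^ 786 := by
    have h1 : ((N : ℝ) / b) ^ 2 * (6 * t0 + 1) * aa ≤ 28 * x ^ 456 * x ^ 330 :=
      mul_le_mul E2 a1 (by positivity) (by positivity)
    have h2 : 28 * x ^ 456 * x ^ 330 = 28 * x ^ 786 := by ring
    linarith
  have p1 : x ^ 722 ≤ x ^ 786 := pow_le_pow_right₀ hx1 (by norm_num)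
  have p2 : x ^ 456 ≤ x ^ 722 := pow_le_pow_right₀ hx1 (by norm_num)
  have p3 := S0 786 798 (by norm_num)
  refine ⟨lam, t0, Q, R, B, b, aa, 1 / x ^ 51, x ^ 151, by positivity, ?_, ?_, ?_, ?_, ?_, ?_, ?_, ?_, ?_, ?_, ?_,
    ?_, ?_, ?_, ?_, ?_⟩
  · exact_mod_cast lpos
  · rw [hx19]; exact lam2
  · have h1 : (d : ℝ) ≤ lam := by
      have := S1 0 950 (by norm_num)
      rw [pow_zero] at this
      linarith
    exact_mod_cast h1
  · have h1 : (d : ℝ) * (18 * t0 + 5) ≤ lam := by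
      have h2 : (d : ℝ) * (18 * t0 + 5) ≤ d * x ^ 53 := mul_le_mul_of_nonneg_left t3 hD0.le
      have h3 := S1 53 950 (by norm_num)
      have h4 : 0 ≤ (d : ℝ) * x ^ 53 := by positivity
      linarith
    exact_mod_cast h1
  · have h1 : (N : ℝ) ≤ lam * Q := by
      rw [hN1]
      calc x ^ 1000 = x ^ 950 * x ^ 50 := by ring
        _ ≤ (lam : ℝ) * (Q : ℝ) := mul_le_mul lam1 Q1 (by positivity) (by positivity)
    exact_mod_cast h1
  · have h1 : 64 * (2 * (d : ℝ) * (18 * t0 + 5) + 1) * (Q : ℝ) ^ 2 ≤ R := by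
      have h2 : (d : ℝ) * (18 * t0 + 5) ≤ d * x ^ 53 := mul_le_mul_of_nonneg_left t3 hD0.le
      have h5 : (1 : ℝ) ≤ d * x ^ 53 := by
        have : (1 : ℝ) ≤ x ^ 53 := one_le_pow₀ hx1
        nlinarith
      have h3 : 64 * (2 * (d : ℝ) * (18 * t0 + 5) + 1) ≤ 192 * (d * x ^ 53) := by linarith
      have h4 : (Q : ℝ) ^ 2 ≤ (2 * x ^ 50) ^ 2 := pow_le_pow_left₀ (by positivity) Q2 2
      have h6 : 64 * (2 * (d : ℝ) * (18 * t0 + 5) + 1) * (Q : ℝ) ^ 2 ≤ 192 * (d * x ^ 53) * (2 * x ^ 50) ^ 2 :=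
        mul_le_mul h3 h4 (by positivity) (by positivity)
      have h7 : 192 * ((d : ℝ) * x ^ 53) * (2 * x ^ 50) ^ 2 = 768 * (d * x ^ 153) := by ring
      have h8 := S1 153 950 (by norm_num)
      have h9 : 0 ≤ (d : ℝ) * x ^ 153 := by positivity
      have h10 : 1000000 * (d : ℝ) * x ^ 153 = 1000000 * (d * x ^ 153) := by ring
      linarith
    exact_mod_cast h1
  · exact_mod_cast Rpos
  · have h1 : (1 : ℝ) ≤ x ^ 950 / (128 * d) := by
      rw [le_div_iff₀ (by positivity)]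
      have := S1 0 950 (by norm_num)
      rw [pow_zero] at this
      linarith
    rw [hB]
    exact Nat.le_floor (by exact_mod_cast h1)
  · set y := 1 / x ^ 51 / (2 * (d : ℝ)) with hy
    have hy0 : 0 ≤ y := by positivity
    have hy1 : y ≤ 1 := by
      rw [hy, div_div, div_le_one (by positivity)]
      have : (1 : ℝ) ≤ x ^ 51 := one_le_pow₀ hx1
      nlinarith
    have h1 : y / 2 ≤ Real.log (1 + y) := by
      have h2 := Real.le_log_one_add_of_nonneg hy0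
      refine le_trans ?_ h2
      rw [div_le_div_iff₀ (by norm_num) (by linarith)]
      nlinarith
    have h3 : Real.exp (t0 * (y / 2)) ≤ (1 + y) ^ t0 := by
      rw [Real.exp_nat_mul]
      apply pow_le_pow_left₀ (Real.exp_pos _).le
      rw [← Real.le_log_iff_exp_le (by linarith)]
      exact h1
    have h4 : Real.log ((N : ℝ) + 1) ≤ t0 * (y / 2) := by
      have h5 : 4 * (d : ℝ) * x ^ 51 * Real.log (N + 1) * (y / 2) ≤ t0 * (y / 2) :=
        mul_le_mul_of_nonneg_right t1 (by positivity)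
      have h6 : 4 * (d : ℝ) * x ^ 51 * Real.log (N + 1) * (y / 2) = Real.log (N + 1) := by
        rw [hy]
        field_simp
        ring
      linarith
    have h7 : (N : ℝ) + 1 ≤ Real.exp (t0 * (y / 2)) := by
      rw [← Real.log_le_iff_le_exp (by positivity)]
      exact h4
    linarith
  · exact_mod_cast apos
  · have h1 : (aa : ℝ) ≤ b := by
      have := S0 330 798 (by norm_num)
      have h2 : 0 ≤ x ^ 330 := by positivity
      linarith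
    exact_mod_cast h1
  · have h1 : (d : ℝ) * b ≤ 8 * lam := by
      have h2 : (d : ℝ) * b ≤ d * x ^ 798 := mul_le_mul_of_nonneg_left b1 hD0.le
      have h3 := S1 798 950 (by norm_num)
      have h4 : 0 ≤ (d : ℝ) * x ^ 798 := by positivity
      linarith
    exact_mod_cast h1
  · have h1 : 0 < x ^ 786 := by positivity
    linarith
  · have h1 : 2 * (d : ℝ) * ((N : ℝ) * (2 * t0 + 1) / aa + ((N : ℝ) / b) ^ 2 * (6 * t0 + 1)) ≤ 68 * (d * x ^ 722) := by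
      have h2 : (N : ℝ) * (2 * t0 + 1) / aa + ((N : ℝ) / b) ^ 2 * (6 * t0 + 1) ≤ 34 * x ^ 722 := by linarith
      have h3 := mul_le_mul_of_nonneg_left h2 (show 0 ≤ 2 * (d : ℝ) by positivity)
      have h4 : 2 * (d : ℝ) * (34 * x ^ 722) = 68 * (d * x ^ 722) := by ring
      linarith
    have h5 : x ^ 798 / 4 ≤ b - (N : ℝ) * (2 * t0 + 1) / aa - ((N : ℝ) / b) ^ 2 * (6 * t0 + 1) * aa := by
      have h6 : 0 < x ^ 786 := by positivity
      linarith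
    have h7 : 1 / x ^ 51 * (x ^ 798 / 4) ≤
        1 / x ^ 51 * (b - (N : ℝ) * (2 * t0 + 1) / aa - ((N : ℝ) / b) ^ 2 * (6 * t0 + 1) * aa) :=
      mul_le_mul_of_nonneg_left h5 (by positivity)
    have h8 : 1 / x ^ 51 * (x ^ 798 / 4) = x ^ 747 / 4 := by
      have : x ^ 798 = x ^ 747 * x ^ 51 := by ring
      rw [this]
      field_simp
    have h9 := S1 722 747 (by norm_num)
    have h10 : 1000000 * (d : ℝ) * x ^ 722 = 1000000 * (d * x ^ 722) := by ring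
    have h11 : 0 ≤ (d : ℝ) * x ^ 722 := by positivity
    linarith
  · have h1 : (N : ℝ) / R ≤ 64 * x ^ 50 := by
      rw [div_le_iff₀ Rpos, hN1]
      have h2 : 64 * x ^ 50 * (x ^ 950 / 64) ≤ 64 * x ^ 50 * R := mul_le_mul_of_nonneg_left R2 (by positivity)
      have h3 : 64 * x ^ 50 * (x ^ 950 / 64) = x ^ 1000 := by ring
      linarith
    have h4 : (N : ℝ) / lam ≤ x ^ 50 := by
      rw [div_le_iff₀ lpos, hN1]
      have h2 : x ^ 50 * x ^ 950 ≤ x ^ 50 * lam := mul_le_mul_of_nonneg_left lam1 (by positivity)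
      have h3 : x ^ 50 * x ^ 950 = x ^ 1000 := by ring
      linarith
    have h5 : (Q : ℝ) ^ 2 ≤ (2 * x ^ 50) ^ 2 := pow_le_pow_left₀ (by positivity) Q2 2
    have h6 : 256 * (d : ℝ) * (Q : ℝ) ^ 2 * N / R ≤ 65536 * (d * x ^ 150) := by
      have h7 : 256 * (d : ℝ) * (Q : ℝ) ^ 2 * N / R = 256 * d * (Q : ℝ) ^ 2 * (N / R) := by ring
      rw [h7]
      calc 256 * (d : ℝ) * (Q : ℝ) ^ 2 * (N / R) ≤ 256 * d * (2 * x ^ 50) ^ 2 * (64 * x ^ 50) := by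
            apply mul_le_mul _ h1 (by positivity) (by positivity)
            exact mul_le_mul_of_nonneg_left h5 (by positivity)
        _ = 65536 * (d * x ^ 150) := by ring
    have h8 : 2 * (d : ℝ) * N / lam ≤ 2 * (d * x ^ 150) := by
      have h7 : 2 * (d : ℝ) * N / lam = 2 * d * (N / lam) := by ring
      rw [h7]
      have h9 : x ^ 50 ≤ x ^ 150 := pow_le_pow_right₀ hx1 (by norm_num)
      calc 2 * (d : ℝ) * (N / lam) ≤ 2 * d * x ^ 150 :=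
            mul_le_mul_of_nonneg_left (h4.trans h9) (by positivity)
        _ = 2 * (d * x ^ 150) := by ring
    have h9 := S1 150 151 (by norm_num)
    have h10 : 1000000 * (d : ℝ) * x ^ 150 = 1000000 * (d * x ^ 150) := by ring
    have h11 : 0 ≤ (d : ℝ) * x ^ 150 := by positivity
    linarith
  · have k1 : 2 * (d : ℝ) * (18 * t0 + 5) * Q ≤ 4 * (d * x ^ 103) := by
      calc 2 * (d : ℝ) * (18 * t0 + 5) * Q ≤ 2 * d * x ^ 53 * (2 * x ^ 50) := by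
            apply mul_le_mul _ Q2 (by positivity) (by positivity)
            exact mul_le_mul_of_nonneg_left t3 (by positivity)
        _ = 4 * (d * x ^ 103) := by ring
    have k2 : 2 * (1 / x ^ 51) * (N : ℝ) * Nat.log 2 N ≤ x ^ 950 / 32 := by
      have h1 : 2 * (1 / x ^ 51) * (N : ℝ) = 2 * x ^ 949 := by
        rw [hN1]
        have : x ^ 1000 = x ^ 949 * x ^ 51 := by ring
        rw [this]
        field_simp
      rw [h1]
      calc 2 * x ^ 949 * (Nat.log 2 N : ℝ) ≤ 2 * x ^ 949 * (x / 64) :=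
            mul_le_mul_of_nonneg_left hlog2 (by positivity)
        _ = x ^ 950 / 32 := by ring
    have k3 : (N : ℝ) * ((2 * (t0 : ℝ) + 1) / aa + (N : ℝ) * (6 * t0 + 1) * aa / (b : ℝ) ^ 2) ≤ 34 * x ^ 786 := by
      have h1 : (N : ℝ) * ((2 * (t0 : ℝ) + 1) / aa + (N : ℝ) * (6 * t0 + 1) * aa / (b : ℝ) ^ 2)
          = (N : ℝ) * (2 * t0 + 1) / aa + ((N : ℝ) / b) ^ 2 * (6 * t0 + 1) * aa := by
        field_simp
      rw [h1]
      linarith
    have k4 : (b : ℝ) * (N * d / (8 * lam)) ≤ d * x ^ 848 := by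
      have h4 : (N : ℝ) / lam ≤ x ^ 50 := by
        rw [div_le_iff₀ lpos, hN1]
        have h2 : x ^ 50 * x ^ 950 ≤ x ^ 50 * lam := mul_le_mul_of_nonneg_left lam1 (by positivity)
        have h3 : x ^ 50 * x ^ 950 = x ^ 1000 := by ring
        linarith
      have h5 : (b : ℝ) * (N * d / (8 * lam)) = (1 / 8) * (b * d * (N / lam)) := by
        field_simp
      rw [h5]
      have h6 : (b : ℝ) * d * (N / lam) ≤ x ^ 798 * d * x ^ 50 := by
        apply mul_le_mul _ h4 (by positivity) (by positivity)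
        exact mul_le_mul_of_nonneg_right b1 (by positivity)
      have h7 : x ^ 798 * (d : ℝ) * x ^ 50 = d * x ^ 848 := by ring
      have h8 : 0 ≤ (d : ℝ) * x ^ 848 := by positivity
      linarith
    have k5 : (d : ℝ) * (N * ((2 * (t0 : ℝ) + 1) / aa + (N : ℝ) * (6 * t0 + 1) * aa / (b : ℝ) ^ 2)
        + b * (N * d / (8 * lam))) ≤ 34 * (d * x ^ 786) + d ^ 2 * x ^ 848 := by
      calc (d : ℝ) * (N * ((2 * (t0 : ℝ) + 1) / aa + (N : ℝ) * (6 * t0 + 1) * aa / (b : ℝ) ^ 2)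
        + b * (N * d / (8 * lam))) ≤ d * (34 * x ^ 786 + d * x ^ 848) :=
            mul_le_mul_of_nonneg_left (add_le_add k3 k4) hD0.le
        _ = 34 * (d * x ^ 786) + d ^ 2 * x ^ 848 := by ring
    have k6 : (d : ℝ) * (d * b) * (x ^ 151 + 1) ≤ 2 * (d ^ 2 * x ^ 949) := by
      have h1 : (1 : ℝ) ≤ x ^ 151 := one_le_pow₀ hx1
      calc (d : ℝ) * (d * b) * (x ^ 151 + 1) ≤ d * (d * x ^ 798) * (2 * x ^ 151) := by
            apply mul_le_mul _ (by linarith) (by positivity) (by positivity)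
            exact mul_le_mul_of_nonneg_left (mul_le_mul_of_nonneg_left b1 hD0.le) hD0.le
        _ = 2 * (d ^ 2 * x ^ 949) := by ring
    have m1 := S1 103 950 (by norm_num)
    have m2 := S1 786 950 (by norm_num)
    have m3 := S2 848 950 (by norm_num)
    have m4 := S2 949 950 (by norm_num)
    have n1 : 1000000 * (d : ℝ) * x ^ 103 = 1000000 * (d * x ^ 103) := by ring
    have n2 : 1000000 * (d : ℝ) * x ^ 786 = 1000000 * (d * x ^ 786) := by ring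
    have n3 : 1000000 * (d : ℝ) ^ 2 * x ^ 848 = 1000000 * (d ^ 2 * x ^ 848) := by ring
    have n4 : 1000000 * (d : ℝ) ^ 2 * x ^ 949 = 1000000 * (d ^ 2 * x ^ 949) := by ring
    have q0 : 0 < x ^ 950 := by positivity
    linarith

end Pool.Agent.DSW
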