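import Pool.Agent.DSW.Basic

/-!
# Pending sides (helper13)

`pend c P G`: sides `x ∉ G` with `τ x, τ (a x) ∈ P` and `c (τ x) = c (τ (a x))`.

`pend_a`: symmetric conditions, `a (a x) = x`, `a_notMem`.
`pend_glue`: `pend c P (G ∪ K) = pend c P G \ K`.
`pend_grow`: `pend c (P ∪ X) G' ⊆ pend c P G ∪ {x | τ x ∈ X} ∪ {x | τ (a x) ∈ X}`; both sets have at most `d |X|` elements
(`S.deg`, the second is the image of the first under `a`).

`pigeon`: let `F` be the set of all `comp G z`, `z ∈ pend`.  Different members of `F` are disjoint and each has at least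
`λ` elements, so `|F| λ ≤ |D| ≤ λ Q` and `|F| ≤ Q`.  For `z ∈ pend` also `a z ∈ pend`, so
`z ↦ (comp G z, comp G (a z))` maps `pend` to `F ×ˢ F`, which has at most `Q^2` elements; by the pigeonhole principle
(`Finset.exists_le_card_fiber_of_mul_le_card_of_maps_to` or by contradiction with `card_eq_sum_card_fiberwise`) some
fibre has at least `|pend| / Q^2` elements.  It is nonempty (`pend ≠ ∅`), take `x` in it.  If `z` is in the same fibre then
`z ∈ comp G z = comp G x` (`z ∉ G`), so `Same G x z`, and likewise `Same G (a x) (a z)`.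
-/

set_option autoImplicit false

namespace Pool.Agent.DSW

open Equiv Finset

namespace Surf

variable {D V : Type} [Fintype D] [DecidableEq D] [Fintype V] [DecidableEq V] (S : Surf D V)

theorem mem_pend {c : V → V} {P : Finset V} {G : Finset D} {x : D} : x ∈ S.pend c P G ↔
    (S.τ x ∈ P ∧ S.τ (S.a x) ∈ P) ∧ x ∉ G ∧ c (S.τ x) = c (S.τ (S.a x)) := by
  simp [pend]

theorem pend_a {c : V → V} {P : Finset V} {G : Finset D} (hG : S.Closed G) {x : D} (hx : x ∈ S.pend c P G) :
    S.a x ∈ S.pend c P G := by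
  rw [mem_pend] at hx ⊢
  obtain ⟨⟨h1, h2⟩, h3, h4⟩ := hx
  rw [S.inv]
  exact ⟨⟨h2, h1⟩, S.a_notMem hG h3, h4.symm⟩

theorem pend_glue {c : V → V} {P : Finset V} {G K : Finset D} (hK : K ⊆ S.pend c P G) :
    (S.pend c P (G ∪ K)).card + K.card = (S.pend c P G).card := by
  have h : S.pend c P (G ∪ K) = S.pend c P G \ K := by
    ext x
    simp only [mem_pend, mem_sdiff, mem_union]
    tauto
  rw [h]
  exact card_sdiff_add_card_eq_card hK

private theorem card_tau (X : Finset V) : (univ.filter fun x => S.τ x ∈ X).card ≤ S.d * X.card := by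
  have h : (univ.filter fun x => S.τ x ∈ X) = X.biUnion fun v => univ.filter fun x => S.τ x = v := by
    ext x
    simp
  rw [h, mul_comm]
  refine card_biUnion_le_card_mul _ _ _ ?_
  intro v _
  exact S.deg v

private theorem card_tau_a (X : Finset V) : (univ.filter fun x => S.τ (S.a x) ∈ X).card ≤ S.d * X.card := by
  refine le_trans ?_ (S.card_tau X)
  refine card_le_card_of_injOn S.a ?_ (S.a.injective.injOn)
  intro x hx
  simpa using hx

theorem pend_grow {c : V → V} {P X : Finset V} {G G' : Finset D} (hG : G ⊆ G') :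
    (S.pend c (P ∪ X) G').card ≤ (S.pend c P G).card + 2 * S.d * X.card := by
  have h : S.pend c (P ∪ X) G' ⊆ (S.pend c P G ∪ (univ.filter fun x => S.τ x ∈ X)) ∪
      (univ.filter fun x => S.τ (S.a x) ∈ X) := by
    intro x hx
    simp only [mem_pend, mem_union, mem_filter, mem_univ, true_and] at hx ⊢
    obtain ⟨⟨h1, h2⟩, h3, h4⟩ := hx
    have h5 : x ∉ G := fun h => h3 (hG h)
    tauto
  have h1 := card_le_card h
  have h2 := card_union_le (S.pend c P G ∪ (univ.filter fun x => S.τ x ∈ X))
    (univ.filter fun x => S.τ (S.a x) ∈ X)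
  have h3 := card_union_le (S.pend c P G) (univ.filter fun x => S.τ x ∈ X)
  have h4 := S.card_tau X
  have h5 := S.card_tau_a X
  have h6 : 2 * S.d * X.card = S.d * X.card + S.d * X.card := by ring
  omega

open Classical in
theorem pigeon {c : V → V} {P : Finset V} {G : Finset D} (hG : S.Closed G) {lam Q : ℕ} (h0 : 0 < lam)
    (hQ : Fintype.card D ≤ lam * Q) (hl : ∀ x ∈ S.pend c P G, lam ≤ S.len G x)
    (hne : 0 < (S.pend c P G).card) :
    ∃ x ∈ S.pend c P G, (S.pend c P G).card ≤
      Q ^ 2 * ((S.pend c P G).filter fun z => S.Same G x z ∧ S.Same G (S.a x) (S.a z)).card := by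
  set pd := S.pend c P G with hpd
  set F : Finset (Finset D) := pd.image fun z => S.comp G z with hF
  -- the number of components
  have hFQ : F.card ≤ Q := by
    have h1 : F.card * lam ≤ (F.biUnion id).card := by
      rw [card_biUnion]
      · have : ∀ s ∈ F, lam ≤ (id s).card := by
          intro s hs
          obtain ⟨z, hz, rfl⟩ := mem_image.1 hs
          exact hl z hz
        calc F.card * lam = ∑ _s ∈ F, lam := by simp
          _ ≤ ∑ s ∈ F, (id s).card := sum_le_sum this
      · intro s hs t ht hst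
        obtain ⟨z, hz, rfl⟩ := mem_image.1 hs
        obtain ⟨w, hw, rfl⟩ := mem_image.1 ht
        show Disjoint (S.comp G z) (S.comp G w)
        rw [disjoint_left]
        intro y hy hy'
        apply hst
        rw [S.mem_comp] at hy hy'
        exact S.comp_eq (S.same_trans hy.2 (S.same_symm hy'.2))
    have h2 : (F.biUnion id).card ≤ Fintype.card D := card_le_univ _
    have h3 : lam * F.card ≤ lam * Q := by
      rw [mul_comm lam F.card]
      exact h1.trans (h2.trans hQ)
    exact Nat.le_of_mul_le_mul_left h3 h0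
  set f : D → Finset D × Finset D := fun z => (S.comp G z, S.comp G (S.a z)) with hf
  have hmaps : ∀ z ∈ pd, f z ∈ F ×ˢ F := by
    intro z hz
    rw [mem_product]
    exact ⟨mem_image_of_mem _ hz, mem_image_of_mem _ (S.pend_a hG hz)⟩
  obtain ⟨z0, hz0⟩ := card_pos.1 hne
  have hFne : (F ×ˢ F).Nonempty := ⟨f z0, hmaps z0 hz0⟩
  obtain ⟨y, hy, hmax⟩ := exists_max_image (F ×ˢ F) (fun y => (pd.filter fun z => f z = y).card) hFne
  have hsum : pd.card ≤ Q ^ 2 * (pd.filter fun z => f z = y).card := by
    rw [card_eq_sum_card_fiberwise hmaps]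
    calc ∑ b ∈ F ×ˢ F, (pd.filter fun z => f z = b).card
        ≤ ∑ _b ∈ F ×ˢ F, (pd.filter fun z => f z = y).card := sum_le_sum hmax
      _ = (F ×ˢ F).card * (pd.filter fun z => f z = y).card := by simp
      _ ≤ Q ^ 2 * (pd.filter fun z => f z = y).card := by
          apply Nat.mul_le_mul_right
          rw [card_product, sq]
          exact Nat.mul_le_mul hFQ hFQ
  have hpos : 0 < (pd.filter fun z => f z = y).card := by
    by_contra hc
    have : (pd.filter fun z => f z = y).card = 0 := by omega
    rw [this] at hsum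
    omega
  obtain ⟨x, hx⟩ := card_pos.1 hpos
  rw [mem_filter] at hx
  refine ⟨x, hx.1, hsum.trans ?_⟩
  apply Nat.mul_le_mul_left
  apply card_le_card
  intro z hz
  rw [mem_filter] at hz ⊢
  refine ⟨hz.1, ?_⟩
  have heq : f z = f x := hz.2.trans hx.2.symm
  have h1 : S.comp G z = S.comp G x := congrArg Prod.fst heq
  have h2 : S.comp G (S.a z) = S.comp G (S.a x) := congrArg Prod.snd heq
  have hz' := (S.mem_pend).1 hz.1
  have hza : S.a z ∉ G := S.a_notMem hG hz'.2.1
  constructor
  · have : z ∈ S.comp G z := (S.mem_comp).2 ⟨hz'.2.1, S.same_refl G z⟩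
    rw [h1, S.mem_comp] at this
    exact this.2
  · have : S.a z ∈ S.comp G (S.a z) := (S.mem_comp).2 ⟨hza, S.same_refl G (S.a z)⟩
    rw [h2, S.mem_comp] at this
    exact this.2

end Surf

end Pool.Agent.DSW
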