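import Pool.Agent.DSW.OmC
import Pool.Agent.DSW.Pend

/-!
# The moves absorb, small, round and batch (helper13)

In the first three moves only pending sides are glued: `s' = ⟨P0, P, G ∪ K, U⟩` with `K ⊆ pend` closed.
`ok_glue`: `closed`, `gP`, `gc` hold since `K ⊆ pend` and `K` is closed; the other fields do not depend on `G`, except
`len16`, which is a hypothesis.

`move_absorb`: `K = {x, a x}` (`pend_a`).  New lengths: `len x + len (a x) ≤ λ + 8λ ≤ 16λ` (`absorb_len`), `Reach`: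
`touch_reach` with `Z z := Same G x z ∨ Same G (a x) z` (at most `len x + len (a x)` open elements), or
`Reach.step` and `Reach.refl`.  `pend_glue` with `|K| = 2` (`a x ≠ x`).  `om_absorb`.

`move_small`: `K = {z ∈ pend | len G z < λ}`; all these satisfy `Same G z (a z)` (hypothesis), so `K` is closed
(`pend_a`, `len_eq`); `refine_reach`, `refine_len`, `om_small`; `K ≠ ∅`.

`move_round`: `pigeon` gives `x`; let `K = {z ∈ pend | (Same G x z ∧ Same G (a x) (a z)) ∨ (Same G x (a z) ∧ Same G (a x) z)}`,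
closed, and `Q^2 |K| ≥ |pend|`.  `Z z := Same G x z ∨ Same G (a x) z`; `K ⊆ Z`; `#{y ∉ G | Z y} ≤ len x + len (a x) ≤ 16λ`.
`touch_reach`, `touch_len_le`, `om_round` with `B = 16λ`; `pend_glue`.

`move_batch`: choose `X ⊆ ter \ P0` with `|X| = min B |ter \ P0|` such that `dep v ≥ dep u` for all `v ∈ X`,
`u ∈ (ter \ P0) \ X` (`exists_top`: induction on the size, remove an element with maximal `dep`).  `s' = ⟨P0 ∪ X, P ∪ X, G, U⟩`.
`upper`: let `v ∈ P0 ∪ X`, `u ∈ ter`, `dep v < dep u`.  If `v ∈ P0` then `u ∈ P0`.  If `v ∈ X` and `u ∉ P0 ∪ X` then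
`dep v ≥ dep u`, contradiction.  `fresh`: `v ∈ ter`, `v ∉ P0 ∪ X`, `hub v ∉ U`: `v ∉ P` and `v ∉ X`.  `cors`: `cor i j` is disjoint
from `P` and from `ter ⊇ X` (`cor_ter`).  `pend_grow` and `om_batch`.
-/

set_option autoImplicit false

namespace Pool.Agent.DSW

open Equiv Finset

namespace Surf

variable {D V : Type} [Fintype D] [DecidableEq D] [Fintype V] [DecidableEq V] {S : Surf D V}

theorem ok_glue {lam k0 bet : ℕ} {N : S.Net lam k0 bet} {s : State D V} (hs : S.Ok N s) {K : Finset D}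
    (hK : K ⊆ S.pend N.c s.P s.G) (hc : S.Closed K) (hl : ∀ z, S.len (s.G ∪ K) z ≤ 16 * lam) :
    S.Ok N ⟨s.P0, s.P, s.G ∪ K, s.U⟩ := by
  refine ⟨S.closed_union hs.closed hc, ?_, ?_, hs.p0, hs.p0ter, hs.upper, hs.fresh, hs.cors, hl⟩
  · intro x hx
    rcases Finset.mem_union.1 hx with h | h
    · exact hs.gP x h
    · exact ((S.mem_pend).1 (hK h)).1.1
  · intro x hx
    rcases Finset.mem_union.1 hx with h | h
    · exact hs.gc x h
    · exact ((S.mem_pend).1 (hK h)).2.2

theorem move_absorb {lam k0 bet : ℕ} {N : S.Net lam k0 bet} {s : State D V} (hs : S.Ok N s)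
    (h8 : ∀ z, S.len s.G z ≤ 8 * lam) {x : D} (hx : x ∈ S.pend N.c s.P s.G) (hlen : S.len s.G x < lam)
    (hns : ¬ S.Same s.G x (S.a x)) :
    ∃ s' : State D V, S.Ok N s' ∧ S.Reach (17 * lam) s.G s'.G ∧ s'.P0 = s.P0 ∧ s'.U = s.U ∧
      (S.pend N.c s'.P s'.G).card + 2 = (S.pend N.c s.P s.G).card ∧
      S.om lam s'.P s'.G ≤ S.om lam s.P s.G := by
  have hm := (S.mem_pend).1 hx
  have hax := S.pend_a hs.closed hx
  have hK : ({x, S.a x} : Finset D) ⊆ S.pend N.c s.P s.G := by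
    intro z hz
    rcases Finset.mem_insert.1 hz with h | h
    · rw [h]; exact hx
    · rw [Finset.mem_singleton.1 h]; exact hax
  have h16 : ∀ z, S.len (s.G ∪ {x, S.a x}) z ≤ 16 * lam := by
    intro z
    refine S.absorb_len hs.closed hm.2.1 hs.len16 ?_ z
    have h1 := h8 (S.a x)
    omega
  refine ⟨⟨s.P0, s.P, s.G ∪ {x, S.a x}, s.U⟩, ok_glue hs hK (S.closed_pair x) h16, ?_, rfl, rfl, ?_, ?_⟩
  · refine Reach.step s.G x _ hm.2.1 (fun z => ?_) (Reach.refl _ (fun z => ?_))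
    · have h1 := h8 z
      omega
    · have h1 := h16 z
      omega
  · have h1 := S.pend_glue hK
    rw [Finset.card_pair (S.ne x).symm] at h1
    exact h1
  · exact S.om_absorb hs.closed hs.gP hm.2.1 hm.1.1 hm.1.2 hns hlen

theorem move_small {lam k0 bet : ℕ} {N : S.Net lam k0 bet} {s : State D V} (hs : S.Ok N s)
    (h8 : ∀ z, S.len s.G z ≤ 8 * lam)
    (hself : ∀ x ∈ S.pend N.c s.P s.G, S.len s.G x < lam → S.Same s.G x (S.a x))
    {x : D} (hx : x ∈ S.pend N.c s.P s.G) (hlen : S.len s.G x < lam) :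
    ∃ s' : State D V, S.Ok N s' ∧ S.Reach (17 * lam) s.G s'.G ∧ s'.P0 = s.P0 ∧ s'.U = s.U ∧
      (S.pend N.c s'.P s'.G).card < (S.pend N.c s.P s.G).card ∧
      S.om lam s'.P s'.G ≤ S.om lam s.P s.G := by
  set K : Finset D := (S.pend N.c s.P s.G).filter fun z => S.len s.G z < lam with hKdef
  have hKm : ∀ z, z ∈ K ↔ z ∈ S.pend N.c s.P s.G ∧ S.len s.G z < lam := by
    intro z
    rw [hKdef, Finset.mem_filter]
  have hK : K ⊆ S.pend N.c s.P s.G := fun z hz => ((hKm z).1 hz).1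
  have hsame : ∀ z ∈ K, S.Same s.G z (S.a z) := fun z hz => hself z ((hKm z).1 hz).1 ((hKm z).1 hz).2
  have hc : S.Closed K := by
    intro z hz
    refine (hKm _).2 ⟨S.pend_a hs.closed (hK hz), ?_⟩
    rw [← S.len_eq (hsame z hz)]
    exact ((hKm z).1 hz).2
  have hd : Disjoint s.G K := by
    rw [Finset.disjoint_right]
    intro z hz
    exact ((S.mem_pend).1 (hK hz)).2.1
  have h16 : ∀ z, S.len (s.G ∪ K) z ≤ 16 * lam := fun z =>
    (S.refine_len hs.closed hc hd hsame z).trans (hs.len16 z)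
  refine ⟨⟨s.P0, s.P, s.G ∪ K, s.U⟩, ok_glue hs hK hc h16, ?_, rfl, rfl, ?_, ?_⟩
  · refine S.refine_reach hs.closed hc hd hsame (fun z => ?_)
    have h1 := h8 z
    omega
  · have h1 := S.pend_glue hK
    have h2 : 0 < K.card := Finset.card_pos.2 ⟨x, (hKm x).2 ⟨hx, hlen⟩⟩
    change (S.pend N.c s.P (s.G ∪ K)).card < (S.pend N.c s.P s.G).card
    omega
  · exact S.om_small hs.closed hc hd hsame (fun z hz => ((hKm z).1 hz).2)

theorem move_round {lam k0 bet : ℕ} {N : S.Net lam k0 bet} {s : State D V} (hs : S.Ok N s)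
    (h8 : ∀ z, S.len s.G z ≤ 8 * lam) (h0 : 0 < lam) {Q : ℕ} (hQ : Fintype.card D ≤ lam * Q)
    (hbig : ∀ x ∈ S.pend N.c s.P s.G, lam ≤ S.len s.G x) (hne : 0 < (S.pend N.c s.P s.G).card) :
    ∃ s' : State D V, S.Ok N s' ∧ S.Reach (17 * lam) s.G s'.G ∧ s'.P0 = s.P0 ∧ s'.U = s.U ∧
      (S.pend N.c s'.P s'.G).card ≤ (S.pend N.c s.P s.G).card ∧
      (S.pend N.c s.P s.G).card ≤ Q ^ 2 * ((S.pend N.c s.P s.G).card - (S.pend N.c s'.P s'.G).card) ∧
      S.om lam s'.P s'.G ≤ S.om lam s.P s.G + 16 * lam := by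
  classical
  obtain ⟨x, hx, hxc⟩ := S.pigeon hs.closed h0 hQ hbig hne
  set K : Finset D := (S.pend N.c s.P s.G).filter fun z =>
    (S.Same s.G x z ∧ S.Same s.G (S.a x) (S.a z)) ∨ (S.Same s.G x (S.a z) ∧ S.Same s.G (S.a x) z) with hKdef
  have hKm : ∀ z, z ∈ K ↔ z ∈ S.pend N.c s.P s.G ∧
      ((S.Same s.G x z ∧ S.Same s.G (S.a x) (S.a z)) ∨ (S.Same s.G x (S.a z) ∧ S.Same s.G (S.a x) z)) := by
    intro z
    rw [hKdef, Finset.mem_filter]
  have hK : K ⊆ S.pend N.c s.P s.G := fun z hz => ((hKm z).1 hz).1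
  have hc : S.Closed K := by
    intro z hz
    refine (hKm _).2 ⟨S.pend_a hs.closed (hK hz), ?_⟩
    rw [S.inv z]
    rcases ((hKm z).1 hz).2 with h | h
    · exact Or.inr ⟨h.1, h.2⟩
    · exact Or.inl ⟨h.1, h.2⟩
  have hd : Disjoint s.G K := by
    rw [Finset.disjoint_right]
    intro z hz
    exact ((S.mem_pend).1 (hK hz)).2.1
  have hZ : ∀ y z, S.Same s.G y z → (S.Same s.G x y ∨ S.Same s.G (S.a x) y) →
      (S.Same s.G x z ∨ S.Same s.G (S.a x) z) := by
    intro y z h h'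
    rcases h' with h' | h'
    · exact Or.inl (S.same_trans h' h)
    · exact Or.inr (S.same_trans h' h)
  have hKZ : ∀ z ∈ K, (S.Same s.G x z ∨ S.Same s.G (S.a x) z) := by
    intro z hz
    rcases ((hKm z).1 hz).2 with h | h
    · exact Or.inl h.1
    · exact Or.inr h.2
  have hcard : (univ.filter fun y => y ∉ s.G ∧ (S.Same s.G x y ∨ S.Same s.G (S.a x) y)).card ≤ 16 * lam := by
    have hsub : (univ.filter fun y => y ∉ s.G ∧ (S.Same s.G x y ∨ S.Same s.G (S.a x) y)) ⊆
        S.comp s.G x ∪ S.comp s.G (S.a x) := by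
      intro y hy
      rw [Finset.mem_filter] at hy
      rcases hy.2.2 with h | h
      · exact Finset.mem_union_left _ ((S.mem_comp).2 ⟨hy.2.1, h⟩)
      · exact Finset.mem_union_right _ ((S.mem_comp).2 ⟨hy.2.1, h⟩)
    have h1 := (Finset.card_le_card hsub).trans (Finset.card_union_le _ _)
    have h2 : (S.comp s.G x).card ≤ 8 * lam := h8 x
    have h3 : (S.comp s.G (S.a x)).card ≤ 8 * lam := h8 (S.a x)
    omega
  have hcard' : (univ.filter fun y => y ∉ s.G ∧ (S.Same s.G x y ∨ S.Same s.G (S.a x) y)).card ≤ 17 * lam := by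
    omega
  have h16 : ∀ z, S.len (s.G ∪ K) z ≤ 16 * lam := by
    intro z
    refine S.touch_len_le hs.closed hc hd (Z := fun y => S.Same s.G x y ∨ S.Same s.G (S.a x) y)
      hZ hKZ hs.len16 ?_ z
    convert hcard
  refine ⟨⟨s.P0, s.P, s.G ∪ K, s.U⟩, ok_glue hs hK hc h16, ?_, rfl, rfl, ?_, ?_, ?_⟩
  · refine S.touch_reach hs.closed hc hd (Z := fun y => S.Same s.G x y ∨ S.Same s.G (S.a x) y)
      hZ hKZ (fun z => ?_) ?_
    · have h1 := h8 z
      omega
    · convert hcard'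
  · have h1 := S.pend_glue hK
    change (S.pend N.c s.P (s.G ∪ K)).card ≤ (S.pend N.c s.P s.G).card
    omega
  · have h1 := S.pend_glue hK
    change (S.pend N.c s.P s.G).card ≤
      Q ^ 2 * ((S.pend N.c s.P s.G).card - (S.pend N.c s.P (s.G ∪ K)).card)
    have h2 : (S.pend N.c s.P s.G).card - (S.pend N.c s.P (s.G ∪ K)).card = K.card := by omega
    rw [h2]
    refine hxc.trans (Nat.mul_le_mul_left _ (Finset.card_le_card ?_))
    intro z hz
    rw [Finset.mem_filter] at hz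
    exact (hKm z).2 ⟨hz.1, Or.inl hz.2⟩
  · have h1 := S.om_round (P := s.P) hs.closed hc hd
      (Z := fun y => S.Same s.G x y ∨ S.Same s.G (S.a x) y) hZ hKZ (B := 16 * lam) (by convert hcard) lam
    push_cast at h1
    exact h1

theorem exists_top (A : Finset V) (dep : V → ℕ) (n : ℕ) (hn : n ≤ A.card) :
    ∃ X : Finset V, X ⊆ A ∧ X.card = n ∧ ∀ v ∈ X, ∀ u ∈ A, u ∉ X → dep u ≤ dep v := by
  classical
  induction n with
  | zero => exact ⟨∅, Finset.empty_subset _, rfl, fun v hv => absurd hv (Finset.notMem_empty v)⟩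
  | succ n ih =>
    obtain ⟨X, hXA, hXc, hX⟩ := ih (by omega)
    have hne : (A \ X).Nonempty := by
      rw [← Finset.card_pos]
      have h1 := Finset.card_sdiff_add_card_eq_card hXA
      omega
    obtain ⟨v, hv, hmax⟩ := Finset.exists_max_image (A \ X) dep hne
    rw [Finset.mem_sdiff] at hv
    refine ⟨insert v X, ?_, ?_, ?_⟩
    · intro w hw
      rcases Finset.mem_insert.1 hw with h | h
      · rw [h]; exact hv.1
      · exact hXA h
    · rw [Finset.card_insert_of_notMem hv.2, hXc]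
    · intro w hw u hu huX
      rw [Finset.mem_insert, not_or] at huX
      rcases Finset.mem_insert.1 hw with h | h
      · rw [h]; exact hmax u (Finset.mem_sdiff.2 ⟨hu, huX.2⟩)
      · exact hX w h u hu huX.2

theorem move_batch {lam k0 bet : ℕ} {N : S.Net lam k0 bet} {s : State D V} (hs : S.Ok N s) {B : ℕ} (hB : 1 ≤ B)
    (hne : 0 < (N.ter \ s.P0).card) :
    ∃ (s' : State D V) (b : ℕ), S.Ok N s' ∧ s'.G = s.G ∧ s'.U = s.U ∧ 1 ≤ b ∧ b ≤ B ∧
      (N.ter \ s'.P0).card + b = (N.ter \ s.P0).card ∧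
      (S.pend N.c s'.P s'.G).card ≤ (S.pend N.c s.P s.G).card + 2 * S.d * b ∧
      S.om lam s'.P s'.G ≤ S.om lam s.P s.G + S.d * b := by
  obtain ⟨X, hXA, hXc, hX⟩ := exists_top (N.ter \ s.P0) N.dep (min B (N.ter \ s.P0).card) (min_le_right _ _)
  have hXt : X ⊆ N.ter := fun v hv => (Finset.mem_sdiff.1 (hXA hv)).1
  refine ⟨⟨s.P0 ∪ X, s.P ∪ X, s.G, s.U⟩, X.card, ?_, rfl, rfl, ?_, ?_, ?_, ?_, ?_⟩
  · refine ⟨hs.closed, ?_, hs.gc, ?_, ?_, ?_, ?_, ?_, hs.len16⟩
    · intro x hx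
      exact Finset.mem_union_left _ (hs.gP x hx)
    · exact Finset.union_subset_union hs.p0 (Finset.Subset.refl _)
    · exact Finset.union_subset hs.p0ter hXt
    · intro v hv u hu hlt
      rcases Finset.mem_union.1 hv with h | h
      · exact Finset.mem_union_left _ (hs.upper v h u hu hlt)
      · by_contra hcon
        have hcon' : u ∉ s.P0 ∧ u ∉ X := by
          constructor
          · intro h'; exact hcon (Finset.mem_union_left _ h')
          · intro h'; exact hcon (Finset.mem_union_right _ h')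
        have h1 := hX v h u (Finset.mem_sdiff.2 ⟨hu, hcon'.1⟩) hcon'.2
        omega
    · intro v hv hnot hU hP
      have hnot' : v ∉ s.P0 ∧ v ∉ X := by
        constructor
        · intro h'; exact hnot (Finset.mem_union_left _ h')
        · intro h'; exact hnot (Finset.mem_union_right _ h')
      rcases Finset.mem_union.1 hP with h | h
      · exact hs.fresh v hv hnot'.1 hU h
      · exact hnot'.2 h
    · intro i j hi hj hij
      rw [Finset.disjoint_union_right]
      refine ⟨hs.cors i j hi hj hij, ?_⟩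
      exact Disjoint.mono_right hXt (N.cor_ter i j)
  · rw [hXc]
    exact le_min hB hne
  · rw [hXc]
    exact min_le_left _ _
  · change (N.ter \ (s.P0 ∪ X)).card + X.card = (N.ter \ s.P0).card
    have h1 : N.ter \ (s.P0 ∪ X) = (N.ter \ s.P0) \ X := by
      ext v
      simp only [Finset.mem_sdiff, Finset.mem_union, not_or]
      tauto
    rw [h1]
    exact Finset.card_sdiff_add_card_eq_card hXA
  · exact S.pend_grow (Finset.Subset.refl s.G)
  · exact S.om_batch lam s.P X s.G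

end Surf

end Pool.Agent.DSW
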