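import Pool.Agent.DSW.Inv
import Pool.Agent.DSW.MoveA

/-!
# Round and batch steps keep the invariants and lower the measure (helper13)

Put `p0 = 2 d k0`, `Ω = om s`, `pn = |pend|`, `t = |ter \ P0|`.

`step_round` (`pn > R`, all pending sides on components of length `≥ λ`): `move_round`: `pn ≤ Q^2 (pn - pn')`,
`Ω' ≤ Ω + 16 λ`, `U' = U`, `P0' = P0`.  So `Q > 0` and `pn' ≤ pn - pn/Q^2 < pn - R/Q^2`, where `R/Q^2 ≥ 64 (p0 + 1)` (`Num.hR`).
`j1`: `pn' + (p0/λ) Ω' ≤ pn - 64 (p0 + 1) + (p0/λ) Ω + 16 p0 ≤ pn + (p0/λ) Ω`.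
`j2`: `2 Ω'/λ ≤ 2 Ω/λ + 32`; the bracket changes by at most `- pn/Q^2 + 16 p0 ≤ - R/Q^2 + 16 p0`, and
`64 Q^2/R * (- R/Q^2 + 16 p0) = - 64 + 16 * (64 p0 Q^2 / R) ≤ - 64 + 16` as `64 p0 Q^2 ≤ R`; total `32 - 48 < 0`.
Measure: `⌊Ω'/λ⌋ ≤ ⌊Ω/λ⌋ + 16`, so `mu' ≤ mu - 64 (p0 + 1) + 16 (p0 + 1) < mu` (in `ℕ`: `64 (p0+1) Q^2 ≤ R < pn ≤ Q^2 (pn - pn')` gives
`64 (p0 + 1) < pn - pn'`).

`step_batch` (`pn ≤ R`, `t > 0`): `move_batch`: `G' = G`, `U' = U`, `1 ≤ b ≤ B`, `t' = t - b`, `pn' ≤ pn + 2 d b`, `Ω' ≤ Ω + d b`.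
`j1`: `pn' ≤ R + 2 d B` and `(p0/λ) Ω' ≤ (p0/λ) |D| ≤ p0 Q` (`om_le`, `Num.hQ`).
`j2`: the change is at most `2 d b/λ + 64 Q^2/R * (2 d b + (p0/λ) d b - 4 d b) - 2 d b/λ ≤ 0` as `p0/λ ≤ 2` (`Num.hdk`).
Measure: `⌊Ω'/λ⌋ ≤ ⌊Ω/λ⌋ + d b + 1` (as `λ ≥ 1`: `Ω'/λ ≤ Ω/λ + d b`), so
`mu' ≤ mu + 2 d b + (p0 + 1)(d b + 1) - (2 d + (p0 + 1)(d + 1) + 1) b < mu` as `b ≥ 1`.
`Reach`: `Reach.refl` (all lengths `≤ 16 λ`).
-/

set_option autoImplicit false

namespace Pool.Agent.DSW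

open Equiv Finset

namespace Surf

variable {D V : Type} [Fintype D] [DecidableEq D] [Fintype V] [DecidableEq V] {S : Surf D V}
variable {lam k0 bet : ℕ} {N : S.Net lam k0 bet} {Q R B : ℕ} {Um : ℝ} {s : State D V}

theorem step_round (hN : S.Num N Q R B Um) (hI : S.Inv N Q R B Um s) (h8 : ∀ z, S.len s.G z ≤ 8 * lam)
    (hbig : ∀ x ∈ S.pend N.c s.P s.G, lam ≤ S.len s.G x) (hR : R < (S.pend N.c s.P s.G).card) :
    ∃ s' : State D V, S.Inv N Q R B Um s' ∧ S.Reach (17 * lam) s.G s'.G ∧ S.mu N s' < S.mu N s := by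
  obtain ⟨s', hok, hr, hP0, hU, hle, hpn, hom⟩ := move_round hI.ok h8 hN.h0 hN.hQ hbig (by omega)
  have hl : (0 : ℝ) < lam := by exact_mod_cast hN.h0
  have hRr : (0 : ℝ) < R := by exact_mod_cast hN.hR0
  have hc : (0 : ℝ) ≤ 2 * S.d * k0 / lam := by positivity
  have hdrop : (S.pend N.c s'.P s'.G).card + 64 * (2 * S.d * k0 + 1) < (S.pend N.c s.P s.G).card := by
    have h1 : 64 * (2 * S.d * k0 + 1) * Q ^ 2 < Q ^ 2 * ((S.pend N.c s.P s.G).card - (S.pend N.c s'.P s'.G).card) :=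
      lt_of_le_of_lt hN.hR (lt_of_lt_of_le hR hpn)
    have h2 : Q ^ 2 * (64 * (2 * S.d * k0 + 1)) < Q ^ 2 * ((S.pend N.c s.P s.G).card - (S.pend N.c s'.P s'.G).card) := by
      rwa [Nat.mul_comm] at h1
    have h3 := Nat.lt_of_mul_lt_mul_left h2
    omega
  have hQr : (R : ℝ) ≤ (Q : ℝ) ^ 2 * ((S.pend N.c s.P s.G).card - (S.pend N.c s'.P s'.G).card) := by
    have h1 : R ≤ Q ^ 2 * ((S.pend N.c s.P s.G).card - (S.pend N.c s'.P s'.G).card) := (hR.trans_le hpn).le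
    have h2 : ((R : ℕ) : ℝ) ≤ ((Q ^ 2 * ((S.pend N.c s.P s.G).card - (S.pend N.c s'.P s'.G).card) : ℕ) : ℝ) := by
      exact_mod_cast h1
    rw [Nat.cast_mul, Nat.cast_sub hle] at h2
    push_cast at h2
    exact h2
  have hdr : ((S.pend N.c s'.P s'.G).card : ℝ) + 64 * (2 * S.d * k0 + 1) ≤ (S.pend N.c s.P s.G).card := by
    exact_mod_cast hdrop.le
  have hcW : (2 * S.d * k0 / lam : ℝ) * S.om lam s'.P s'.G ≤
      2 * S.d * k0 / lam * S.om lam s.P s.G + 16 * (2 * S.d * k0) := by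
    refine (mul_le_mul_of_nonneg_left hom hc).trans (le_of_eq ?_)
    field_simp
  have hnn : (0 : ℝ) ≤ 2 * S.d * k0 := by positivity
  refine ⟨s', ⟨hok, ?_, ?_⟩, hr, ?_⟩
  · have := hI.j1
    linarith
  · have h3 := hI.j2
    rw [hP0, hU]
    have h4 : 2 * S.om lam s'.P s'.G / lam ≤ 2 * S.om lam s.P s.G / lam + 32 := by
      have h5 : 2 * S.om lam s'.P s'.G / lam ≤ 2 * (S.om lam s.P s.G + 16 * lam) / lam :=
        div_le_div_of_nonneg_right (by linarith) hl.le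
      refine h5.trans (le_of_eq ?_)
      field_simp
      ring
    have h6 : 64 * (Q : ℝ) ^ 2 / R * ((S.pend N.c s'.P s'.G).card + 2 * S.d * k0 / lam * S.om lam s'.P s'.G
        + 4 * S.d * (N.ter \ s.P0).card) ≤
        64 * (Q : ℝ) ^ 2 / R * ((S.pend N.c s.P s.G).card + 2 * S.d * k0 / lam * S.om lam s.P s.G
        + 4 * S.d * (N.ter \ s.P0).card) - 48 := by
      have h7 : (0 : ℝ) ≤ 64 * (Q : ℝ) ^ 2 / R := by positivity
      have h8 : 64 * (Q : ℝ) ^ 2 / R * ((S.pend N.c s'.P s'.G).card + 2 * S.d * k0 / lam * S.om lam s'.P s'.G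
        + 4 * S.d * (N.ter \ s.P0).card) ≤ 64 * (Q : ℝ) ^ 2 / R * ((S.pend N.c s'.P s'.G).card +
          (2 * S.d * k0 / lam * S.om lam s.P s.G + 16 * (2 * S.d * k0)) + 4 * S.d * (N.ter \ s.P0).card) :=
        mul_le_mul_of_nonneg_left (by linarith) h7
      have h9 : (64 : ℝ) ≤ 64 * (Q : ℝ) ^ 2 / R *
          ((S.pend N.c s.P s.G).card - (S.pend N.c s'.P s'.G).card) := by
        rw [div_mul_eq_mul_div, le_div_iff₀ hRr]
        nlinarith
      have h10 : 64 * (Q : ℝ) ^ 2 / R * (16 * (2 * S.d * k0)) ≤ 16 := by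
        rw [div_mul_eq_mul_div, div_le_iff₀ hRr]
        have h11 : (64 * (2 * S.d * k0 + 1) * (Q : ℝ) ^ 2) ≤ R := by exact_mod_cast hN.hR
        nlinarith [sq_nonneg (Q : ℝ)]
      linarith
    linarith
  · unfold mu
    rw [hP0]
    have h3 : ⌊S.om lam s'.P s'.G / lam⌋₊ ≤ ⌊S.om lam s.P s.G / lam⌋₊ + 16 := by
      rw [← Nat.floor_add_ofNat (div_nonneg (S.om_nonneg lam s.P s.G) hl.le) 16]
      apply Nat.floor_le_floor
      rw [div_add' _ _ _ hl.ne']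
      exact div_le_div_of_nonneg_right hom hl.le
    have h4 := Nat.mul_le_mul_left (2 * S.d * k0 + 1) h3
    rw [Nat.mul_add] at h4
    omega

theorem step_batch (hN : S.Num N Q R B Um) (hI : S.Inv N Q R B Um s)
    (hR : (S.pend N.c s.P s.G).card ≤ R) (hne : 0 < (N.ter \ s.P0).card) :
    ∃ s' : State D V, S.Inv N Q R B Um s' ∧ S.Reach (17 * lam) s.G s'.G ∧ S.mu N s' < S.mu N s := by
  obtain ⟨s', b, hok, hG, hU, hb1, hbB, ht, hpn, hom⟩ := move_batch hI.ok hN.hB hne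
  have hl : (0 : ℝ) < lam := by exact_mod_cast hN.h0
  have hl1 : (1 : ℝ) ≤ lam := by exact_mod_cast hN.h0
  have hRr : (0 : ℝ) < R := by exact_mod_cast hN.hR0
  have hc : (0 : ℝ) ≤ 2 * S.d * k0 / lam := by positivity
  have hc2 : (2 * S.d * k0 / lam : ℝ) ≤ 2 := by
    rw [div_le_iff₀ hl]
    have : ((S.d : ℝ) * k0) ≤ lam := by exact_mod_cast hN.hdk
    linarith
  have hpnr : ((S.pend N.c s'.P s'.G).card : ℝ) ≤ (S.pend N.c s.P s.G).card + 2 * S.d * b := by exact_mod_cast hpn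
  have hRp : ((S.pend N.c s.P s.G).card : ℝ) ≤ R := by exact_mod_cast hR
  have hbBr : (b : ℝ) ≤ B := by exact_mod_cast hbB
  have htr : ((N.ter \ s'.P0).card : ℝ) = (N.ter \ s.P0).card - b := by
    have : (((N.ter \ s'.P0).card + b : ℕ) : ℝ) = ((N.ter \ s.P0).card : ℝ) := by exact_mod_cast ht
    push_cast at this
    linarith
  have hdb : (0 : ℝ) ≤ S.d * b := by positivity
  refine ⟨s', ⟨hok, ?_, ?_⟩, ?_, ?_⟩
  · have h1 : (2 * S.d * k0 / lam : ℝ) * S.om lam s'.P s'.G ≤ 2 * S.d * k0 * Q := by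
      have h2 : S.om lam s'.P s'.G ≤ lam * Q :=
        (S.om_le lam s'.P s'.G).trans (by exact_mod_cast hN.hQ)
      refine (mul_le_mul_of_nonneg_left h2 hc).trans (le_of_eq ?_)
      field_simp
    have h3 : 2 * (S.d : ℝ) * b ≤ 2 * S.d * B := mul_le_mul_of_nonneg_left hbBr (by positivity)
    linarith
  · have h3 := hI.j2
    rw [htr, hU]
    have h4 : 2 * S.om lam s'.P s'.G / lam ≤ 2 * S.om lam s.P s.G / lam + 2 * S.d * b / lam := by
      rw [← add_div]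
      exact div_le_div_of_nonneg_right (by linarith) hl.le
    have h5 : 2 * (S.d : ℝ) / lam * ((N.ter \ s.P0).card - b) =
        2 * S.d / lam * (N.ter \ s.P0).card - 2 * S.d * b / lam := by
      ring
    have h6 : 64 * (Q : ℝ) ^ 2 / R * ((S.pend N.c s'.P s'.G).card + 2 * S.d * k0 / lam * S.om lam s'.P s'.G
        + 4 * S.d * ((N.ter \ s.P0).card - b)) ≤
        64 * (Q : ℝ) ^ 2 / R * ((S.pend N.c s.P s.G).card + 2 * S.d * k0 / lam * S.om lam s.P s.G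
        + 4 * S.d * (N.ter \ s.P0).card) := by
      refine mul_le_mul_of_nonneg_left ?_ (by positivity)
      have h7 := mul_le_mul_of_nonneg_left hom hc
      have h8 := mul_le_mul_of_nonneg_right hc2 hdb
      nlinarith
    rw [h5]
    linarith
  · rw [hG]
    refine Reach.refl _ ?_
    intro z
    have := hI.ok.len16 z
    omega
  · unfold mu
    have h3 : ⌊S.om lam s'.P s'.G / lam⌋₊ ≤ ⌊S.om lam s.P s.G / lam⌋₊ + S.d * b := by
      rw [← Nat.floor_add_natCast (div_nonneg (S.om_nonneg lam s.P s.G) hl.le) (S.d * b)]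
      apply Nat.floor_le_floor
      have h4 : S.om lam s'.P s'.G / lam ≤ (S.om lam s.P s.G + S.d * b) / lam :=
        div_le_div_of_nonneg_right hom hl.le
      have h5 : ((S.d : ℝ) * b) / lam ≤ S.d * b := div_le_self hdb hl1
      rw [add_div] at h4
      push_cast
      linarith
    have h4 := Nat.mul_le_mul_left (2 * S.d * k0 + 1) h3
    rw [← ht]
    have h5 : (2 * S.d * k0 + 1) * (⌊S.om lam s.P s.G / lam⌋₊ + S.d * b) =
      (2 * S.d * k0 + 1) * ⌊S.om lam s.P s.G / lam⌋₊ + (2 * S.d * k0 + 1) * (S.d * b) := by ring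
    rw [h5] at h4
    have h6 : (2 * S.d + (2 * S.d * k0 + 1) * (S.d + 1) + 1) * ((N.ter \ s'.P0).card + b) =
      (2 * S.d + (2 * S.d * k0 + 1) * (S.d + 1) + 1) * (N.ter \ s'.P0).card + 2 * S.d * b
        + (2 * S.d * k0 + 1) * (S.d * b) + (2 * S.d * k0 + 1) * b + b := by ring
    rw [h6]
    omega

end Surf

end Pool.Agent.DSW
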