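import Pool.Agent.DSW.RunA
import Pool.Agent.DSW.RunB

/-!
# The algorithm (helper13)

`finish`: if `ter ⊆ P0` and `|pend| ≤ R` then an open side `x` has `τ x ∉ ter` (at most `d |univ \ ter|` sides, `card_tau_le`), or
`τ (a x) ∉ ter` (at most `d |univ \ ter|`, `card_tau_a_le`), or both polygons are in `ter ⊆ P0 ⊆ P` and then
`c (τ x) ≠ c (τ (a x))` (at most `inter`) or `x ∈ pend` (at most `R`).  So at most
`2 d |univ \ ter| + inter + R ≤ 2 λ` open sides (`Num.hnum`; all other terms there are nonnegative, for the last one use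
`Um ≥ 0`, which follows from `Num.hUm`), and `reach_all`.

`run`: strong induction on the measure: every state `s` with `Inv` satisfies `Reach (17 λ) s.G univ`.
If some `len z0 > 8λ`: `step_strand`.  Otherwise, if some pending `x` has `len x < λ` and `¬ Same x (a x)`: `step_absorb`.
Otherwise, if some pending `x` has `len x < λ`: `step_small`.  Otherwise, if `|pend| > R`: `step_round`.  Otherwise, if
`ter \ P0 ≠ ∅`: `step_batch`.  Otherwise `finish`.  In all cases use `Reach.trans`.  Start with `inv_zero`.
-/

set_option autoImplicit false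

namespace Pool.Agent.DSW

open Equiv Finset

namespace Surf

variable {D V : Type} [Fintype D] [DecidableEq D] [Fintype V] [DecidableEq V] {S : Surf D V}
variable {lam k0 bet : ℕ} {N : S.Net lam k0 bet} {Q R B : ℕ} {Um : ℝ} {s : State D V}

theorem finish (hN : S.Num N Q R B Um) (hI : S.Inv N Q R B Um s)
    (hR : (S.pend N.c s.P s.G).card ≤ R) (hne : (N.ter \ s.P0).card = 0) :
    S.Reach (17 * lam) s.G univ := by
  have hter : N.ter ⊆ s.P := by
    have h1 : N.ter \ s.P0 = ∅ := card_eq_zero.1 hne
    exact (sdiff_eq_empty_iff_subset.1 h1).trans hI.ok.p0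
  have hsub : univ \ s.G ⊆ ((univ.filter fun x => S.τ x ∈ univ \ N.ter) ∪
      (univ.filter fun x => S.τ (S.a x) ∈ univ \ N.ter)) ∪
      ((univ.filter fun x => N.c (S.τ x) ≠ N.c (S.τ (S.a x))) ∪ S.pend N.c s.P s.G) := by
    intro x hx
    have hxG : x ∉ s.G := (mem_sdiff.1 hx).2
    simp only [mem_union, mem_filter, mem_univ, true_and, mem_sdiff]
    by_cases h1 : S.τ x ∈ N.ter
    · by_cases h2 : S.τ (S.a x) ∈ N.ter
      · by_cases h3 : N.c (S.τ x) = N.c (S.τ (S.a x))
        · right; right
          unfold pend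
          rw [mem_filter]
          exact ⟨mem_univ _, ⟨hter h1, hter h2⟩, hxG, h3⟩
        · right; left
          exact h3
      · left; right
        exact h2
    · left; left
      exact h1
  have hc : (univ \ s.G).card ≤ (S.d * (univ \ N.ter).card + S.d * (univ \ N.ter).card) +
      (S.inter N.c + R) := by
    refine (card_le_card hsub).trans ((card_union_le _ _).trans ?_)
    refine Nat.add_le_add ((card_union_le _ _).trans ?_) ((card_union_le _ _).trans ?_)
    · exact Nat.add_le_add (card_tau_le _) (card_tau_a_le _)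
    · exact Nat.add_le_add (le_of_eq rfl) hR
  have hUm : 0 ≤ Um := by
    refine le_trans ?_ hN.hUm
    positivity
  have h1 := hN.hnum
  have h2 : (0 : ℝ) ≤ 2 * S.d * B := by positivity
  have h3 : (0 : ℝ) ≤ 2 * S.d * k0 * Q := by positivity
  have h4 : (0 : ℝ) ≤ S.d * bet * (Um + 1) := by positivity
  have h5 : ((R + S.inter N.c + S.d * (univ \ N.ter).card : ℕ) : ℝ) < (lam : ℝ) := by
    push_cast
    linarith
  have h6 : R + S.inter N.c + S.d * (univ \ N.ter).card < lam := by exact_mod_cast h5
  refine S.reach_all hI.ok.closed ?_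
  have h7 : S.d * (univ \ N.ter).card ≤ lam := by omega
  omega

private theorem run_aux (hN : S.Num N Q R B Um) : ∀ (n : ℕ) (s : State D V), S.mu N s ≤ n →
    S.Inv N Q R B Um s → S.Reach (17 * lam) s.G univ := by
  intro n
  induction n using Nat.strong_induction_on with
  | _ n ih =>
    intro s hs hI
    have key : (∃ s' : State D V, S.Inv N Q R B Um s' ∧ S.Reach (17 * lam) s.G s'.G ∧
        S.mu N s' < S.mu N s) → S.Reach (17 * lam) s.G univ := by
      rintro ⟨s', h1, h2, h3⟩
      exact Reach.trans h2 (ih (S.mu N s') (by omega) s' le_rfl h1)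
    by_cases h8 : ∀ z, S.len s.G z ≤ 8 * lam
    · by_cases hab : ∃ x ∈ S.pend N.c s.P s.G, S.len s.G x < lam ∧ ¬ S.Same s.G x (S.a x)
      · obtain ⟨x, hx, hl, hns⟩ := hab
        exact key (step_absorb hN hI h8 hx hl hns)
      · have hself : ∀ x ∈ S.pend N.c s.P s.G, S.len s.G x < lam → S.Same s.G x (S.a x) := by
          intro x hx hl
          by_contra hns
          exact hab ⟨x, hx, hl, hns⟩
        by_cases hsm : ∃ x ∈ S.pend N.c s.P s.G, S.len s.G x < lam
        · obtain ⟨x, hx, hl⟩ := hsm
          exact key (step_small hN hI h8 hself hx hl)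
        · have hbig : ∀ x ∈ S.pend N.c s.P s.G, lam ≤ S.len s.G x := by
            intro x hx
            by_contra hl
            exact hsm ⟨x, hx, not_le.1 hl⟩
          by_cases hR : (S.pend N.c s.P s.G).card ≤ R
          · by_cases hne : (N.ter \ s.P0).card = 0
            · exact finish hN hI hR hne
            · exact key (step_batch hN hI hR (Nat.pos_of_ne_zero hne))
          · exact key (step_round hN hI h8 hbig (not_le.1 hR))
    · push Not at h8
      obtain ⟨z0, hz0⟩ := h8
      exact key (step_strand hN hI hz0)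

theorem run (hN : S.Num N Q R B Um) : S.Reach (17 * lam) ∅ univ := by
  have h := run_aux hN (S.mu N ⟨∅, ∅, ∅, ∅⟩) ⟨∅, ∅, ∅, ∅⟩ le_rfl (inv_zero hN)
  exact h

end Surf

end Pool.Agent.DSW
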