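import Pool.Agent.DSW.Basic

/-!
# From `Reach` to a gluing time (helper13)

`time_aux`: induction on `Reach L G univ` (generalize `G`; `G' = univ` fixed, so use an index equation or
`induction` with `hG' : G' = univ`).
`refl` (`G = univ`): `t = 0`; the condition on pairs is void, `G ∪ … = univ` and the bound is `h`.
`step`: `G1 = G ∪ {x, a x}` closed; let `t'` be given by the induction hypothesis and `t z = 0` for `z ∈ {x, a x}`,
`t z = t' z + 1` otherwise.  `t (a z) = t z`: the pair `{x, a x}` is closed under `a`.  If `z, w ∉ G` and `t z = t w`: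
both are in `{x, a x}` (then `w = z` or `w = a z`), or both are not in `G1` and `t' z = t' w`.
`s = 0`: `G ∪ ∅ = G`, bound `h`.  `s = s' + 1`: `G ∪ {z ∉ G | t z < s' + 1} = G1 ∪ {z ∉ G1 | t' z < s'}`.

`time`: apply `time_aux` with `G = ∅`.  For the set `A = {z | t z < s}` (closed): `phi A z = r (if t z < s then a z else z)`
(`phi_mem`, `phi_notMem`), so the function in the statement is the permutation `phi A`; an element `y` with `s ≤ t y` and
`f^[k] x = y` satisfies `y ∉ A` and `Same A x y`, i.e. `y ∈ comp A x`, `len A x ≤ L`.
-/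

set_option autoImplicit false

namespace Pool.Agent.DSW

open Equiv Finset

namespace Surf

variable {D V : Type} [Fintype D] [DecidableEq D] [Fintype V] [DecidableEq V] (S : Surf D V)

open Classical in
theorem time_aux {L : ℕ} {G : Finset D} (hG : S.Closed G) (h : S.Reach L G univ) :
    ∃ t : D → ℕ, (∀ x, t (S.a x) = t x) ∧
      (∀ x y, x ∉ G → y ∉ G → t x = t y → y = x ∨ y = S.a x) ∧
      ∀ (s : ℕ) (x : D), S.len (G ∪ univ.filter fun z => z ∉ G ∧ t z < s) x ≤ L := by
  generalize hU : (univ : Finset D) = U at h
  induction h with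
  | refl G h =>
    subst hU
    refine ⟨fun _ => 0, fun _ => rfl, fun x y hx => absurd (mem_univ x) hx, fun s x => ?_⟩
    have e : (univ : Finset D) ∪ (univ.filter fun z => z ∉ (univ : Finset D) ∧ 0 < s) = univ := by
      ext z
      simp
    rw [e]
    exact h x
  | step G x G' hx h h' ih =>
    obtain ⟨t', ht1, ht2, ht3⟩ := ih (S.closed_union hG (S.closed_pair x)) hU
    subst hU
    have hax : S.a x ∉ G := S.a_notMem hG hx
    have key : ∀ z, (S.a z = x ∨ S.a z = S.a x) ↔ (z = x ∨ z = S.a x) := by
      intro z
      constructor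
      · rintro (h1 | h1)
        · right
          rw [← h1, S.inv]
        · left
          exact S.a.injective h1
      · rintro (h1 | h1)
        · right
          rw [h1]
        · left
          rw [h1, S.inv]
    refine ⟨fun z => if z = x ∨ z = S.a x then 0 else t' z + 1, ?_, ?_, ?_⟩
    · intro z
      show (if S.a z = x ∨ S.a z = S.a x then 0 else t' (S.a z) + 1) =
        (if z = x ∨ z = S.a x then 0 else t' z + 1)
      rw [ht1 z]
      simp only [key z]
    · intro z w hz hw hzw
      change (if z = x ∨ z = S.a x then 0 else t' z + 1) =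
        (if w = x ∨ w = S.a x then 0 else t' w + 1) at hzw
      by_cases h1 : z = x ∨ z = S.a x
      · by_cases h2 : w = x ∨ w = S.a x
        · rcases h1 with h1 | h1 <;> rcases h2 with h2 | h2
          · left
            rw [h1, h2]
          · right
            rw [h1, h2]
          · right
            rw [h1, h2, S.inv]
          · left
            rw [h1, h2]
        · rw [if_pos h1, if_neg h2] at hzw
          omega
      · by_cases h2 : w = x ∨ w = S.a x
        · rw [if_neg h1, if_pos h2] at hzw
          omega
        · rw [if_neg h1, if_neg h2] at hzw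
          refine ht2 z w ?_ ?_ (by omega)
          · simp only [mem_union, mem_insert, mem_singleton, not_or]
            exact ⟨hz, fun h3 => h1 (Or.inl h3), fun h3 => h1 (Or.inr h3)⟩
          · simp only [mem_union, mem_insert, mem_singleton, not_or]
            exact ⟨hw, fun h3 => h2 (Or.inl h3), fun h3 => h2 (Or.inr h3)⟩
    · intro s y
      rcases s with _ | s
      · have e : G ∪ (univ.filter fun z => z ∉ G ∧ (if z = x ∨ z = S.a x then 0 else t' z + 1) < 0) = G := by
          ext z
          simp
        show S.len (G ∪ (univ.filter fun z => z ∉ G ∧ (if z = x ∨ z = S.a x then 0 else t' z + 1) < 0)) y ≤ L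
        rw [e]
        exact h y
      · have e : G ∪ (univ.filter fun z => z ∉ G ∧ (if z = x ∨ z = S.a x then 0 else t' z + 1) < s + 1) =
            (G ∪ {x, S.a x}) ∪ (univ.filter fun z => z ∉ (G ∪ {x, S.a x}) ∧ t' z < s) := by
          ext z
          simp only [mem_union, mem_filter, mem_univ, true_and, mem_insert, mem_singleton, not_or]
          by_cases h1 : z = x ∨ z = S.a x
          · rw [if_pos h1]
            constructor
            · intro _
              exact Or.inl (Or.inr h1)
            · intro _
              by_cases h2 : z ∈ G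
              · exact Or.inl h2
              · exact Or.inr ⟨h2, Nat.succ_pos s⟩
          · rw [if_neg h1]
            have h1' : ¬ z = x ∧ ¬ z = S.a x := not_or.mp h1
            constructor
            · rintro (h2 | ⟨h2, h3⟩)
              · exact Or.inl (Or.inl h2)
              · exact Or.inr ⟨⟨h2, h1'⟩, by omega⟩
            · rintro ((h2 | h2) | ⟨⟨h2, _⟩, h3⟩)
              · exact Or.inl h2
              · exact absurd h2 h1
              · exact Or.inr ⟨h2, by omega⟩
        show S.len (G ∪ (univ.filter fun z => z ∉ G ∧ (if z = x ∨ z = S.a x then 0 else t' z + 1) < s + 1)) y ≤ L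
        rw [e]
        exact ht3 s y

open Classical in
theorem time {L : ℕ} (h : S.Reach L ∅ univ) :
    ∃ t : D → ℕ, (∀ x, t (S.a x) = t x) ∧ (∀ x y, t x = t y → y = x ∨ y = S.a x) ∧
      ∀ (s : ℕ) (x : D), (univ.filter fun y => s ≤ t y ∧
        ∃ k : ℕ, (fun z => S.r (if t z < s then S.a z else z))^[k] x = y).card ≤ L := by
  obtain ⟨t, h1, h2, h3⟩ := S.time_aux S.closed_empty h
  refine ⟨t, h1, fun x y hxy => h2 x y (notMem_empty x) (notMem_empty y) hxy, fun s x => ?_⟩
  set A : Finset D := ∅ ∪ univ.filter fun z => z ∉ (∅ : Finset D) ∧ t z < s with hA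
  have hmem : ∀ z, z ∈ A ↔ t z < s := by
    intro z
    simp [hA]
  have hcl : S.Closed A := by
    intro z hz
    rw [hmem] at hz ⊢
    rw [h1 z]
    exact hz
  have hphi : (fun z => S.r (if t z < s then S.a z else z)) = S.phi A := by
    funext z
    by_cases hz : t z < s
    · rw [if_pos hz, S.phi_mem hcl ((hmem z).2 hz)]
    · rw [if_neg hz, S.phi_notMem (fun h4 => hz ((hmem z).1 h4))]
  refine le_trans (card_le_card ?_) (h3 s x)
  intro y hy
  simp only [mem_filter, mem_univ, true_and] at hy
  obtain ⟨hy1, k, hk⟩ := hy
  show y ∈ S.comp A x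
  rw [S.mem_comp]
  refine ⟨fun h4 => absurd ((hmem y).1 h4) (by omega), ?_⟩
  refine ⟨(k : ℤ), ?_⟩
  rw [hphi] at hk
  rw [zpow_natCast, ← hk, Equiv.Perm.iterate_eq_pow]

end Surf

end Pool.Agent.DSW
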