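import Pool.Agent.DSW.Decomp
import Pool.Agent.DSW.CompNet
import Pool.Agent.DSW.GlobNet
import Pool.Agent.DSW.Param
import Pool.Agent.DSW.RunC
import Pool.Agent.DSW.Time

/-!
# Main theorem (helper13)

`surf_reach`: a surface with `N = |D| ≥ N0(d)` sides and `|V| ≤ N`: take the parameters from `params`, `c` from `decomp φ`.
For large `i` (`8λ < d |C_i|`): `C_i ≠ ∅`, say `c v = i`, so `C_i = {w | c w = c v}` is a `φ`-expander; `b ≤ |C_i|` as `d b ≤ 8 λ < d |C_i|`;
`|C_i| ≤ |V| ≤ N`; `comp_net` with `n = N`.  `glob_net` with `ε = (2 t0 + 1)/aa + N (6 t0 + 1) aa/b^2`, `b' = b`, `bet = d b`,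
`k0 = 18 t0 + 5`.  All conditions of `Num` hold (`|V| ≤ N`, `Nat.log` is monotone, `|ter| ≤ N`; if `S.d < d` replace the
structure: the theorem is stated for `S.d = d`).  `run` gives `Reach (17 λ) ∅ univ`, `17 λ ≤ 34 N^(19/20)`.

`main`: `V` = quotient of `Fin N` by `r.SameCycle`, `τ` the projection, `|V| ≤ N`.  If `N = 0` everything is trivial.
Otherwise `d ≥ 1` (the cycle of a side contains the side).  If `N ≥ N0`: `surf_reach` and `time`.  If `N < N0`: `reach_all` with
`L = N`, `time`, and `N ≤ N0 ≤ N0 N^(19/20)`.  `C = max 34 N0`.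
-/

set_option autoImplicit false

namespace Pool.Agent.DSW

open Equiv Finset

theorem surf_reach (d : ℕ) (hd : 0 < d) : ∃ N0 : ℕ, ∀ (D V : Type) [Fintype D] [DecidableEq D] [Fintype V]
    [DecidableEq V] (S : Surf D V), S.d = d → N0 ≤ Fintype.card D → Fintype.card V ≤ Fintype.card D →
      ∃ L : ℕ, (L : ℝ) ≤ 34 * (Fintype.card D : ℝ) ^ (19 / 20 : ℝ) ∧ S.Reach L ∅ univ := by
  obtain ⟨N0, hN0⟩ := params d hd
  refine ⟨N0, ?_⟩
  intro D V _ _ _ _ S hSd hcard hV
  obtain ⟨lam, t0, Q, R, B, b, aa, φ, Um, hφ, hlam, hlam2, hdlam, hdk, hQ, hR, hR0, hB, hexp, haa0, haab, hdb,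
    hpos, hcond, hUm, hbig⟩ := hN0 (Fintype.card D) hcard
  subst hSd
  obtain ⟨c, hc1, hc2⟩ := S.decomp φ hφ
  have hb0 : 0 < b := lt_of_lt_of_le haa0 haab
  have hbet : 0 < S.d * b := Nat.mul_pos hd hb0
  have hlamR : (0 : ℝ) < lam := by exact_mod_cast hlam
  have haaR : (0 : ℝ) < aa := by exact_mod_cast haa0
  have hbR : (0 : ℝ) < b := by exact_mod_cast hb0
  have hdR : (0 : ℝ) < S.d := by exact_mod_cast hd
  have hVR : (Fintype.card V : ℝ) ≤ Fintype.card D := by exact_mod_cast hV
  set ε : ℝ := (2 * (t0 : ℝ) + 1) / aa + (Fintype.card D : ℝ) * (6 * t0 + 1) * aa / (b : ℝ) ^ 2 with hε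
  have hε0 : 0 ≤ ε := by positivity
  have hL : ∀ i, 8 * lam < S.d * (univ.filter fun v => c v = i).card →
      ∃ L : S.LNet (univ.filter fun v => c v = i) (18 * t0 + 5) (S.d * b),
        (((univ.filter fun v => c v = i) \ L.ter).card : ℝ) ≤
          (univ.filter fun v => c v = i).card * ε + (b : ℝ) := by
    intro i hi
    have hne : (univ.filter fun v => c v = i).Nonempty := by
      rw [← card_pos]
      by_contra h
      have h0 : (univ.filter fun v => c v = i).card = 0 := by omega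
      rw [h0] at hi
      omega
    obtain ⟨v, hv⟩ := hne
    rw [mem_filter] at hv
    have hvi : c v = i := hv.2
    have hC : S.Expands φ (univ.filter fun w => c w = i) := by
      rw [← hvi]
      exact hc1 v
    have hCn : (univ.filter fun w => c w = i).card ≤ Fintype.card D :=
      (card_le_univ _).trans hV
    have hbC : b ≤ (univ.filter fun w => c w = i).card := by
      by_contra h
      have h1 : (univ.filter fun w => c w = i).card ≤ b := by omega
      have h2 := Nat.mul_le_mul_left S.d h1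
      omega
    have ht : (((univ.filter fun w => c w = i).card : ℕ) : ℝ) < (1 + φ / (2 * S.d)) ^ t0 :=
      lt_of_le_of_lt (by exact_mod_cast hCn) hexp
    exact Surf.comp_net hφ hC hd ht haa0 haab hbC hCn hpos hcond
  obtain ⟨N, hNc, hNter⟩ := Surf.glob_net hlam hbet c hε0 hbR.le hL
  have hint : (S.inter N.c : ℝ) ≤ 2 * φ * Fintype.card D * Nat.log 2 (Fintype.card D) := by
    rw [hNc]
    refine hc2.trans ?_
    have h1 : Nat.log 2 (Fintype.card V) ≤ Nat.log 2 (Fintype.card D) := Nat.log_mono_right hV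
    have h2 : (Nat.log 2 (Fintype.card V) : ℝ) ≤ Nat.log 2 (Fintype.card D) := by exact_mod_cast h1
    have h3 : 2 * φ * (Fintype.card V : ℝ) ≤ 2 * φ * Fintype.card D :=
      mul_le_mul_of_nonneg_left hVR (by positivity)
    exact mul_le_mul h3 h2 (by positivity) (by positivity)
  have hter : ((univ \ N.ter).card : ℝ) ≤
      Fintype.card D * ε + b * (Fintype.card D * S.d / (8 * lam)) := by
    refine hNter.trans ?_
    have h1 : (Fintype.card V : ℝ) * ε ≤ Fintype.card D * ε := mul_le_mul_of_nonneg_right hVR hε0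
    have h2 : (Fintype.card V : ℝ) * S.d / (8 * lam) ≤ Fintype.card D * S.d / (8 * lam) :=
      div_le_div_of_nonneg_right (mul_le_mul_of_nonneg_right hVR hdR.le) (by positivity)
    have h3 := mul_le_mul_of_nonneg_left h2 hbR.le
    linarith
  have hNum : S.Num N Q R B Um := by
    refine ⟨hlam, hdlam, hdk, hQ, hR, hR0, hB, ?_, ?_⟩
    · have h1 : (S.d : ℝ) * ((univ \ N.ter).card : ℝ) ≤
          S.d * (Fintype.card D * ε + b * (Fintype.card D * S.d / (8 * lam))) :=
        mul_le_mul_of_nonneg_left hter hdR.le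
      push_cast
      linarith
    · refine le_trans ?_ hUm
      have h1 : (N.ter.card : ℝ) ≤ Fintype.card D := by
        have : N.ter.card ≤ Fintype.card D := (card_le_univ _).trans hV
        exact_mod_cast this
      have h2 : 256 * (S.d : ℝ) * (Q : ℝ) ^ 2 * N.ter.card / R ≤
          256 * (S.d : ℝ) * (Q : ℝ) ^ 2 * Fintype.card D / R :=
        div_le_div_of_nonneg_right (mul_le_mul_of_nonneg_left h1 (by positivity)) (by positivity)
      have h3 : 2 * (S.d : ℝ) * N.ter.card / lam ≤ 2 * (S.d : ℝ) * Fintype.card D / lam :=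
        div_le_div_of_nonneg_right (mul_le_mul_of_nonneg_left h1 (by positivity)) hlamR.le
      linarith
  refine ⟨17 * lam, ?_, Surf.run hNum⟩
  push_cast
  linarith

/-- surfaces from permutations -/
private def mkSurf {N : ℕ} (r a : Perm (Fin N)) (h1 : ∀ x, a (a x) = x) (h2 : ∀ x, a x ≠ x) (d : ℕ)
    [DecidableRel r.SameCycle] [DecidableEq (Quotient (Perm.SameCycle.setoid r))]
    [Fintype (Quotient (Perm.SameCycle.setoid r))]
    (h3 : ∀ x, (univ.filter fun y => r.SameCycle x y).card ≤ d) :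
    Surf (Fin N) (Quotient (Perm.SameCycle.setoid r)) where
  r := r
  a := a
  τ := fun x => Quotient.mk _ x
  d := d
  inv := h1
  ne := h2
  tau := fun _ _ => Quotient.eq
  deg := by
    intro v
    induction v using Quotient.inductionOn with
    | _ x =>
      refine le_trans (card_le_card ?_) (h3 x)
      intro y hy
      rw [mem_filter] at hy ⊢
      refine ⟨mem_univ _, ?_⟩
      have h4 : (Perm.SameCycle.setoid r) y x := Quotient.eq.1 hy.2
      exact Perm.SameCycle.symm h4

open Classical in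
theorem main (d : ℕ) : ∃ C : ℝ, ∀ (N : ℕ) (r a : Perm (Fin N)), (∀ x, a (a x) = x) → (∀ x, a x ≠ x) →
    (∀ x, (univ.filter fun y => r.SameCycle x y).card ≤ d) →
    ∃ t : Fin N → ℕ, (∀ x, t (a x) = t x) ∧ (∀ x y, t x = t y → y = x ∨ y = a x) ∧
      ∀ (s : ℕ) (x : Fin N), ((univ.filter fun y => s ≤ t y ∧
        ∃ k : ℕ, (fun z => r (if t z < s then a z else z))^[k] x = y).card : ℝ) ≤ C * (N : ℝ) ^ (19 / 20 : ℝ) := by
  by_cases hd : 0 < d
  swap
  · refine ⟨0, fun N r a h1 h2 h3 => ?_⟩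
    have hN : ∀ x : Fin N, False := by
      intro x
      have h4 := h3 x
      have h5 : x ∈ univ.filter fun y => r.SameCycle x y := by
        rw [mem_filter]
        exact ⟨mem_univ _, Perm.SameCycle.refl _ _⟩
      have h6 := card_pos.2 ⟨x, h5⟩
      omega
    exact ⟨fun _ => 0, fun x => (hN x).elim, fun x => (hN x).elim, fun s x => (hN x).elim⟩
  obtain ⟨N0, hN0⟩ := surf_reach d hd
  refine ⟨max 34 N0, fun N r a h1 h2 h3 => ?_⟩
  rcases Nat.eq_zero_or_pos N with hN | hN
  · subst hN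
    exact ⟨fun _ => 0, fun x => x.elim0, fun x => x.elim0, fun s x => x.elim0⟩
  have hVc : Fintype.card (Quotient (Perm.SameCycle.setoid r)) ≤ Fintype.card (Fin N) :=
    Fintype.card_le_of_surjective (Quotient.mk _) Quotient.mk_surjective
  let S : Surf (Fin N) (Quotient (Perm.SameCycle.setoid r)) := mkSurf r a h1 h2 d (fun x => by
    refine le_trans (le_of_eq ?_) (h3 x)
    congr)
  have hNR : (1 : ℝ) ≤ N := by exact_mod_cast hN
  have hp1 : (1 : ℝ) ≤ (N : ℝ) ^ (19 / 20 : ℝ) := Real.one_le_rpow hNR (by norm_num)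
  have key : ∃ L : ℕ, (L : ℝ) ≤ max 34 (N0 : ℝ) * (N : ℝ) ^ (19 / 20 : ℝ) ∧ S.Reach L ∅ univ := by
    by_cases hNN : N0 ≤ N
    · obtain ⟨L, hL1, hL2⟩ := hN0 (Fin N) (Quotient (Perm.SameCycle.setoid r)) S rfl
        (by rw [Fintype.card_fin]; exact hNN) hVc
      rw [Fintype.card_fin] at hL1
      refine ⟨L, hL1.trans ?_, hL2⟩
      exact mul_le_mul_of_nonneg_right (le_max_left _ _) (by positivity)
    · refine ⟨N, ?_, S.reach_all S.closed_empty ?_⟩
      · have h4 : (N : ℝ) ≤ N0 := by exact_mod_cast (not_le.1 hNN).le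
        have h5 : (N0 : ℝ) * 1 ≤ max 34 (N0 : ℝ) * (N : ℝ) ^ (19 / 20 : ℝ) :=
          mul_le_mul (le_max_right _ _) hp1 zero_le_one (le_trans (by norm_num) (le_max_left _ _))
        linarith
      · refine (card_le_univ _).trans ?_
        rw [Fintype.card_fin]
  obtain ⟨L, hL1, hL2⟩ := key
  obtain ⟨t, ht1, ht2, ht3⟩ := S.time hL2
  refine ⟨t, ht1, ht2, fun s x => ?_⟩
  refine le_trans ?_ hL1
  have h4 := ht3 s x
  have h5 : (univ.filter fun y => s ≤ t y ∧
        ∃ k : ℕ, (fun z => r (if t z < s then a z else z))^[k] x = y).card ≤ L := by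
    refine le_trans (le_of_eq ?_) h4
    congr
  exact_mod_cast h5

end Pool.Agent.DSW
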