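import Pool.Agent.DSW.StrandA
import Pool.Agent.DSW.PortsS

/-!
# Construction of a strand from the network (helper13)

Let `x`, `y` be good, `u = τ (a x)`, `u' = τ (a y)`, `hub u ≠ hub u'`, `c u = c u'`.  `N.path` gives `k' < k0` and a simple path
`v 0 = u, …, v k' = u'`; `k' ≥ 1` since `u ≠ u'`.
No `v l` (`l ≤ k'`) is processed: if `v l ∈ cor (hub u) (hub u')` use `hs.cors` (`hub u, hub u' ∉ U`, different).  If
`v l ∈ ter`, `hub (v l) = hub u` and `v l = u`: `x` is good.  If `v l ∈ ter`, `hub (v l) = hub u` and `dep (v l) < dep u`: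
`v l ∈ P0` would imply `u ∈ P0 ⊆ P` by `hs.upper`, contradiction; so `v l ∉ P0`, and `hub (v l) ∉ U`, so `v l ∉ P` by
`hs.fresh`.  The same for `u'`.
For `l < k'` choose a side `g l` with `τ (g l) = v l`, `τ (a (g l)) = v (l+1)` (`Adj`).  Put `k = k' + 1` and
`e 0 = x`, `e (l+1) = g l` for `l < k'`, `e (k'+1) = a y`.  Then `τ (a (e l)) = v l` for all `l ≤ k'`.
`pos`, `start` (`τ x ∈ P`), `out`, `inj` (simple path), `stop` (`a (a y) = y`, `τ y ∈ P`) are clear.
`next`: `τ (e (l+1)) = v l = τ (a (e l))` for `l ≤ k'` (for `l = k'`: `τ (a y) = u' = v k'`).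
`turn`: `l = 0`: `g 0 = a x` would give `x = a (g 0)`, `τ x = v 1 ∉ P`, but `τ x ∈ P`.  `1 ≤ l < k'`: `g l = a (g (l-1))` would give
`v (l+1) = τ (a (g l)) = τ (g (l-1)) = v (l-1)`, contradiction (simple).  `l = k'`: `a y = a (g (k'-1))` would give
`y = g (k'-1)`, `τ y = v (k'-1) ∉ P`, but `τ y ∈ P`.
-/

set_option autoImplicit false

namespace Pool.Agent.DSW

open Equiv Finset

namespace Surf

variable {D V : Type} [Fintype D] [DecidableEq D] [Fintype V] [DecidableEq V] {S : Surf D V}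

theorem mk_strand {lam k0 bet : ℕ} {N : S.Net lam k0 bet} {s : State D V} (hs : S.Ok N s) {x y : D}
    (hx : S.Good N s x) (hy : S.Good N s y) (hh : N.hub (S.τ (S.a x)) ≠ N.hub (S.τ (S.a y)))
    (hc : N.c (S.τ (S.a x)) = N.c (S.τ (S.a y)))
    (h8 : 8 * lam < S.d * (univ.filter fun v => N.c v = N.c (S.τ (S.a x))).card) :
    ∃ (k : ℕ) (e : ℕ → D), k ≤ k0 ∧ S.IsStrand s.P k e ∧ e 0 = x ∧ S.a (e k) = y ∧
      ∀ v ∈ S.strandVerts k e, N.c v = N.c (S.τ (S.a x)) ∧
        (v ∈ N.cor (N.hub (S.τ (S.a x))) (N.hub (S.τ (S.a y))) ∨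
          (v ∈ N.ter ∧ (N.hub v = N.hub (S.τ (S.a x)) ∨ N.hub v = N.hub (S.τ (S.a y))))) := by
  obtain ⟨k', v, hk', hv0, hvk, hadj, hinj, hprop⟩ := N.path _ _ hx.ter hy.ter hc hh h8
  have hk1 : 0 < k' := by
    rcases Nat.eq_zero_or_pos k' with h | h
    · subst h
      rw [hv0] at hvk
      exact absurd (congrArg N.hub hvk) hh
    · exact h
  have hlow : ∀ (w z : V), z ∈ N.ter → z ∉ s.P → N.hub z ∉ s.U → w ∈ N.ter → N.hub w = N.hub z →
      (w = z ∨ N.dep w < N.dep z) → w ∉ s.P := by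
    intro w z hz hzP hzU hw hwz h
    rcases h with h | h
    · rw [h]
      exact hzP
    · apply hs.fresh w hw
      · intro h0
        exact hzP (hs.p0 (hs.upper w h0 z hz h))
      · rw [hwz]
        exact hzU
  have hnP : ∀ l ≤ k', v l ∉ s.P := by
    intro l hl
    rcases (hprop l hl).2 with h | h | h
    · exact Finset.disjoint_left.1 (hs.cors _ _ hx.hub hy.hub hh) h
    · exact hlow _ _ hx.ter hx.aP hx.hub h.1 h.2.1 h.2.2
    · exact hlow _ _ hy.ter hy.aP hy.hub h.1 h.2.1 h.2.2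
  have hg' : ∀ l, ∃ g : D, l < k' → S.τ g = v l ∧ S.τ (S.a g) = v (l + 1) := by
    intro l
    by_cases hl : l < k'
    · obtain ⟨g, h1, h2⟩ := hadj l hl
      exact ⟨g, fun _ => ⟨h1, h2⟩⟩
    · exact ⟨x, fun h => absurd h hl⟩
  choose g hg using hg'
  set e : ℕ → D := fun l => match l with
    | 0 => x
    | l + 1 => if l < k' then g l else S.a y with he
  have e0 : e 0 = x := rfl
  have es : ∀ l, l < k' → e (l + 1) = g l := by
    intro l hl
    show (if l < k' then g l else S.a y) = g l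
    rw [if_pos hl]
  have ek : e (k' + 1) = S.a y := by
    show (if k' < k' then g k' else S.a y) = S.a y
    rw [if_neg (lt_irrefl _)]
  have hta : ∀ l ≤ k', S.τ (S.a (e l)) = v l := by
    intro l hl
    cases l with
    | zero => rw [e0, hv0]
    | succ l => rw [es l hl, (hg l hl).2]
  refine ⟨k' + 1, e, hk', ⟨Nat.succ_pos _, ?_, ?_, ?_, ?_, ?_, ?_⟩, e0, ?_, ?_⟩
  · rw [e0]
    exact hx.hP
  · intro l hl
    rw [hta l (Nat.lt_succ_iff.1 hl)]
    rcases Nat.lt_or_ge l k' with h | h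
    · rw [es l h, (hg l h).1]
    · have hlk : l = k' := by omega
      subst hlk
      rw [ek, hvk]
  · intro l hl heq
    rcases Nat.lt_or_ge l k' with h | h
    · rw [es l h] at heq
      cases l with
      | zero =>
        rw [e0] at heq
        have h1 : S.a (g 0) = x := by rw [heq, S.inv]
        have h2 := (hg 0 h).2
        rw [h1] at h2
        have h3 := hnP (0 + 1) h
        rw [← h2] at h3
        exact h3 hx.hP
      | succ l =>
        rw [es l (by omega)] at heq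
        have h1 : S.a (g (l + 1)) = g l := by rw [heq, S.inv]
        have h2 := (hg (l + 1) h).2
        rw [h1, (hg l (by omega)).1] at h2
        have h3 := hinj l (by omega) (l + 1 + 1) (by omega) h2
        omega
    · have hlk : l = k' := by omega
      subst hlk
      rw [ek] at heq
      have h1 : y = e l := S.a.injective heq
      have h2 : l = (l - 1) + 1 := by omega
      rw [h2, es (l - 1) (by omega)] at h1
      have h3 := hnP (l - 1) (by omega)
      rw [← (hg (l - 1) (by omega)).1, ← h1] at h3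
      exact h3 hy.hP
  · intro l hl
    rw [hta l (Nat.lt_succ_iff.1 hl)]
    exact hnP l (Nat.lt_succ_iff.1 hl)
  · intro l hl l' hl' h
    rw [hta l (Nat.lt_succ_iff.1 hl), hta l' (Nat.lt_succ_iff.1 hl')] at h
    exact hinj l (Nat.lt_succ_iff.1 hl) l' (Nat.lt_succ_iff.1 hl') h
  · rw [ek, S.inv]
    exact hy.hP
  · rw [ek, S.inv]
  · intro w hw
    obtain ⟨l, hl, rfl⟩ := S.mem_strandVerts.1 hw
    rw [hta l (Nat.lt_succ_iff.1 hl)]
    obtain ⟨h1, h2⟩ := hprop l (Nat.lt_succ_iff.1 hl)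
    refine ⟨h1, ?_⟩
    rcases h2 with h | h | h
    · exact Or.inl h
    · exact Or.inr ⟨h.1, Or.inl h.2.1⟩
    · exact Or.inr ⟨h.1, Or.inr h.2.1⟩

end Surf

end Pool.Agent.DSW
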