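import Pool.Agent.DSW.StrandA

/-!
# Strands: the effect of a complete strand (helper13)

`x = e 0`, `y = a (e k)`, both open in `G` and on the same component; `G' = G ∪ strandSet (k+1) e`,
`G1 = G ∪ strandSet k e`, so `G' = G1 ∪ {e k, y}` and `phi G' = phi G1 * swap (e k) y` (`phi_insert`, `strand_fresh`).
Write `f = phi G`, `f' = phi G'`.

`strand_old`: if `τ z ∈ P`, `z ≠ x`, `z ≠ y` then `z ∈ G' ↔ z ∈ G` (`strand_mem_iff` for `m = k`; `τ (e k) ∉ P` since `k > 0`).
`strand_step`: if moreover `τ z ∈ P`, `z ≠ x`, `z ≠ y` then `f' z = f z` (`phi_mem`, `phi_notMem`).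
`strand_left`: for `0 < j < m` put `z = f^j x`.  `z ≠ x` (`hmin`), `z ≠ y` (otherwise `f^j x = f^m x`, hence
`f^(m-j) x = x`, contradiction to `hmin`); `τ z ∈ P` by `same_tau`.  So `f' z = f z`, and `chain_same` (for the chain from
`f^j x` to `f^m x = y`) gives the claim (`j = m`: reflexivity).
`strand_right`: the same for `m < j < p` (`f^j x = f^m x` would give `f^(j-m) x = x`), the chain ends at `f^p x = x`.
`strand_ek`: `Same G' (e k) x`: `f' (e k) = r (a (e k)) = r y` as `e k ∈ G'`; `f y = r y` as `y ∉ G`; so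
`f' (e k) = f y = f^(m+1) x`, and `strand_right` with `j = m + 1`.
`strand_not_same`: `Same G1 x y` by `tentacle` (`Same G x y`), `Same G1 x (e k)` by `tentacle` (`τ (e k) = v_(k-1)`), so
`Same G1 (e k) y`, `e k ≠ y`; `split_not_same` gives `¬ Same G' (e k) y`; conclude with `strand_ek`.
`strand_cover`: `tentacle` gives `Same G1 x z`, so `Same G1 (e k) z`; `split_cover` gives `Same G' z (e k) ∨ Same G' z y`; use
`strand_ek`.
`strand_other`: let `Z z := Same G x z ∨ τ z ∈ strandVerts k e`.  `Z` is saturated: if `τ z ∈ strandVerts k e` then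
`τ z ∉ P`, so `Same G z w` implies `τ w = τ z` (`same_out`).  All elements of `K = strandSet (k+1) e` satisfy `Z`:
`e 0 = x`, `τ (a (e l))` and `τ (e (l+1))` are in `strandVerts k e` for `l < k`, `a (e k) = y`.  `K` and `G` are disjoint
(`τ` not in `P`, or `x`, `y`).  Use `touch_same` and `touch_same'`.
`strand_reach`: `touch_reach` with the same `Z`; `{z ∉ G | Z z}` has at most `len G x + d * k` elements
(`comp G x` and the sides of the `≤ k` polygons of the strand, `S.deg`).
`strand_len_add`: `comp G' x` and `comp G' y` are disjoint (`strand_not_same`) and contained in `{z ∉ G | Z z}`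
(`strand_other` in the form: `Same G' x w → Z w`), which has at most `len G x + d * k` elements.
-/

set_option autoImplicit false

namespace Pool.Agent.DSW

open Equiv Finset

namespace Surf

variable {D V : Type} [Fintype D] [DecidableEq D] [Fintype V] [DecidableEq V] {S : Surf D V}
variable {P : Finset V} {k : ℕ} {e : ℕ → D} {G : Finset D} {m p : ℕ}

omit [Fintype D] [DecidableEq D] [Fintype V] [DecidableEq V] in
private theorem pow_inj_cut {σ : Perm D} {x y : D} {m p : ℕ} (hc : Cut σ x y m p) {i j : ℕ}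
    (hij : i < j) (hd : j - i < p) : (σ ^ i) x ≠ (σ ^ j) x := by
  intro h
  have h1 : (σ ^ j) x = (σ ^ i) ((σ ^ (j - i)) x) := by
    rw [← Perm.mul_apply, ← pow_add]
    congr 2
    omega
  rw [h1] at h
  have h2 := (σ ^ i).injective h
  exact hc.hmin (j - i) (by omega) hd h2.symm

private theorem tau_e_eq (h : S.IsStrand P k e) {l : ℕ} (h0 : 0 < l) (hl : l ≤ k) :
    S.τ (e l) = S.τ (S.a (e (l - 1))) := by
  have := h.next (l - 1) (by omega)
  rwa [Nat.sub_add_cancel h0] at this

private theorem tau_e_out (h : S.IsStrand P k e) {l : ℕ} (h0 : 0 < l) (hl : l ≤ k) :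
    S.τ (e l) ∉ P := by
  rw [tau_e_eq h h0 hl]
  exact h.out (l - 1) (by omega)

private theorem verts_out (h : S.IsStrand P k e) {v : V} (hv : v ∈ S.strandVerts k e) : v ∉ P := by
  rw [mem_strandVerts] at hv
  obtain ⟨l, hl, rfl⟩ := hv
  exact h.out l hl

theorem strand_disj (h : S.IsStrand P k e) (hP : ∀ x ∈ G, S.τ x ∈ P) (hG : S.Closed G) (he : e 0 ∉ G)
    (hk : S.a (e k) ∉ G) : Disjoint G (S.strandSet (k + 1) e) := by
  rw [Finset.disjoint_left]
  intro z hz hz'
  rw [mem_strandSet] at hz'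
  obtain ⟨l, hl, hl' | hl'⟩ := hz'
  · subst hl'
    rcases Nat.eq_zero_or_pos l with h0 | h0
    · subst h0; exact he hz
    · exact tau_e_out h h0 (by omega) (hP _ hz)
  · subst hl'
    rcases Nat.lt_or_ge l k with h0 | h0
    · exact h.out l h0 (hP _ hz)
    · have : l = k := by omega
      subst this
      exact hk hz

private theorem union_succ : G ∪ S.strandSet (k + 1) e
    = (G ∪ S.strandSet k e) ∪ {e k, S.a (e k)} := by
  rw [strandSet_succ, Finset.union_assoc]

private theorem ek_verts (h : S.IsStrand P k e) : S.τ (e k) ∈ S.strandVerts k e := by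
  rw [mem_strandVerts]
  exact ⟨k - 1, by have := h.pos; omega, tau_e_eq h h.pos le_rfl⟩

theorem strand_gP (h : S.IsStrand P k e) (hP : ∀ x ∈ G, S.τ x ∈ P) :
    ∀ x ∈ G ∪ S.strandSet (k + 1) e, S.τ x ∈ P ∪ S.strandVerts k e := by
  intro z hz
  rw [union_succ, Finset.mem_union] at hz
  rcases hz with hz | hz
  · exact strand_gP' h hP le_rfl z hz
  · rw [Finset.mem_insert, Finset.mem_singleton] at hz
    rcases hz with rfl | rfl
    · exact Finset.mem_union_right _ (ek_verts h)
    · exact Finset.mem_union_left _ h.stop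

theorem strand_old (h : S.IsStrand P k e) {z : D} (hz : S.τ z ∈ P) (h0 : z ≠ e 0) (h1 : z ≠ S.a (e k)) :
    z ∈ G ∪ S.strandSet (k + 1) e ↔ z ∈ G := by
  constructor
  · intro h2
    rw [strandSet_succ, Finset.mem_union, Finset.mem_union, Finset.mem_insert,
      Finset.mem_singleton] at h2
    rcases h2 with h2 | h2 | h2 | h2
    · exact h2
    · exact absurd ((strand_mem_iff h le_rfl hz).1 h2).2 h0
    · subst h2
      exact absurd hz (tau_e_out h h.pos le_rfl)
    · exact absurd h2 h1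
  · intro h2
    exact Finset.mem_union_left _ h2

private theorem closed' (hG : S.Closed G) (n : ℕ) : S.Closed (G ∪ S.strandSet n e) :=
  S.closed_union hG (S.closed_strandSet n e)

private theorem strand_step (h : S.IsStrand P k e) (hG : S.Closed G) {z : D} (hz : S.τ z ∈ P)
    (h0 : z ≠ e 0) (h1 : z ≠ S.a (e k)) :
    S.phi (G ∪ S.strandSet (k + 1) e) z = S.phi G z := by
  have h2 := strand_old (G := G) h hz h0 h1
  by_cases h3 : z ∈ G
  · rw [S.phi_mem (closed' hG _) (h2.2 h3), S.phi_mem hG h3]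
  · rw [S.phi_notMem (fun h4 => h3 (h2.1 h4)), S.phi_notMem h3]

private theorem same_pow (x : D) (j : ℕ) : S.Same G x ((S.phi G ^ j) x) := by
  refine ⟨(j : ℤ), ?_⟩
  rw [zpow_natCast]

private theorem pow_tau (h : S.IsStrand P k e) (hG : S.Closed G) (hP : ∀ x ∈ G, S.τ x ∈ P) (j : ℕ) :
    S.τ ((S.phi G ^ j) (e 0)) ∈ P :=
  S.same_tau hG hP (same_pow (e 0) j) h.start

private theorem strand_seg (h : S.IsStrand P k e) (hG : S.Closed G) (hP : ∀ x ∈ G, S.τ x ∈ P)
    {j n : ℕ} (hjn : j ≤ n)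
    (h0 : ∀ i, j ≤ i → i < n → (S.phi G ^ i) (e 0) ≠ e 0)
    (h1 : ∀ i, j ≤ i → i < n → (S.phi G ^ i) (e 0) ≠ S.a (e k)) :
    S.Same (G ∪ S.strandSet (k + 1) e) ((S.phi G ^ j) (e 0)) ((S.phi G ^ n) (e 0)) := by
  have h2 : ∀ i < n - j, S.phi (G ∪ S.strandSet (k + 1) e) ((S.phi G ^ i) ((S.phi G ^ j) (e 0)))
      = (S.phi G ^ (i + 1)) ((S.phi G ^ j) (e 0)) := by
    intro i hi
    have e1 : (S.phi G ^ i) ((S.phi G ^ j) (e 0)) = (S.phi G ^ (i + j)) (e 0) := by
      rw [← Perm.mul_apply, ← pow_add]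
    rw [pow_succ' (S.phi G) i, Perm.mul_apply, e1]
    exact strand_step h hG (pow_tau h hG hP _) (h0 _ (by omega) (by omega))
      (h1 _ (by omega) (by omega))
  have h3 := chain_same h2
  have e2 : (S.phi G ^ (n - j)) ((S.phi G ^ j) (e 0)) = (S.phi G ^ n) (e 0) := by
    rw [← Perm.mul_apply, ← pow_add, Nat.sub_add_cancel hjn]
  rw [e2] at h3
  exact h3

theorem strand_left (h : S.IsStrand P k e) (hG : S.Closed G) (hP : ∀ x ∈ G, S.τ x ∈ P) (he : e 0 ∉ G)
    (hk : S.a (e k) ∉ G) (hc : Cut (S.phi G) (e 0) (S.a (e k)) m p) {j : ℕ} (hj : 0 < j) (hj' : j ≤ m) :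
    S.Same (G ∪ S.strandSet (k + 1) e) ((S.phi G ^ j) (e 0)) (S.a (e k)) := by
  have hlt := hc.lt
  have h1 := strand_seg h hG hP hj' (fun i hi hi' => hc.hmin i (by omega) (by omega))
    (fun i hi hi' => by
      rw [← hc.hy]
      exact pow_inj_cut hc hi' (by omega))
  rw [hc.hy] at h1
  exact h1

theorem strand_right (h : S.IsStrand P k e) (hG : S.Closed G) (hP : ∀ x ∈ G, S.τ x ∈ P) (he : e 0 ∉ G)
    (hk : S.a (e k) ∉ G) (hc : Cut (S.phi G) (e 0) (S.a (e k)) m p) {j : ℕ} (hj : m < j) (hj' : j ≤ p) :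
    S.Same (G ∪ S.strandSet (k + 1) e) ((S.phi G ^ j) (e 0)) (e 0) := by
  have hpos := hc.pos
  have h1 := strand_seg h hG hP hj' (fun i hi hi' => hc.hmin i (by omega) (by omega))
    (fun i hi hi' => by
      rw [← hc.hy]
      exact (pow_inj_cut hc (by omega : m < i) (by omega)).symm)
  rw [hc.hp] at h1
  exact h1

theorem strand_ek (h : S.IsStrand P k e) (hG : S.Closed G) (hP : ∀ x ∈ G, S.τ x ∈ P) (he : e 0 ∉ G)
    (hk : S.a (e k) ∉ G) (hc : Cut (S.phi G) (e 0) (S.a (e k)) m p) :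
    S.Same (G ∪ S.strandSet (k + 1) e) (e k) (e 0) := by
  have hm : e k ∈ G ∪ S.strandSet (k + 1) e := by
    rw [union_succ]
    exact Finset.mem_union_right _ (Finset.mem_insert_self _ _)
  have h1 : S.phi (G ∪ S.strandSet (k + 1) e) (e k) = (S.phi G ^ (m + 1)) (e 0) := by
    rw [S.phi_mem (closed' hG _) hm, pow_succ', Perm.mul_apply, hc.hy, S.phi_notMem hk]
  have h2 := S.same_phi (G ∪ S.strandSet (k + 1) e) (e k)
  rw [h1] at h2
  exact S.same_trans h2 (strand_right h hG hP he hk hc (by omega) hc.lt)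

private theorem phi_succ (h : S.IsStrand P k e) (hG : S.Closed G) (hP : ∀ x ∈ G, S.τ x ∈ P)
    (he : e 0 ∉ G) : S.phi (G ∪ S.strandSet (k + 1) e)
      = S.phi (G ∪ S.strandSet k e) * swap (e k) (S.a (e k)) := by
  rw [union_succ, S.phi_insert (closed' hG _) (strand_fresh h hP he le_rfl)]

private theorem cut_same (hc : Cut (S.phi G) (e 0) (S.a (e k)) m p) :
    S.Same G (e 0) (S.a (e k)) := by
  have := same_pow (S := S) (G := G) (e 0) m
  rwa [hc.hy] at this

private theorem same_ek_y (h : S.IsStrand P k e) (hG : S.Closed G) (hP : ∀ x ∈ G, S.τ x ∈ P)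
    (he : e 0 ∉ G) (hs : S.Same G (e 0) (S.a (e k))) :
    S.Same (G ∪ S.strandSet k e) (e k) (S.a (e k)) :=
  S.same_trans (S.same_symm (tentacle h hG hP he le_rfl _ (Or.inr (ek_verts h))))
    (tentacle h hG hP he le_rfl _ (Or.inl hs))

theorem strand_not_same (h : S.IsStrand P k e) (hG : S.Closed G) (hP : ∀ x ∈ G, S.τ x ∈ P) (he : e 0 ∉ G)
    (hk : S.a (e k) ∉ G) (hc : Cut (S.phi G) (e 0) (S.a (e k)) m p) :
    ¬ S.Same (G ∪ S.strandSet (k + 1) e) (e 0) (S.a (e k)) := by
  intro h1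
  have h2 := S.same_trans (strand_ek h hG hP he hk hc) h1
  have h3 := split_not_same (same_ek_y h hG hP he (cut_same hc)) (S.ne (e k)).symm
  apply h3
  rw [← phi_succ h hG hP he]
  exact h2

theorem strand_cover (h : S.IsStrand P k e) (hG : S.Closed G) (hP : ∀ x ∈ G, S.τ x ∈ P) (he : e 0 ∉ G)
    (hk : S.a (e k) ∉ G) (hc : Cut (S.phi G) (e 0) (S.a (e k)) m p) {z : D}
    (hz : S.Same G (e 0) z ∨ S.τ z ∈ S.strandVerts k e) :
    S.Same (G ∪ S.strandSet (k + 1) e) (e 0) z ∨ S.Same (G ∪ S.strandSet (k + 1) e) (S.a (e k)) z := by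
  have h1 := tentacle h hG hP he le_rfl z hz
  have h2 : S.Same (G ∪ S.strandSet k e) (e k) z :=
    S.same_trans (S.same_symm (tentacle h hG hP he le_rfl _ (Or.inr (ek_verts h)))) h1
  have h3 := split_cover (same_ek_y h hG hP he (cut_same hc)) h2
  rw [← phi_succ h hG hP he] at h3
  rcases h3 with h3 | h3
  · left
    exact S.same_symm (S.same_trans h3 (strand_ek h hG hP he hk hc))
  · right
    exact S.same_symm h3

private theorem sat (h : S.IsStrand P k e) (hG : S.Closed G) (hP : ∀ x ∈ G, S.τ x ∈ P) :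
    ∀ x y, S.Same G x y → (S.Same G (e 0) x ∨ S.τ x ∈ S.strandVerts k e) →
      (S.Same G (e 0) y ∨ S.τ y ∈ S.strandVerts k e) := by
  rintro x y hxy (h1 | h1)
  · exact Or.inl (S.same_trans h1 hxy)
  · right
    rw [(S.same_out hG hP (verts_out h h1)).1 hxy]
    exact h1

private theorem setZ (h : S.IsStrand P k e) (hs : S.Same G (e 0) (S.a (e k))) :
    ∀ x ∈ S.strandSet (k + 1) e, S.Same G (e 0) x ∨ S.τ x ∈ S.strandVerts k e := by
  intro z hz
  rw [mem_strandSet] at hz
  obtain ⟨l, hl, rfl | rfl⟩ := hz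
  · rcases Nat.eq_zero_or_pos l with h0 | h0
    · subst h0
      exact Or.inl (S.same_refl _ _)
    · right
      rw [mem_strandVerts]
      exact ⟨l - 1, by omega, tau_e_eq h h0 (by omega)⟩
  · rcases Nat.lt_or_ge l k with h0 | h0
    · right
      rw [mem_strandVerts]
      exact ⟨l, h0, rfl⟩
    · have : l = k := by omega
      subst this
      exact Or.inl hs

theorem strand_other (h : S.IsStrand P k e) (hG : S.Closed G) (hP : ∀ x ∈ G, S.τ x ∈ P) (he : e 0 ∉ G)
    (hk : S.a (e k) ∉ G) (hs : S.Same G (e 0) (S.a (e k))) {z w : D}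
    (hz : ¬ (S.Same G (e 0) z ∨ S.τ z ∈ S.strandVerts k e)) :
    S.Same (G ∪ S.strandSet (k + 1) e) z w ↔ S.Same G z w := by
  constructor
  · intro h1
    rcases S.touch_same hG (S.closed_strandSet _ _) (strand_disj h hP hG he hk)
      (Z := fun z => S.Same G (e 0) z ∨ S.τ z ∈ S.strandVerts k e) (sat h hG hP) (setZ h hs) z w h1
      with h2 | h2
    · exact h2
    · exact absurd h2.1 hz
  · intro h1
    exact S.touch_same' hG (S.closed_strandSet _ _) (strand_disj h hP hG he hk)
      (Z := fun z => S.Same G (e 0) z ∨ S.τ z ∈ S.strandVerts k e) (sat h hG hP) (setZ h hs) h1 hz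

/-- components of touched elements consist of touched elements. -/
theorem strand_touched (h : S.IsStrand P k e) (hG : S.Closed G) (hP : ∀ x ∈ G, S.τ x ∈ P) (he : e 0 ∉ G)
    (hk : S.a (e k) ∉ G) (hs : S.Same G (e 0) (S.a (e k))) {z w : D}
    (hz : S.Same G (e 0) z ∨ S.τ z ∈ S.strandVerts k e) (hw : S.Same (G ∪ S.strandSet (k + 1) e) z w) :
    S.Same G (e 0) w ∨ S.τ w ∈ S.strandVerts k e := by
  rcases S.touch_same hG (S.closed_strandSet _ _) (strand_disj h hP hG he hk)
    (Z := fun z => S.Same G (e 0) z ∨ S.τ z ∈ S.strandVerts k e) (sat h hG hP) (setZ h hs) z w hw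
    with h2 | h2
  · exact sat h hG hP z w h2 hz
  · exact h2.2

open Classical in
private theorem card_touched (k : ℕ) (e : ℕ → D) (G : Finset D) :
    (univ.filter fun y => y ∉ G ∧ (S.Same G (e 0) y ∨ S.τ y ∈ S.strandVerts k e)).card
      ≤ S.len G (e 0) + S.d * k := by
  have h1 : (univ.filter fun y => y ∉ G ∧ (S.Same G (e 0) y ∨ S.τ y ∈ S.strandVerts k e))
      ⊆ S.comp G (e 0) ∪ (S.strandVerts k e).biUnion fun v => univ.filter fun y => S.τ y = v := by
    intro y hy
    rw [Finset.mem_filter] at hy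
    rw [Finset.mem_union]
    rcases hy.2.2 with h2 | h2
    · left
      rw [mem_comp]
      exact ⟨hy.2.1, h2⟩
    · right
      rw [Finset.mem_biUnion]
      exact ⟨S.τ y, h2, by simp⟩
  refine (Finset.card_le_card h1).trans ((Finset.card_union_le _ _).trans ?_)
  refine Nat.add_le_add (le_refl _) ?_
  refine Finset.card_biUnion_le.trans ?_
  refine (Finset.sum_le_card_nsmul _ _ S.d fun v _ => ?_).trans ?_
  · have := S.deg v
    convert this
  · rw [smul_eq_mul, mul_comm]
    exact Nat.mul_le_mul_left _ (S.card_strandVerts_le k e)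

theorem strand_reach (h : S.IsStrand P k e) (hG : S.Closed G) (hP : ∀ x ∈ G, S.τ x ∈ P) (he : e 0 ∉ G)
    (hk : S.a (e k) ∉ G) (hs : S.Same G (e 0) (S.a (e k))) {L : ℕ} (hL : ∀ z, S.len G z ≤ L)
    (h1 : S.len G (e 0) + S.d * k ≤ L) : S.Reach L G (G ∪ S.strandSet (k + 1) e) := by
  classical
  refine S.touch_reach hG (S.closed_strandSet _ _) (strand_disj h hP hG he hk)
    (Z := fun z => S.Same G (e 0) z ∨ S.τ z ∈ S.strandVerts k e) (sat h hG hP) (setZ h hs) hL ?_
  refine le_trans ?_ h1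
  refine le_trans (Finset.card_le_card ?_) (card_touched (S := S) k e G)
  intro y hy
  simp only [Finset.mem_filter, Finset.mem_univ, true_and] at hy ⊢
  exact hy

theorem strand_len_add (h : S.IsStrand P k e) (hG : S.Closed G) (hP : ∀ x ∈ G, S.τ x ∈ P) (he : e 0 ∉ G)
    (hk : S.a (e k) ∉ G) (hc : Cut (S.phi G) (e 0) (S.a (e k)) m p) :
    S.len (G ∪ S.strandSet (k + 1) e) (e 0) + S.len (G ∪ S.strandSet (k + 1) e) (S.a (e k))
      ≤ S.len G (e 0) + S.d * k := by
  classical
  refine le_trans ?_ (card_touched (S := S) k e G)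
  unfold len
  rw [← Finset.card_union_of_disjoint]
  · refine Finset.card_le_card ?_
    intro z hz
    rw [Finset.mem_filter]
    refine ⟨Finset.mem_univ _, ?_⟩
    rw [Finset.mem_union, mem_comp, mem_comp] at hz
    rcases hz with ⟨h1, h2⟩ | ⟨h1, h2⟩
    · refine ⟨fun h3 => h1 (Finset.mem_union_left _ h3), ?_⟩
      exact strand_touched h hG hP he hk (cut_same hc) (Or.inl (S.same_refl _ _)) h2
    · refine ⟨fun h3 => h1 (Finset.mem_union_left _ h3), ?_⟩
      exact strand_touched h hG hP he hk (cut_same hc) (Or.inl (cut_same hc)) h2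
  · rw [Finset.disjoint_left]
    intro z hz hz'
    rw [mem_comp] at hz hz'
    exact strand_not_same h hG hP he hk hc (S.same_trans hz.2 (S.same_symm hz'.2))

private theorem pow_injOn (hc : Cut (S.phi G) (e 0) (S.a (e k)) m p) {i j : ℕ} (hi : i < p)
    (hj : j < p) (h : (S.phi G ^ i) (e 0) = (S.phi G ^ j) (e 0)) : i = j := by
  rcases Nat.lt_trichotomy i j with h1 | h1 | h1
  · exact absurd h (pow_inj_cut hc h1 (by omega))
  · exact h1
  · exact absurd h.symm (pow_inj_cut hc h1 (by omega))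

open Classical in
/-- the component of `y` contains all open elements at the powers `(0, m)`. -/
theorem strand_len_left (h : S.IsStrand P k e) (hG : S.Closed G) (hP : ∀ x ∈ G, S.τ x ∈ P) (he : e 0 ∉ G)
    (hk : S.a (e k) ∉ G) (hc : Cut (S.phi G) (e 0) (S.a (e k)) m p) :
    ((Ioo 0 m).filter fun j => (S.phi G ^ j) (e 0) ∉ G).card
      ≤ S.len (G ∪ S.strandSet (k + 1) e) (S.a (e k)) := by
  have hlt := hc.lt
  refine Finset.card_le_card_of_injOn (fun j => (S.phi G ^ j) (e 0)) ?_ ?_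
  · intro j hj
    have hj' := Finset.mem_coe.1 hj
    rw [Finset.mem_filter, Finset.mem_Ioo] at hj'
    obtain ⟨⟨h1, h2⟩, h3⟩ := hj'
    refine Finset.mem_coe.2 ?_
    rw [mem_comp]
    constructor
    · rw [strand_old h (pow_tau h hG hP j) (hc.hmin j h1 (by omega)) (by
        rw [← hc.hy]; exact pow_inj_cut hc h2 (by omega))]
      exact h3
    · exact S.same_symm (strand_left h hG hP he hk hc h1 (by omega))
  · intro i hi j hj hij
    have hi' := Finset.mem_coe.1 hi
    have hj' := Finset.mem_coe.1 hj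
    rw [Finset.mem_filter, Finset.mem_Ioo] at hi' hj'
    exact pow_injOn hc (by omega) (by omega) hij

open Classical in
/-- the component of `x` contains all open elements at the powers `(m, p)`. -/
theorem strand_len_right (h : S.IsStrand P k e) (hG : S.Closed G) (hP : ∀ x ∈ G, S.τ x ∈ P) (he : e 0 ∉ G)
    (hk : S.a (e k) ∉ G) (hc : Cut (S.phi G) (e 0) (S.a (e k)) m p) :
    ((Ioo m p).filter fun j => (S.phi G ^ j) (e 0) ∉ G).card
      ≤ S.len (G ∪ S.strandSet (k + 1) e) (e 0) := by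
  have hpos := hc.pos
  refine Finset.card_le_card_of_injOn (fun j => (S.phi G ^ j) (e 0)) ?_ ?_
  · intro j hj
    have hj' := Finset.mem_coe.1 hj
    rw [Finset.mem_filter, Finset.mem_Ioo] at hj'
    obtain ⟨⟨h1, h2⟩, h3⟩ := hj'
    refine Finset.mem_coe.2 ?_
    rw [mem_comp]
    constructor
    · rw [strand_old h (pow_tau h hG hP j) (hc.hmin j (by omega) h2) (by
        rw [← hc.hy]; exact (pow_inj_cut hc h1 (by omega)).symm)]
      exact h3
    · exact S.same_symm (strand_right h hG hP he hk hc h1 (by omega))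
  · intro i hi j hj hij
    have hi' := Finset.mem_coe.1 hi
    have hj' := Finset.mem_coe.1 hj
    rw [Finset.mem_filter, Finset.mem_Ioo] at hi' hj'
    exact pow_injOn hc (by omega) (by omega) hij

end Surf

end Pool.Agent.DSW
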