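import Pool.Agent.DSW.OmA
import Pool.Agent.DSW.StrandB

/-!
# The potential drops by `λ` when a strand is glued (helper13)

`x = e 0`, `y = a (e k)`, `G' = G ∪ strandSet (k+1) e`, `P' = P ∪ strandVerts k e`,
`Z z := Same G x z ∨ τ z ∈ strandVerts k e`.  Apply `om_local`.
`h1`: if `¬ Z z` then `z ∉ strandSet (k+1) e` (all its elements satisfy `Z`; for `y` use `Same G x y`), and
`τ z ∉ strandVerts k e`, so `z ∈ opn P' G' ↔ z ∈ opn P G`.
`h2`: if `¬ Z z` then `len G' z = len G z`: `Same G' z w ↔ Same G z w` (`strand_other`) and for these `w` also `¬ Z w`, so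
`w ∈ G' ↔ w ∈ G`.
`(opn P G).filter Z = comp G x`: an element with `τ z ∈ strandVerts k e` has `τ z ∉ P` and is not in `opn P G`; an element
with `Same G x z` has `τ z ∈ P` (`same_tau`, `τ x ∈ P`).  So this sum is `wt (len G x)` by `om_comp`.
`(opn P' G').filter Z = comp G' x ∪ comp G' y` (`strand_cover`, `strand_touched`; the elements satisfying `Z` have
`τ z ∈ P'`), a disjoint union (`strand_not_same`), so this sum is `wt (len G' x) + wt (len G' y)`.
`wt_split` with `a = len G x`, `a1 = len G' y`, `a2 = len G' x`: `a1, a2 ≥ 3λ` by `strand_len_left`, `strand_len_right`,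
`a1 + a2 ≤ a + d * k` by `strand_len_add`.

`strand_len_le`: for `z` with `¬ Z z`: `len G' z = len G z ≤ 16λ`; otherwise `len G' z` is `len G' x` or `len G' y`
(`strand_cover`), at most `len G x + d k - 3λ ≤ 16λ + λ - 3λ`.
-/

set_option autoImplicit false

namespace Pool.Agent.DSW

open Equiv Finset

namespace Surf

variable {D V : Type} [Fintype D] [DecidableEq D] [Fintype V] [DecidableEq V] {S : Surf D V}
variable {P : Finset V} {k : ℕ} {e : ℕ → D} {G : Finset D} {m p : ℕ}

private theorem strandSet_touched (h : S.IsStrand P k e) (hs : S.Same G (e 0) (S.a (e k))) {z : D}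
    (hz : z ∈ S.strandSet (k + 1) e) : S.Same G (e 0) z ∨ S.τ z ∈ S.strandVerts k e := by
  rw [S.mem_strandSet] at hz
  obtain ⟨l, hl, hz | hz⟩ := hz
  · subst hz
    rcases Nat.eq_zero_or_pos l with h0 | h0
    · subst h0
      exact Or.inl (S.same_refl G _)
    · obtain ⟨l', rfl⟩ : ∃ l', l = l' + 1 := ⟨l - 1, by omega⟩
      right
      have h1 := strand_tau h (l := l') (by omega)
      rw [S.mem_strandVerts] at h1 ⊢
      obtain ⟨i, hi, hi'⟩ := h1
      exact ⟨i, by omega, hi'⟩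
  · subst hz
    rcases Nat.lt_or_ge l k with h0 | h0
    · right
      rw [S.mem_strandVerts]
      exact ⟨l, h0, rfl⟩
    · have : l = k := by omega
      subst this
      exact Or.inl hs

private theorem verts_not_P (h : S.IsStrand P k e) {v : V} (hv : v ∈ S.strandVerts k e) : v ∉ P := by
  rw [S.mem_strandVerts] at hv
  obtain ⟨l, hl, rfl⟩ := hv
  exact h.out l hl

private theorem untouched_trans (h : S.IsStrand P k e) (hG : S.Closed G) (hP : ∀ x ∈ G, S.τ x ∈ P) {z w : D}
    (hz : ¬ (S.Same G (e 0) z ∨ S.τ z ∈ S.strandVerts k e)) (hw : S.Same G z w) :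
    ¬ (S.Same G (e 0) w ∨ S.τ w ∈ S.strandVerts k e) := by
  rintro (h1 | h1)
  · exact hz (Or.inl (S.same_trans h1 (S.same_symm hw)))
  · have h2 := (S.same_out hG hP (verts_not_P h h1) (y := z)).1 (S.same_symm hw)
    exact hz (Or.inr (h2 ▸ h1))

/-- untouched components keep their length. -/
theorem strand_len_other (h : S.IsStrand P k e) (hG : S.Closed G) (hP : ∀ x ∈ G, S.τ x ∈ P) (he : e 0 ∉ G)
    (hk : S.a (e k) ∉ G) (hs : S.Same G (e 0) (S.a (e k))) {z : D}
    (hz : ¬ (S.Same G (e 0) z ∨ S.τ z ∈ S.strandVerts k e)) :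
    S.len (G ∪ S.strandSet (k + 1) e) z = S.len G z := by
  unfold len
  congr 1
  ext w
  rw [S.mem_comp, S.mem_comp, strand_other h hG hP he hk hs hz]
  constructor
  · rintro ⟨h1, h2⟩
    exact ⟨fun h3 => h1 (mem_union_left _ h3), h2⟩
  · rintro ⟨h1, h2⟩
    refine ⟨fun h3 => ?_, h2⟩
    rcases mem_union.1 h3 with h3 | h3
    · exact h1 h3
    · exact untouched_trans h hG hP hz h2 (strandSet_touched h hs h3)

private theorem cut_same (hc : Cut (S.phi G) (e 0) (S.a (e k)) m p) : S.Same G (e 0) (S.a (e k)) :=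
  ⟨m, by rw [zpow_natCast]; exact hc.hy⟩

private theorem opn_filter_old (h : S.IsStrand P k e) (hG : S.Closed G) (hP : ∀ x ∈ G, S.τ x ∈ P)
    {Z : D → Prop} {inst : DecidablePred Z} (hZ : ∀ z, Z z ↔ (S.Same G (e 0) z ∨ S.τ z ∈ S.strandVerts k e)) :
    (S.opn P G).filter Z = S.comp G (e 0) := by
  ext x
  rw [mem_filter, S.mem_opn, S.mem_comp, hZ]
  constructor
  · rintro ⟨⟨h1, h2⟩, h3 | h3⟩
    · exact ⟨h2, h3⟩
    · exact absurd h1 (verts_not_P h h3)
  · rintro ⟨h1, h2⟩
    exact ⟨⟨S.same_tau hG hP h2 h.start, h1⟩, Or.inl h2⟩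

private theorem opn_filter_new (h : S.IsStrand P k e) (hG : S.Closed G) (hP : ∀ x ∈ G, S.τ x ∈ P) (he : e 0 ∉ G)
    (hk : S.a (e k) ∉ G) (hc : Cut (S.phi G) (e 0) (S.a (e k)) m p)
    {Z : D → Prop} {inst : DecidablePred Z} (hZ : ∀ z, Z z ↔ (S.Same G (e 0) z ∨ S.τ z ∈ S.strandVerts k e)) :
    (S.opn (P ∪ S.strandVerts k e) (G ∪ S.strandSet (k + 1) e)).filter Z
      = S.comp (G ∪ S.strandSet (k + 1) e) (e 0) ∪ S.comp (G ∪ S.strandSet (k + 1) e) (S.a (e k)) := by
  have hs : S.Same G (e 0) (S.a (e k)) := cut_same hc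
  ext x
  rw [mem_filter, S.mem_opn, mem_union (a := x) (s := S.comp (G ∪ S.strandSet (k + 1) e) (e 0)),
    S.mem_comp, S.mem_comp, hZ]
  constructor
  · rintro ⟨⟨h1, h2⟩, h3⟩
    rcases strand_cover h hG hP he hk hc h3 with h4 | h4
    · exact Or.inl ⟨h2, h4⟩
    · exact Or.inr ⟨h2, h4⟩
  · intro h1
    have h2 : x ∉ G ∪ S.strandSet (k + 1) e := by
      rcases h1 with h1 | h1
      · exact h1.1
      · exact h1.1
    have h3 : S.Same G (e 0) x ∨ S.τ x ∈ S.strandVerts k e := by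
      rcases h1 with h1 | h1
      · exact strand_touched h hG hP he hk hs (Or.inl (S.same_refl G _)) h1.2
      · exact strand_touched h hG hP he hk hs (Or.inl hs) h1.2
    refine ⟨⟨?_, h2⟩, h3⟩
    rcases h3 with h3 | h3
    · exact mem_union_left _ (S.same_tau hG hP h3 h.start)
    · exact mem_union_right _ h3

open Classical in
theorem om_strand (h : S.IsStrand P k e) (hG : S.Closed G) (hP : ∀ x ∈ G, S.τ x ∈ P) (he : e 0 ∉ G)
    (hk : S.a (e k) ∉ G) (hc : Cut (S.phi G) (e 0) (S.a (e k)) m p) {lam : ℕ}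
    (h8 : 8 * lam < S.len G (e 0)) (hdk : S.d * k ≤ lam)
    (h1 : 3 * lam ≤ ((Ioo 0 m).filter fun j => (S.phi G ^ j) (e 0) ∉ G).card)
    (h2 : 3 * lam ≤ ((Ioo m p).filter fun j => (S.phi G ^ j) (e 0) ∉ G).card) :
    S.om lam (P ∪ S.strandVerts k e) (G ∪ S.strandSet (k + 1) e) + lam ≤ S.om lam P G := by
  have hs : S.Same G (e 0) (S.a (e k)) := cut_same hc
  have h3 := S.om_local (lam := lam) (P := P) (P' := P ∪ S.strandVerts k e) (G := G)
    (G' := G ∪ S.strandSet (k + 1) e) (fun z => S.Same G (e 0) z ∨ S.τ z ∈ S.strandVerts k e)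
    (by
      intro x hx
      rw [S.mem_opn, S.mem_opn]
      constructor
      · rintro ⟨h4, h5⟩
        refine ⟨?_, fun h6 => h5 (mem_union_left _ h6)⟩
        rcases mem_union.1 h4 with h4 | h4
        · exact h4
        · exact absurd (Or.inr h4) hx
      · rintro ⟨h4, h5⟩
        refine ⟨mem_union_left _ h4, fun h6 => ?_⟩
        rcases mem_union.1 h6 with h6 | h6
        · exact h5 h6
        · exact hx (strandSet_touched h hs h6))
    (fun x hx _ => strand_len_other h hG hP he hk hs hx)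
  rw [opn_filter_old h hG hP (fun z => Iff.rfl), opn_filter_new h hG hP he hk hc (fun z => Iff.rfl),
    sum_union, S.om_comp, S.om_comp, S.om_comp] at h3
  · have h4 := strand_len_add h hG hP he hk hc
    have h5 := strand_len_left h hG hP he hk hc
    have h6 := strand_len_right h hG hP he hk hc
    have h7 := wt_split (lam := lam) h8 (le_trans h2 h6) (le_trans h1 h5) h4 hdk
    have h8' : ((wt lam (S.len (G ∪ S.strandSet (k + 1) e) (e 0)) : ℕ) : ℝ)
        + ((wt lam (S.len (G ∪ S.strandSet (k + 1) e) (S.a (e k))) : ℕ) : ℝ) + (lam : ℝ)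
        ≤ ((wt lam (S.len G (e 0)) : ℕ) : ℝ) := by exact_mod_cast h7
    linarith
  · rw [disjoint_left]
    intro x hx hx'
    rw [S.mem_comp] at hx hx'
    exact strand_not_same h hG hP he hk hc (S.same_trans hx.2 (S.same_symm hx'.2))

open Classical in
theorem strand_len_le (h : S.IsStrand P k e) (hG : S.Closed G) (hP : ∀ x ∈ G, S.τ x ∈ P) (he : e 0 ∉ G)
    (hk : S.a (e k) ∉ G) (hc : Cut (S.phi G) (e 0) (S.a (e k)) m p) {lam : ℕ}
    (h16 : ∀ z, S.len G z ≤ 16 * lam) (hdk : S.d * k ≤ lam)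
    (h1 : 3 * lam ≤ ((Ioo 0 m).filter fun j => (S.phi G ^ j) (e 0) ∉ G).card)
    (h2 : 3 * lam ≤ ((Ioo m p).filter fun j => (S.phi G ^ j) (e 0) ∉ G).card) (z : D) :
    S.len (G ∪ S.strandSet (k + 1) e) z ≤ 16 * lam := by
  have hs : S.Same G (e 0) (S.a (e k)) := cut_same hc
  by_cases hz : S.Same G (e 0) z ∨ S.τ z ∈ S.strandVerts k e
  · have h4 := strand_len_add h hG hP he hk hc
    have h5 := strand_len_left h hG hP he hk hc
    have h6 := strand_len_right h hG hP he hk hc
    have h7 := h16 (e 0)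
    rcases strand_cover h hG hP he hk hc hz with h8 | h8
    · rw [← S.len_eq h8]
      omega
    · rw [← S.len_eq h8]
      omega
  · rw [strand_len_other h hG hP he hk hs hz]
    exact h16 z

end Surf

end Pool.Agent.DSW
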