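import Pool.Agent.DSW.MkStrand
import Pool.Agent.DSW.OmB
import Pool.Agent.DSW.Pend

/-!
# The strand move (helper13)

Take `x, y, m, p` from `ports_state`; write `G = s.G`, `u = τ (a x)`, `u' = τ (a y)`.  By `same_c` (with `hs.gc`) and
goodness: `c u = c (τ x) = c (τ y) = c u'` (`Same G x y` from `Cut`).  All elements of `comp G z0` have
`c (τ ·) = c (τ z0) = c (τ x) = c u`, so `8λ < len G z0 ≤ d * #{v | c v = c u}` (`card_tau_le`), the hypothesis `h8` of
`mk_strand`, which gives `k ≤ k0` and the strand `e`.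
New state: `P0' = P0`, `P' = P ∪ strandVerts k e`, `G' = G ∪ strandSet (k+1) e`, `U' = U ∪ {hub u, hub u'}`.

`Ok`: `closed` by `closed_union`, `closed_strandSet`; `gP` by `strand_gP`.
`gc`: let `z ∈ strandSet (k+1) e`, `z = e l` or `z = a (e l)`, `l ≤ k`.  All strand polygons and `τ x`, `τ y` have the colour
`c u` (`mk_strand`; `c (τ x) = c u`, `c (τ y) = c u' = c u`), and the polygons of `e l`, `a (e l)` are among them
(`strand_gP` type computation), so `c (τ z) = c u = c (τ (a z))`.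
`p0`, `p0ter`, `upper`: clear.
`fresh`: let `v ∈ ter`, `v ∉ P0`, `hub v ∉ U'`; `v ∉ P` by `hs.fresh`; if `v ∈ strandVerts k e` then either
`v ∈ cor (hub u) (hub u')`, disjoint from `ter` (`cor_ter`), or `hub v ∈ {hub u, hub u'} ⊆ U'`: contradiction.
`cors`: let `i, j ∉ U'`, `i ≠ j`; `cor i j` is disjoint from `P` (`hs.cors`); a strand polygon in `cor i j` is in
`cor (hub u) (hub u')`, impossible by `cor_disj` (`hub u, hub u' ∈ U'`, so different from `i, j`), or in `ter`,
impossible by `cor_ter`.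
`len16`: `strand_len_le`.

`Reach (17λ)`: `strand_reach` with `len G x + d k ≤ 16λ + λ`.
`|U'| ≤ |U| + 2`.  Pending sides: `pend_grow` and `card_strandVerts_le` (`k ≤ k0`).  Potential: `om_strand`
(`len G x = len G z0 > 8λ`, `d k ≤ d k0 ≤ λ`).
-/

set_option autoImplicit false

namespace Pool.Agent.DSW

open Equiv Finset

namespace Surf

variable {D V : Type} [Fintype D] [DecidableEq D] [Fintype V] [DecidableEq V] {S : Surf D V}

theorem move_strand {lam k0 bet : ℕ} {N : S.Net lam k0 bet} {s : State D V} (hs : S.Ok N s) {z0 : D}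
    (hz : 8 * lam < S.len s.G z0) (hd : S.d ≤ lam) (hdk : S.d * k0 ≤ lam)
    (hnum : (S.pend N.c s.P s.G).card + S.inter N.c + S.d * (univ \ N.ter).card + S.d * bet * s.U.card
      + S.d * bet < lam) :
    ∃ s' : State D V, S.Ok N s' ∧ S.Reach (17 * lam) s.G s'.G ∧ s'.P0 = s.P0 ∧ s'.U.card ≤ s.U.card + 2 ∧
      (S.pend N.c s'.P s'.G).card ≤ (S.pend N.c s.P s.G).card + 2 * S.d * k0 ∧
      S.om lam s'.P s'.G + lam ≤ S.om lam s.P s.G := by
  classical
  obtain ⟨x, y, m, p, hzx, hx, hy, hh, hc, h3, h4⟩ := ports_state hs hz hd hnum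
  have hxy : S.Same s.G x y := ⟨(m : ℤ), by rw [zpow_natCast]; exact hc.hy⟩
  have hcxy : N.c (S.τ x) = N.c (S.τ y) := S.same_c hs.closed hs.gc hxy
  have hcu : N.c (S.τ (S.a x)) = N.c (S.τ (S.a y)) := by rw [← hx.hc, ← hy.hc]; exact hcxy
  have h8 : 8 * lam < S.d * (univ.filter fun v => N.c v = N.c (S.τ (S.a x))).card := by
    refine lt_of_lt_of_le hz ?_
    refine le_trans ?_ (card_tau_le (S := S) (univ.filter fun v => N.c v = N.c (S.τ (S.a x))))
    refine Finset.card_le_card ?_
    intro w hw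
    have hw' := (S.mem_comp).1 hw
    have h1 : N.c (S.τ z0) = N.c (S.τ w) := S.same_c hs.closed hs.gc hw'.2
    have h2 : N.c (S.τ z0) = N.c (S.τ x) := S.same_c hs.closed hs.gc hzx
    simp only [Finset.mem_filter, Finset.mem_univ, true_and]
    rw [← hx.hc, ← h1, h2]
  obtain ⟨k, e, hk, hst, he0, hek, hv⟩ := mk_strand hs hx hy hh hcu h8
  have hxG : e 0 ∉ s.G := by rw [he0]; exact hx.nG
  have hyG : S.a (e k) ∉ s.G := by rw [hek]; exact hy.nG
  have hsame : S.Same s.G (e 0) (S.a (e k)) := by rw [he0, hek]; exact hxy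
  have hcut : Cut (S.phi s.G) (e 0) (S.a (e k)) m p := by rw [he0, hek]; exact hc
  have hdk' : S.d * k ≤ lam := le_trans (Nat.mul_le_mul_left _ hk) hdk
  have h3' : 3 * lam ≤ ((Ioo 0 m).filter fun j => (S.phi s.G ^ j) (e 0) ∉ s.G).card := by
    rw [he0]; exact h3
  have h4' : 3 * lam ≤ ((Ioo m p).filter fun j => (S.phi s.G ^ j) (e 0) ∉ s.G).card := by
    rw [he0]; exact h4
  have hce : ∀ l, l ≤ k → N.c (S.τ (e l)) = N.c (S.τ (S.a x)) := by
    intro l hl
    rcases Nat.eq_zero_or_pos l with h0 | h0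
    · subst h0
      rw [he0]; exact hx.hc
    · obtain ⟨l', rfl⟩ : ∃ l', l = l' + 1 := ⟨l - 1, by omega⟩
      rw [hst.next l' (by omega)]
      exact (hv _ (S.mem_strandVerts.2 ⟨l', by omega, rfl⟩)).1
  have hca : ∀ l, l ≤ k → N.c (S.τ (S.a (e l))) = N.c (S.τ (S.a x)) := by
    intro l hl
    rcases Nat.lt_or_ge l k with h0 | h0
    · exact (hv _ (S.mem_strandVerts.2 ⟨l, h0, rfl⟩)).1
    · have : l = k := le_antisymm hl h0
      subst this
      rw [hek, ← hcxy]; exact hx.hc
  refine ⟨⟨s.P0, s.P ∪ S.strandVerts k e, s.G ∪ S.strandSet (k + 1) e,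
    s.U ∪ {N.hub (S.τ (S.a x)), N.hub (S.τ (S.a y))}⟩, ?_, ?_, rfl, ?_, ?_, ?_⟩
  · refine ⟨?_, ?_, ?_, ?_, ?_, ?_, ?_, ?_, ?_⟩
    · exact S.closed_union hs.closed (S.closed_strandSet (k + 1) e)
    · exact strand_gP hst hs.gP
    · intro z hz'
      rcases Finset.mem_union.1 hz' with h | h
      · exact hs.gc z h
      · obtain ⟨l, hl, h⟩ := S.mem_strandSet.1 h
        have hl' : l ≤ k := by omega
        rcases h with h | h
        · subst h
          rw [hce l hl', hca l hl']
        · subst h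
          rw [S.inv, hce l hl', hca l hl']
    · exact hs.p0.trans Finset.subset_union_left
    · exact hs.p0ter
    · exact hs.upper
    · intro v hv1 hv2 hv3 hv4
      have hv3' : N.hub v ∉ s.U ∪ {N.hub (S.τ (S.a x)), N.hub (S.τ (S.a y))} := hv3
      rw [Finset.mem_union, not_or, Finset.mem_insert, Finset.mem_singleton, not_or] at hv3'
      have hv4' : v ∈ s.P ∪ S.strandVerts k e := hv4
      rcases Finset.mem_union.1 hv4' with h | h
      · exact hs.fresh v hv1 hv2 hv3'.1 h
      · rcases (hv v h).2 with h | ⟨_, h | h⟩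
        · exact Finset.disjoint_left.1 (N.cor_ter _ _) h hv1
        · exact hv3'.2.1 h
        · exact hv3'.2.2 h
    · intro i j hi hj hij
      have hi' : i ∉ s.U ∪ {N.hub (S.τ (S.a x)), N.hub (S.τ (S.a y))} := hi
      have hj' : j ∉ s.U ∪ {N.hub (S.τ (S.a x)), N.hub (S.τ (S.a y))} := hj
      rw [Finset.mem_union, not_or, Finset.mem_insert, Finset.mem_singleton, not_or] at hi' hj'
      refine Finset.disjoint_union_right.2 ⟨hs.cors i j hi'.1 hj'.1 hij, ?_⟩
      rw [Finset.disjoint_left]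
      intro v hvc hvs
      rcases (hv v hvs).2 with h | ⟨h, _⟩
      · exact Finset.disjoint_left.1
          (N.cor_disj i j _ _ (Ne.symm hi'.2.1) (Ne.symm hj'.2.1) (Ne.symm hi'.2.2) (Ne.symm hj'.2.2)) hvc h
      · exact Finset.disjoint_left.1 (N.cor_ter _ _) hvc h
    · intro z
      exact strand_len_le hst hs.closed hs.gP hxG hyG hcut hs.len16 hdk' h3' h4' z
  · refine strand_reach hst hs.closed hs.gP hxG hyG hsame ?_ ?_
    · intro z
      exact le_trans (hs.len16 z) (by omega)
    · have := hs.len16 (e 0)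
      omega
  · refine le_trans (Finset.card_union_le _ _) ?_
    exact Nat.add_le_add_left Finset.card_le_two _
  · refine le_trans (S.pend_grow Finset.subset_union_left) ?_
    refine Nat.add_le_add_left ?_ _
    exact Nat.mul_le_mul_left _ (le_trans (S.card_strandVerts_le k e) hk)
  · refine om_strand hst hs.closed hs.gP hxG hyG hcut ?_ hdk' h3' h4'
    have : S.len s.G (e 0) = S.len s.G z0 := by
      rw [he0]; exact (S.len_eq hzx).symm
    rw [this]; exact hz

end Surf

end Pool.Agent.DSW
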