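import Mathlib

/-!
# Multiplying a permutation by a transposition (helper13)

Let `σ` be a permutation of a finite set, `x ≠ y`, `σ' = σ * swap x y`, so `σ' x = σ y`, `σ' y = σ x` and
`σ' z = σ z` otherwise.

`chain_same`: induction on `m`.

`split_not_same`: let `m > 0` be minimal with `σ^m x = y` (it exists: `SameCycle.exists_pow_eq''`) and
`A = {σ^j x : 1 ≤ j ≤ m}`.  For `1 ≤ j < m`: `σ^j x ≠ y` (minimality) and `σ^j x ≠ x` (else `σ^(m-j) x = y`,
contradicting minimality).  So `σ' (σ^j x) = σ^(j+1) x ∈ A` for `1 ≤ j < m`, and `σ' (σ^m x) = σ' y = σ x ∈ A`: `σ'` maps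
the finite set `A` into itself, hence all powers (also negative ones, `A` is finite and `σ'` injective) of `σ'` do.
`y ∈ A`, but `x ∉ A` (as `x ≠ y` and by the above), so `x` and `y` are not on the same cycle of `σ'`.

`split_cover`: `z = σ^j x` for some `j`.  Let `R u := σ'.SameCycle u x ∨ σ'.SameCycle u y`.  `R x`, `R y`.  If `R u` then
`R (σ u)`: if `u = x` then `σ x = σ' y`; if `u = y` then `σ y = σ' x`; else `σ u = σ' u`.  Induction on `j`.

`merge_same`: first, `σ'.SameCycle x y`: let `q > 0` be minimal with `σ^q y = y`.  For `1 ≤ j < q`, `σ^j y ≠ y` and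
`σ^j y ≠ x` (as `¬ σ.SameCycle x y`), so `σ' x = σ y`, `σ' (σ^j y) = σ^(j+1) y`, and by induction
`σ'.SameCycle x (σ^j y)` for `1 ≤ j ≤ q`; `j = q` gives `y`, and every element of the `σ`-cycle of `y` is of the form
`σ^j y`, `1 ≤ j ≤ q`.  By symmetry (`swap x y = swap y x`) every element of the `σ`-cycle of `x` is on the `σ'`-cycle of
`y`.
-/

set_option autoImplicit false

namespace Pool.Agent.DSW

open Equiv

variable {D : Type} [Fintype D] [DecidableEq D]

theorem chain_same {σ σ' : Perm D} {z : D} {m : ℕ}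
    (h : ∀ i < m, σ' ((σ ^ i) z) = (σ ^ (i + 1)) z) : σ'.SameCycle z ((σ ^ m) z) := by
  induction m with
  | zero =>
    rw [pow_zero, Perm.one_apply]
  | succ m ih =>
    have h1 := ih (fun i hi => h i (by omega))
    rw [← h m (by omega)]
    exact Perm.sameCycle_apply_right.2 h1

omit [Fintype D] in
private theorem sw_left (σ : Perm D) (x y : D) : (σ * swap x y) x = σ y := by simp

omit [Fintype D] in
private theorem sw_right (σ : Perm D) (x y : D) : (σ * swap x y) y = σ x := by simp

omit [Fintype D] in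
private theorem sw_other (σ : Perm D) {x y u : D} (h1 : u ≠ x) (h2 : u ≠ y) :
    (σ * swap x y) u = σ u := by
  simp [swap_apply_of_ne_of_ne h1 h2]

omit [Fintype D] [DecidableEq D] in
private theorem pow_s (σ : Perm D) (j : ℕ) (z : D) : σ ((σ ^ j) z) = (σ ^ (j + 1)) z := by
  rw [pow_succ', Perm.mul_apply]

theorem split_not_same {σ : Perm D} {x y : D} (h : σ.SameCycle x y) (hxy : x ≠ y) :
    ¬ (σ * swap x y).SameCycle x y := by
  intro hs
  have hex : ∃ m, 0 < m ∧ (σ ^ m) x = y := by
    obtain ⟨i, hi, _, hi2⟩ := h.exists_pow_eq''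
    exact ⟨i, hi, hi2⟩
  classical
  obtain ⟨hm0, hmy⟩ := Nat.find_spec hex
  set m := Nat.find hex with hm
  have hmin : ∀ j, 0 < j → j < m → (σ ^ j) x ≠ y := by
    intro j hj hjm he
    exact Nat.find_min hex hjm ⟨hj, he⟩
  have hminx : ∀ j, 0 < j → j < m → (σ ^ j) x ≠ x := by
    intro j hj hjm he
    have h1 : (σ ^ (m - j)) x = y := by
      have h2 : (σ ^ (m - j)) ((σ ^ j) x) = y := by
        rw [← Perm.mul_apply, ← pow_add, Nat.sub_add_cancel hjm.le]
        exact hmy
      rwa [he] at h2
    exact hmin (m - j) (by omega) (by omega) h1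
  have hstep : ∀ u, (∃ j, 0 < j ∧ j ≤ m ∧ u = (σ ^ j) x) →
      ∃ j, 0 < j ∧ j ≤ m ∧ (σ * swap x y) u = (σ ^ j) x := by
    rintro u ⟨j, hj, hjm, rfl⟩
    rcases Nat.lt_or_ge j m with hlt | hge
    · refine ⟨j + 1, by omega, by omega, ?_⟩
      rw [sw_other σ (hminx j hj hlt) (hmin j hj hlt), pow_s]
    · have : j = m := le_antisymm hjm hge
      subst this
      refine ⟨1, by omega, by omega, ?_⟩
      rw [hmy, sw_right, pow_one]
  have hpow : ∀ i : ℕ, ∃ j, 0 < j ∧ j ≤ m ∧ ((σ * swap x y) ^ i) y = (σ ^ j) x := by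
    intro i
    induction i with
    | zero => exact ⟨m, hm0, le_rfl, by simp [hmy]⟩
    | succ i ih =>
      obtain ⟨j, hj, hjm, he⟩ := hstep _ ih
      exact ⟨j, hj, hjm, by rw [pow_succ', Perm.mul_apply]; exact he⟩
  obtain ⟨i, _, _, hi⟩ := hs.symm.exists_pow_eq''
  obtain ⟨j, hj, hjm, he⟩ := hpow i
  rw [hi] at he
  rcases Nat.lt_or_ge j m with hlt | hge
  · exact hminx j hj hlt he.symm
  · have : j = m := le_antisymm hjm hge
    rw [this, hmy] at he
    exact hxy he

theorem split_cover {σ : Perm D} {x y z : D} (h : σ.SameCycle x y) (hz : σ.SameCycle x z) :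
    (σ * swap x y).SameCycle z x ∨ (σ * swap x y).SameCycle z y := by
  obtain ⟨j, _, _, hj⟩ := hz.exists_pow_eq''
  have key : ∀ j : ℕ, (σ * swap x y).SameCycle ((σ ^ j) x) x ∨
      (σ * swap x y).SameCycle ((σ ^ j) x) y := by
    intro j
    induction j with
    | zero =>
      left
      rw [pow_zero, Perm.one_apply]
    | succ j ih =>
      rw [← pow_s]
      set u := (σ ^ j) x with hu
      by_cases h1 : u = x
      · right
        rw [h1, ← sw_right σ x y]
        exact Perm.sameCycle_apply_left.2 (Perm.SameCycle.refl _ _)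
      · by_cases h2 : u = y
        · left
          rw [h2, ← sw_left σ x y]
          exact Perm.sameCycle_apply_left.2 (Perm.SameCycle.refl _ _)
        · rw [← sw_other σ h1 h2]
          rcases ih with ih | ih
          · left; exact Perm.sameCycle_apply_left.2 ih
          · right; exact Perm.sameCycle_apply_left.2 ih
  rw [← hj]
  exact key j

private theorem merge_aux {σ : Perm D} {x y z : D} (h : ¬ σ.SameCycle x y)
    (hz : σ.SameCycle y z) : (σ * swap x y).SameCycle x z := by
  classical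
  have hex : ∃ q, 0 < q ∧ (σ ^ q) y = y := by
    obtain ⟨i, hi, _, hi2⟩ := (Perm.SameCycle.refl σ y).exists_pow_eq''
    exact ⟨i, hi, hi2⟩
  obtain ⟨hq0, hqy⟩ := Nat.find_spec hex
  set q := Nat.find hex with hq
  have hmin : ∀ j, 0 < j → j < q → (σ ^ j) y ≠ y := by
    intro j hj hjm he
    exact Nat.find_min hex hjm ⟨hj, he⟩
  have hnx : ∀ j : ℕ, (σ ^ j) y ≠ x := by
    intro j he
    apply h
    have : σ.SameCycle y x := ⟨j, by simpa using he⟩
    exact this.symm
  have key : ∀ j : ℕ, j < q → (σ * swap x y).SameCycle x ((σ ^ (j + 1)) y) := by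
    intro j
    induction j with
    | zero =>
      intro _
      rw [zero_add, pow_one, ← sw_left σ x y]
      exact Perm.sameCycle_apply_right.2 (Perm.SameCycle.refl _ _)
    | succ j ih =>
      intro hj
      have h1 := ih (by omega)
      rw [← pow_s σ (j + 1) y, ← sw_other σ (hnx (j + 1)) (hmin (j + 1) (by omega) hj)]
      exact Perm.sameCycle_apply_right.2 h1
  obtain ⟨i, _, _, hi⟩ := hz.exists_pow_eq''
  -- reduce `i` modulo `q`
  have hmod : ∀ k : ℕ, (σ ^ (q * k)) y = y := by
    intro k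
    induction k with
    | zero => simp
    | succ k ih =>
      rw [Nat.mul_succ, pow_add, Perm.mul_apply, hqy, ih]
  have hi' : (σ ^ (i % q)) y = z := by
    have h2 : (σ ^ (i % q + q * (i / q))) y = z := by rw [Nat.mod_add_div]; exact hi
    rw [pow_add, Perm.mul_apply, hmod] at h2
    exact h2
  have hlt : i % q < q := Nat.mod_lt _ hq0
  rcases Nat.eq_zero_or_pos (i % q) with h0 | hpos
  · rw [h0, pow_zero, Perm.one_apply] at hi'
    have h3 := key (q - 1) (by omega)
    rw [Nat.sub_add_cancel hq0, hqy] at h3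
    rw [← hi']
    exact h3
  · have h3 := key (i % q - 1) (by omega)
    rw [Nat.sub_add_cancel hpos, hi'] at h3
    exact h3

theorem merge_same {σ : Perm D} {x y z : D} (h : ¬ σ.SameCycle x y)
    (hz : σ.SameCycle x z ∨ σ.SameCycle y z) : (σ * swap x y).SameCycle x z := by
  rcases hz with hz | hz
  · have h1 : ¬ σ.SameCycle y x := fun h' => h h'.symm
    have h2 : (σ * swap y x).SameCycle y z := merge_aux h1 hz
    have h3 : (σ * swap x y).SameCycle x y := merge_aux h (Perm.SameCycle.refl _ _)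
    rw [swap_comm y x] at h2
    exact h3.trans h2
  · exact merge_aux h hz

end Pool.Agent.DSW
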