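import Pool.Agent.DSW.OmA
import Pool.Agent.DSW.SwapCyc
import Pool.Agent.DSW.Coarse

/-!
# The potential under the other moves (helper13)

`absorb_len`, `om_absorb`: let `G' = G ∪ {x, a x}`, `Z z := Same G x z ∨ Same G (a x) z`, `t = len G x < λ`,
`s = len G (a x)`.  `K = {x, a x}`, `Z` is saturated.  By `phi_insert` and `merge_same`: `Z z → Same G' x z`.  For `¬ Z z`:
`comp G' z = comp G z` (`touch_comp`).  `len G' x ≤ #{y ∉ G' | Z y} ≤ t + s` (`touch_len`).
`om_local`: `(opn P G).filter Z = comp G x ∪ comp G (a x)` (elements have `τ ∈ P` by `same_tau`), a disjoint union, so the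
sum is `wt t + wt s` (`om_comp`).  `(opn P G').filter Z ⊆ comp G' x`, so that sum is at most `wt (len G' x)`
(`om_comp`, terms are nonnegative).  `wt_absorb`.

`refine_same`: `coarse_same` with `R = Same G`.  `refine_len`: `comp (G ∪ K) z ⊆ comp G z`.
`refine_reach`: `coarse_reach` with `R = Same G`.
`om_small`: `om_local` with `Z z := len G z < λ` (saturated by `len_eq`, `K ⊆ Z`).  For `¬ Z z`: `touch_comp`.  The sum over
`(opn P G').filter Z` is at most the number of elements (`om_sum_le`), a subset of `(opn P G).filter Z`; for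
`z ∈ (opn P G).filter Z` we have `0 < len G z < λ` (`z ∈ comp G z`), so its share is `1` (`sh_one`), and the sum over
`(opn P G).filter Z` equals the number of elements.

`om_round`: `om_local` with `Z`; the second sum is at most the number of elements `≤ B`, the first one is `≥ 0`.
`touch_len_le`: if `¬ Z z` use `touch_comp`, otherwise `touch_len` (the set there is smaller).

`om_batch`: `opn (P ∪ X) G ⊆ opn P G ∪ {x | τ x ∈ X}` and the second set has at most `d |X|` elements (`S.deg`).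
-/

set_option autoImplicit false

namespace Pool.Agent.DSW

open Equiv Finset

namespace Surf

variable {D V : Type} [Fintype D] [DecidableEq D] [Fintype V] [DecidableEq V] (S : Surf D V)

theorem pair_disj {G : Finset D} (hG : S.Closed G) {x : D} (hx : x ∉ G) : Disjoint G {x, S.a x} := by
  rw [disjoint_left]
  intro y hy hy'
  rcases mem_insert.1 hy' with h | h
  · exact hx (h ▸ hy)
  · rw [mem_singleton] at h
    exact S.a_notMem hG hx (h ▸ hy)

theorem pair_sat {G : Finset D} (x : D) : ∀ u v, S.Same G u v → (S.Same G x u ∨ S.Same G (S.a x) u) →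
    (S.Same G x v ∨ S.Same G (S.a x) v) := by
  intro u v h h'
  rcases h' with h' | h'
  · exact Or.inl (S.same_trans h' h)
  · exact Or.inr (S.same_trans h' h)

theorem pair_in {G : Finset D} (x : D) : ∀ u ∈ ({x, S.a x} : Finset D), S.Same G x u ∨ S.Same G (S.a x) u := by
  intro u hu
  rcases mem_insert.1 hu with h | h
  · rw [h]
    exact Or.inl (S.same_refl _ _)
  · rw [mem_singleton.1 h]
    exact Or.inr (S.same_refl _ _)

open Classical in
theorem om_touch {G K : Finset D} {P : Finset V} (hG : S.Closed G) (hK : S.Closed K) (hd : Disjoint G K)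
    {Z : D → Prop} (hZ : ∀ x y, S.Same G x y → Z x → Z y) (hKZ : ∀ x ∈ K, Z x) (lam : ℕ) :
    S.om lam P (G ∪ K) + ∑ x ∈ (S.opn P G).filter Z, sh lam (S.len G x)
      = S.om lam P G + ∑ x ∈ (S.opn P (G ∪ K)).filter Z, sh lam (S.len (G ∪ K) x) := by
  refine S.om_local Z ?_ ?_
  · intro x hx
    rw [mem_opn, mem_opn, mem_union, not_or]
    exact ⟨fun h => ⟨h.1, h.2.1⟩, fun h => ⟨h.1, h.2, fun h' => hx (hKZ x h')⟩⟩
  · intro x hx _
    unfold len
    rw [S.touch_comp hG hK hd hZ hKZ hx]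

theorem absorb_len {G : Finset D} (hG : S.Closed G) {x : D} (hx : x ∉ G) {L : ℕ}
    (hL : ∀ z, S.len G z ≤ L) (h1 : S.len G x + S.len G (S.a x) ≤ L) (z : D) :
    S.len (G ∪ {x, S.a x}) z ≤ L := by
  classical
  have hK := S.closed_pair x
  have hd := S.pair_disj hG hx
  obtain ⟨Z, hZ⟩ : ∃ Z : D → Prop, ∀ z, Z z ↔ (S.Same G x z ∨ S.Same G (S.a x) z) := ⟨_, fun _ => Iff.rfl⟩
  have hsat : ∀ u v, S.Same G u v → Z u → Z v := fun u v h h' => (hZ v).2 (S.pair_sat x u v h ((hZ u).1 h'))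
  have hin : ∀ u ∈ ({x, S.a x} : Finset D), Z u := fun u h => (hZ u).2 (S.pair_in x u h)
  by_cases hz : Z z
  · refine (S.touch_len hG hK hd hsat hin hz).trans (le_trans ?_ h1)
    refine le_trans (card_le_card ?_) (card_union_le (S.comp G x) (S.comp G (S.a x)))
    intro y hy
    obtain ⟨_, hy1, hy2⟩ := mem_filter.1 hy
    have hyG : y ∉ G := fun h => hy1 (mem_union_left _ h)
    rcases (hZ y).1 hy2 with h | h
    · exact mem_union_left _ (S.mem_comp.2 ⟨hyG, h⟩)
    · exact mem_union_right _ (S.mem_comp.2 ⟨hyG, h⟩)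
  · have e := S.touch_comp hG hK hd hsat hin hz
    have : S.len (G ∪ {x, S.a x}) z = S.len G z := by
      unfold len
      rw [e]
    rw [this]
    exact hL z

theorem om_absorb {G : Finset D} {P : Finset V} (hG : S.Closed G) (hGP : ∀ x ∈ G, S.τ x ∈ P) {x : D} (hx : x ∉ G)
    (hxP : S.τ x ∈ P) (haP : S.τ (S.a x) ∈ P) (hns : ¬ S.Same G x (S.a x)) {lam : ℕ} (hlen : S.len G x < lam) :
    S.om lam P (G ∪ {x, S.a x}) ≤ S.om lam P G := by
  classical
  have hK := S.closed_pair x
  have hd := S.pair_disj hG hx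
  obtain ⟨Z, hZ⟩ : ∃ Z : D → Prop, ∀ z, Z z ↔ (S.Same G x z ∨ S.Same G (S.a x) z) := ⟨_, fun _ => Iff.rfl⟩
  have hsat : ∀ u v, S.Same G u v → Z u → Z v := fun u v h h' => (hZ v).2 (S.pair_sat x u v h ((hZ u).1 h'))
  have hin : ∀ u ∈ ({x, S.a x} : Finset D), Z u := fun u h => (hZ u).2 (S.pair_in x u h)
  have key := S.om_touch (P := P) hG hK hd hsat hin lam
  have e1 : (S.opn P G).filter Z = S.comp G x ∪ S.comp G (S.a x) := by
    ext y
    rw [mem_filter, mem_opn, mem_union, mem_comp, mem_comp, hZ]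
    constructor
    · rintro ⟨⟨_, h1⟩, h | h⟩
      · exact Or.inl ⟨h1, h⟩
      · exact Or.inr ⟨h1, h⟩
    · rintro (⟨h1, h⟩ | ⟨h1, h⟩)
      · exact ⟨⟨S.same_tau hG hGP h hxP, h1⟩, Or.inl h⟩
      · exact ⟨⟨S.same_tau hG hGP h haP, h1⟩, Or.inr h⟩
  have hdis : Disjoint (S.comp G x) (S.comp G (S.a x)) := by
    rw [disjoint_left]
    intro y hy hy'
    rw [mem_comp] at hy hy'
    exact hns (S.same_trans hy.2 (S.same_symm hy'.2))
  have e2 : ∑ y ∈ (S.opn P G).filter Z, sh lam (S.len G y)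
      = wt lam (S.len G x) + wt lam (S.len G (S.a x)) := by
    rw [e1, sum_union hdis, S.om_comp, S.om_comp]
  have hsub : (S.opn P (G ∪ {x, S.a x})).filter Z ⊆ S.comp (G ∪ {x, S.a x}) x := by
    intro y hy
    obtain ⟨hy1, hy2⟩ := mem_filter.1 hy
    rw [mem_opn] at hy1
    rw [mem_comp]
    refine ⟨hy1.2, ?_⟩
    unfold Same
    rw [S.phi_insert hG hx]
    exact merge_same hns ((hZ y).1 hy2)
  have e3 : ∑ y ∈ (S.opn P (G ∪ {x, S.a x})).filter Z,
      sh lam (S.len (G ∪ {x, S.a x}) y) ≤ wt lam (S.len (G ∪ {x, S.a x}) x) := by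
    rw [← S.om_comp]
    exact sum_le_sum_of_subset_of_nonneg hsub fun _ _ _ => sh_nonneg lam _
  have hle : S.len (G ∪ {x, S.a x}) x ≤ S.len G (S.a x) + S.len G x := by
    refine (S.touch_len hG hK hd hsat hin (hin x (by simp))).trans ?_
    rw [add_comm]
    refine le_trans (card_le_card ?_) (card_union_le (S.comp G x) (S.comp G (S.a x)))
    intro y hy
    obtain ⟨_, hy1, hy2⟩ := mem_filter.1 hy
    have hyG : y ∉ G := fun h => hy1 (mem_union_left _ h)
    rcases (hZ y).1 hy2 with h | h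
    · exact mem_union_left _ (S.mem_comp.2 ⟨hyG, h⟩)
    · exact mem_union_right _ (S.mem_comp.2 ⟨hyG, h⟩)
  have hw : ((wt lam (S.len (G ∪ {x, S.a x}) x) : ℕ) : ℝ) ≤ wt lam (S.len G x) + wt lam (S.len G (S.a x)) := by
    exact_mod_cast wt_absorb hlen hle
  linarith

theorem refine_same {G K : Finset D} (hG : S.Closed G) (hK : S.Closed K) (hd : Disjoint G K)
    (hs : ∀ x ∈ K, S.Same G x (S.a x)) {x y : D} (h : S.Same (G ∪ K) x y) : S.Same G x y := by
  exact S.coarse_same hG hK hd (R := S.Same G) ⟨S.same_refl G, S.same_symm, S.same_trans⟩ (fun _ _ h => h) hs x y h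

theorem refine_len {G K : Finset D} (hG : S.Closed G) (hK : S.Closed K) (hd : Disjoint G K)
    (hs : ∀ x ∈ K, S.Same G x (S.a x)) (z : D) : S.len (G ∪ K) z ≤ S.len G z := by
  refine card_le_card ?_
  intro y hy
  rw [mem_comp] at hy ⊢
  exact ⟨fun h => hy.1 (mem_union_left _ h), S.refine_same hG hK hd hs hy.2⟩

theorem refine_reach {G K : Finset D} (hG : S.Closed G) (hK : S.Closed K) (hd : Disjoint G K)
    (hs : ∀ x ∈ K, S.Same G x (S.a x)) {L : ℕ} (hL : ∀ z, S.len G z ≤ L) : S.Reach L G (G ∪ K) := by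
  classical
  refine S.coarse_reach hG hK hd (R := S.Same G) ⟨S.same_refl G, S.same_symm, S.same_trans⟩ (fun _ _ h => h) hs ?_
  intro x
  refine le_trans (card_le_card ?_) (hL x)
  intro y hy
  rw [mem_comp]
  exact (mem_filter.1 hy).2

theorem om_small {G K : Finset D} {P : Finset V} (hG : S.Closed G) (hK : S.Closed K) (hd : Disjoint G K)
    (hs : ∀ x ∈ K, S.Same G x (S.a x)) {lam : ℕ} (hl : ∀ x ∈ K, S.len G x < lam) :
    S.om lam P (G ∪ K) ≤ S.om lam P G := by
  classical
  obtain ⟨Z, hZ⟩ : ∃ Z : D → Prop, ∀ z, Z z ↔ S.len G z < lam := ⟨_, fun _ => Iff.rfl⟩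
  have hsat : ∀ x y, S.Same G x y → Z x → Z y := by
    intro x y h h'
    rw [hZ] at h' ⊢
    rwa [← S.len_eq h]
  have key := S.om_touch (P := P) hG hK hd hsat (fun x hx => (hZ x).2 (hl x hx)) lam
  have e1 : ∑ x ∈ (S.opn P G).filter Z, sh lam (S.len G x) = (((S.opn P G).filter Z).card : ℝ) := by
    rw [sum_congr rfl (g := fun _ => (1 : ℝ)), sum_const, nsmul_eq_mul, mul_one]
    intro x hx
    obtain ⟨hx1, hx2⟩ := mem_filter.1 hx
    rw [mem_opn] at hx1
    refine sh_one ?_ ((hZ x).1 hx2).le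
    exact card_pos.2 ⟨x, S.mem_comp.2 ⟨hx1.2, S.same_refl _ _⟩⟩
  have e2 : ∑ x ∈ (S.opn P (G ∪ K)).filter Z, sh lam (S.len (G ∪ K) x) ≤ (((S.opn P G).filter Z).card : ℝ) := by
    refine le_trans (S.om_sum_le lam (G ∪ K) _) ?_
    refine Nat.cast_le.2 (card_le_card ?_)
    intro x hx
    obtain ⟨hx1, hx2⟩ := mem_filter.1 hx
    rw [mem_opn] at hx1
    exact mem_filter.2 ⟨S.mem_opn.2 ⟨hx1.1, fun h => hx1.2 (mem_union_left _ h)⟩, hx2⟩
  linarith

open Classical in
theorem om_round {G K : Finset D} {P : Finset V} (hG : S.Closed G) (hK : S.Closed K) (hd : Disjoint G K)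
    {Z : D → Prop} (hZ : ∀ x y, S.Same G x y → Z x → Z y) (hKZ : ∀ x ∈ K, Z x) {B : ℕ}
    (hB : (univ.filter fun y => y ∉ G ∧ Z y).card ≤ B) (lam : ℕ) :
    S.om lam P (G ∪ K) ≤ S.om lam P G + B := by
  have key := S.om_touch (P := P) hG hK hd hZ hKZ lam
  have e1 := S.om_sum_nonneg lam G ((S.opn P G).filter Z)
  have e2 : ∑ x ∈ (S.opn P (G ∪ K)).filter Z, sh lam (S.len (G ∪ K) x) ≤ (B : ℝ) := by
    refine le_trans (S.om_sum_le lam (G ∪ K) _) ?_
    refine Nat.cast_le.2 (le_trans (card_le_card ?_) hB)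
    intro x hx
    obtain ⟨hx1, hx2⟩ := mem_filter.1 hx
    rw [mem_opn] at hx1
    exact mem_filter.2 ⟨mem_univ _, fun h => hx1.2 (mem_union_left _ h), hx2⟩
  linarith

open Classical in
theorem touch_len_le {L : ℕ} {G K : Finset D} (hG : S.Closed G) (hK : S.Closed K) (hd : Disjoint G K)
    {Z : D → Prop} (hZ : ∀ x y, S.Same G x y → Z x → Z y) (hKZ : ∀ x ∈ K, Z x)
    (hL : ∀ z, S.len G z ≤ L) (hZL : (univ.filter fun y => y ∉ G ∧ Z y).card ≤ L) (z : D) :
    S.len (G ∪ K) z ≤ L := by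
  by_cases hz : Z z
  · refine (S.touch_len hG hK hd hZ hKZ hz).trans (le_trans (card_le_card ?_) hZL)
    intro x hx
    obtain ⟨_, hx1, hx2⟩ := mem_filter.1 hx
    exact mem_filter.2 ⟨mem_univ _, fun h => hx1 (mem_union_left _ h), hx2⟩
  · have e := S.touch_comp hG hK hd hZ hKZ hz
    have : S.len (G ∪ K) z = S.len G z := by
      unfold len
      rw [e]
    rw [this]
    exact hL z

theorem om_batch (lam : ℕ) (P X : Finset V) (G : Finset D) :
    S.om lam (P ∪ X) G ≤ S.om lam P G + S.d * X.card := by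
  have hsub : S.opn (P ∪ X) G ⊆ S.opn P G ∪ univ.filter (fun x => S.τ x ∈ X) := by
    intro x hx
    rw [mem_opn, mem_union] at hx
    rcases hx.1 with h | h
    · exact mem_union_left _ (S.mem_opn.2 ⟨h, hx.2⟩)
    · exact mem_union_right _ (mem_filter.2 ⟨mem_univ _, h⟩)
  have h1 : S.om lam (P ∪ X) G ≤ ∑ x ∈ S.opn P G ∪ univ.filter (fun x => S.τ x ∈ X), sh lam (S.len G x) := by
    unfold om
    exact sum_le_sum_of_subset_of_nonneg hsub fun _ _ _ => sh_nonneg lam _
  have h2 : ∑ x ∈ S.opn P G ∪ univ.filter (fun x => S.τ x ∈ X), sh lam (S.len G x)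
      ≤ ∑ x ∈ S.opn P G, sh lam (S.len G x) + ∑ x ∈ univ.filter (fun x => S.τ x ∈ X), sh lam (S.len G x) := by
    rw [← sum_union_inter]
    exact le_add_of_nonneg_right (S.om_sum_nonneg lam G _)
  have h3 : ∑ x ∈ univ.filter (fun x => S.τ x ∈ X), sh lam (S.len G x) ≤ (S.d : ℝ) * X.card := by
    refine le_trans (S.om_sum_le lam G _) ?_
    have hc : (univ.filter (fun x => S.τ x ∈ X)).card ≤ S.d * X.card := by
      have hb : univ.filter (fun x => S.τ x ∈ X) = X.biUnion (fun v => univ.filter (fun x => S.τ x = v)) := by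
        ext x
        simp only [mem_filter, mem_univ, true_and, mem_biUnion]
        constructor
        · intro h
          exact ⟨S.τ x, h, rfl⟩
        · rintro ⟨v, hv, h⟩
          rw [h]
          exact hv
      rw [hb]
      refine le_trans card_biUnion_le ?_
      refine le_trans (sum_le_card_nsmul X _ S.d fun v _ => S.deg v) ?_
      rw [smul_eq_mul, mul_comm]
    exact_mod_cast hc
  have h4 : S.om lam P G = ∑ x ∈ S.opn P G, sh lam (S.len G x) := rfl
  linarith

end Surf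

end Pool.Agent.DSW
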