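import Pool.Agent.DSW.Def

/-!
# Two good open elements on a long cycle (helper13)

Pure combinatorics of permutations.

`window`: let `J` be a finite set of natural numbers with `a + n ≤ |J|`.  Then the elements of `J` with ranks
`a, …, a+n-1` form a set `W ⊆ J` with `n` elements, where the rank of `w` is `#{j ∈ J | j < w}` (use
`Finset.orderEmbOfFin`, or induction).

`ports`: let `p > 0` be the period of `z0` (the least `p > 0` with `σ^p z0 = z0`; it exists since `σ` has finite
order) and `J = {j < p | σ^j z0 ∈ O}`.  `j ↦ σ^j z0` is a bijection from `{0,…,p-1}` to the cycle of `z0`, so `|J|` is the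
number of open elements of the cycle, `|J| > 8λ`.
Window `W0` (ranks `0 … λ-1`): as `ν < λ` it contains `j0` such that `x = σ^j0 z0` is good.  Window `W1` (ranks
`4λ … 5λ-1`): at most `ν` elements are not good and at most `β` are good with `hub = hub x`; as `ν + β < λ` it contains
`j1` such that `y = σ^j1 z0` is good with `hub y ≠ hub x`.  Here `j0 < j1` (ranks), put `m = j1 - j0`, `0 < m < p`.
`Cut σ x y m p`: `σ^m x = y`, `σ^p x = x` and `p` is the period of `x` too (`σ^j x = x ↔ σ^j z0 = z0`).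
Open elements at the powers `(0, m)` of `x`: these are `σ^j z0` with `j ∈ J`, `j0 < j < j1`:
`#{j ∈ J | j < j1} - #{j ∈ J | j ≤ j0} ≥ 4λ - λ = 3λ` (`#{j ∈ J | j ≤ j0} ≤ λ`).
Open elements at the powers `(m, p)` of `x`: `σ^(j0+i) z0` for `m < i < p`; this contains the elements `σ^j z0` with
`j ∈ J`, `j1 < j < p` (`i = j - j0`; `i < p`): at least `8λ + 1 - (5λ - 1 + 1) = 3λ + 1` elements.
-/

set_option autoImplicit false

namespace Pool.Agent.DSW

open Equiv Finset

private theorem rank_orderEmb (J : Finset ℕ) (i : Fin J.card) :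
    (J.filter fun j => j < J.orderEmbOfFin rfl i).card = i.1 := by
  have h : (J.filter fun j => j < J.orderEmbOfFin rfl i) =
      (univ.filter fun k : Fin J.card => k < i).map (J.orderEmbOfFin rfl).toEmbedding := by
    ext j
    simp only [mem_filter, mem_map, mem_univ, true_and]
    constructor
    · rintro ⟨hj, hlt⟩
      have hr : j ∈ Set.range (J.orderEmbOfFin rfl) := by
        rw [Finset.range_orderEmbOfFin]; exact hj
      obtain ⟨k, hk⟩ := hr
      refine ⟨k, ?_, hk⟩
      rw [← hk] at hlt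
      exact (J.orderEmbOfFin rfl).lt_iff_lt.mp hlt
    · rintro ⟨k, hk, rfl⟩
      refine ⟨Finset.orderEmbOfFin_mem J rfl k, ?_⟩
      exact (J.orderEmbOfFin rfl).lt_iff_lt.mpr hk
  rw [h, card_map]
  have : (univ.filter fun k : Fin J.card => k < i) = Finset.Iio i := by
    ext k; simp
  rw [this, Fin.card_Iio]

theorem window (J : Finset ℕ) (a n : ℕ) (h : a + n ≤ J.card) :
    ∃ W : Finset ℕ, W ⊆ J ∧ W.card = n ∧
      ∀ w ∈ W, a ≤ (J.filter fun j => j < w).card ∧ (J.filter fun j => j < w).card < a + n := by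
  classical
  refine ⟨(univ : Finset (Fin n)).map ⟨fun k => J.orderEmbOfFin rfl ⟨a + k.1, by have := k.2; omega⟩, ?_⟩, ?_, ?_, ?_⟩
  · intro k l hkl
    have := (J.orderEmbOfFin rfl).injective hkl
    have h2 : a + k.1 = a + l.1 := by simpa using this
    exact Fin.ext (by omega)
  · intro w hw
    simp only [mem_map, mem_univ, true_and, Function.Embedding.coeFn_mk] at hw
    obtain ⟨k, rfl⟩ := hw
    exact Finset.orderEmbOfFin_mem J rfl _
  · simp
  · intro w hw
    simp only [mem_map, mem_univ, true_and, Function.Embedding.coeFn_mk] at hw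
    obtain ⟨k, rfl⟩ := hw
    rw [rank_orderEmb]
    have := k.2
    constructor <;> simp

open Classical in
theorem ports {D H : Type} [Fintype D] [DecidableEq D] (σ : Perm D) (O : Finset D) (z0 : D) (good : D → Prop)
    (hub : D → H) {lam ν β : ℕ}
    (h8 : 8 * lam < (univ.filter fun y => y ∈ O ∧ σ.SameCycle z0 y).card)
    (hbad : (univ.filter fun y => (y ∈ O ∧ σ.SameCycle z0 y) ∧ ¬ good y).card ≤ ν)
    (hhub : ∀ i, (univ.filter fun y => good y ∧ hub y = i).card ≤ β) (hν : ν + β < lam) :
    ∃ (x y : D) (m p : ℕ), x ∈ O ∧ y ∈ O ∧ σ.SameCycle z0 x ∧ good x ∧ good y ∧ hub x ≠ hub y ∧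
      Cut σ x y m p ∧ 3 * lam ≤ ((Ioo 0 m).filter fun j => (σ ^ j) x ∈ O).card ∧
      3 * lam ≤ ((Ioo m p).filter fun j => (σ ^ j) x ∈ O).card := by
  have hex : ∃ p : ℕ, 0 < p ∧ (σ ^ p) z0 = z0 :=
    ⟨orderOf σ, orderOf_pos σ, by rw [pow_orderOf_eq_one]; rfl⟩
  set p := Nat.find hex with hp
  have hp0 : 0 < p := (Nat.find_spec hex).1
  have hpz : (σ ^ p) z0 = z0 := (Nat.find_spec hex).2
  have hpmin : ∀ j, 0 < j → j < p → (σ ^ j) z0 ≠ z0 := fun j hj hjp h =>
    Nat.find_min hex hjp ⟨hj, h⟩
  have hinj : ∀ i j, i < p → j < p → (σ ^ i) z0 = (σ ^ j) z0 → i = j := by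
    have key : ∀ i j, i < j → j < p → (σ ^ i) z0 ≠ (σ ^ j) z0 := by
      intro i j hij hj h
      apply hpmin (j - i) (by omega) (by omega)
      have h1 : (σ ^ j) z0 = (σ ^ i) ((σ ^ (j - i)) z0) := by
        rw [← Perm.mul_apply, ← pow_add]; congr 2; omega
      rw [h1] at h
      exact ((σ ^ i).injective h).symm
    intro i j hi hj h
    rcases lt_trichotomy i j with h1 | h1 | h1
    · exact absurd h (key i j h1 hj)
    · exact h1
    · exact absurd h.symm (key j i h1 hi)
  have hpk : ∀ k : ℕ, (σ ^ (p * k)) z0 = z0 := by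
    intro k
    induction k with
    | zero => simp
    | succ k ih => rw [Nat.mul_succ, pow_add, Perm.mul_apply, hpz, ih]
  set J : Finset ℕ := (range p).filter fun j => (σ ^ j) z0 ∈ O with hJ
  have hJc : (univ.filter fun y => y ∈ O ∧ σ.SameCycle z0 y).card ≤ J.card := by
    have hsub : (univ.filter fun y => y ∈ O ∧ σ.SameCycle z0 y) ⊆ J.image fun j => (σ ^ j) z0 := by
      intro y hy
      simp only [mem_filter, mem_univ, true_and] at hy
      obtain ⟨hyO, hs⟩ := hy
      obtain ⟨i, hi⟩ := hs.exists_nat_pow_eq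
      have hmod : (σ ^ (i % p)) z0 = y := by
        rw [← hi]
        conv_rhs => rw [← Nat.mod_add_div i p, pow_add, Perm.mul_apply, hpk]
      rw [mem_image]
      refine ⟨i % p, ?_, hmod⟩
      rw [hJ, mem_filter, mem_range, hmod]
      exact ⟨Nat.mod_lt _ hp0, hyO⟩
    exact (card_le_card hsub).trans card_image_le
  have hJ8 : 8 * lam < J.card := lt_of_lt_of_le h8 hJc
  have hJmem : ∀ j ∈ J, j < p ∧ (σ ^ j) z0 ∈ O := by
    intro j hj
    rw [hJ, mem_filter, mem_range] at hj
    exact hj
  clear_value J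
  have hsc : ∀ j : ℕ, σ.SameCycle z0 ((σ ^ j) z0) := fun j => ⟨j, by simp⟩
  -- pigeonhole helper
  have hbadW : ∀ W : Finset ℕ, W ⊆ J → (W.filter fun j => ¬ good ((σ ^ j) z0)).card ≤ ν := by
    intro W hW
    refine le_trans ?_ hbad
    apply card_le_card_of_injOn (fun j => (σ ^ j) z0)
    · intro j hj
      simp only [coe_filter, Set.mem_ofPred_eq] at hj
      simp only [coe_filter, mem_univ, true_and, Set.mem_ofPred_eq]
      exact ⟨⟨(hJmem j (hW hj.1)).2, hsc j⟩, hj.2⟩
    · intro i hi j hj h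
      simp only [coe_filter, Set.mem_ofPred_eq] at hi hj
      exact hinj i j (hJmem i (hW hi.1)).1 (hJmem j (hW hj.1)).1 h
  have hhubW : ∀ (W : Finset ℕ) (i : H), W ⊆ J →
      (W.filter fun j => good ((σ ^ j) z0) ∧ hub ((σ ^ j) z0) = i).card ≤ β := by
    intro W i hW
    refine le_trans ?_ (hhub i)
    apply card_le_card_of_injOn (fun j => (σ ^ j) z0)
    · intro j hj
      simp only [coe_filter, Set.mem_ofPred_eq] at hj
      simp only [coe_filter, mem_univ, true_and, Set.mem_ofPred_eq]
      exact hj.2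
    · intro i hi j hj h
      simp only [coe_filter, Set.mem_ofPred_eq] at hi hj
      exact hinj i j (hJmem i (hW hi.1)).1 (hJmem j (hW hj.1)).1 h
  obtain ⟨W0, hW0J, hW0c, hW0r⟩ := window J 0 lam (by omega)
  obtain ⟨W1, hW1J, hW1c, hW1r⟩ := window J (4 * lam) lam (by omega)
  have h0 : ∃ j0 ∈ W0, good ((σ ^ j0) z0) := by
    by_contra hcon
    push Not at hcon
    have : (W0.filter fun j => ¬ good ((σ ^ j) z0)) = W0 := by
      rw [filter_eq_self]; exact hcon
    have h2 := hbadW W0 hW0J
    rw [this, hW0c] at h2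
    omega
  obtain ⟨j0, hj0W, hj0g⟩ := h0
  have h1 : ∃ j1 ∈ W1, good ((σ ^ j1) z0) ∧ hub ((σ ^ j1) z0) ≠ hub ((σ ^ j0) z0) := by
    by_contra hcon
    push Not at hcon
    have hsub : W1 ⊆ (W1.filter fun j => ¬ good ((σ ^ j) z0)) ∪
        (W1.filter fun j => good ((σ ^ j) z0) ∧ hub ((σ ^ j) z0) = hub ((σ ^ j0) z0)) := by
      intro j hj
      rw [mem_union, mem_filter, mem_filter]
      by_cases hg : good ((σ ^ j) z0)
      · exact Or.inr ⟨hj, hg, hcon j hj hg⟩
      · exact Or.inl ⟨hj, hg⟩
    have h2 := card_le_card hsub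
    have h3 := card_union_le (W1.filter fun j => ¬ good ((σ ^ j) z0))
        (W1.filter fun j => good ((σ ^ j) z0) ∧ hub ((σ ^ j) z0) = hub ((σ ^ j0) z0))
    have h4 := hbadW W1 hW1J
    have h5 := hhubW W1 (hub ((σ ^ j0) z0)) hW1J
    omega
  obtain ⟨j1, hj1W, hj1g, hj1h⟩ := h1
  have r0 := hW0r j0 hj0W
  have r1 := hW1r j1 hj1W
  have hj0J := hW0J hj0W
  have hj1J := hW1J hj1W
  have hj0p := (hJmem j0 hj0J).1
  have hj1p := (hJmem j1 hj1J).1
  have hlt : j0 < j1 := by
    by_contra hcon
    push Not at hcon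
    have : (J.filter fun j => j < j1).card ≤ (J.filter fun j => j < j0).card := by
      apply card_le_card
      intro j hj
      rw [mem_filter] at hj ⊢
      exact ⟨hj.1, lt_of_lt_of_le hj.2 hcon⟩
    omega
  have hle0 : (J.filter fun j => j ≤ j0).card ≤ lam := by
    have : (J.filter fun j => j ≤ j0) ⊆ insert j0 (J.filter fun j => j < j0) := by
      intro j hj
      rw [mem_filter] at hj
      rw [mem_insert, mem_filter]
      rcases Nat.lt_or_ge j j0 with h | h
      · exact Or.inr ⟨hj.1, h⟩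
      · exact Or.inl (le_antisymm hj.2 h)
    have h2 := card_le_card this
    have h3 := card_insert_le j0 (J.filter fun j => j < j0)
    omega
  have hle1 : (J.filter fun j => j ≤ j1).card ≤ 5 * lam := by
    have : (J.filter fun j => j ≤ j1) ⊆ insert j1 (J.filter fun j => j < j1) := by
      intro j hj
      rw [mem_filter] at hj
      rw [mem_insert, mem_filter]
      rcases Nat.lt_or_ge j j1 with h | h
      · exact Or.inr ⟨hj.1, h⟩
      · exact Or.inl (le_antisymm hj.2 h)
    have h2 := card_le_card this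
    have h3 := card_insert_le j1 (J.filter fun j => j < j1)
    omega
  have hshift : ∀ j, j0 ≤ j → (σ ^ (j - j0)) ((σ ^ j0) z0) = (σ ^ j) z0 := by
    intro j hj
    rw [← Perm.mul_apply, ← pow_add]; congr 2; omega
  refine ⟨(σ ^ j0) z0, (σ ^ j1) z0, j1 - j0, p, (hJmem j0 hj0J).2, (hJmem j1 hj1J).2, hsc j0, hj0g, hj1g,
    fun h => hj1h h.symm, ⟨by omega, by omega, hshift j1 hlt.le, ?_, ?_⟩, ?_, ?_⟩
  · rw [← Perm.mul_apply, ← pow_add, add_comm, pow_add, Perm.mul_apply, hpz]
  · intro j hj hjp h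
    apply hpmin j hj hjp
    rw [← Perm.mul_apply, ← pow_add, add_comm, pow_add, Perm.mul_apply] at h
    exact (σ ^ j0).injective h
  · have hA : (J.filter fun j => j < j1) ⊆ (J.filter fun j => j ≤ j0) ∪ (J.filter fun j => j0 < j ∧ j < j1) := by
      intro j hj
      rw [mem_filter] at hj
      rw [mem_union, mem_filter, mem_filter]
      rcases Nat.lt_or_ge j0 j with h | h
      · exact Or.inr ⟨hj.1, h, hj.2⟩
      · exact Or.inl ⟨hj.1, h⟩
    have h2 := card_le_card hA
    have h3 := card_union_le (J.filter fun j => j ≤ j0) (J.filter fun j => j0 < j ∧ j < j1)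
    have h4 : (J.filter fun j => j0 < j ∧ j < j1).card ≤
        ((Ioo 0 (j1 - j0)).filter fun j => (σ ^ j) ((σ ^ j0) z0) ∈ O).card := by
      apply card_le_card_of_injOn (fun j => j - j0)
      · intro j hj
        simp only [coe_filter, Set.mem_ofPred_eq] at hj
        simp only [coe_filter, mem_Ioo, Set.mem_ofPred_eq]
        refine ⟨⟨by omega, by omega⟩, ?_⟩
        rw [hshift j hj.2.1.le]
        exact (hJmem j hj.1).2
      · intro i hi j hj h
        simp only [coe_filter, Set.mem_ofPred_eq] at hi hj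
        have h' : i - j0 = j - j0 := h
        omega
    omega
  · have hA : J ⊆ (J.filter fun j => j ≤ j1) ∪ (J.filter fun j => j1 < j) := by
      intro j hj
      rw [mem_union, mem_filter, mem_filter]
      rcases Nat.lt_or_ge j1 j with h | h
      · exact Or.inr ⟨hj, h⟩
      · exact Or.inl ⟨hj, h⟩
    have h2 := card_le_card hA
    have h3 := card_union_le (J.filter fun j => j ≤ j1) (J.filter fun j => j1 < j)
    have h4 : (J.filter fun j => j1 < j).card ≤
        ((Ioo (j1 - j0) p).filter fun j => (σ ^ j) ((σ ^ j0) z0) ∈ O).card := by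
      apply card_le_card_of_injOn (fun j => j - j0)
      · intro j hj
        simp only [coe_filter, Set.mem_ofPred_eq] at hj
        have hjp := (hJmem j hj.1).1
        simp only [coe_filter, mem_Ioo, Set.mem_ofPred_eq]
        refine ⟨⟨by omega, by omega⟩, ?_⟩
        rw [hshift j (by omega)]
        exact (hJmem j hj.1).2
      · intro i hi j hj h
        simp only [coe_filter, Set.mem_ofPred_eq] at hi hj
        have h' : i - j0 = j - j0 := h
        omega
    omega

end Pool.Agent.DSW
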