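import Pool.Agent.DSW.Inv
import Pool.Agent.DSW.MoveS
import Pool.Agent.DSW.MoveA

/-!
# Strand, absorb and small steps keep the invariants and lower the measure (helper13)

Put `p0 = 2 d k0`, `Ω = om s`, `pn = |pend|`.

`step_strand`: `move_strand` (its numerical hypothesis is `inv_num`): `pn' ≤ pn + p0`, `Ω' + λ ≤ Ω`, `|U'| ≤ |U| + 2`,
`P0' = P0`.  `j1`: `pn' + (p0/λ) Ω' ≤ pn + p0 + (p0/λ)(Ω - λ) = pn + (p0/λ) Ω`.  `j2`: `|U'| + 2 Ω'/λ ≤ |U| + 2 + 2 Ω/λ - 2`, the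
bracket does not grow by the same computation.  Measure: `Ω'/λ ≤ Ω/λ - 1`, so `⌊Ω'/λ⌋ + 1 ≤ ⌊Ω/λ⌋`
(`Nat.floor_add_one`/`Nat.floor_le_floor`, `Ω' ≥ 0`), and `mu' ≤ pn + p0 + (p0 + 1)(⌊Ω/λ⌋ - 1) + … = mu - 1`.

`step_absorb`, `step_small`: `pn' < pn`, `Ω' ≤ Ω`, `U' = U`, `P0' = P0`: everything is monotone.
-/

set_option autoImplicit false

namespace Pool.Agent.DSW

open Equiv Finset

namespace Surf

variable {D V : Type} [Fintype D] [DecidableEq D] [Fintype V] [DecidableEq V] {S : Surf D V}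
variable {lam k0 bet : ℕ} {N : S.Net lam k0 bet} {Q R B : ℕ} {Um : ℝ} {s : State D V}

private theorem runA_inv (hN : S.Num N Q R B Um) (hI : S.Inv N Q R B Um s) {s' : State D V}
    (hok : S.Ok N s') (hP0 : s'.P0 = s.P0)
    (h1 : ((S.pend N.c s'.P s'.G).card : ℝ) + 2 * S.d * k0 / lam * S.om lam s'.P s'.G
      ≤ (S.pend N.c s.P s.G).card + 2 * S.d * k0 / lam * S.om lam s.P s.G)
    (h2 : (s'.U.card : ℝ) + 2 * S.om lam s'.P s'.G / lam ≤ s.U.card + 2 * S.om lam s.P s.G / lam) :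
    S.Inv N Q R B Um s' := by
  refine ⟨hok, h1.trans hI.j1, ?_⟩
  have h3 := hI.j2
  rw [hP0]
  have hR : (0 : ℝ) ≤ 64 * (Q : ℝ) ^ 2 / R := by positivity
  have h4 := mul_le_mul_of_nonneg_left (add_le_add_left h1 (4 * S.d * ((N.ter \ s.P0).card : ℝ))) hR
  linarith

private theorem runA_mono (hN : S.Num N Q R B Um) (hI : S.Inv N Q R B Um s) {s' : State D V}
    (hok : S.Ok N s') (hP0 : s'.P0 = s.P0) (hU : s'.U = s.U)
    (h1 : (S.pend N.c s'.P s'.G).card < (S.pend N.c s.P s.G).card)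
    (h2 : S.om lam s'.P s'.G ≤ S.om lam s.P s.G) :
    S.Inv N Q R B Um s' ∧ S.mu N s' < S.mu N s := by
  have hl : (0 : ℝ) < lam := by exact_mod_cast hN.h0
  have hc : (0 : ℝ) ≤ 2 * S.d * k0 / lam := by positivity
  refine ⟨runA_inv hN hI hok hP0 ?_ ?_, ?_⟩
  · have h3 : ((S.pend N.c s'.P s'.G).card : ℝ) ≤ (S.pend N.c s.P s.G).card := by
      exact_mod_cast h1.le
    have h4 := mul_le_mul_of_nonneg_left h2 hc
    linarith
  · rw [hU]
    have h3 : 2 * S.om lam s'.P s'.G / lam ≤ 2 * S.om lam s.P s.G / lam :=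
      div_le_div_of_nonneg_right (by linarith) hl.le
    linarith
  · unfold mu
    rw [hP0]
    have h3 : ⌊S.om lam s'.P s'.G / lam⌋₊ ≤ ⌊S.om lam s.P s.G / lam⌋₊ :=
      Nat.floor_le_floor (div_le_div_of_nonneg_right h2 hl.le)
    have h4 := Nat.mul_le_mul_left (2 * S.d * k0 + 1) h3
    omega

theorem step_strand (hN : S.Num N Q R B Um) (hI : S.Inv N Q R B Um s) {z0 : D} (hz : 8 * lam < S.len s.G z0) :
    ∃ s' : State D V, S.Inv N Q R B Um s' ∧ S.Reach (17 * lam) s.G s'.G ∧ S.mu N s' < S.mu N s := by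
  obtain ⟨s', hok, hr, hP0, hU, hpn, hom⟩ := move_strand hI.ok hz hN.hd hN.hdk (inv_num hN hI)
  have hl : (0 : ℝ) < lam := by exact_mod_cast hN.h0
  have hc : (0 : ℝ) ≤ 2 * S.d * k0 / lam := by positivity
  have hpn' : ((S.pend N.c s'.P s'.G).card : ℝ) ≤ (S.pend N.c s.P s.G).card + 2 * S.d * k0 := by
    exact_mod_cast hpn
  have hU' : (s'.U.card : ℝ) ≤ s.U.card + 2 := by exact_mod_cast hU
  have h0 : 0 ≤ S.om lam s'.P s'.G := S.om_nonneg lam s'.P s'.G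
  refine ⟨s', runA_inv hN hI hok hP0 ?_ ?_, hr, ?_⟩
  · have h4 := mul_le_mul_of_nonneg_left hom hc
    have h5 : (2 * S.d * k0 / lam : ℝ) * (S.om lam s'.P s'.G + lam) =
        2 * S.d * k0 / lam * S.om lam s'.P s'.G + 2 * S.d * k0 := by
      field_simp
    rw [h5] at h4
    linarith
  · have h3 : 2 * (S.om lam s'.P s'.G + lam) / lam ≤ 2 * S.om lam s.P s.G / lam :=
      div_le_div_of_nonneg_right (by linarith) hl.le
    have h4 : 2 * (S.om lam s'.P s'.G + lam) / lam = 2 * S.om lam s'.P s'.G / lam + 2 := by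
      field_simp
    rw [h4] at h3
    linarith
  · unfold mu
    rw [hP0]
    have h3 : ⌊S.om lam s'.P s'.G / lam⌋₊ + 1 ≤ ⌊S.om lam s.P s.G / lam⌋₊ := by
      rw [← Nat.floor_add_one (div_nonneg h0 hl.le)]
      apply Nat.floor_le_floor
      rw [div_add_one hl.ne']
      exact div_le_div_of_nonneg_right hom hl.le
    have h4 := Nat.mul_le_mul_left (2 * S.d * k0 + 1) h3
    rw [Nat.mul_add, Nat.mul_one] at h4
    omega

theorem step_absorb (hN : S.Num N Q R B Um) (hI : S.Inv N Q R B Um s) (h8 : ∀ z, S.len s.G z ≤ 8 * lam)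
    {x : D} (hx : x ∈ S.pend N.c s.P s.G) (hlen : S.len s.G x < lam) (hns : ¬ S.Same s.G x (S.a x)) :
    ∃ s' : State D V, S.Inv N Q R B Um s' ∧ S.Reach (17 * lam) s.G s'.G ∧ S.mu N s' < S.mu N s := by
  obtain ⟨s', hok, hr, hP0, hU, hpn, hom⟩ := move_absorb hI.ok h8 hx hlen hns
  obtain ⟨h1, h2⟩ := runA_mono hN hI hok hP0 hU (by omega) hom
  exact ⟨s', h1, hr, h2⟩

theorem step_small (hN : S.Num N Q R B Um) (hI : S.Inv N Q R B Um s) (h8 : ∀ z, S.len s.G z ≤ 8 * lam)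
    (hself : ∀ x ∈ S.pend N.c s.P s.G, S.len s.G x < lam → S.Same s.G x (S.a x))
    {x : D} (hx : x ∈ S.pend N.c s.P s.G) (hlen : S.len s.G x < lam) :
    ∃ s' : State D V, S.Inv N Q R B Um s' ∧ S.Reach (17 * lam) s.G s'.G ∧ S.mu N s' < S.mu N s := by
  obtain ⟨s', hok, hr, hP0, hU, hpn, hom⟩ := move_small hI.ok h8 hself hx hlen
  obtain ⟨h1, h2⟩ := runA_mono hN hI hok hP0 hU hpn hom
  exact ⟨s', h1, hr, h2⟩

end Surf

end Pool.Agent.DSW
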