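import Pool.Agent.DSW.SwapCyc
import Pool.Agent.DSW.Coarse

/-!
# Strands: the first `k` gluings (helper13)

A strand `e` of length `k` for the processed set `P` (`Surf.IsStrand`).  Write `v_l = τ (a (e l))` for `l < k`; so
`τ (e (l+1)) = v_l`, the `v_l` are distinct and not in `P`, and `τ (e 0) ∈ P`.

`strand_tau`: `e 0` is in `P`; for `0 < l ≤ k`: `τ (e l) = v_(l-1)`.
`strand_mem_iff`: for `z` with `τ z ∈ P`: `z ∈ strandSet m e ↔ 0 < m ∧ z = e 0` (`m ≤ k`): the sides `a (e l)` (`l < k`) and
`e l` (`0 < l`) have polygons `v_l`, `v_(l-1)`, not in `P`.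
`strand_fresh`: `e m ∉ G ∪ strandSet m e` for `m ≤ k`.  For `m = 0` this is `he`.  For `m > 0`: `τ (e m) = v_(m-1) ∉ P`, so
`e m ∉ G`.  If `e m = e i` with `i < m`: `i = 0` contradicts `τ (e 0) ∈ P`; `i > 0` gives `v_(i-1) = v_(m-1)`, contradiction to
`inj`.  If `e m = a (e i)` with `i < m`: `v_i = v_(m-1)`, so `i = m - 1` and `e m = a (e (m-1))` contradicts `turn`.
`strand_gP'`: all sides of `G ∪ strandSet m e` belong to polygons of `P ∪ strandVerts m e`, `m ≤ k`.
`tentacle`: induction on `m`.  `m = 0`: trivial.  Step: let `G1 = G ∪ strandSet m e`, `x = e m`, `y = a (e m)`, so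
`strandSet (m+1) e = strandSet m e ∪ {x, y}`, and by `phi_insert` (`x ∉ G1`, `strand_fresh`)
`phi (G1 ∪ {x, y}) = phi G1 * swap x y`.  With `P' = P ∪ strandVerts m e`: `τ y = v_m ∉ P'` (by `out` and `inj`) and
`τ x ∈ P'`.  So `¬ Same G1 x y` (`same_tau`), and `Same G1 y z` for all `z` with `τ z = v_m` (`same_out`).  `merge_same`
gives `Same G2 x z` whenever `Same G1 x z` or `Same G1 y z` (`G2 = G1 ∪ {x, y}`).  By the induction hypothesis
`Same G1 (e 0) x` (`m = 0`: reflexivity; `m > 0`: `τ x = v_(m-1)`).  Hence all `z` on the `G1`-cycle of `e 0` are on the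
`G2`-cycle of `x`, in particular `e 0` itself, and all `z` with `τ z = v_m` as well.
-/

set_option autoImplicit false

namespace Pool.Agent.DSW

open Equiv Finset

namespace Surf

variable {D V : Type} [Fintype D] [DecidableEq D] [Fintype V] [DecidableEq V] (S : Surf D V)

theorem strandSet_zero (e : ℕ → D) : S.strandSet 0 e = ∅ := by
  simp [strandSet]

theorem strandSet_succ (k : ℕ) (e : ℕ → D) :
    S.strandSet (k + 1) e = S.strandSet k e ∪ {e k, S.a (e k)} := by
  unfold strandSet
  rw [Finset.range_add_one, Finset.biUnion_insert, Finset.union_comm]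

theorem mem_strandSet {k : ℕ} {e : ℕ → D} {z : D} :
    z ∈ S.strandSet k e ↔ ∃ l < k, z = e l ∨ z = S.a (e l) := by
  simp [strandSet]

theorem closed_strandSet (k : ℕ) (e : ℕ → D) : S.Closed (S.strandSet k e) := by
  intro x hx
  rw [mem_strandSet] at hx ⊢
  obtain ⟨l, hl, h | h⟩ := hx
  · exact ⟨l, hl, Or.inr (by rw [h])⟩
  · exact ⟨l, hl, Or.inl (by rw [h, S.inv])⟩

theorem mem_strandVerts {k : ℕ} {e : ℕ → D} {v : V} :
    v ∈ S.strandVerts k e ↔ ∃ l < k, v = S.τ (S.a (e l)) := by
  simp only [strandVerts, mem_image, mem_range]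
  constructor
  · rintro ⟨l, hl, h⟩
    exact ⟨l, hl, h.symm⟩
  · rintro ⟨l, hl, h⟩
    exact ⟨l, hl, h.symm⟩

theorem strandVerts_succ (k : ℕ) (e : ℕ → D) :
    S.strandVerts (k + 1) e = S.strandVerts k e ∪ {S.τ (S.a (e k))} := by
  unfold strandVerts
  rw [Finset.range_add_one, Finset.image_insert, Finset.union_comm]
  rfl

theorem card_strandVerts_le (k : ℕ) (e : ℕ → D) : (S.strandVerts k e).card ≤ k := by
  unfold strandVerts
  exact (Finset.card_image_le).trans (by simp)

variable {S} {P : Finset V} {k : ℕ} {e : ℕ → D} {G : Finset D}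

theorem strand_tau (h : S.IsStrand P k e) {l : ℕ} (hl : l < k) : S.τ (e (l + 1)) ∈ S.strandVerts (l + 1) e := by
  exact S.mem_strandVerts.2 ⟨l, Nat.lt_succ_self l, h.next l hl⟩

theorem strand_mem_iff (h : S.IsStrand P k e) {m : ℕ} (hm : m ≤ k) {z : D} (hz : S.τ z ∈ P) :
    z ∈ S.strandSet m e ↔ 0 < m ∧ z = e 0 := by
  rw [mem_strandSet]
  constructor
  · rintro ⟨l, hl, h1 | h1⟩
    · rcases l with _ | l
      · exact ⟨hl, h1⟩
      · exfalso
        rw [h1, h.next l (by omega)] at hz
        exact h.out l (by omega) hz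
    · exfalso
      rw [h1] at hz
      exact h.out l (by omega) hz
  · rintro ⟨h0, h1⟩
    exact ⟨0, h0, Or.inl h1⟩

theorem strand_fresh (h : S.IsStrand P k e) (hP : ∀ x ∈ G, S.τ x ∈ P) (he : e 0 ∉ G) {m : ℕ} (hm : m ≤ k) :
    e m ∉ G ∪ S.strandSet m e := by
  rcases m with _ | m
  · rw [strandSet_zero, union_empty]
    exact he
  · rw [mem_union, not_or]
    constructor
    · intro hx
      have h1 := hP _ hx
      rw [h.next m (by omega)] at h1
      exact h.out m (by omega) h1
    · rw [mem_strandSet]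
      rintro ⟨l, hl, h1 | h1⟩
      · rcases l with _ | l
        · have h2 := h.start
          rw [← h1, h.next m (by omega)] at h2
          exact h.out m (by omega) h2
        · have h2 : S.τ (e (m + 1)) = S.τ (e (l + 1)) := by rw [h1]
          rw [h.next m (by omega), h.next l (by omega)] at h2
          have h3 := h.inj m (by omega) l (by omega) h2
          omega
      · have h2 : S.τ (e (m + 1)) = S.τ (S.a (e l)) := by rw [h1]
        rw [h.next m (by omega)] at h2
        have h3 := h.inj m (by omega) l (by omega) h2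
        subst h3
        exact h.turn m (by omega) h1

theorem strand_gP' (h : S.IsStrand P k e) (hP : ∀ x ∈ G, S.τ x ∈ P) {m : ℕ} (hm : m ≤ k) :
    ∀ x ∈ G ∪ S.strandSet m e, S.τ x ∈ P ∪ S.strandVerts m e := by
  intro x hx
  rw [mem_union] at hx
  rcases hx with hx | hx
  · exact mem_union_left _ (hP x hx)
  · rw [mem_strandSet] at hx
    obtain ⟨l, hl, h1 | h1⟩ := hx
    · rcases l with _ | l
      · rw [h1]
        exact mem_union_left _ h.start
      · rw [h1]
        exact mem_union_right _ (S.mem_strandVerts.2 ⟨l, by omega, h.next l (by omega)⟩)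
    · rw [h1]
      exact mem_union_right _ (S.mem_strandVerts.2 ⟨l, hl, rfl⟩)

theorem tentacle (h : S.IsStrand P k e) (hG : S.Closed G) (hP : ∀ x ∈ G, S.τ x ∈ P) (he : e 0 ∉ G) {m : ℕ}
    (hm : m ≤ k) : ∀ z, (S.Same G (e 0) z ∨ S.τ z ∈ S.strandVerts m e) →
      S.Same (G ∪ S.strandSet m e) (e 0) z := by
  induction m with
  | zero =>
    intro z hz
    rw [strandSet_zero, union_empty]
    rcases hz with hz | hz
    · exact hz
    · rw [mem_strandVerts] at hz
      obtain ⟨l, hl, _⟩ := hz
      omega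
  | succ m ih =>
    have ih' := ih (by omega)
    have hG1 : S.Closed (G ∪ S.strandSet m e) := S.closed_union hG (S.closed_strandSet m e)
    have hfresh := strand_fresh h hP he (show m ≤ k by omega)
    have hP1 := strand_gP' h hP (show m ≤ k by omega)
    have hphi : S.phi (G ∪ S.strandSet (m + 1) e) =
        S.phi (G ∪ S.strandSet m e) * swap (e m) (S.a (e m)) := by
      rw [strandSet_succ, ← Finset.union_assoc]
      exact S.phi_insert hG1 hfresh
    have hy : S.τ (S.a (e m)) ∉ P ∪ S.strandVerts m e := by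
      rw [mem_union, not_or]
      refine ⟨h.out m (by omega), ?_⟩
      rw [mem_strandVerts]
      rintro ⟨l, hl, h1⟩
      have := h.inj m (by omega) l (by omega) h1
      omega
    have hx : S.τ (e m) ∈ P ∪ S.strandVerts m e := by
      rcases m with _ | m
      · exact mem_union_left _ h.start
      · exact mem_union_right _ (strand_tau h (by omega))
    have hns : ¬ S.Same (G ∪ S.strandSet m e) (e m) (S.a (e m)) := by
      intro hs
      exact hy (S.same_tau hG1 hP1 hs hx)
    have h0m : S.Same (G ∪ S.strandSet m e) (e 0) (e m) := by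
      rcases m with _ | m
      · exact S.same_refl _ _
      · exact ih' _ (Or.inr (strand_tau h (by omega)))
    have key : ∀ z, (S.Same (G ∪ S.strandSet m e) (e m) z ∨
        S.Same (G ∪ S.strandSet m e) (S.a (e m)) z) →
        S.Same (G ∪ S.strandSet (m + 1) e) (e m) z := by
      intro z hz
      show (S.phi (G ∪ S.strandSet (m + 1) e)).SameCycle (e m) z
      rw [hphi]
      exact merge_same hns hz
    have h0 : S.Same (G ∪ S.strandSet (m + 1) e) (e 0) (e m) :=
      S.same_symm (key _ (Or.inl (S.same_symm h0m)))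
    intro z hz
    refine S.same_trans h0 (key z ?_)
    rw [strandVerts_succ, mem_union, mem_singleton] at hz
    rcases hz with hz | hz | hz
    · exact Or.inl (S.same_trans (S.same_symm h0m) (ih' z (Or.inl hz)))
    · exact Or.inl (S.same_trans (S.same_symm h0m) (ih' z (Or.inr hz)))
    · exact Or.inr ((S.same_out hG1 hP1 hy).2 hz)

end Surf

end Pool.Agent.DSW
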