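import Pool.Agent.DSW.GDef

/-!
# Lazy walks (helper13)

`walk_simple`: strong induction on `k`, or take a walk of the lazy type from `u` to `v` inside `A` with the least number
`k'` of steps: it has no lazy step (delete it) and no repeated vertex (cut out the part between the two visits).
-/

set_option autoImplicit false

namespace Pool.Agent.DSW

open Equiv Finset

namespace Surf

variable {D V : Type} [Fintype D] [DecidableEq D] [Fintype V] [DecidableEq V] {S : Surf D V}

theorem adj_symm {u v : V} (h : S.Adj u v) : S.Adj v u := by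
  obtain ⟨x, hx, hy⟩ := h
  exact ⟨S.a x, hy, by rw [S.inv x]; exact hx⟩

theorem walk_refl {A : Finset V} {u : V} (hu : u ∈ A) (k : ℕ) : S.Walk A k u u :=
  ⟨fun _ => u, rfl, rfl, fun _ _ => Or.inr rfl, fun _ _ => hu⟩

theorem walk_one {A : Finset V} {u v : V} (hu : u ∈ A) (hv : v ∈ A) (h : S.Adj u v ∨ u = v) : S.Walk A 1 u v := by
  refine ⟨fun l => if l = 0 then u else v, by simp, by simp, ?_, ?_⟩
  · intro l hl
    have : l = 0 := by omega
    subst this
    simpa using h
  · intro l _
    by_cases hl : l = 0
    · simpa [hl] using hu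
    · simpa [hl] using hv

theorem walk_len {A : Finset V} {k k' : ℕ} {u v : V} (h : S.Walk A k u v) (hk : k ≤ k') : S.Walk A k' u v := by
  obtain ⟨p, h0, h1, h2, h3⟩ := h
  refine ⟨fun l => p (min l k), by simpa using h0, by simpa [min_eq_right hk] using h1, ?_, ?_⟩
  · intro l _
    by_cases hl : l < k
    · have e1 : min l k = l := by omega
      have e2 : min (l + 1) k = l + 1 := by omega
      simp only [e1, e2]
      exact h2 l hl
    · have e1 : min l k = k := by omega
      have e2 : min (l + 1) k = k := by omega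
      simp only [e1, e2]
      exact Or.inr trivial
  · intro l _
    exact h3 _ (min_le_right _ _)

theorem walk_sub {A B : Finset V} {k : ℕ} {u v : V} (h : S.Walk A k u v) (hB : A ⊆ B) : S.Walk B k u v := by
  obtain ⟨p, h0, h1, h2, h3⟩ := h
  exact ⟨p, h0, h1, h2, fun l hl => hB (h3 l hl)⟩

theorem walk_symm {A : Finset V} {k : ℕ} {u v : V} (h : S.Walk A k u v) : S.Walk A k v u := by
  obtain ⟨p, h0, h1, h2, h3⟩ := h
  refine ⟨fun l => p (k - l), by simpa using h1, by simpa using h0, ?_, ?_⟩
  · intro l hl
    have e : k - l = (k - (l + 1)) + 1 := by omega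
    rcases h2 (k - (l + 1)) (by omega) with h | h
    · left
      show S.Adj (p (k - l)) (p (k - (l + 1)))
      rw [e]
      exact adj_symm h
    · right
      show p (k - l) = p (k - (l + 1))
      rw [e]
      exact h.symm
  · intro l _
    exact h3 _ (by omega)

theorem walk_trans {A : Finset V} {k l : ℕ} {u v w : V} (h : S.Walk A k u v) (h' : S.Walk A l v w) :
    S.Walk A (k + l) u w := by
  obtain ⟨p, h0, h1, h2, h3⟩ := h
  obtain ⟨q, g0, g1, g2, g3⟩ := h'
  refine ⟨fun j => if j ≤ k then p j else q (j - k), by simpa using h0, ?_, ?_, ?_⟩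
  · by_cases hl : l = 0
    · subst hl
      simp only [Nat.add_zero, le_refl, if_true]
      rw [h1, ← g1, g0]
    · have : ¬ (k + l ≤ k) := by omega
      simp only [this, if_false]
      rw [Nat.add_sub_cancel_left]
      exact g1
  · intro j hj
    by_cases h4 : j + 1 ≤ k
    · have h5 : j ≤ k := by omega
      simp only [h4, h5, if_true]
      exact h2 j (by omega)
    · by_cases h5 : j ≤ k
      · have h6 : j = k := by omega
        subst h6
        simp only [h4, le_refl, if_true, if_false]
        have : j + 1 - j = 0 + 1 := by omega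
        rw [this, h1, ← g0]
        exact g2 0 (by omega)
      · simp only [h4, h5, if_false]
        have : j + 1 - k = (j - k) + 1 := by omega
        rw [this]
        exact g2 (j - k) (by omega)
  · intro j hj
    by_cases h5 : j ≤ k
    · simp only [h5, if_true]
      exact h3 j h5
    · simp only [h5, if_false]
      exact g3 (j - k) (by omega)

theorem walk_left {A : Finset V} {k : ℕ} {u v : V} (h : S.Walk A k u v) : u ∈ A := by
  obtain ⟨p, h0, h1, h2, h3⟩ := h
  rw [← h0]
  exact h3 0 (Nat.zero_le _)

theorem walk_right {A : Finset V} {k : ℕ} {u v : V} (h : S.Walk A k u v) : v ∈ A := by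
  obtain ⟨p, h0, h1, h2, h3⟩ := h
  rw [← h1]
  exact h3 k le_rfl

/-- the last step of a walk. -/
theorem walk_last {A : Finset V} {k : ℕ} {u v : V} (h : S.Walk A (k + 1) u v) :
    ∃ w, S.Walk A k u w ∧ (S.Adj w v ∨ w = v) := by
  obtain ⟨p, h0, h1, h2, h3⟩ := h
  refine ⟨p k, ⟨p, h0, rfl, fun l hl => h2 l (by omega), fun l hl => h3 l (by omega)⟩, ?_⟩
  rw [← h1]
  exact h2 k (by omega)

/-- the vertices of the walk form a small set. -/
theorem walk_range {A : Finset V} {k : ℕ} {u v : V} (h : S.Walk A k u v) :
    ∃ M : Finset V, M ⊆ A ∧ M.card ≤ k + 1 ∧ S.Walk M k u v := by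
  obtain ⟨p, h0, h1, h2, h3⟩ := h
  refine ⟨(range (k + 1)).image p, ?_, ?_, p, h0, h1, h2, ?_⟩
  · intro x hx
    obtain ⟨l, hl, rfl⟩ := Finset.mem_image.1 hx
    exact h3 l (by have := Finset.mem_range.1 hl; omega)
  · exact Finset.card_image_le.trans (by simp)
  · intro l hl
    exact Finset.mem_image.2 ⟨l, Finset.mem_range.2 (by omega), rfl⟩

private theorem walk_cut {A : Finset V} {k : ℕ} {u v : V} {p : ℕ → V} (h0 : p 0 = u) (h1 : p k = v)
    (h2 : ∀ l < k, S.Adj (p l) (p (l + 1)) ∨ p l = p (l + 1)) (h3 : ∀ l ≤ k, p l ∈ A) {i j : ℕ} (hij : i < j)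
    (hj : j ≤ k) (he : p i = p j) : S.Walk A (k - (j - i)) u v := by
  refine ⟨fun l => if l ≤ i then p l else p (l + (j - i)), by simpa using h0, ?_, ?_, ?_⟩
  · by_cases h : k - (j - i) ≤ i
    · have e1 : k - (j - i) = i := by omega
      have e2 : j = k := by omega
      simp only [h, if_true]
      rw [e1, he, e2, h1]
    · simp only [h, if_false]
      have : k - (j - i) + (j - i) = k := by omega
      rw [this, h1]
  · intro l hl
    by_cases h4 : l + 1 ≤ i
    · have h5 : l ≤ i := by omega
      simp only [h4, h5, if_true]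
      exact h2 l (by omega)
    · by_cases h5 : l ≤ i
      · have h6 : l = i := by omega
        subst h6
        simp only [h4, le_refl, if_true, if_false]
        have : l + 1 + (j - l) = j + 1 := by omega
        rw [this, he]
        exact h2 j (by omega)
      · simp only [h4, h5, if_false]
        have : l + 1 + (j - i) = l + (j - i) + 1 := by omega
        rw [this]
        exact h2 (l + (j - i)) (by omega)
  · intro l hl
    by_cases h5 : l ≤ i
    · simp only [h5, if_true]
      exact h3 l (by omega)
    · simp only [h5, if_false]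
      exact h3 _ (by omega)

theorem walk_simple {A : Finset V} {k : ℕ} {u v : V} (h : S.Walk A k u v) :
    ∃ (k' : ℕ) (p : ℕ → V), k' ≤ k ∧ p 0 = u ∧ p k' = v ∧ (∀ l < k', S.Adj (p l) (p (l + 1))) ∧
      (∀ l ≤ k', ∀ l' ≤ k', p l = p l' → l = l') ∧ ∀ l ≤ k', p l ∈ A := by
  induction k using Nat.strong_induction_on with
  | _ k ih =>
    obtain ⟨p, h0, h1, h2, h3⟩ := h
    by_cases hc : ∃ i j, i < j ∧ j ≤ k ∧ p i = p j
    · obtain ⟨i, j, hij, hj, he⟩ := hc
      obtain ⟨k', q, hk', hq⟩ := ih (k - (j - i)) (by omega) (walk_cut h0 h1 h2 h3 hij hj he)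
      exact ⟨k', q, by omega, hq⟩
    · have hinj : ∀ i j, i < j → j ≤ k → p i ≠ p j := fun i j h4 h5 h6 => hc ⟨i, j, h4, h5, h6⟩
      refine ⟨k, p, le_rfl, h0, h1, ?_, ?_, h3⟩
      · intro l hl
        rcases h2 l hl with h | h
        · exact h
        · exact absurd h (hinj l (l + 1) (by omega) (by omega))
      · intro l hl l' hl' he
        rcases lt_trichotomy l l' with h | h | h
        · exact absurd he (hinj l l' h hl')
        · exact h
        · exact absurd he.symm (hinj l' l h hl)

end Surf

end Pool.Agent.DSW
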